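import Mathlib
import Pool.Graph.R_seed8.Y965.SI.St1
import Pool.Graph.R_seed8.H499R2.CO.R2

/-!
PROJECT LN (MP_d02c56_nt): a law of large numbers for Collatz-invariant sets.
Common definitions and the precise statements of the jobs (`S_* : Prop`).
`d = 1` or `d = -1`; `T = Tz d` is the map `x ↦ x/2`, `(3x+d)/2`; `InvF d f` : `|f| ≤ 1`, `f (T x) = f x`.
-/

set_option autoImplicit false

namespace Pool.Agent.KS6_24.LN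

open Pool.Agent.H499R2.CO Pool.Agent.Y965.SI Finset

/-- `log 2 - (log 3) / 2` -/
noncomputable def gm : ℝ := Real.log 2 - Real.log 3 / 2

/-- number of odd terms among `x, T x, ..., T^(t-1) x` -/
def od (d : ℤ) : ℕ → ℤ → ℕ
  | 0, _ => 0
  | t + 1, x => (if x % 2 = 1 then 1 else 0) + od d t (Tz d x)

/-- mean over the residues mod `2 ^ t` -/
noncomputable def pm (t : ℕ) (F : ℤ → ℝ) : ℝ := (∑ x ∈ range (2 ^ t), F (x : ℕ)) / 2 ^ t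

/-- mean over `[V, 2V]` -/
noncomputable def av (V : ℝ) (F : ℝ → ℝ) : ℝ := (∫ y in V..2 * V, F y) / V

/-- `2 ^ t`-periodic -/
def Per (t : ℕ) (F : ℤ → ℝ) : Prop := ∀ x m : ℤ, F (x + m * 2 ^ t) = F x

/-! ### J3, window law -/

/-- WINDOW LAW.  In every window of length `≥ e^(γ t + 40 k)` the pair (number of odd steps among the
first `t`, position after `t` steps mod `2 ^ Λ`) has almost the same law as over a full period. -/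
def S_TV (d : ℤ) : Prop := ∃ C : ℝ, 0 < C ∧ ∀ t k Λ : ℕ, C ≤ k → Λ ≤ k →
  ∀ Ψ : ℕ → ℤ → ℝ, (∀ a x, |Ψ a x| ≤ 1) → (∀ a, Per Λ (Ψ a)) →
  ∀ (x : ℤ) (l : ℕ), gm * t + 40 * k ≤ Real.log l →
    |(∑ i ∈ range l, Ψ (od d t (x + (i : ℕ))) ((Tz d)^[t] (x + (i : ℕ)))) / l
      - pm (t + Λ) (fun y => Ψ (od d t y) ((Tz d)^[t] y))| ≤ C * ((t + k : ℝ) ^ 3 / (k : ℝ) ^ 4)

/-! ### two walkers -/

/-- TWO WALKERS.  Smooth functions of the numbers of odd steps of `y` and `y + h` are uncorrelated for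
most `h < l`. -/
def S_TW (d : ℤ) : Prop := ∃ C : ℝ, 0 < C ∧ ∀ t k Λ l : ℕ, C ≤ k → 1 ≤ Λ → Λ ≤ k →
  gm * t + 40 * k ≤ Real.log l →
  ∀ (φ ψ : ℕ → ℝ) (δ₁ δ₂ : ℝ), (∀ a, |φ (a + 1) - φ a| ≤ δ₁) → (∀ a, |ψ (a + 1) - ψ a| ≤ δ₁) →
    (∀ a, |φ (a + 2) - 2 * φ (a + 1) + φ a| ≤ δ₂) → (∀ a, |ψ (a + 2) - 2 * ψ (a + 1) + ψ a| ≤ δ₂) →
    (∑ h ∈ range l, |pm t (fun y => φ (od d t y) * ψ (od d t (y + (h : ℕ))))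
      - pm t (fun y => φ (od d t y)) * pm t (fun y => ψ (od d t y))|) / l
      ≤ C * (t * Λ * (δ₁ * δ₂) + (t + Λ) * δ₁ ^ 2 * √ (1 / Λ + (t + k : ℝ) ^ 3 / (k : ℝ) ^ 4))

/-! ### rotations -/

/-- JOINT EQUIDISTRIBUTION of `y` and `lam * y` mod `2 ^ t` for well approximable (at the right scale) `lam`. -/
def S_IND : Prop := ∃ C : ℝ, 0 < C ∧ ∀ (t p r : ℕ) (R V lam : ℝ), Nat.Coprime p r → 1 ≤ r → (r : ℝ) ≤ R →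
  |lam - p / r| ≤ 1 / (r * R) → 1 / 2 ≤ lam → lam ≤ 2 → 1 ≤ V →
  ∀ Ψ χ : ℤ → ℝ, (∀ x, |Ψ x| ≤ 1) → (∀ x, |χ x| ≤ 1) → Per t Ψ → Per t χ → ∀ α β : ℝ,
    |av V (fun y => Ψ ⌊y⌋ * (χ ⌊lam * y + α⌋ * χ ⌊lam * y + β⌋))|
      ≤ |pm t Ψ| + C * 2 ^ t * (1 / r + 1 / R + r / V)

/-- `lam` is too close to a rational with a small denominator -/
def Bad (R0 R lam : ℝ) : Prop := ∃ r p : ℕ, 1 ≤ r ∧ (r : ℝ) < R0 ∧ |r * lam - p| ≤ 1 / R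

/-- EXCEPTIONAL EXPONENTS: few `e` have `3^e/2^j ∈ [1/2,2]` bad for some `j`. -/
def S_EXC : Prop := ∀ (R0 R : ℝ) (a L K : ℕ), 1 ≤ R0 → 3 * R0 ^ 2 < 3 ^ (a + 1) → 40 * R0 * 3 ^ L ≤ R → 1 ≤ L →
  ∀ E : Finset ℕ, E ⊆ range K →
    (∀ e ∈ E, ∃ j : ℕ, 1 / 2 ≤ (3 : ℝ) ^ e / 2 ^ j ∧ (3 : ℝ) ^ e / 2 ^ j ≤ 2 ∧ Bad R0 R ((3 : ℝ) ^ e / 2 ^ j)) →
    #E ≤ (K / L + 1) * (a + 1)

/-! ### coalescence -/

/-- COALESCENCE in integral form. -/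
def S_CI (d : ℤ) : Prop := ∃ C : ℝ, 0 < C ∧ ∀ f : ℤ → ℝ, InvF d f → ∀ R : ℕ, 1 ≤ R → ∀ V : ℝ, 2 ^ R ≤ V →
  ∀ (i u : ℕ) (h : ℝ), |h| ≤ 4 ^ u →
    av V (fun y => |f ⌊y⌋ - f ⌊3 ^ i * y + h⌋|) ≤ C * √ (1 + (i : ℝ) ^ 2 + u) * rho R

/-- COARSE LEMMA: `f` at `y` is `f` at `3^(od+e) y / 2^t`. -/
def S_CO (d : ℤ) : Prop := ∃ C : ℝ, 0 < C ∧ ∀ f : ℤ → ℝ, InvF d f → ∀ t R e : ℕ, 1 ≤ R → ∀ V : ℝ,
  2 ^ (t + R) ≤ V →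
    av V (fun y => |f ⌊y⌋ - f ⌊3 ^ (od d t ⌊y⌋ + e) * y / 2 ^ t⌋|) ≤ C * (1 + e) * rho R

/-! ### the averages along powers of 3 -/

/-- `3^D / 2^⌊log₂ 3^D⌋ ∈ [1,2)` -/
noncomputable def lam (D : ℕ) : ℝ := (3 : ℝ) ^ D / 2 ^ (Nat.log 2 (3 ^ D))

/-- `(1/K) ∑_{D<K} f ⌊lam D * z⌋` -/
noncomputable def AK (f : ℤ → ℝ) (K : ℕ) (z : ℝ) : ℝ := (∑ D ∈ range K, f ⌊lam D * z⌋) / K

/-- the energy at scale `Z` -/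
noncomputable def En (f : ℤ → ℝ) (K : ℕ) (Z : ℝ) : ℝ := av Z (fun z => AK f K z ^ 2)

/-- mean zero over the positive integers -/
def MeanZero (f : ℤ → ℝ) : Prop :=
  Filter.Tendsto (fun N : ℕ => (∑ n ∈ range N, f (n : ℕ)) / N) Filter.atTop (nhds 0)

/-- BASE: for fixed heights and `K → ∞` the averages are small. -/
def S_BASE : Prop := ∀ f : ℤ → ℝ, (∀ x, |f x| ≤ 1) → MeanZero f → ∀ ε : ℝ, 0 < ε →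
  ∃ z0 : ℝ, 1 ≤ z0 ∧ ∀ z1 : ℝ, z0 ≤ z1 → ∃ K0 : ℕ, ∀ K : ℕ, K0 ≤ K → ∀ z : ℝ, z0 ≤ z → z ≤ z1 →
    |AK f K z| ≤ ε

/-- DENSITY (from library `Results.MP_d02c56_nt.NaturalDensities`, `structure_full`). -/
def S_DENS (d : ℤ) : Prop := ∀ S : Set ℤ, (∀ x, Tz d x ∈ S ↔ x ∈ S) → (∃ x ∈ S, 0 < x) →
  ∃ δ : ℝ, 0 < δ ∧ δ ≤ 1 ∧ MeanZero (fun x => S.indicator (fun _ => (1 : ℝ)) x - δ)

/-- STEERING: from `y` prime to 3 go back exactly `D` odd steps and `s` steps in all. -/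
def S_STEER (d : ℤ) : Prop := ∀ (y : ℤ) (D s : ℕ), 1 ≤ y → y % 3 ≠ 0 → 4 * D ≤ s →
  ∃ M : ℤ, 0 < M ∧ (Tz d)^[s] M = y ∧ |(M : ℝ) - 2 ^ s * y / 3 ^ D| ≤ 2 ^ s

/-- MAIN: the energy tends to zero. -/
def S_EN (d : ℤ) : Prop := ∀ f : ℤ → ℝ, InvF d f → MeanZero f → ∀ c ε : ℝ, 0 < c → 0 < ε →
  ∃ Z0 : ℝ, 1 ≤ Z0 ∧ ∀ Z : ℝ, Z0 ≤ Z → ∀ K : ℕ, c * Real.log Z ≤ K → En f K Z ≤ ε

end Pool.Agent.KS6_24.LN
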