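import Mathlib
import Pool.Agent.KS6_24.LN.Defs

/-! Basic facts: number of odd steps, means over residues, coalescence. -/

set_option autoImplicit false

namespace Pool.Agent.KS6_24.LN

open Pool.Agent.H499R2.CO Pool.Agent.Y965.SI Finset

/-! ### odd steps -/

theorem od_zero (d x : ℤ) : od d 0 x = 0 := rfl

theorem od_succ (d : ℤ) (t : ℕ) (x : ℤ) : od d (t + 1) x = (if x % 2 = 1 then 1 else 0) + od d t (Tz d x) := rfl

theorem od_add (d : ℤ) (s t : ℕ) : ∀ x : ℤ, od d (s + t) x = od d s x + od d t ((Tz d)^[s] x) := by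
  induction s with
  | zero => intro x; simp [od]
  | succ s ih =>
    intro x
    rw [show s + 1 + t = (s + t) + 1 by ring, od_succ, ih, od_succ, Function.iterate_succ_apply, add_assoc]

theorem od_succ' (d : ℤ) (t : ℕ) (x : ℤ) : od d (t + 1) x = od d t x + (if (Tz d)^[t] x % 2 = 1 then 1 else 0) := by
  rw [od_add]; rfl

theorem od_le (d : ℤ) (t : ℕ) : ∀ x : ℤ, od d t x ≤ t := by
  induction t with
  | zero => intro x; simp [od]
  | succ t ih => intro x; rw [od_succ]; have := ih (Tz d x); split_ifs <;> omega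

theorem Tz_even {d x : ℤ} (h : x % 2 = 0) : Tz d x = x / 2 := by simp [Tz, h]
theorem Tz_odd {d x : ℤ} (h : x % 2 = 1) : Tz d x = (3 * x + d) / 2 := by simp [Tz, h]

theorem Tz_two {d : ℤ} (hd : d % 2 = 1) (x u : ℤ) :
    Tz d (x + 2 * u) = Tz d x + 3 ^ (if x % 2 = 1 then 1 else 0) * u := by
  rcases Int.emod_two_eq_zero_or_one x with h | h
  · rw [Tz_even h, Tz_even (by omega), if_neg (by omega)]; omega
  · rw [Tz_odd h, Tz_odd (by omega), if_pos h]; omega

/-- `T^t` on a residue class mod `2^t`, and the number of odd steps is periodic -/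
theorem iter_add {d : ℤ} (hd : d % 2 = 1) (t : ℕ) : ∀ x u : ℤ,
    (Tz d)^[t] (x + 2 ^ t * u) = (Tz d)^[t] x + 3 ^ (od d t x) * u ∧ od d t (x + 2 ^ t * u) = od d t x := by
  induction t with
  | zero => intro x u; simp [od]
  | succ t ih =>
    intro x u
    have h1 : x + 2 ^ (t + 1) * u = x + 2 * (2 ^ t * u) := by rw [pow_succ]; ring
    have h2 := Tz_two hd x (2 ^ t * u)
    have h3 : (x + 2 * (2 ^ t * u)) % 2 = x % 2 := by omega
    rw [h1, Function.iterate_succ_apply, Function.iterate_succ_apply, h2, od_succ, od_succ, h3, h2]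
    have e : Tz d x + 3 ^ (if x % 2 = 1 then 1 else 0) * (2 ^ t * u)
        = Tz d x + 2 ^ t * (3 ^ (if x % 2 = 1 then 1 else 0) * u) := by ring
    rw [e]
    obtain ⟨a, b⟩ := ih (Tz d x) (3 ^ (if x % 2 = 1 then 1 else 0) * u)
    rw [a, b, pow_add]
    refine ⟨by ring, rfl⟩

theorem iter_add' {d : ℤ} (hd : d % 2 = 1) (t : ℕ) (x u : ℤ) :
    (Tz d)^[t] (x + u * 2 ^ t) = (Tz d)^[t] x + 3 ^ (od d t x) * u := by
  rw [mul_comm]; exact (iter_add hd t x u).1

theorem od_per {d : ℤ} (hd : d % 2 = 1) (t : ℕ) (x u : ℤ) : od d t (x + u * 2 ^ t) = od d t x := by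
  rw [mul_comm]; exact (iter_add hd t x u).2

theorem od_per_le {d : ℤ} (hd : d % 2 = 1) {s t : ℕ} (h : s ≤ t) (x u : ℤ) : od d s (x + u * 2 ^ t) = od d s x := by
  obtain ⟨r, rfl⟩ := Nat.exists_eq_add_of_le h
  rw [show u * (2 : ℤ) ^ (s + r) = (u * 2 ^ r) * 2 ^ s by rw [pow_add]; ring]
  exact od_per hd s x _

/-- coalescence, with the numbers of odd steps -/
theorem coal_od {d : ℤ} (hd : d % 2 = 1) : ∀ (k i : ℕ) (r x : ℤ), ¬ surv d k (i, r) x → ∀ t, k ≤ t →
    (Tz d)^[t] x = (Tz d)^[t] (3 ^ i * x + d * r) ∧ od d t x = od d t (3 ^ i * x + d * r) + i := by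
  intro k
  induction k with
  | zero =>
    intro i r x h t _
    simp only [surv, ne_eq, not_not, Prod.mk.injEq] at h
    obtain ⟨rfl, rfl⟩ := h
    simp
  | succ k ih =>
    intro i r x h t ht
    by_cases h0 : (i, r) = ((0 : ℕ), (0 : ℤ))
    · rw [Prod.mk.injEq] at h0
      obtain ⟨rfl, rfl⟩ := h0
      simp
    · have h' : ¬ surv d k (step (i, r) (decide (x % 2 = 1))) (nx d (i, r) x) := by
        intro h2; exact h ⟨h0, h2⟩
      obtain ⟨t, rfl⟩ : ∃ t', t = t' + 1 := ⟨t - 1, by omega⟩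
      have m1 := Int.emod_two_eq_zero_or_one x
      have m2 := Int.emod_two_eq_zero_or_one (3 ^ i * x + d * r)
      rw [Function.iterate_succ_apply, Function.iterate_succ_apply, od_succ, od_succ]
      rcases pair_step hd i r x with ⟨e1, e2, e3⟩ | ⟨e1, e2, e3, e4, e5, e6⟩
      · rw [e1] at h'
        obtain ⟨a, b⟩ := ih (step (i, r) (decide (x % 2 = 1))).1 (step (i, r) (decide (x % 2 = 1))).2 _ h' t (by omega)
        rw [e2] at a b
        refine ⟨a, ?_⟩
        rw [b]
        split_ifs <;> omega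
      · rw [e1] at h'
        obtain ⟨a, b⟩ := ih (step (i, r) (decide (x % 2 = 1))).1 (step (i, r) (decide (x % 2 = 1))).2 _ h' t (by omega)
        rw [e2] at a b
        refine ⟨a.symm, ?_⟩
        rw [b]
        split_ifs <;> omega

/-! ### means over residues -/

theorem pm_succ (t : ℕ) (F : ℤ → ℝ) : pm (t + 1) F = pm t (fun x => (F x + F (x + 2 ^ t)) / 2) := by
  unfold pm
  rw [pow_succ, mul_two, sum_range_add]
  rw [← sum_div, sum_add_distrib]
  have : ∀ x : ℕ, (((2 ^ t + x : ℕ)) : ℤ) = (x : ℤ) + 2 ^ t := by intro x; push_cast; ring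
  simp only [this]
  rw [pow_succ]
  field_simp

theorem pm_congr {t : ℕ} {F G : ℤ → ℝ} (h : ∀ x, F x = G x) : pm t F = pm t G := by
  unfold pm; simp only [h]

theorem pm_add (t : ℕ) (F G : ℤ → ℝ) : pm t (fun x => F x + G x) = pm t F + pm t G := by
  unfold pm; rw [sum_add_distrib, add_div]

theorem pm_sub (t : ℕ) (F G : ℤ → ℝ) : pm t (fun x => F x - G x) = pm t F - pm t G := by
  unfold pm; rw [sum_sub_distrib, sub_div]

theorem pm_mul (t : ℕ) (c : ℝ) (F : ℤ → ℝ) : pm t (fun x => c * F x) = c * pm t F := by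
  unfold pm; rw [← mul_sum, mul_div_assoc]

theorem pm_const (t : ℕ) (c : ℝ) : pm t (fun _ => c) = c := by
  unfold pm; rw [sum_const, card_range, nsmul_eq_mul]; push_cast; field_simp

theorem pm_mono {t : ℕ} {F G : ℤ → ℝ} (h : ∀ x, F x ≤ G x) : pm t F ≤ pm t G := by
  unfold pm
  exact div_le_div_of_nonneg_right (sum_le_sum fun x _ => h x) (by positivity)

theorem pm_abs {t : ℕ} {F : ℤ → ℝ} {M : ℝ} (h : ∀ x, |F x| ≤ M) : |pm t F| ≤ M := by
  rw [abs_le]
  constructor
  · rw [← pm_const t (-M)]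
    exact pm_mono fun x => (abs_le.1 (h x)).1
  · rw [← pm_const t M]
    exact pm_mono fun x => (abs_le.1 (h x)).2

theorem pm_nonneg {t : ℕ} {F : ℤ → ℝ} (h : ∀ x, 0 ≤ F x) : 0 ≤ pm t F := by
  rw [← pm_const t 0]; exact pm_mono h

theorem pm_sum {ι : Type*} (s : Finset ι) (t : ℕ) (F : ι → ℤ → ℝ) :
    pm t (fun x => ∑ i ∈ s, F i x) = ∑ i ∈ s, pm t (F i) := by
  unfold pm; rw [sum_comm, sum_div]

theorem abs_pm_le (t : ℕ) (F : ℤ → ℝ) : |pm t F| ≤ pm t (fun x => |F x|) := by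
  unfold pm
  rw [abs_div, abs_of_pos (show (0 : ℝ) < 2 ^ t by positivity)]
  exact div_le_div_of_nonneg_right (abs_sum_le_sum_abs _ _) (by positivity)

theorem Per.mono {s t : ℕ} (h : s ≤ t) {F : ℤ → ℝ} (hF : Per s F) : Per t F := by
  intro x m
  obtain ⟨r, rfl⟩ := Nat.exists_eq_add_of_le h
  rw [show m * (2 : ℤ) ^ (s + r) = (m * 2 ^ r) * 2 ^ s by rw [pow_add]; ring]
  exact hF x _

/-- shift invariance of the mean of a periodic function, also after multiplication by an odd number -/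
theorem pm_affine {t : ℕ} {F : ℤ → ℝ} (hF : Per t F) {a : ℤ} (ha : a % 2 = 1) (c : ℤ) :
    pm t (fun x => F (a * x + c)) = pm t F := by
  unfold pm
  rw [sum_affine t F hF ha c]

theorem pm_shift {t : ℕ} {F : ℤ → ℝ} (hF : Per t F) (c : ℤ) : pm t (fun x => F (x + c)) = pm t F := by
  have := pm_affine hF (a := 1) (by norm_num) c
  simpa using this

theorem pm_mono_per {s t : ℕ} (h : s ≤ t) {F : ℤ → ℝ} (hF : Per s F) : pm t F = pm s F := by
  obtain ⟨r, rfl⟩ := Nat.exists_eq_add_of_le h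
  induction r with
  | zero => rfl
  | succ r ih =>
    rw [show s + (r + 1) = (s + r) + 1 by ring, pm_succ]
    rw [← ih (by omega)]
    apply pm_congr
    intro x
    have := (hF.mono (show s ≤ s + r by omega)) x 1
    rw [one_mul] at this
    rw [this]; ring

/-- splitting the residues mod `2^(s+t)` as `x + 2^s u` -/
theorem pm_split (s t : ℕ) (F : ℤ → ℝ) : pm (s + t) F = pm s (fun x => pm t (fun u => F (x + 2 ^ s * u))) := by
  induction t generalizing F with
  | zero =>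
    apply pm_congr; intro x; simp [pm]
  | succ t ih =>
    rw [show s + (t + 1) = (s + t) + 1 by ring, pm_succ, ih]
    apply pm_congr; intro x
    rw [pm_succ]
    apply pm_congr; intro u
    have : x + 2 ^ s * u + 2 ^ (s + t) = x + 2 ^ s * (u + 2 ^ t) := by rw [pow_add]; ring
    rw [this]

/-- sums of nonnegative periodic functions over intervals -/
theorem sum_Ico_per {t : ℕ} {F : ℤ → ℝ} (hF : Per t F) (h0 : ∀ x, 0 ≤ F x) (a b : ℤ) (hab : a ≤ b) :
    ∑ n ∈ Ico a b, F n ≤ ((b - a : ℤ) + 2 ^ t) * pm t F := by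
  have hN : (0 : ℝ) < 2 ^ t := by positivity
  set M : ℕ := ((b - a) / 2 ^ t).toNat + 1 with hM
  have hblock : ∀ M : ℕ, ∑ n ∈ Ico a (a + M * 2 ^ t), F n = M * (2 ^ t * pm t F) := by
    intro M
    induction M with
    | zero => simp
    | succ M ih =>
      have hle : a + (M : ℤ) * 2 ^ t ≤ a + ((M + 1 : ℕ) : ℤ) * 2 ^ t := by
        have : (0 : ℤ) < 2 ^ t := by positivity
        push_cast; nlinarith
      have hle0 : a ≤ a + (M : ℤ) * 2 ^ t := by
        have : (0 : ℤ) ≤ (M : ℤ) * 2 ^ t := by positivity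
        linarith
      have hsplit : Ico a (a + ((M + 1 : ℕ) : ℤ) * 2 ^ t) = Ico a (a + (M : ℤ) * 2 ^ t)
          ∪ Ico (a + (M : ℤ) * 2 ^ t) (a + ((M + 1 : ℕ) : ℤ) * 2 ^ t) := by
        rw [Finset.Ico_union_Ico_eq_Ico hle0 hle]
      rw [hsplit, sum_union (Finset.Ico_disjoint_Ico_consecutive _ _ _), ih]
      have h1 : ∑ n ∈ Ico (a + (M : ℤ) * 2 ^ t) (a + ((M + 1 : ℕ) : ℤ) * 2 ^ t), F n
          = ∑ u ∈ range (2 ^ t), F (u + (a + M * 2 ^ t)) := by
        symm
        apply sum_bij' (fun (u : ℕ) _ => (u : ℤ) + (a + M * 2 ^ t)) (fun n _ => (n - (a + M * 2 ^ t)).toNat)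
        · intro u hu; rw [mem_range] at hu; rw [mem_Ico]
          have : (u : ℤ) < 2 ^ t := by exact_mod_cast hu
          push_cast; constructor <;> linarith
        · intro n hn; rw [mem_Ico] at hn; rw [mem_range]
          push_cast at hn
          have : (n - (a + M * 2 ^ t)) < 2 ^ t := by linarith
          have h2 : ((2 ^ t : ℕ) : ℤ) = 2 ^ t := by push_cast; rfl
          omega
        · intro u hu; simp
        · intro n hn; rw [mem_Ico] at hn; rw [Int.toNat_of_nonneg (by linarith)]; ring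
        · intro u hu; rfl
      rw [h1]
      have h2 := pm_shift hF (a + M * 2 ^ t)
      unfold pm at h2 ⊢
      rw [div_left_inj' hN.ne'] at h2
      rw [h2]
      push_cast
      field_simp
  have hb : b ≤ a + (M : ℤ) * 2 ^ t := by
    have h1 : (0 : ℤ) < 2 ^ t := by positivity
    have h2 := Int.lt_ediv_add_one_mul_self (b - a) h1
    have h3 : (M : ℤ) = (b - a) / 2 ^ t + 1 := by
      rw [hM]; push_cast
      rw [Int.toNat_of_nonneg (Int.ediv_nonneg (by linarith) h1.le)]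
    rw [h3]; linarith
  have h4 : ∑ n ∈ Ico a b, F n ≤ ∑ n ∈ Ico a (a + M * 2 ^ t), F n := by
    apply sum_le_sum_of_subset_of_nonneg (Ico_subset_Ico_right hb)
    intro x _ _; exact h0 x
  refine h4.trans ?_
  rw [hblock]
  have h5 : (M : ℝ) * 2 ^ t ≤ ((b - a : ℤ) : ℝ) + 2 ^ t := by
    have h1 : (0 : ℤ) < 2 ^ t := by positivity
    have h3 : (M : ℤ) = (b - a) / 2 ^ t + 1 := by
      rw [hM]; push_cast
      rw [Int.toNat_of_nonneg (Int.ediv_nonneg (by linarith) h1.le)]
    have h6 : (M : ℤ) * 2 ^ t ≤ (b - a) + 2 ^ t := by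
      rw [h3]; have := Int.ediv_mul_le (b - a) h1.ne'; linarith
    exact_mod_cast h6
  have h6 := pm_nonneg (t := t) h0
  nlinarith

end Pool.Agent.KS6_24.LN
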