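import Mathlib
import Pool.Agent.KS6_24.LN.Defs

/-! The mean `av V u` over `[V, 2V]` of bounded measurable functions. -/

set_option autoImplicit false

namespace Pool.Agent.KS6_24.LN

open MeasureTheory Finset

/-- measurable and bounded by `M` -/
def Bd (M : ℝ) (u : ℝ → ℝ) : Prop := Measurable u ∧ ∀ y, |u y| ≤ M

theorem Bd.ii {M : ℝ} {u : ℝ → ℝ} (h : Bd M u) (a b : ℝ) : IntervalIntegrable u volume a b := by
  rw [intervalIntegrable_iff]
  apply Measure.integrableOn_of_bounded (M := M)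
  · simp [Set.uIoc, Real.volume_Ioc]
  · exact h.1.aestronglyMeasurable
  · filter_upwards with x
    rw [Real.norm_eq_abs]; exact h.2 x

theorem Bd.mono {M N : ℝ} {u : ℝ → ℝ} (h : Bd M u) (hMN : M ≤ N) : Bd N u := ⟨h.1, fun y => (h.2 y).trans hMN⟩

theorem Bd.nonneg {M : ℝ} {u : ℝ → ℝ} (h : Bd M u) : 0 ≤ M := (abs_nonneg _).trans (h.2 0)

theorem Bd.add {M N : ℝ} {u v : ℝ → ℝ} (h : Bd M u) (h' : Bd N v) : Bd (M + N) (fun y => u y + v y) :=
  ⟨h.1.add h'.1, fun y => (abs_add_le _ _).trans (add_le_add (h.2 y) (h'.2 y))⟩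

theorem Bd.sub {M N : ℝ} {u v : ℝ → ℝ} (h : Bd M u) (h' : Bd N v) : Bd (M + N) (fun y => u y - v y) :=
  ⟨h.1.sub h'.1, fun y => (abs_sub _ _).trans (add_le_add (h.2 y) (h'.2 y))⟩

theorem Bd.mul {M N : ℝ} {u v : ℝ → ℝ} (h : Bd M u) (h' : Bd N v) : Bd (M * N) (fun y => u y * v y) :=
  ⟨h.1.mul h'.1, fun y => by
    rw [abs_mul]; exact mul_le_mul (h.2 y) (h'.2 y) (abs_nonneg _) h.nonneg⟩

theorem Bd.cmul {M : ℝ} {u : ℝ → ℝ} (c : ℝ) (h : Bd M u) : Bd (|c| * M) (fun y => c * u y) :=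
  ⟨h.1.const_mul c, fun y => by rw [abs_mul]; exact mul_le_mul_of_nonneg_left (h.2 y) (abs_nonneg _)⟩

theorem Bd.const (c : ℝ) : Bd |c| (fun _ => c) := ⟨measurable_const, fun _ => le_rfl⟩

theorem Bd.abs {M : ℝ} {u : ℝ → ℝ} (h : Bd M u) : Bd M (fun y => |u y|) :=
  ⟨h.1.abs, fun y => by rw [abs_abs]; exact h.2 y⟩

theorem Bd.sum {ι : Type*} {s : Finset ι} {M : ι → ℝ} {u : ι → ℝ → ℝ} (h : ∀ i ∈ s, Bd (M i) (u i)) :
    Bd (∑ i ∈ s, M i) (fun y => ∑ i ∈ s, u i y) := by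
  classical
  induction s using Finset.induction_on with
  | empty => simp; exact ⟨measurable_const, fun _ => by simp⟩
  | insert a s ha ih =>
    have h1 := (h a (mem_insert_self a s)).add (ih fun i hi => h i (mem_insert_of_mem hi))
    rw [sum_insert ha]
    refine ⟨?_, fun y => ?_⟩
    · have := h1.1
      simpa [sum_insert ha] using this
    · have := h1.2 y
      simpa [sum_insert ha] using this

theorem Bd.comp {M : ℝ} {u : ℝ → ℝ} (h : Bd M u) {g : ℝ → ℝ} (hg : Measurable g) : Bd M (fun y => u (g y)) :=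
  ⟨h.1.comp hg, fun y => h.2 _⟩

/-- functions of the integer part -/
theorem Bd.fl {F : ℤ → ℝ} {M : ℝ} (h : ∀ x, |F x| ≤ M) : Bd M (fun y => F ⌊y⌋) :=
  ⟨(measurable_of_countable F).comp Int.measurable_floor, fun y => h _⟩

theorem Bd.flc {F : ℤ → ℝ} {M : ℝ} (h : ∀ x, |F x| ≤ M) {g : ℝ → ℝ} (hg : Measurable g) :
    Bd M (fun y => F ⌊g y⌋) := (Bd.fl h).comp hg

theorem meas_lin (a b : ℝ) : Measurable fun y : ℝ => a * y + b := by fun_prop

/-! ### the mean -/

variable {V : ℝ}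

theorem av_add (V : ℝ) {M N : ℝ} {u v : ℝ → ℝ} (h : Bd M u) (h' : Bd N v) :
    av V (fun y => u y + v y) = av V u + av V v := by
  unfold av; rw [intervalIntegral.integral_add (h.ii _ _) (h'.ii _ _), add_div]

theorem av_sub (V : ℝ) {M N : ℝ} {u v : ℝ → ℝ} (h : Bd M u) (h' : Bd N v) :
    av V (fun y => u y - v y) = av V u - av V v := by
  unfold av; rw [intervalIntegral.integral_sub (h.ii _ _) (h'.ii _ _), sub_div]

theorem av_cmul (V c : ℝ) (u : ℝ → ℝ) : av V (fun y => c * u y) = c * av V u := by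
  unfold av; rw [intervalIntegral.integral_const_mul, mul_div_assoc]

theorem av_const (hV : 0 < V) (c : ℝ) : av V (fun _ => c) = c := by
  unfold av; rw [intervalIntegral.integral_const, smul_eq_mul]; field_simp; ring

theorem av_sum {ι : Type*} (V : ℝ) {s : Finset ι} {M : ι → ℝ} {u : ι → ℝ → ℝ} (h : ∀ i ∈ s, Bd (M i) (u i)) :
    av V (fun y => ∑ i ∈ s, u i y) = ∑ i ∈ s, av V (u i) := by
  unfold av
  rw [intervalIntegral.integral_finset_sum (fun i hi => (h i hi).ii _ _), sum_div]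

theorem av_mono (hV : 0 < V) {M N : ℝ} {u v : ℝ → ℝ} (h : Bd M u) (h' : Bd N v)
    (huv : ∀ y, V ≤ y → y ≤ 2 * V → u y ≤ v y) : av V u ≤ av V v := by
  unfold av
  apply div_le_div_of_nonneg_right _ hV.le
  exact intervalIntegral.integral_mono_on (by linarith) (h.ii _ _) (h'.ii _ _) fun y hy => huv y hy.1 hy.2

theorem av_nonneg (hV : 0 < V) {u : ℝ → ℝ} (h : ∀ y, 0 ≤ u y) : 0 ≤ av V u := by
  unfold av
  exact div_nonneg (intervalIntegral.integral_nonneg (by linarith) fun y _ => h y) hV.le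

theorem av_le (hV : 0 < V) {M c : ℝ} {u : ℝ → ℝ} (h : Bd M u) (hc : ∀ y, V ≤ y → y ≤ 2 * V → u y ≤ c) :
    av V u ≤ c := by
  have := av_mono hV h (Bd.const c) hc
  rwa [av_const hV] at this

theorem le_av (hV : 0 < V) {M c : ℝ} {u : ℝ → ℝ} (h : Bd M u) (hc : ∀ y, V ≤ y → y ≤ 2 * V → c ≤ u y) :
    c ≤ av V u := by
  have := av_mono hV (Bd.const c) h hc
  rwa [av_const hV] at this

theorem av_abs (hV : 0 < V) {M : ℝ} {u : ℝ → ℝ} (h : Bd M u) : |av V u| ≤ M := by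
  rw [abs_le]
  exact ⟨le_av hV h fun y _ _ => (abs_le.1 (h.2 y)).1, av_le hV h fun y _ _ => (abs_le.1 (h.2 y)).2⟩

theorem abs_av_le (hV : 0 < V) {M : ℝ} {u : ℝ → ℝ} (h : Bd M u) : |av V u| ≤ av V (fun y => |u y|) := by
  rw [abs_le]
  constructor
  · have h1 := av_mono hV (Bd.cmul (-1) h.abs) h fun y _ _ => by
      have := neg_abs_le (u y); linarith
    rw [av_cmul] at h1; linarith
  · exact av_mono hV h h.abs fun y _ _ => le_abs_self _

theorem av_scale (hV : 0 < V) {θ : ℝ} (hθ : 0 < θ) (u : ℝ → ℝ) : av V (fun y => u (θ * y)) = av (θ * V) u := by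
  unfold av
  rw [intervalIntegral.integral_comp_mul_left _ hθ.ne', smul_eq_mul, show θ * (2 * V) = 2 * (θ * V) by ring]
  field_simp

/-- changes of the interval -/
theorem int_shift {M : ℝ} {u : ℝ → ℝ} (h : Bd M u) (a b w : ℝ) :
    |(∫ y in a..b, u (y + w)) - ∫ y in a..b, u y| ≤ 2 * |w| * M := by
  rw [intervalIntegral.integral_comp_add_right]
  have h1 : (∫ y in (a + w)..(b + w), u y) - ∫ y in a..b, u y
      = (∫ y in b..(b + w), u y) - ∫ y in a..(a + w), u y := by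
    have e1 := intervalIntegral.integral_add_adjacent_intervals (h.ii a (a + w)) (h.ii (a + w) (b + w))
    have e2 := intervalIntegral.integral_add_adjacent_intervals (h.ii a b) (h.ii b (b + w))
    linarith
  rw [h1]
  have h2 : ∀ a : ℝ, |∫ y in a..(a + w), u y| ≤ M * |w| := by
    intro a
    have := intervalIntegral.norm_integral_le_of_norm_le_const (a := a) (b := a + w) (f := u) (C := M)
      fun x _ => by rw [Real.norm_eq_abs]; exact h.2 x
    rw [Real.norm_eq_abs, add_sub_cancel_left] at this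
    exact this
  refine (abs_sub _ _).trans ?_
  have := h2 a; have := h2 b
  linarith

theorem av_shift (hV : 0 < V) {M : ℝ} {u : ℝ → ℝ} (h : Bd M u) (w : ℝ) :
    |av V (fun y => u (y + w)) - av V u| ≤ 2 * |w| * M / V := by
  unfold av
  rw [← sub_div, abs_div, abs_of_pos hV]
  exact div_le_div_of_nonneg_right (int_shift h _ _ _) hV.le

/-- Cauchy-Schwarz -/
theorem av_cs (hV : 0 < V) {M : ℝ} {u : ℝ → ℝ} (h : Bd M u) : (av V (fun y => |u y|)) ^ 2 ≤ av V (fun y => u y ^ 2) := by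
  set a := av V (fun y => |u y|) with ha
  have h2 : Bd (M * M) (fun y => u y ^ 2) := by
    have := h.mul h
    simpa [pow_two] using this
  have h1 : 0 ≤ av V (fun y => (|u y| - a) ^ 2) := av_nonneg hV fun y => sq_nonneg _
  have e : (fun y => (|u y| - a) ^ 2) = fun y => (u y ^ 2 - (2 * a) * |u y|) + a ^ 2 := by
    funext y
    have := sq_abs (u y)
    nlinarith
  rw [e, av_add V (h2.sub (h.abs.cmul (2 * a))) (Bd.const (a ^ 2)), av_sub V h2 (h.abs.cmul (2 * a)), av_cmul,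
    av_const hV, ← ha] at h1
  nlinarith

theorem av_abs_le_sqrt (hV : 0 < V) {M : ℝ} {u : ℝ → ℝ} (h : Bd M u) :
    av V (fun y => |u y|) ≤ √ (av V (fun y => u y ^ 2)) :=
  Real.le_sqrt_of_sq_le (av_cs hV h)

/-- fibres over the integers -/
theorem av_le_of_fib {G : ℝ → ℝ} {M B : ℝ} (hG : Bd M G) (h0 : ∀ y, 0 ≤ G y) (hV : 0 < V)
    (hB : ∀ φ : ℝ, 0 ≤ φ → φ < 1 → ∑ n ∈ Ico ⌊V⌋ (⌊2 * V⌋ + 1), G ((n : ℝ) + φ) ≤ B) : av V G ≤ B / V := by
  unfold av
  apply div_le_div_of_nonneg_right _ hV.le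
  set a : ℤ := ⌊V⌋ with ha
  set b : ℤ := ⌊2 * V⌋ + 1 with hb
  have haV : (a : ℝ) ≤ V := Int.floor_le V
  have hbV : 2 * V ≤ (b : ℝ) := by rw [hb]; push_cast; exact (Int.lt_floor_add_one _).le
  have hab : a ≤ b := by
    have : (a : ℝ) ≤ b := by linarith
    exact_mod_cast this
  have h1 : ∫ y in V..2 * V, G y ≤ ∫ y in (a : ℝ)..b, G y := by
    apply intervalIntegral.integral_mono_interval haV (by linarith) hbV
    · filter_upwards with y using h0 y
    · exact hG.ii _ _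
  refine h1.trans ?_
  have h2 : ∀ n : ℕ, ∫ y in (a : ℝ)..((a + n : ℤ) : ℝ), G y = ∫ φ in (0 : ℝ)..1, ∑ i ∈ Ico a (a + n), G ((i : ℝ) + φ) := by
    intro n
    induction n with
    | zero => simp
    | succ n ih =>
      have e1 := intervalIntegral.integral_add_adjacent_intervals (hG.ii (a : ℝ) ((a + n : ℤ) : ℝ))
        (hG.ii ((a + n : ℤ) : ℝ) ((a + (n + 1 : ℕ) : ℤ) : ℝ))
      rw [← e1, ih]
      have e2 : Ico a (a + (n + 1 : ℕ)) = insert (a + n) (Ico a (a + n)) := by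
        ext x; rw [mem_insert, mem_Ico, mem_Ico]; push_cast; omega
      rw [e2]
      have e3 : ∀ φ : ℝ, ∑ i ∈ insert (a + (n : ℤ)) (Ico a (a + n)), G ((i : ℝ) + φ)
          = G (((a + n : ℤ) : ℝ) + φ) + ∑ i ∈ Ico a (a + n), G ((i : ℝ) + φ) := by
        intro φ
        rw [sum_insert (by simp)]
      simp only [e3]
      have hs : Bd (∑ i ∈ Ico a (a + (n : ℤ)), M) (fun φ => ∑ i ∈ Ico a (a + (n : ℤ)), G ((i : ℝ) + φ)) :=
        Bd.sum fun i _ => hG.comp (by fun_prop)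
      have hs1 : Bd M (fun φ => G (((a + n : ℤ) : ℝ) + φ)) := hG.comp (by fun_prop)
      rw [intervalIntegral.integral_add (hs1.ii _ _) (hs.ii _ _), add_comm]
      congr 1
      have := intervalIntegral.integral_comp_add_left (a := 0) (b := 1) G (((a + n : ℤ) : ℝ))
      rw [this]
      congr 1
      · ring
      · push_cast; ring
  obtain ⟨n, hn⟩ : ∃ n : ℕ, b = a + n := ⟨(b - a).toNat, by omega⟩
  rw [hn, h2 n]
  have hs : Bd (∑ i ∈ Ico a (a + (n : ℤ)), M) (fun φ => ∑ i ∈ Ico a (a + (n : ℤ)), G ((i : ℝ) + φ)) :=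
    Bd.sum fun i _ => hG.comp (by fun_prop)
  have h3 : ∫ φ in (0 : ℝ)..1, ∑ i ∈ Ico a (a + (n : ℤ)), G ((i : ℝ) + φ) ≤ ∫ φ in (0 : ℝ)..1, B := by
    apply intervalIntegral.integral_mono_on_of_le_Ioo (by norm_num) (hs.ii _ _) (by simp)
    intro φ hφ
    have := hB φ hφ.1.le hφ.2
    rwa [← hn]
  refine h3.trans ?_
  simp

end Pool.Agent.KS6_24.LN
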