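import Mathlib
import Pool.Agent.KS6_24.LN.Defs

/-! BASE: averages along the powers of 3 for bounded heights (helper6).  The counting lemma for a
rational rotation is that of the library module `W5h23.RatRot`. -/

set_option autoImplicit false

namespace Pool.Agent.KS6_24.LN.BASE

open Finset Pool.Agent.KS6_24.LN

/-! ### discrepancy of an irrational rotation -/

/-- one block of a rational rotation -/
theorem ratrot_block (q : ℕ) (h : ℤ) (hcop : IsCoprime h (q : ℤ)) (A B : ℝ)
    (hAB : A ≤ B) (F : Finset ℕ)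
    (hF : ∀ i ∈ F, i < q ∧ ∃ n : ℤ, A ≤ (i : ℝ) * h - n * q ∧ (i : ℝ) * h - n * q ≤ B) :
    (F.card : ℝ) ≤ B - A + 1 := by
  classical
  have hF2 : ∀ i ∈ F, ∃ n : ℤ, A ≤ (i : ℝ) * h - n * q ∧ (i : ℝ) * h - n * q ≤ B :=
    fun i hi => (hF i hi).2
  choose! o ho using hF2
  set f : ℕ → ℤ := fun i => (i : ℤ) * h - o i * q with hf
  have hmem : ∀ i ∈ F, f i ∈ Finset.Icc ⌈A⌉ ⌊B⌋ := by
    intro i hi
    have h1 := ho i hi
    have e : ((f i : ℤ) : ℝ) = (i : ℝ) * h - o i * q := by rw [hf]; push_cast; ring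
    rw [Finset.mem_Icc, Int.ceil_le, Int.le_floor, e]
    exact h1
  have hinj : Set.InjOn f F := by
    intro i hi j hj hij
    have hi' := (hF i hi).1
    have hj' := (hF j hj).1
    have h1 : (q : ℤ) ∣ ((i : ℤ) - j) * h := by
      refine ⟨o i - o j, ?_⟩
      have : (i : ℤ) * h - o i * q = (j : ℤ) * h - o j * q := hij
      linear_combination this
    have h2 : (q : ℤ) ∣ (i : ℤ) - j := hcop.symm.dvd_of_dvd_mul_right h1
    have h3 : ((i : ℤ) - j) = 0 := by
      apply Int.eq_zero_of_abs_lt_dvd h2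
      rw [abs_lt]
      constructor <;> omega
    omega
  have h1 : F.card ≤ (Finset.Icc ⌈A⌉ ⌊B⌋).card :=
    Finset.card_le_card_of_injOn f hmem hinj
  rw [Int.card_Icc] at h1
  have h2 : ((⌊B⌋ + 1 - ⌈A⌉).toNat : ℝ) ≤ max (((⌊B⌋ + 1 - ⌈A⌉ : ℤ)) : ℝ) 0 := by
    rcases le_total 0 (⌊B⌋ + 1 - ⌈A⌉) with h | h
    · have : (((⌊B⌋ + 1 - ⌈A⌉).toNat : ℤ)) = ⌊B⌋ + 1 - ⌈A⌉ := Int.toNat_of_nonneg h
      refine le_trans (le_of_eq ?_) (le_max_left _ _)
      exact_mod_cast this
    · rw [Int.toNat_of_nonpos h]; simp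
  have h3 : (F.card : ℝ) ≤ ((⌊B⌋ + 1 - ⌈A⌉).toNat : ℝ) := by exact_mod_cast h1
  refine (h3.trans h2).trans (max_le ?_ (by linarith))
  push_cast
  have h4 := Int.floor_le B
  have h5 := Int.le_ceil A
  linarith

theorem kron_block {α : ℝ} {q : ℕ} {h : ℤ} (hq : 0 < q) (hcop : IsCoprime h (q : ℤ))
    (hα : |(q : ℝ) * α - h| ≤ 1 / q) (θ a b : ℝ) (hab : a ≤ b) (S : Finset ℕ) (hS : S ⊆ range q)
    (hS2 : ∀ s ∈ S, ∃ n : ℤ, a ≤ θ + s * α - n ∧ θ + s * α - n ≤ b) :
    (S.card : ℝ) ≤ (b - a) * q + 3 := by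
  have hqr : (0 : ℝ) < q := by exact_mod_cast hq
  have key := ratrot_block q h hcop ((a - θ) * q - 1) ((b - θ) * q + 1) (by nlinarith) S (by
    intro i hi
    have hi1 : i < q := mem_range.1 (hS hi)
    have hi2 : (i : ℝ) ≤ q := by exact_mod_cast hi1.le
    have hi0 : (0 : ℝ) ≤ i := Nat.cast_nonneg _
    refine ⟨hi1, ?_⟩
    obtain ⟨n, hn1, hn2⟩ := hS2 i hi
    refine ⟨n, ?_⟩
    have e : (i : ℝ) * h - n * q = (θ + i * α - n) * q - θ * q - i * (q * α - h) := by ring
    have e1 : |(i : ℝ) * (q * α - h)| ≤ 1 := by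
      rw [abs_mul, abs_of_nonneg hi0]
      calc (i : ℝ) * |(q : ℝ) * α - h| ≤ q * (1 / q) :=
            mul_le_mul hi2 hα (abs_nonneg _) hqr.le
        _ = 1 := by field_simp
    have e2 := abs_le.1 e1
    have e3 := mul_le_mul_of_nonneg_right hn1 hqr.le
    have e4 := mul_le_mul_of_nonneg_right hn2 hqr.le
    rw [e]
    constructor <;> nlinarith [e2.1, e2.2])
  linarith

theorem kron_upper {α : ℝ} {q : ℕ} {h : ℤ} (hq : 0 < q) (hcop : IsCoprime h (q : ℤ))
    (hα : |(q : ℝ) * α - h| ≤ 1 / q) (L : ℕ) (a b : ℝ) (hab : a ≤ b) (S : Finset ℕ) (hS : S ⊆ range L)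
    (hS2 : ∀ s ∈ S, ∃ n : ℤ, a ≤ s * α - n ∧ s * α - n ≤ b) :
    (S.card : ℝ) ≤ ((L : ℝ) / q + 1) * ((b - a) * q + 3) := by
  classical
  have hqr : (0 : ℝ) < q := by exact_mod_cast hq
  have hmaps : ∀ i ∈ S, i / q ∈ range (L / q + 1) := by
    intro i hi
    rw [mem_range]
    exact Nat.lt_succ_of_le (Nat.div_le_div_right (mem_range.1 (hS hi)).le)
  have h1 := card_eq_sum_card_fiberwise hmaps
  have h2 : ∀ c ∈ range (L / q + 1), ((S.filter fun i => i / q = c).card : ℝ) ≤ (b - a) * q + 3 := by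
    intro c _
    set G := (range q).filter fun j => q * c + j ∈ S with hG
    have hle : (S.filter fun i => i / q = c).card ≤ G.card := by
      apply card_le_card_of_injOn (fun i => i % q)
      · intro i hi
        simp only [coe_filter, Set.mem_ofPred_eq] at hi
        rw [hG]
        simp only [coe_filter, Set.mem_ofPred_eq, mem_range]
        refine ⟨Nat.mod_lt _ hq, ?_⟩
        have e1 := Nat.div_add_mod i q
        rw [hi.2] at e1
        rw [e1]
        exact hi.1
      · intro i hi j hj hij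
        simp only [coe_filter, Set.mem_ofPred_eq] at hi hj
        have e1 := Nat.div_add_mod i q
        have e2 := Nat.div_add_mod j q
        have e3 : i % q = j % q := hij
        rw [hi.2] at e1
        rw [hj.2] at e2
        omega
    have hle' : ((S.filter fun i => i / q = c).card : ℝ) ≤ G.card := by exact_mod_cast hle
    refine hle'.trans ?_
    apply kron_block hq hcop hα ((q * c : ℝ) * α) a b hab G (filter_subset _ _)
    intro j hj
    rw [hG, mem_filter] at hj
    obtain ⟨n, hn1, hn2⟩ := hS2 _ hj.2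
    refine ⟨n, ?_⟩
    have e : (q * c : ℝ) * α + j * α - n = ((q * c + j : ℕ) : ℝ) * α - n := by push_cast; ring
    rw [e]
    exact ⟨hn1, hn2⟩
  have h3 : (S.card : ℝ) ≤ ∑ c ∈ range (L / q + 1), ((b - a) * q + 3) := by
    rw [h1]
    push_cast
    exact sum_le_sum h2
  rw [sum_const, card_range, nsmul_eq_mul] at h3
  refine h3.trans (mul_le_mul_of_nonneg_right ?_ ?_)
  · push_cast
    have : ((L / q : ℕ) : ℝ) ≤ (L : ℝ) / q := Nat.cast_div_le
    linarith
  · have : 0 ≤ b - a := by linarith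
    positivity

/-- number of visits of the rotation to `[a, b)` -/
noncomputable def cnt (α : ℝ) (L : ℕ) (a b : ℝ) : ℕ :=
  ((range L).filter fun s : ℕ => a ≤ Int.fract ((s : ℝ) * α) ∧ Int.fract ((s : ℝ) * α) < b).card

theorem kron_disc {α : ℝ} {q : ℕ} {h : ℤ} (hq : 0 < q) (hcop : IsCoprime h (q : ℤ))
    (hα : |(q : ℝ) * α - h| ≤ 1 / q) (L : ℕ) (a b : ℝ) (ha : 0 ≤ a) (hab : a ≤ b) (hb : b ≤ 1) :
    |(cnt α L a b : ℝ) - (b - a) * L| ≤ 3 * L / q + q + 3 := by
  classical
  have hqr : (0 : ℝ) < q := by exact_mod_cast hq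
  unfold cnt
  set F := (range L).filter fun s : ℕ => a ≤ Int.fract ((s : ℝ) * α) ∧ Int.fract ((s : ℝ) * α) < b with hF
  set G := (range L).filter fun s : ℕ => ¬ (a ≤ Int.fract ((s : ℝ) * α) ∧ Int.fract ((s : ℝ) * α) < b) with hG
  have hFG : F.card + G.card = (range L).card := by
    rw [hF, hG]
    exact Finset.card_filter_add_card_filter_not _
  rw [card_range] at hFG
  have h1 := kron_upper hq hcop hα L a b hab F (filter_subset _ _) (by
    intro s hs
    rw [hF, mem_filter] at hs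
    refine ⟨⌊(s : ℝ) * α⌋, ?_⟩
    have e : (s : ℝ) * α - ⌊(s : ℝ) * α⌋ = Int.fract ((s : ℝ) * α) := rfl
    rw [e]
    exact ⟨hs.2.1, hs.2.2.le⟩)
  have h2 := kron_upper hq hcop hα L b (a + 1) (by linarith) G (filter_subset _ _) (by
    intro s hs
    rw [hG, mem_filter, not_and_or] at hs
    have e : (s : ℝ) * α - ⌊(s : ℝ) * α⌋ = Int.fract ((s : ℝ) * α) := rfl
    have h3 := Int.fract_nonneg ((s : ℝ) * α)
    have h4 := Int.fract_lt_one ((s : ℝ) * α)
    rcases hs.2 with h | h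
    · refine ⟨⌊(s : ℝ) * α⌋ - 1, ?_⟩
      push_cast
      rw [not_le] at h
      constructor <;> linarith
    · refine ⟨⌊(s : ℝ) * α⌋, ?_⟩
      rw [not_lt] at h
      constructor <;> linarith)
  have h5 : (F.card : ℝ) + G.card = L := by exact_mod_cast hFG
  have e1 : ((L : ℝ) / q + 1) * ((b - a) * q + 3) =
      (b - a) * L + 3 * L / q + (b - a) * q + 3 := by
    field_simp; ring
  have e2 : ((L : ℝ) / q + 1) * ((a + 1 - b) * q + 3) =
      L - (b - a) * L + 3 * L / q + (a + 1 - b) * q + 3 := by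
    field_simp; ring
  rw [e1] at h1
  rw [e2] at h2
  have h6 : (b - a) * q ≤ q := by nlinarith
  have h7 : (a + 1 - b) * q ≤ q := by nlinarith
  rw [abs_le]
  constructor <;> linarith

/-- good approximations with large denominators -/
theorem approx_large {α : ℝ} (hα : Irrational α) (Q : ℕ) : ∃ (q : ℕ) (h : ℤ), Q < q ∧ 0 < q ∧
    IsCoprime h (q : ℤ) ∧ |(q : ℝ) * α - h| ≤ 1 / q := by
  -- a lower bound for the distances to the integers
  have hδ : ∃ δ : ℝ, 0 < δ ∧ ∀ n : ℕ, 1 ≤ n → n ≤ Q → ∀ m : ℤ, δ ≤ |(n : ℝ) * α - m| := by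
    induction Q with
    | zero => exact ⟨1, one_pos, fun n h1 h2 => by omega⟩
    | succ Q ih =>
      obtain ⟨δ, h0, h1⟩ := ih
      set x : ℝ := ((Q + 1 : ℕ) : ℝ) * α with hx
      have hx0 : 0 < |x - round x| := by
        rw [abs_pos, sub_ne_zero]
        have h2 : Irrational x := by
          rw [hx]; exact hα.natCast_mul (by omega)
        exact h2.ne_int _
      refine ⟨min δ |x - round x|, lt_min h0 hx0, ?_⟩
      intro n h3 h4 m
      rcases Nat.lt_or_ge n (Q + 1) with h5 | h5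
      · exact (min_le_left _ _).trans (h1 n h3 (by omega) m)
      · have : n = Q + 1 := by omega
        rw [this]
        exact (min_le_right _ _).trans (round_le x m)
  obtain ⟨δ, hδ0, hδ⟩ := hδ
  obtain ⟨P, hP⟩ := exists_nat_gt (1 / δ)
  have hP0 : (0 : ℝ) < P := lt_trans (by positivity) hP
  have hP1 : 0 < P := by exact_mod_cast hP0
  obtain ⟨x, hx1, hx2⟩ := Real.exists_rat_abs_sub_le_and_den_le α (n := P) hP1
  have hq0 : 0 < x.den := x.den_pos
  have hqr : (0 : ℝ) < x.den := by exact_mod_cast hq0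
  have hqP : (x.den : ℝ) ≤ P := by exact_mod_cast hx2
  have hxq : (x : ℝ) = (x.num : ℝ) / x.den := Rat.cast_def x
  have happ : |(x.den : ℝ) * α - x.num| ≤ 1 / ((P : ℝ) + 1) := by
    rw [hxq] at hx1
    have e : (x.den : ℝ) * α - x.num = x.den * (α - x.num / x.den) := by field_simp
    rw [e, abs_mul, abs_of_pos hqr]
    calc (x.den : ℝ) * |α - x.num / x.den| ≤ x.den * (1 / (((P : ℝ) + 1) * x.den)) :=
          mul_le_mul_of_nonneg_left hx1 hqr.le
      _ = 1 / ((P : ℝ) + 1) := by field_simp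
  have hcop : IsCoprime x.num (x.den : ℤ) := by
    rw [Int.isCoprime_iff_gcd_eq_one]
    have := x.reduced
    rw [Int.gcd_eq_natAbs]
    simpa using this
  refine ⟨x.den, x.num, ?_, hq0, hcop, happ.trans (one_div_le_one_div_of_le hqr (by linarith))⟩
  by_contra hcon
  have h1 := hδ x.den hq0 (by omega) x.num
  have h2 : 1 / ((P : ℝ) + 1) < δ := by
    rw [div_lt_iff₀ (by positivity)]
    rw [div_lt_iff₀ hδ0] at hP
    nlinarith
  linarith

/-- EQUIDISTRIBUTION, uniformly in the interval -/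
theorem equi {α : ℝ} (hα : Irrational α) {η : ℝ} (hη : 0 < η) : ∃ K0 : ℕ, ∀ K : ℕ, K0 ≤ K → ∀ a b : ℝ,
    0 ≤ a → a ≤ b → b ≤ 1 → |(cnt α K a b : ℝ) - (b - a) * K| ≤ η * K := by
  obtain ⟨Q, hQ⟩ := exists_nat_gt (6 / η)
  obtain ⟨q, h, h1, h2, h3, h4⟩ := approx_large hα Q
  obtain ⟨K0, hK0⟩ := exists_nat_gt (2 * ((q : ℝ) + 3) / η)
  refine ⟨K0, ?_⟩
  intro K hK a b ha hab hb
  have hqr : (0 : ℝ) < q := by exact_mod_cast h2
  have hKr : (K0 : ℝ) ≤ K := by exact_mod_cast hK
  refine (kron_disc h2 h3 h4 K a b ha hab hb).trans ?_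
  have h5 : 6 / η < q := hQ.trans (by exact_mod_cast h1)
  rw [div_lt_iff₀ hη] at h5 hK0
  have hK' : (0 : ℝ) ≤ K := Nat.cast_nonneg _
  have h6 : 3 * (K : ℝ) / q ≤ η / 2 * K := by
    rw [div_le_iff₀ hqr]
    nlinarith
  have h7 : (q : ℝ) + 3 ≤ η / 2 * K := by nlinarith
  linarith

/-! ### powers of 3 -/

theorem irr : Irrational (Real.logb 2 3) := by
  rw [irrational_iff_ne_rational]
  intro a b hb h
  have l3 : 0 < Real.log 3 := Real.log_pos (by norm_num)
  have l2 : 0 < Real.log 2 := Real.log_pos (by norm_num)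
  rw [Real.logb, div_eq_div_iff l2.ne' (by exact_mod_cast hb)] at h
  have h1 : ((b.natAbs : ℕ) : ℝ) * Real.log 3 = ((a.natAbs : ℕ) : ℝ) * Real.log 2 := by
    have h2 : |(b : ℝ)| * Real.log 3 = |(a : ℝ)| * Real.log 2 := by
      have h3 : (b : ℝ) * Real.log 3 = a * Real.log 2 := by linarith
      have := congrArg abs h3
      rwa [abs_mul, abs_mul, abs_of_pos l3, abs_of_pos l2] at this
    rw [Nat.cast_natAbs, Nat.cast_natAbs]
    push_cast
    exact h2
  have hu1 : 1 ≤ b.natAbs := Int.natAbs_pos.2 hb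
  generalize b.natAbs = p at h1 hu1
  generalize a.natAbs = q at h1
  have h2 : (3 : ℝ) ^ p = 2 ^ q := by
    apply Real.log_injOn_pos (by simp) (by simp)
    rw [Real.log_pow, Real.log_pow]; exact h1
  have h3 : 3 ^ p = 2 ^ q := by exact_mod_cast h2
  rcases Nat.eq_zero_or_pos q with hq | hq
  · rw [hq, pow_zero] at h3
    have : 3 ^ 1 ≤ 3 ^ p := Nat.pow_le_pow_right (by norm_num) hu1
    omega
  · have h4 : 3 ^ p % 2 = 1 := by rw [Nat.pow_mod]; simp
    have h5 : 2 ^ q % 2 = 0 := by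
      obtain ⟨r, rfl⟩ := Nat.exists_eq_add_of_le hq
      rw [pow_add]; simp
    omega

theorem logb_lam (D : ℕ) : Real.logb 2 (lam D) = Int.fract ((D : ℝ) * Real.logb 2 3) := by
  have h1 : (D : ℝ) * Real.logb 2 3 = Real.logb 2 ((3 ^ D : ℕ) : ℝ) := by
    push_cast; rw [Real.logb_pow]
  have h2 : ⌊Real.logb 2 ((3 ^ D : ℕ) : ℝ)⌋ = (Nat.log 2 (3 ^ D) : ℤ) := by
    have h3 := Real.floor_logb_natCast (b := 2) (r := ((3 ^ D : ℕ) : ℝ)) (Nat.cast_nonneg _)
    rw [Int.log_natCast] at h3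
    exact_mod_cast h3
  rw [h1, Int.fract, h2, ← h1]
  unfold lam
  rw [Real.logb_div (by positivity) (by positivity), Real.logb_pow, Real.logb_pow,
    Real.logb_self_eq_one (by norm_num)]
  push_cast; ring

theorem lam_pos (D : ℕ) : 0 < lam D := by unfold lam; positivity

theorem lam_ge (D : ℕ) : 1 ≤ lam D := by
  unfold lam
  rw [one_le_div (by positivity)]
  exact_mod_cast Nat.pow_log_le_self 2 (by positivity)

theorem lam_lt (D : ℕ) : lam D < 2 := by
  unfold lam
  rw [div_lt_iff₀ (by positivity)]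
  have h1 := Nat.lt_pow_succ_log_self (b := 2) (by norm_num) (3 ^ D)
  rw [pow_succ] at h1
  have h2 : ((3 ^ D : ℕ) : ℝ) < ((2 ^ Nat.log 2 (3 ^ D) * 2 : ℕ) : ℝ) := by exact_mod_cast h1
  push_cast at h2
  linarith

/-! ### Abel summation -/

theorem abel (f v : ℕ → ℝ) (H : ℝ) (hv : ∀ i, v (i + 1) ≤ v i) (hv0 : ∀ i, 0 ≤ v i) (L : ℕ)
    (hS : ∀ m, m ≤ L → |∑ i ∈ range m, f i| ≤ H) : |∑ i ∈ range L, f i * v i| ≤ H * v 0 := by
  have hH : 0 ≤ H := (abs_nonneg _).trans (hS 0 (Nat.zero_le _))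
  have key : ∀ m, m ≤ L → |(∑ i ∈ range m, f i * v i) - (∑ i ∈ range m, f i) * v m| ≤ H * (v 0 - v m) := by
    intro m
    induction m with
    | zero => intro _; simp
    | succ m ih =>
      intro hm
      have e : (∑ i ∈ range (m + 1), f i * v i) - (∑ i ∈ range (m + 1), f i) * v (m + 1)
          = ((∑ i ∈ range m, f i * v i) - (∑ i ∈ range m, f i) * v m)
            + (∑ i ∈ range (m + 1), f i) * (v m - v (m + 1)) := by
        rw [sum_range_succ, sum_range_succ]; ring
      rw [e]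
      refine (abs_add_le _ _).trans ?_
      have h1 := ih (by omega)
      have h2 : |(∑ i ∈ range (m + 1), f i) * (v m - v (m + 1))| ≤ H * (v m - v (m + 1)) := by
        rw [abs_mul, abs_of_nonneg (sub_nonneg.2 (hv m))]
        exact mul_le_mul_of_nonneg_right (hS _ hm) (sub_nonneg.2 (hv m))
      linarith
  have h1 := key L le_rfl
  have h2 : |(∑ i ∈ range L, f i) * v L| ≤ H * v L := by
    rw [abs_mul, abs_of_nonneg (hv0 L)]
    exact mul_le_mul_of_nonneg_right (hS L le_rfl) (hv0 L)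
  have e : ∑ i ∈ range L, f i * v i = ((∑ i ∈ range L, f i * v i) - (∑ i ∈ range L, f i) * v L)
      + (∑ i ∈ range L, f i) * v L := by ring
  rw [e]
  refine (abs_add_le _ _).trans ?_
  linarith

/-- `log₂ (1 + 1/n)` -/
noncomputable def v (n : ℕ) : ℝ := Real.logb 2 (((n : ℝ) + 1) / n)

theorem v_le {n : ℕ} (hn : 1 ≤ n) : v n ≤ 2 / n := by
  have hn0 : (0 : ℝ) < n := by exact_mod_cast hn
  have l2 : 0 < Real.log 2 := Real.log_pos (by norm_num)
  unfold v
  rw [Real.logb, div_le_iff₀ l2]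
  have h1 : Real.log (((n : ℝ) + 1) / n) ≤ ((n : ℝ) + 1) / n - 1 := Real.log_le_sub_one_of_pos (by positivity)
  have h2 : ((n : ℝ) + 1) / n - 1 = 1 / n := by field_simp; ring
  have h3 := Real.log_two_gt_d9
  have h4 : 1 / (n : ℝ) ≤ 2 / n * Real.log 2 := by
    rw [div_mul_eq_mul_div]
    apply div_le_div_of_nonneg_right _ hn0.le
    linarith
  linarith

theorem v_nonneg {n : ℕ} (hn : 1 ≤ n) : 0 ≤ v n := by
  have hn0 : (0 : ℝ) < n := by exact_mod_cast hn
  unfold v
  apply Real.logb_nonneg (by norm_num)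
  rw [one_le_div hn0]; linarith

theorem v_anti {n : ℕ} (hn : 1 ≤ n) : v (n + 1) ≤ v n := by
  have hn0 : (0 : ℝ) < n := by exact_mod_cast hn
  unfold v
  apply Real.logb_le_logb_of_le (by norm_num) (by push_cast; positivity)
  push_cast
  rw [div_le_div_iff₀ (by positivity) hn0]
  nlinarith

/-- **BASE.** -/
theorem s_base : S_BASE := by
  intro f hf hM ε hε
  -- partial sums
  set F : ℕ → ℝ := fun N => ∑ n ∈ range N, f (n : ℕ) with hF
  have hM1 : ∀ᶠ N : ℕ in Filter.atTop, |F N / N| < ε / 32 := by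
    have := Metric.tendsto_nhds.1 hM (ε / 32) (by positivity)
    filter_upwards [this] with N hN
    rw [Real.dist_eq, sub_zero] at hN
    exact hN
  obtain ⟨n0, hn0⟩ := Filter.eventually_atTop.1 hM1
  have hFle : ∀ N : ℕ, n0 ≤ N → |F N| ≤ ε / 32 * N := by
    intro N hN
    rcases Nat.eq_zero_or_pos N with h | h
    · rw [h]; simp [hF]
    · have hNr : (0 : ℝ) < N := by exact_mod_cast h
      have h1 := hn0 N hN
      rw [abs_div, abs_of_pos hNr, div_lt_iff₀ hNr] at h1
      exact h1.le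
  refine ⟨max (n0 + 1) (16 / ε + 1), ?_, ?_⟩
  · refine le_trans ?_ (le_max_left _ _)
    have : (0 : ℝ) ≤ n0 := Nat.cast_nonneg _
    linarith
  intro z1 hz1
  set η : ℝ := ε / (4 * (z1 + 2)) with hη
  have hz1' : (1 : ℝ) ≤ z1 := by
    refine le_trans ?_ hz1
    refine le_trans ?_ (le_max_left _ _)
    have : (0 : ℝ) ≤ n0 := Nat.cast_nonneg _
    linarith
  have hη0 : 0 < η := by rw [hη]; positivity
  obtain ⟨K0, hK0⟩ := equi irr hη0
  refine ⟨max K0 1, ?_⟩
  intro K hK z hz0 hzz1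
  have hK1 : 1 ≤ K := (le_max_right _ _).trans hK
  have hKr : (0 : ℝ) < K := by exact_mod_cast hK1
  have hE := hK0 K ((le_max_left _ _).trans hK)
  have hzn : (n0 : ℝ) + 1 ≤ z := (le_max_left _ _).trans hz0
  have hze : 16 / ε + 1 ≤ z := (le_max_right _ _).trans hz0
  have hz1'' : (1 : ℝ) ≤ z := by
    have : (0 : ℝ) ≤ n0 := Nat.cast_nonneg _
    linarith
  have hzp : 0 < z := by linarith
  set A : ℕ := ⌈z⌉₊ with hA
  set B : ℕ := ⌊2 * z⌋₊ with hB
  have hA1 : z ≤ A := Nat.le_ceil z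
  have hA2 : (A : ℝ) < z + 1 := Nat.ceil_lt_add_one hzp.le
  have hB1 : (B : ℝ) ≤ 2 * z := Nat.floor_le (by positivity)
  have hB2 : 2 * z < B + 1 := Nat.lt_floor_add_one _
  have hAB : A ≤ B := by
    rw [hB, Nat.le_floor_iff (by positivity)]
    linarith
  have hA0 : 1 ≤ A := by
    have : (1 : ℝ) ≤ A := by linarith
    exact_mod_cast this
  have hB0 : z ≤ B := by
    have : (A : ℝ) ≤ B := by exact_mod_cast hAB
    linarith
  -- the natural numbers ⌊lam D z⌋
  set m : ℕ → ℕ := fun D => ⌊lam D * z⌋₊ with hm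
  have hmz : ∀ D, 0 ≤ lam D * z := fun D => mul_nonneg (lam_pos D).le hzp.le
  have hfm : ∀ D, f ⌊lam D * z⌋ = f (m D : ℕ) := by
    intro D; rw [hm]; simp only []; rw [Int.natCast_floor_eq_floor (hmz D)]
  have hmem : ∀ D ∈ range K, m D ∈ Ico (A - 1) (B + 1) := by
    intro D _
    rw [mem_Ico]
    have h1 := mul_le_mul_of_nonneg_right (lam_ge D) hzp.le
    have h2 := mul_lt_mul_of_pos_right (lam_lt D) hzp
    constructor
    · rw [hm]; simp only []
      rw [Nat.le_floor_iff (hmz D), Nat.cast_sub hA0]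
      push_cast; linarith
    · rw [hm]; simp only []
      rw [Nat.floor_lt (hmz D)]
      push_cast; linarith
  set c : ℕ → ℕ := fun n => #{D ∈ range K | m D = n} with hc
  have hsum : ∑ D ∈ range K, f ⌊lam D * z⌋ = ∑ n ∈ Ico (A - 1) (B + 1), f (n : ℕ) * c n := by
    simp only [hfm]
    rw [← sum_fiberwise_of_maps_to hmem]
    apply sum_congr rfl
    intro n _
    rw [sum_congr rfl (g := fun _ => f (n : ℕ)) (by
      intro D hD; rw [mem_filter] at hD; rw [hD.2])]
    rw [sum_const, nsmul_eq_mul, mul_comm]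
  -- characterisation
  have hchar : ∀ D n : ℕ, m D = n ↔ (n : ℝ) ≤ lam D * z ∧ lam D * z < n + 1 := by
    intro D n
    rw [hm]; simp only []
    exact Nat.floor_eq_iff (hmz D)
  have hlog1 : ∀ (D : ℕ) (x : ℝ), 0 < x → (x ≤ lam D * z ↔ Real.logb 2 (x / z) ≤ Int.fract ((D : ℝ) * Real.logb 2 3)) := by
    intro D x hx
    rw [← logb_lam, Real.logb_le_logb (by norm_num) (by positivity) (lam_pos D), div_le_iff₀ hzp]
  have hlog2 : ∀ (D : ℕ) (x : ℝ), 0 < x → (lam D * z < x ↔ Int.fract ((D : ℝ) * Real.logb 2 3) < Real.logb 2 (x / z)) := by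
    intro D x hx
    rw [← logb_lam, Real.logb_lt_logb_iff (by norm_num) (lam_pos D) (by positivity), lt_div_iff₀ hzp]
  -- interior
  have hint : ∀ n : ℕ, A ≤ n → n < B → |(c n : ℝ) - v n * K| ≤ η * K := by
    intro n h1 h2
    have hn0' : 1 ≤ n := hA0.trans h1
    have hnr : (0 : ℝ) < n := by exact_mod_cast hn0'
    have hAn : (A : ℝ) ≤ n := by exact_mod_cast h1
    have hnB : (n : ℝ) + 1 ≤ B := by exact_mod_cast h2
    have e1 : c n = cnt (Real.logb 2 3) K (Real.logb 2 (n / z)) (Real.logb 2 (((n : ℝ) + 1) / z)) := by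
      rw [hc]; simp only []
      unfold cnt
      congr 1
      apply filter_congr
      intro D _
      rw [hchar, hlog1 D n hnr, hlog2 D (n + 1) (by positivity)]
    have e2 : v n = Real.logb 2 (((n : ℝ) + 1) / z) - Real.logb 2 (n / z) := by
      unfold v
      rw [← Real.logb_div (by positivity) (by positivity)]
      congr 1
      field_simp
    rw [e1, e2]
    apply hE
    · apply Real.logb_nonneg (by norm_num)
      rw [one_le_div hzp]; linarith
    · apply Real.logb_le_logb_of_le (by norm_num) (by positivity)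
      apply div_le_div_of_nonneg_right _ hzp.le; linarith
    · rw [Real.logb_le_iff_le_rpow (by norm_num) (by positivity), Real.rpow_one, div_le_iff₀ hzp]
      linarith
  -- the ends
  have hbot : (c (A - 1) : ℝ) ≤ (η + 2 / z) * K := by
    have h1 : c (A - 1) ≤ cnt (Real.logb 2 3) K 0 (Real.logb 2 (A / z)) := by
      rw [hc]; simp only []
      unfold cnt
      apply card_le_card
      intro D hD
      rw [mem_filter] at hD ⊢
      refine ⟨hD.1, Int.fract_nonneg _, ?_⟩
      have h2 := ((hchar D (A - 1)).1 hD.2).2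
      rw [Nat.cast_sub hA0] at h2
      push_cast at h2
      rw [← hlog2 D A (by linarith)]
      linarith
    have hlb : Real.logb 2 (A / z) ≤ 2 / z := by
      have l2 : 0 < Real.log 2 := Real.log_pos (by norm_num)
      rw [Real.logb, div_le_iff₀ l2]
      have h1 : Real.log ((A : ℝ) / z) ≤ (A : ℝ) / z - 1 := Real.log_le_sub_one_of_pos (by positivity)
      have h2 : (A : ℝ) / z - 1 ≤ 1 / z := by
        rw [div_sub_one hzp.ne']
        apply div_le_div_of_nonneg_right _ hzp.le; linarith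
      have h3 := Real.log_two_gt_d9
      have h4 : 1 / z ≤ 2 / z * Real.log 2 := by
        rw [div_mul_eq_mul_div]
        apply div_le_div_of_nonneg_right _ hzp.le
        linarith
      linarith
    have h2 := hE 0 (Real.logb 2 (A / z)) le_rfl (by
      apply Real.logb_nonneg (by norm_num)
      rw [one_le_div hzp]; linarith) (by
      rw [Real.logb_le_iff_le_rpow (by norm_num) (by positivity), Real.rpow_one, div_le_iff₀ hzp]
      linarith)
    have h3 := (abs_le.1 h2).2
    have h4 : (c (A - 1) : ℝ) ≤ cnt (Real.logb 2 3) K 0 (Real.logb 2 (A / z)) := by exact_mod_cast h1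
    rw [sub_zero] at h3
    nlinarith
  have htop : (c B : ℝ) ≤ (η + 2 / z) * K := by
    have h1 : c B ≤ cnt (Real.logb 2 3) K (Real.logb 2 (B / z)) 1 := by
      rw [hc]; simp only []
      unfold cnt
      apply card_le_card
      intro D hD
      rw [mem_filter] at hD ⊢
      refine ⟨hD.1, ?_, Int.fract_lt_one _⟩
      have h2 := ((hchar D B).1 hD.2).1
      rw [← hlog1 D B (by linarith)]
      exact h2
    have hBp : (0 : ℝ) < B := by linarith
    have hlb : 1 - Real.logb 2 (B / z) ≤ 2 / z := by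
      have e1 : 1 - Real.logb 2 (B / z) = Real.logb 2 (2 * z / B) := by
        rw [Real.logb_div (by positivity) (by positivity), Real.logb_div (by positivity) (by positivity),
          Real.logb_mul (by norm_num) (by positivity), Real.logb_self_eq_one (by norm_num)]
        ring
      rw [e1]
      have l2 : 0 < Real.log 2 := Real.log_pos (by norm_num)
      rw [Real.logb, div_le_iff₀ l2]
      have h1 : Real.log (2 * z / B) ≤ 2 * z / B - 1 := Real.log_le_sub_one_of_pos (by positivity)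
      have h2 : 2 * z / B - 1 ≤ 1 / z := by
        rw [div_sub_one hBp.ne', div_le_div_iff₀ hBp hzp]
        nlinarith
      have h3 := Real.log_two_gt_d9
      have h4 : 1 / z ≤ 2 / z * Real.log 2 := by
        rw [div_mul_eq_mul_div]
        apply div_le_div_of_nonneg_right _ hzp.le
        linarith
      linarith
    have h2 := hE (Real.logb 2 (B / z)) 1 (by
      apply Real.logb_nonneg (by norm_num)
      rw [one_le_div hzp]; linarith) (by
      rw [Real.logb_le_iff_le_rpow (by norm_num) (by positivity), Real.rpow_one, div_le_iff₀ hzp]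
      linarith) le_rfl
    have h3 := (abs_le.1 h2).2
    have h4 : (c B : ℝ) ≤ cnt (Real.logb 2 3) K (Real.logb 2 (B / z)) 1 := by exact_mod_cast h1
    nlinarith
  -- split
  have hsplit : ∑ n ∈ Ico (A - 1) (B + 1), f (n : ℕ) * c n
      = f ((A - 1 : ℕ) : ℤ) * c (A - 1) + ∑ n ∈ Ico A B, f (n : ℕ) * c n + f (B : ℕ) * c B := by
    rw [sum_Ico_succ_top (by omega), sum_eq_sum_Ico_succ_bot (by omega), show A - 1 + 1 = A by omega]
  -- Abel summation for the interior
  have habel : |∑ n ∈ Ico A B, f (n : ℕ) * v n| ≤ ε / 4 := by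
    rw [sum_Ico_eq_sum_range]
    have h1 := abel (fun i => f ((A + i : ℕ) : ℤ)) (fun i => v (A + i)) (ε / 8 * z)
      (fun i => v_anti (n := A + i) (Nat.le_add_right_of_le hA0))
      (fun i => v_nonneg (n := A + i) (Nat.le_add_right_of_le hA0)) (B - A) (by
        intro k hk
        have e : ∑ i ∈ range k, f ((A + i : ℕ) : ℤ) = F (A + k) - F A := by
          simp only [hF]
          rw [sum_range_add]; ring
        rw [e]
        have hAn0 : n0 ≤ A := by
          have : (n0 : ℝ) ≤ A := by linarith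
          exact_mod_cast this
        have h2 := hFle (A + k) (by omega)
        have h3 := hFle A hAn0
        have h4 : ((A + k : ℕ) : ℝ) ≤ 2 * z := by
          refine le_trans ?_ hB1
          exact_mod_cast (show A + k ≤ B by omega)
        have h5 : (A : ℝ) ≤ 2 * z := by linarith
        refine (abs_sub _ _).trans ?_
        have h6 : ε / 32 * ((A + k : ℕ) : ℝ) ≤ ε / 32 * (2 * z) := mul_le_mul_of_nonneg_left h4 (by positivity)
        have h7 : ε / 32 * (A : ℝ) ≤ ε / 32 * (2 * z) := mul_le_mul_of_nonneg_left h5 (by positivity)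
        linarith)
    refine h1.trans ?_
    simp only [add_zero]
    have h2 := v_le hA0
    have h3 : 2 / (A : ℝ) ≤ 2 / z := div_le_div_of_nonneg_left (by norm_num) hzp hA1
    calc ε / 8 * z * v A ≤ ε / 8 * z * (2 / z) := mul_le_mul_of_nonneg_left (h2.trans h3) (by positivity)
      _ = ε / 4 := by field_simp; ring
  have hinterior : |∑ n ∈ Ico A B, f (n : ℕ) * c n| ≤ (ε / 4 + z * η) * K := by
    have e : ∑ n ∈ Ico A B, f (n : ℕ) * c n
        = (∑ n ∈ Ico A B, f (n : ℕ) * v n) * K + ∑ n ∈ Ico A B, f (n : ℕ) * ((c n : ℝ) - v n * K) := by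
      rw [sum_mul, ← sum_add_distrib]
      apply sum_congr rfl; intro n _; ring
    rw [e]
    refine (abs_add_le _ _).trans ?_
    have h1 : |(∑ n ∈ Ico A B, f (n : ℕ) * v n) * K| ≤ ε / 4 * K := by
      rw [abs_mul, abs_of_pos hKr]
      exact mul_le_mul_of_nonneg_right habel hKr.le
    have h2 : |∑ n ∈ Ico A B, f (n : ℕ) * ((c n : ℝ) - v n * K)| ≤ z * η * K := by
      refine (abs_sum_le_sum_abs _ _).trans ?_
      have h3 : ∀ n ∈ Ico A B, |f (n : ℕ) * ((c n : ℝ) - v n * K)| ≤ η * K := by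
        intro n hn
        rw [mem_Ico] at hn
        rw [abs_mul]
        have h4 := hint n hn.1 hn.2
        calc |f (n : ℕ)| * |(c n : ℝ) - v n * K| ≤ 1 * (η * K) :=
              mul_le_mul (hf _) h4 (abs_nonneg _) (by norm_num)
          _ = η * K := one_mul _
      refine (sum_le_sum h3).trans ?_
      rw [sum_const, Nat.card_Ico, nsmul_eq_mul, Nat.cast_sub hAB]
      have h5 : (B : ℝ) - A ≤ z := by linarith
      calc ((B : ℝ) - A) * (η * K) ≤ z * (η * K) := mul_le_mul_of_nonneg_right h5 (by positivity)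
        _ = z * η * K := by ring
    linarith
  -- conclusion
  unfold AK
  rw [hsum, hsplit, abs_div, abs_of_pos hKr, div_le_iff₀ hKr]
  have t1 : |f ((A - 1 : ℕ) : ℤ) * c (A - 1)| ≤ (η + 2 / z) * K := by
    rw [abs_mul, Nat.abs_cast]
    calc |f ((A - 1 : ℕ) : ℤ)| * (c (A - 1) : ℝ) ≤ 1 * ((η + 2 / z) * K) :=
          mul_le_mul (hf _) hbot (Nat.cast_nonneg _) (by norm_num)
      _ = _ := one_mul _
  have t2 : |f (B : ℕ) * c B| ≤ (η + 2 / z) * K := by
    rw [abs_mul, Nat.abs_cast]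
    calc |f (B : ℕ)| * (c B : ℝ) ≤ 1 * ((η + 2 / z) * K) :=
          mul_le_mul (hf _) htop (Nat.cast_nonneg _) (by norm_num)
      _ = _ := one_mul _
  have t3 : |f ((A - 1 : ℕ) : ℤ) * c (A - 1) + ∑ n ∈ Ico A B, f (n : ℕ) * c n + f (B : ℕ) * c B|
      ≤ (η + 2 / z) * K + (ε / 4 + z * η) * K + (η + 2 / z) * K := by
    refine (abs_add_le _ _).trans (add_le_add ((abs_add_le _ _).trans (add_le_add t1 hinterior)) t2)
  refine t3.trans ?_
  rw [← add_mul, ← add_mul]
  apply mul_le_mul_of_nonneg_right _ hKr.le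
  have s1 : (z + 2) * η ≤ ε / 4 := by
    rw [hη, mul_div_assoc', div_le_div_iff₀ (by positivity) (by norm_num)]
    nlinarith
  have s2 : 4 / z ≤ ε / 4 := by
    rw [div_le_div_iff₀ hzp (by norm_num)]
    have h1 : 16 / ε ≤ z := by linarith
    rw [div_le_iff₀ hε] at h1
    nlinarith
  have s3 : 2 / z + 2 / z = 4 / z := by ring
  rw [add_mul] at s1
  linarith

end Pool.Agent.KS6_24.LN.BASE
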