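import Pool.Agent.KS6_24.LN.Defs

/-!
PROJECT LN, job BASE (helper76): `base : S_BASE`.
Weyl equidistribution of `D log_2 3` mod 1, uniform in intervals, and Abel summation.
-/

set_option autoImplicit false

namespace Pool.Agent.KS6_24.LN.Base

open Finset Filter Topology Pool.Agent.KS6_24.LN

/-! ### Weyl equidistribution -/

noncomputable def avg (θ : ℝ) (K : ℕ) (F : C(AddCircle (1:ℝ), ℂ)) : ℂ :=
  (∑ D ∈ range K, F ((D * θ : ℝ) : AddCircle (1:ℝ))) / K

noncomputable def I1 (F : C(AddCircle (1:ℝ), ℂ)) : ℂ := ∫ u in (0:ℝ)..1, F ((u : ℝ) : AddCircle (1:ℝ))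

lemma cont_coe (F : C(AddCircle (1:ℝ), ℂ)) : Continuous (fun u : ℝ => F ((u : ℝ) : AddCircle (1:ℝ))) :=
  F.continuous.comp (AddCircle.continuous_mk' 1)

lemma avg_norm_le (θ : ℝ) (K : ℕ) (F : C(AddCircle (1:ℝ), ℂ)) : ‖avg θ K F‖ ≤ ‖F‖ := by
  unfold avg
  rcases Nat.eq_zero_or_pos K with h | h
  · subst h; simp
  · rw [norm_div, Complex.norm_natCast, div_le_iff₀ (by exact_mod_cast h)]
    calc ‖∑ D ∈ range K, F ((D * θ : ℝ) : AddCircle (1:ℝ))‖ 
        ≤ ∑ D ∈ range K, ‖F ((D * θ : ℝ) : AddCircle (1:ℝ))‖ := norm_sum_le _ _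
      _ ≤ ∑ D ∈ range K, ‖F‖ := Finset.sum_le_sum fun _ _ => F.norm_coe_le_norm _
      _ = ‖F‖ * K := by simp [mul_comm]

lemma I1_norm_le (F : C(AddCircle (1:ℝ), ℂ)) : ‖I1 F‖ ≤ ‖F‖ := by
  unfold I1
  have := intervalIntegral.norm_integral_le_of_norm_le_const (a := (0:ℝ)) (b := 1) (C := ‖F‖)
    (f := fun u : ℝ => F ((u : ℝ) : AddCircle (1:ℝ))) (fun u _ => F.norm_coe_le_norm _)
  simpa using this

lemma avg_add (θ : ℝ) (K : ℕ) (F G : C(AddCircle (1:ℝ), ℂ)) : avg θ K (F + G) = avg θ K F + avg θ K G := by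
  simp [avg, Finset.sum_add_distrib, add_div]

lemma avg_smul (θ : ℝ) (K : ℕ) (c : ℂ) (F : C(AddCircle (1:ℝ), ℂ)) : avg θ K (c • F) = c * avg θ K F := by
  simp [avg, ← Finset.mul_sum, mul_div_assoc]

lemma I1_add (F G : C(AddCircle (1:ℝ), ℂ)) : I1 (F + G) = I1 F + I1 G := by
  unfold I1
  rw [← intervalIntegral.integral_add ((cont_coe F).intervalIntegrable _ _) ((cont_coe G).intervalIntegrable _ _)]
  rfl

lemma I1_smul (c : ℂ) (F : C(AddCircle (1:ℝ), ℂ)) : I1 (c • F) = c * I1 F := by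
  unfold I1
  rw [← intervalIntegral.integral_const_mul]
  rfl

lemma four (θ : ℝ) (hθ : ∀ n : ℤ, n ≠ 0 → ∀ k : ℤ, (n : ℝ) * θ ≠ k) (n : ℤ) :
    Tendsto (fun K : ℕ => avg θ K (fourier n)) atTop (𝓝 (I1 (fourier n))) := by
  by_cases hn : n = 0
  · subst hn
    have h1 : I1 (fourier 0 : C(AddCircle (1:ℝ), ℂ)) = 1 := by simp [I1]
    rw [h1]
    apply tendsto_const_nhds.congr'
    filter_upwards [eventually_gt_atTop 0] with K hK
    have hK' : (K : ℂ) ≠ 0 := by exact_mod_cast hK.ne'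
    simp [avg, hK']
  · have h1 : I1 (fourier n : C(AddCircle (1:ℝ), ℂ)) = 0 := by
      have hc : (2 * Real.pi * Complex.I * n : ℂ) ≠ 0 := by
        have : (n : ℂ) ≠ 0 := by exact_mod_cast hn
        simp [this, Real.pi_ne_zero]
      have := integral_exp_mul_complex (a := 0) (b := 1) hc
      have h2 : I1 (fourier n : C(AddCircle (1:ℝ), ℂ)) = ∫ x in (0:ℝ)..1, Complex.exp (2 * Real.pi * Complex.I * n * x) := by
        unfold I1
        apply intervalIntegral.integral_congr
        intro u _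
        simp only [fourier_coe_apply]
        simp
      rw [h2, this]
      have h3 : Complex.exp (2 * Real.pi * Complex.I * n * (1:ℝ)) = 1 := by
        rw [Complex.exp_eq_one_iff]
        exact ⟨n, by push_cast; ring⟩
      rw [h3]; simp
    rw [h1]
    set w : ℂ := Complex.exp (2 * Real.pi * Complex.I * (n * θ : ℝ)) with hw
    have hw1 : w ≠ 1 := by
      intro h
      rw [hw, Complex.exp_eq_one_iff] at h
      obtain ⟨m, hm⟩ := h
      have : ((n * θ : ℝ) : ℂ) = m := by
        have h2 : (2 * Real.pi * Complex.I : ℂ) ≠ 0 := by simp [Real.pi_ne_zero]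
        apply mul_left_cancel₀ h2
        rw [hm]; ring
      exact hθ n hn m (by exact_mod_cast this)
    have hwn : ‖w‖ = 1 := by
      rw [hw, show (2 * Real.pi * Complex.I * (n * θ : ℝ) : ℂ) = ((2 * Real.pi * (n * θ) : ℝ) : ℂ) * Complex.I by push_cast; ring]
      exact Complex.norm_exp_ofReal_mul_I _
    have hav : ∀ K : ℕ, avg θ K (fourier n) = ((w ^ K - 1) / (w - 1)) / K := by
      intro K
      unfold avg
      rw [← geom_sum_eq hw1]
      congr 1
      apply Finset.sum_congr rfl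
      intro D _
      rw [fourier_coe_apply, hw, ← Complex.exp_nat_mul]
      congr 1
      push_cast; ring
    apply squeeze_zero_norm (a := fun K : ℕ => (2 / ‖w - 1‖) / K)
    · intro K
      rw [hav, norm_div, norm_div, Complex.norm_natCast]
      gcongr
      calc ‖w ^ K - 1‖ ≤ ‖w ^ K‖ + ‖(1:ℂ)‖ := norm_sub_le _ _
        _ = 2 := by rw [norm_pow, hwn]; norm_num
    · exact tendsto_const_div_atTop_nhds_zero_nat _

theorem weyl (θ : ℝ) (hθ : ∀ n : ℤ, n ≠ 0 → ∀ k : ℤ, (n : ℝ) * θ ≠ k) (F : C(AddCircle (1:ℝ), ℂ)) :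
    Tendsto (fun K : ℕ => avg θ K F) atTop (𝓝 (I1 F)) := by
  have hspan : ∀ G ∈ Submodule.span ℂ (Set.range (@fourier 1)),
      Tendsto (fun K : ℕ => avg θ K G) atTop (𝓝 (I1 G)) := by
    intro G hG
    induction hG using Submodule.span_induction with
    | mem x h => obtain ⟨n, rfl⟩ := h; exact four θ hθ n
    | zero =>
      have h0 : I1 (0 : C(AddCircle (1:ℝ), ℂ)) = 0 := by simp [I1]
      have h1 : ∀ K, avg θ K (0 : C(AddCircle (1:ℝ), ℂ)) = 0 := by intro K; simp [avg]
      simp only [h0, h1]; exact tendsto_const_nhds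
    | add x y _ _ hx hy =>
      simp only [avg_add, I1_add]; exact hx.add hy
    | smul a x _ hx =>
      simp only [avg_smul, I1_smul]; exact hx.const_mul a
  have hd : F ∈ (Submodule.span ℂ (Set.range (@fourier 1))).topologicalClosure := by
    rw [span_fourier_closure_eq_top]; trivial
  have hd' : F ∈ closure (Submodule.span ℂ (Set.range (@fourier 1)) : Set C(AddCircle (1:ℝ), ℂ)) := hd
  rw [Metric.mem_closure_iff] at hd'
  rw [Metric.tendsto_atTop]
  intro ε hε
  obtain ⟨G, hG, hFG⟩ := hd' (ε / 3) (by positivity)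
  obtain ⟨K0, hK0⟩ := (Metric.tendsto_atTop.1 (hspan G hG)) (ε / 3) (by positivity)
  refine ⟨K0, fun K hK => ?_⟩
  have h1 := hK0 K hK
  rw [dist_eq_norm] at *
  have e1 : avg θ K F = avg θ K (F - G) + avg θ K G := by rw [← avg_add]; simp
  have e2 : I1 F = I1 (F - G) + I1 G := by rw [← I1_add]; simp
  rw [e1, e2]
  have h2 := avg_norm_le θ K (F - G)
  have h3 := I1_norm_le (F - G)
  calc ‖avg θ K (F - G) + avg θ K G - (I1 (F - G) + I1 G)‖ 
      = ‖avg θ K (F - G) - I1 (F - G) + (avg θ K G - I1 G)‖ := by congr 1; ring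
    _ ≤ ‖avg θ K (F - G)‖ + ‖I1 (F - G)‖ + ‖avg θ K G - I1 G‖ := by
        refine (norm_add_le _ _).trans ?_
        gcongr
        exact norm_sub_le _ _
    _ < ε / 3 + ε / 3 + ε / 3 := by
        linarith
    _ = ε := by ring


/-! ### intervals -/

noncomputable def trap (a b η u : ℝ) : ℝ := max 0 (min 1 (min ((u - a) / η) ((b - u) / η)))

lemma trap_cont (a b η : ℝ) : Continuous (trap a b η) := by
  unfold trap; fun_prop

lemma trap_nonneg (a b η u : ℝ) : 0 ≤ trap a b η u := le_max_left _ _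

lemma trap_le (a b η u : ℝ) (hη : 0 < η) : trap a b η u ≤ if a ≤ u ∧ u < b then 1 else 0 := by
  unfold trap
  split_ifs with h
  · exact max_le zero_le_one (min_le_left _ _)
  · apply max_le le_rfl
    rw [not_and_or, not_le, not_lt] at h
    rcases h with h | h
    · refine (min_le_right _ _).trans ((min_le_left _ _).trans ?_)
      exact (div_nonpos_of_nonpos_of_nonneg (by linarith) hη.le)
    · refine (min_le_right _ _).trans ((min_le_right _ _).trans ?_)
      exact (div_nonpos_of_nonpos_of_nonneg (by linarith) hη.le)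

lemma trap_ge (a b η u : ℝ) (hη : 0 < η) (h1 : a + η ≤ u) (h2 : u ≤ b - η) : 1 ≤ trap a b η u := by
  unfold trap
  apply le_max_of_le_right
  refine le_min le_rfl (le_min ?_ ?_)
  · rw [le_div_iff₀ hη]; linarith
  · rw [le_div_iff₀ hη]; linarith

lemma trap_int (a b η : ℝ) (ha : 0 ≤ a) (hb : b ≤ 1) (hη : 0 < η) :
    b - a - 2 * η ≤ ∫ u in (0:ℝ)..1, trap a b η u := by
  by_cases h : b - a - 2 * η ≤ 0
  · refine h.trans ?_
    exact intervalIntegral.integral_nonneg (by norm_num) (fun u _ => trap_nonneg _ _ _ _)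
  · push Not at h
    have h1 : ∫ u in (a + η)..(b - η), (1:ℝ) ≤ ∫ u in (a + η)..(b - η), trap a b η u := by
      apply intervalIntegral.integral_mono_on (by linarith)
      · exact intervalIntegrable_const
      · exact (trap_cont a b η).intervalIntegrable _ _
      · intro u hu; exact trap_ge a b η u hη hu.1 hu.2
    have h2 : ∫ u in (a + η)..(b - η), trap a b η u ≤ ∫ u in (0:ℝ)..1, trap a b η u := by
      apply intervalIntegral.integral_mono_interval (by linarith) (by linarith) (by linarith)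
      · exact Eventually.of_forall (fun u => trap_nonneg _ _ _ _)
      · exact (trap_cont a b η).intervalIntegrable _ _
    have h3 : ∫ u in (a + η)..(b - η), (1:ℝ) = b - a - 2 * η := by
      rw [intervalIntegral.integral_const]; simp; ring
    linarith

lemma coe_fract (x : ℝ) : ((Int.fract x : ℝ) : AddCircle (1:ℝ)) = (x : AddCircle (1:ℝ)) := by
  rw [← sub_eq_zero, ← AddCircle.coe_sub, AddCircle.coe_eq_zero_iff]
  exact ⟨-⌊x⌋, by rw [show Int.fract x = x - ⌊x⌋ from rfl]; simp⟩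

lemma trap_lim (θ : ℝ) (hθ : ∀ n : ℤ, n ≠ 0 → ∀ k : ℤ, (n : ℝ) * θ ≠ k) (a b η : ℝ) (ha : 0 ≤ a) (hb : b ≤ 1)
    (hη : 0 < η) :
    Tendsto (fun K : ℕ => (∑ D ∈ range K, trap a b η (Int.fract (D * θ))) / K) atTop
      (𝓝 (∫ u in (0:ℝ)..1, trap a b η u)) := by
  have h01 : trap a b η 0 = trap a b η 1 := by
    have h0 : trap a b η 0 = 0 := by
      apply le_antisymm _ (trap_nonneg _ _ _ _)
      unfold trap
      apply max_le le_rfl
      refine (min_le_right _ _).trans ((min_le_left _ _).trans ?_)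
      exact (div_nonpos_of_nonpos_of_nonneg (by linarith) hη.le)
    have h1 : trap a b η 1 = 0 := by
      apply le_antisymm _ (trap_nonneg _ _ _ _)
      unfold trap
      apply max_le le_rfl
      refine (min_le_right _ _).trans ((min_le_right _ _).trans ?_)
      exact (div_nonpos_of_nonpos_of_nonneg (by linarith) hη.le)
    rw [h0, h1]
  have : Fact ((0:ℝ) < 1) := ⟨zero_lt_one⟩
  let g : ℝ → ℂ := fun u => ((trap a b η u : ℝ) : ℂ)
  have hg : Continuous g := Complex.continuous_ofReal.comp (trap_cont a b η)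
  let F : C(AddCircle (1:ℝ), ℂ) := ⟨AddCircle.liftIco 1 0 g,
    AddCircle.liftIco_zero_continuous (by simp [g, h01]) hg.continuousOn⟩
  have hF : ∀ u ∈ Set.Ico (0:ℝ) 1, F (u : AddCircle (1:ℝ)) = g u := by
    intro u hu
    exact AddCircle.liftIco_zero_coe_apply (f := g) (by simpa using hu)
  have hav : ∀ K : ℕ, avg θ K F = (((∑ D ∈ range K, trap a b η (Int.fract (D * θ))) / K : ℝ) : ℂ) := by
    intro K
    unfold avg
    push_cast
    congr 1
    apply Finset.sum_congr rfl
    intro D _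
    rw [← coe_fract, hF _ ⟨Int.fract_nonneg _, Int.fract_lt_one _⟩]
  have hI : I1 F = ((∫ u in (0:ℝ)..1, trap a b η u : ℝ) : ℂ) := by
    unfold I1
    rw [← intervalIntegral.integral_ofReal]
    apply intervalIntegral.integral_congr_ae
    have : ∀ᵐ u : ℝ, u ≠ 1 := by
      simp [MeasureTheory.ae_iff]
    filter_upwards [this] with u hu hu2
    rw [Set.uIoc_of_le zero_le_one] at hu2
    exact hF u ⟨hu2.1.le, lt_of_le_of_ne hu2.2 hu⟩
  have := weyl θ hθ F
  rw [hI] at this
  simp only [hav] at this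
  exact_mod_cast (Complex.continuous_re.tendsto _).comp this

lemma cnt_ge (θ : ℝ) (hθ : ∀ n : ℤ, n ≠ 0 → ∀ k : ℤ, (n : ℝ) * θ ≠ k) (a b η : ℝ) (ha : 0 ≤ a) (hb : b ≤ 1)
    (hη : 0 < η) : ∀ᶠ K : ℕ in atTop, (b - a - η) * K ≤
      #((range K).filter (fun D : ℕ => a ≤ Int.fract (D * θ) ∧ Int.fract (D * θ) < b)) := by
  have h1 := trap_lim θ hθ a b (η / 4) ha hb (by positivity)
  have h2 := trap_int a b (η / 4) ha hb (by positivity)
  have h3 : b - a - η < ∫ u in (0:ℝ)..1, trap a b (η / 4) u := by linarith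
  filter_upwards [h1.eventually (lt_mem_nhds h3), eventually_gt_atTop 0] with K hK hK0
  have hK0' : (0:ℝ) < K := by exact_mod_cast hK0
  rw [lt_div_iff₀ hK0'] at hK
  refine hK.le.trans ?_
  rw [Finset.card_filter]
  push_cast
  apply Finset.sum_le_sum
  intro D _
  exact trap_le a b _ _ (by positivity)

lemma cnt_lim (θ : ℝ) (hθ : ∀ n : ℤ, n ≠ 0 → ∀ k : ℤ, (n : ℝ) * θ ≠ k) (v η : ℝ) (h0 : 0 ≤ v) (h1 : v ≤ 1)
    (hη : 0 < η) : ∀ᶠ K : ℕ in atTop, |(#((range K).filter (fun D : ℕ => Int.fract (D * θ) < v)) : ℝ) - v * K| ≤ η * K := by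
  filter_upwards [cnt_ge θ hθ 0 v η le_rfl h1 hη, cnt_ge θ hθ v 1 η h0 le_rfl hη] with K hK1 hK2
  have e1 : #((range K).filter (fun D : ℕ => (0:ℝ) ≤ Int.fract (D * θ) ∧ Int.fract (D * θ) < v))
      = #((range K).filter (fun D : ℕ => Int.fract (D * θ) < v)) := by
    congr 1
    apply Finset.filter_congr
    intro D _
    simp [Int.fract_nonneg]
  have e2 : #((range K).filter (fun D : ℕ => v ≤ Int.fract (D * θ) ∧ Int.fract (D * θ) < 1))
      = #((range K).filter (fun D : ℕ => ¬ Int.fract (D * θ) < v)) := by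
    congr 1
    apply Finset.filter_congr
    intro D _
    simp [Int.fract_lt_one]
  rw [e1] at hK1
  rw [e2] at hK2
  have e3 := Finset.card_filter_add_card_filter_not (s := range K) (fun D : ℕ => Int.fract (D * θ) < v)
  rw [card_range] at e3
  have e3' : (#((range K).filter (fun D : ℕ => Int.fract (D * θ) < v)) : ℝ) + #((range K).filter (fun D : ℕ => ¬ Int.fract (D * θ) < v)) = K := by
    exact_mod_cast e3
  rw [abs_le]
  constructor <;> nlinarith

/-- `min (max v 0) 1` -/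
noncomputable def cl (v : ℝ) : ℝ := min (max v 0) 1

lemma cnt_unif (θ : ℝ) (hθ : ∀ n : ℤ, n ≠ 0 → ∀ k : ℤ, (n : ℝ) * θ ≠ k) (η : ℝ) (hη : 0 < η) :
    ∃ K0 : ℕ, ∀ K : ℕ, K0 ≤ K → ∀ v : ℝ, |(#((range K).filter (fun D : ℕ => Int.fract (D * θ) < v)) : ℝ) - cl v * K| ≤ η * K := by
  obtain ⟨n, hn⟩ := exists_nat_gt (2 / η)
  have hn0 : (0:ℝ) < n := lt_trans (by positivity) hn
  have hall : ∀ᶠ K : ℕ in atTop, ∀ j ∈ range (n + 1), 
      |(#((range K).filter (fun D : ℕ => Int.fract (D * θ) < (j / n : ℝ))) : ℝ) - (j / n : ℝ) * K| ≤ (η / 2) * K := by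
    rw [Finset.eventually_all]
    intro j hj
    rw [mem_range] at hj
    apply cnt_lim θ hθ _ _ (by positivity) _ (by positivity)
    rw [div_le_one hn0]
    exact_mod_cast (by omega : j ≤ n)
  obtain ⟨K0, hK0⟩ := eventually_atTop.1 hall
  refine ⟨K0, fun K hK v => ?_⟩
  have hKn : (0:ℝ) ≤ K := Nat.cast_nonneg _
  have h := hK0 K hK
  have hmono : ∀ x y : ℝ, x ≤ y → (#((range K).filter (fun D : ℕ => Int.fract (D * θ) < x)) : ℝ) ≤ #((range K).filter (fun D : ℕ => Int.fract (D * θ) < y)) := by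
    intro x y hxy
    exact_mod_cast Finset.card_le_card (Finset.monotone_filter_right _ (fun D _ hD => lt_of_lt_of_le hD hxy))
  unfold cl
  by_cases hv0 : v ≤ 0
  · rw [max_eq_right hv0, min_eq_left zero_le_one]
    have : #((range K).filter (fun D : ℕ => Int.fract (D * θ) < v)) = 0 := by
      rw [Finset.card_eq_zero, Finset.filter_eq_empty_iff]
      intro D _ hD
      linarith [Int.fract_nonneg (D * θ)]
    rw [this]; simp; positivity
  push Not at hv0
  rw [max_eq_left hv0.le]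
  by_cases hv1 : 1 ≤ v
  · rw [min_eq_right hv1]
    have : #((range K).filter (fun D : ℕ => Int.fract (D * θ) < v)) = K := by
      rw [Finset.filter_true_of_mem, card_range]
      intro D _
      linarith [Int.fract_lt_one (D * θ)]
    rw [this]; simp; positivity
  push Not at hv1
  rw [min_eq_left hv1.le]
  set j := ⌊v * n⌋₊ with hj
  have hj1 : (j : ℝ) ≤ v * n := Nat.floor_le (by positivity)
  have hj2 : v * n < j + 1 := Nat.lt_floor_add_one _
  have hjn : j < n := by
    have : (j : ℝ) < n := lt_of_le_of_lt hj1 (by nlinarith)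
    exact_mod_cast this
  have ha := h j (mem_range.2 (by omega))
  have hb := h (j + 1) (mem_range.2 (by omega))
  have hx1 : (j / n : ℝ) ≤ v := by rw [div_le_iff₀ hn0]; exact hj1
  have hx2 : v ≤ ((j + 1 : ℕ) / n : ℝ) := by rw [le_div_iff₀ hn0]; push_cast; exact hj2.le
  have m1 := hmono _ _ hx1
  have m2 := hmono _ _ hx2
  have hinv : 1 / (n : ℝ) < η / 2 := by
    rw [div_lt_div_iff₀ hn0 (by norm_num)]
    rw [div_lt_iff₀ hη] at hn
    linarith
  have hx3 : ((j + 1 : ℕ) / n : ℝ) = j / n + 1 / n := by push_cast; ring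
  rw [abs_le] at ha hb ⊢
  rw [hx3] at hb hx2 m2
  have p1 : (v - j / n) * K ≤ (η / 2) * K := mul_le_mul_of_nonneg_right (by linarith) hKn
  have p2 : (j / n + 1 / n - v) * K ≤ (η / 2) * K := mul_le_mul_of_nonneg_right (by linarith) hKn
  constructor <;> nlinarith [ha.1, ha.2, hb.1, hb.2]

/-! ### powers of 3 -/

lemma irr (n : ℤ) (hn : n ≠ 0) (k : ℤ) : (n : ℝ) * Real.logb 2 3 ≠ k := by
  intro h
  have key : ∀ a b : ℕ, 0 < a → (a : ℝ) * Real.logb 2 3 ≠ b := by
    intro a b ha h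
    have h1 : Real.logb 2 ((3:ℝ) ^ a) = b := by rw [Real.logb_pow]; exact h
    have h2 : ((2:ℝ)) ^ (b:ℝ) = (3:ℝ) ^ a := by
      rw [← h1]; exact Real.rpow_logb (by norm_num) (by norm_num) (by positivity)
    rw [Real.rpow_natCast] at h2
    have h3 : 2 ^ b = 3 ^ a := by exact_mod_cast h2
    rcases Nat.eq_zero_or_pos b with hb | hb
    · subst hb
      have : 1 < 3 ^ a := Nat.one_lt_pow ha.ne' (by norm_num)
      omega
    · have h4 : Even (2 ^ b) := (Nat.even_pow.2 ⟨even_two, hb.ne'⟩)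
      rw [h3] at h4
      have h5 : Odd (3 ^ a) := Odd.pow (by decide)
      exact (Nat.not_even_iff_odd.2 h5) h4
  have hpos : 0 < Real.logb 2 3 := Real.logb_pos (by norm_num) (by norm_num)
  rcases lt_or_gt_of_ne hn with hneg | hpos'
  · have hk : k < 0 := by
      have : (k:ℝ) < 0 := by
        rw [← h]; exact mul_neg_of_neg_of_pos (by exact_mod_cast hneg) hpos
      exact_mod_cast this
    apply key n.natAbs k.natAbs (by omega)
    have e1 : ((n.natAbs : ℕ) : ℝ) = -n := by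
      rw [Nat.cast_natAbs, abs_of_neg hneg]; push_cast; ring
    have e2 : ((k.natAbs : ℕ) : ℝ) = -k := by
      rw [Nat.cast_natAbs, abs_of_neg hk]; push_cast; ring
    rw [e1, e2, ← h]; ring
  · have hk : 0 < k := by
      have : (0:ℝ) < k := by
        rw [← h]; exact mul_pos (by exact_mod_cast hpos') hpos
      exact_mod_cast this
    apply key n.natAbs k.natAbs (by omega)
    have e1 : ((n.natAbs : ℕ) : ℝ) = n := by
      rw [Nat.cast_natAbs, abs_of_pos hpos']
    have e2 : ((k.natAbs : ℕ) : ℝ) = k := by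
      rw [Nat.cast_natAbs, abs_of_pos hk]
    rw [e1, e2, ← h]

lemma lam_ge (D : ℕ) : 1 ≤ lam D := by
  unfold lam
  rw [le_div_iff₀ (by positivity), one_mul]
  exact_mod_cast Nat.pow_log_le_self 2 (by positivity)

lemma lam_lt (D : ℕ) : lam D < 2 := by
  unfold lam
  rw [div_lt_iff₀ (by positivity)]
  have := Nat.lt_pow_succ_log_self (b := 2) (by norm_num) (3 ^ D)
  rw [pow_succ] at this
  have h2 : ((3 ^ D : ℕ) : ℝ) < ((2 ^ Nat.log 2 (3 ^ D) * 2 : ℕ) : ℝ) := by exact_mod_cast this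
  push_cast at h2
  linarith

lemma lam_fract (D : ℕ) : Int.fract ((D : ℝ) * Real.logb 2 3) = Real.logb 2 (lam D) := by
  rw [Int.fract_eq_iff]
  have h1 := lam_ge D
  have h2 := lam_lt D
  refine ⟨Real.logb_nonneg (by norm_num) h1, ?_, (Nat.log 2 (3 ^ D) : ℤ), ?_⟩
  · rw [Real.logb_lt_iff_lt_rpow (by norm_num) (by linarith)]
    simpa using h2
  · unfold lam
    rw [Real.logb_div (by positivity) (by positivity), Real.logb_pow, Real.logb_pow]
    rw [Real.logb_self_eq_one (by norm_num)]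
    push_cast
    ring

lemma lam_lt_iff (D : ℕ) (z x : ℝ) (hz : 0 < z) (hx : 0 < x) :
    lam D * z < x ↔ Int.fract ((D : ℝ) * Real.logb 2 3) < Real.logb 2 (x / z) := by
  have h1 := lam_ge D
  rw [lam_fract, Real.logb_lt_logb_iff (by norm_num) (by linarith) (by positivity), lt_div_iff₀ hz]

/-- number of `D < K` with `lam D * z < x` -/
lemma cnt_eq (K : ℕ) (z x : ℝ) (hz : 0 < z) (hx : 0 < x) :
    #((range K).filter (fun D : ℕ => lam D * z < x))
      = #((range K).filter (fun D : ℕ => Int.fract (D * Real.logb 2 3) < Real.logb 2 (x / z))) := by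
  congr 1
  apply Finset.filter_congr
  intro D _
  exact lam_lt_iff D z x hz hx

lemma cnt_cell (K m : ℕ) (z : ℝ) (hz : 0 < z) :
    (#((range K).filter (fun D : ℕ => ⌊lam D * z⌋₊ = m)) : ℝ)
      = #((range K).filter (fun D : ℕ => lam D * z < (m + 1 : ℕ)))
        - #((range K).filter (fun D : ℕ => lam D * z < (m : ℕ))) := by
  have hsub : (range K).filter (fun D : ℕ => lam D * z < (m : ℕ)) ⊆ (range K).filter (fun D : ℕ => lam D * z < (m + 1 : ℕ)) := by
    apply Finset.monotone_filter_right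
    intro D _ hD
    push_cast; linarith
  have : (range K).filter (fun D : ℕ => ⌊lam D * z⌋₊ = m)
      = (range K).filter (fun D : ℕ => lam D * z < (m + 1 : ℕ)) \ (range K).filter (fun D : ℕ => lam D * z < (m : ℕ)) := by
    ext D
    simp only [Finset.mem_filter, Finset.mem_sdiff, not_and, not_lt]
    have h1 := lam_ge D
    rw [Nat.floor_eq_iff (by positivity)]
    push_cast
    constructor
    · rintro ⟨h, h2, h3⟩; exact ⟨⟨h, h3⟩, fun _ => h2⟩
    · rintro ⟨⟨h, h3⟩, h2⟩; exact ⟨h, h2 h, h3⟩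
  rw [this, Finset.card_sdiff_of_subset hsub, Nat.cast_sub (Finset.card_le_card hsub)]

/-! ### Abel summation -/

lemma abel (f L : ℕ → ℝ) (p : ℕ) (M : ℝ) (n : ℕ) (hpn : p ≤ n)
    (hM : ∀ k, p ≤ k → k ≤ n → |∑ m ∈ Ico p k, f m| ≤ M)
    (hL : ∀ k, p ≤ k → L (k + 1) ≤ L k) (hL0 : ∀ k, p ≤ k → 0 ≤ L k) :
    |∑ m ∈ Ico p n, f m * L m| ≤ M * L p := by
  have key : ∀ k, p ≤ k → k ≤ n →
      |∑ m ∈ Ico p k, f m * L m - (∑ m ∈ Ico p k, f m) * L k| ≤ M * (L p - L k) := by
    intro k hk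
    induction k, hk using Nat.le_induction with
    | base => intro _; simp
    | succ k hk ih =>
      intro hkn
      have h1 := ih (by omega)
      have h2 := hM (k + 1) (by omega) hkn
      rw [Finset.sum_Ico_succ_top hk, Finset.sum_Ico_succ_top hk]
      have e : ∑ m ∈ Ico p k, f m * L m + f k * L k - (∑ m ∈ Ico p k, f m + f k) * L (k + 1)
          = (∑ m ∈ Ico p k, f m * L m - (∑ m ∈ Ico p k, f m) * L k)
            + (∑ m ∈ Ico p (k + 1), f m) * (L k - L (k + 1)) := by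
        rw [Finset.sum_Ico_succ_top hk]; ring
      rw [e]
      refine (abs_add_le _ _).trans ?_
      rw [abs_mul, abs_of_nonneg (sub_nonneg.2 (hL k hk))]
      have h3 := mul_le_mul_of_nonneg_right h2 (sub_nonneg.2 (hL k hk))
      calc _ ≤ M * (L p - L k) + M * (L k - L (k + 1)) := add_le_add h1 h3
        _ = M * (L p - L (k + 1)) := by ring
  have h1 := key n hpn le_rfl
  have h2 := hM n hpn le_rfl
  have h3 : |(∑ m ∈ Ico p n, f m) * L n| ≤ M * L n := by
    rw [abs_mul, abs_of_nonneg (hL0 n hpn)]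
    exact mul_le_mul_of_nonneg_right h2 (hL0 n hpn)
  have e : ∑ m ∈ Ico p n, f m * L m = (∑ m ∈ Ico p n, f m * L m - (∑ m ∈ Ico p n, f m) * L n)
      + (∑ m ∈ Ico p n, f m) * L n := by ring
  rw [e]
  refine (abs_add_le _ _).trans ?_
  linarith

lemma growth (f : ℤ → ℝ) (hf : ∀ x, |f x| ≤ 1) (hm : MeanZero f) (δ : ℝ) (hδ : 0 < δ) :
    ∃ C : ℝ, 0 ≤ C ∧ ∀ n : ℕ, |∑ m ∈ range n, f (m : ℕ)| ≤ δ * n + C := by
  unfold MeanZero at hm
  obtain ⟨N, hN⟩ := (Metric.tendsto_atTop.1 hm) δ hδ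
  refine ⟨N, Nat.cast_nonneg _, fun n => ?_⟩
  by_cases h : n < N
  · have : |∑ m ∈ range n, f (m : ℕ)| ≤ n := by
      refine (Finset.abs_sum_le_sum_abs _ _).trans ?_
      calc _ ≤ ∑ m ∈ range n, (1:ℝ) := Finset.sum_le_sum fun m _ => hf _
        _ = n := by simp
    have h2 : (n:ℝ) ≤ N := by exact_mod_cast h.le
    have h3 : 0 ≤ δ * n := by positivity
    linarith
  · push Not at h
    rcases Nat.eq_zero_or_pos n with h0 | h0
    · subst h0; simp
    · have := hN n h
      have hn : (0:ℝ) < n := by exact_mod_cast h0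
      rw [Real.dist_eq, sub_zero, abs_div, abs_of_pos hn, div_lt_iff₀ hn] at this
      have : (0:ℝ) ≤ N := Nat.cast_nonneg _
      linarith

/-- `logb 2 ((m+1)/m)` -/
noncomputable def LL (m : ℕ) : ℝ := Real.logb 2 ((m + 1 : ℝ) / m)

lemma LL_nonneg (m : ℕ) (hm : 1 ≤ m) : 0 ≤ LL m := by
  unfold LL
  have : (0:ℝ) < m := by exact_mod_cast hm
  apply Real.logb_nonneg (by norm_num)
  rw [le_div_iff₀ this]; linarith

lemma LL_le (m : ℕ) (hm : 1 ≤ m) : LL m ≤ 2 / m := by
  unfold LL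
  have h0 : (0:ℝ) < m := by exact_mod_cast hm
  have h1 : Real.log ((m + 1 : ℝ) / m) ≤ 1 / m := by
    have := Real.log_le_sub_one_of_pos (x := (m + 1 : ℝ) / m) (by positivity)
    refine this.trans (le_of_eq ?_)
    field_simp; ring
  have h2 : (1/2 : ℝ) < Real.log 2 := by have := Real.log_two_gt_d9; linarith
  have h3 : 0 ≤ Real.log ((m + 1 : ℝ) / m) := by
    apply Real.log_nonneg
    rw [le_div_iff₀ h0]; linarith
  rw [Real.logb, div_le_iff₀ (by linarith)]
  calc Real.log ((m + 1 : ℝ) / m) ≤ 1 / m := h1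
    _ = 2 / m * (1 / 2) := by ring
    _ ≤ 2 / m * Real.log 2 := by gcongr

lemma LL_anti (m : ℕ) (hm : 1 ≤ m) : LL (m + 1) ≤ LL m := by
  unfold LL
  have h0 : (0:ℝ) < m := by exact_mod_cast hm
  apply Real.logb_le_logb_of_le (by norm_num)
  · push_cast; positivity
  · push_cast
    rw [div_le_div_iff₀ (by positivity) h0]
    nlinarith

lemma cl_diff (x y : ℝ) (h : x ≤ y) : 0 ≤ cl y - cl x ∧ cl y - cl x ≤ y - x := by
  unfold cl
  rcases le_total x 0 with hx | hx <;> rcases le_total y 0 with hy | hy <;>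
    rcases le_total x 1 with hx1 | hx1 <;> rcases le_total y 1 with hy1 | hy1 <;>
    simp_all <;> (try constructor) <;> (try linarith)

theorem base : S_BASE := by
  intro f hf hm ε hε
  obtain ⟨C, hC0, hC⟩ := growth f hf hm (ε / 64) (by positivity)
  refine ⟨16 * (C + 1) / ε + 2, by have : 0 ≤ 16 * (C + 1) / ε := by positivity
                                   linarith, fun z1 hz1 => ?_⟩
  have hz0' : 0 ≤ 16 * (C + 1) / ε := by positivity
  have hz1' : 2 ≤ z1 := by linarith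
  obtain ⟨K0, hK0⟩ := cnt_unif (Real.logb 2 3) irr (ε / (4 * (2 * z1 + 1))) (by positivity)
  refine ⟨K0 + 1, fun K hK z hz hzz => ?_⟩
  have hK1 : (0:ℝ) < K := by exact_mod_cast (by omega : 0 < K)
  have hu := hK0 K (by omega)
  have hzpos : 0 < z := by linarith
  have hz2 : 2 ≤ z := by linarith
  set η := ε / (4 * (2 * z1 + 1)) with hη
  have hηpos : 0 < η := by positivity
  set a := ⌊z⌋₊ with ha
  set b := ⌊2 * z⌋₊ with hb
  have ha1 : (a : ℝ) ≤ z := Nat.floor_le hzpos.le
  have ha2 : z < a + 1 := Nat.lt_floor_add_one z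
  have hb1 : (b : ℝ) ≤ 2 * z := Nat.floor_le (by positivity)
  have hb2 : 2 * z < b + 1 := Nat.lt_floor_add_one _
  have ha3 : 1 ≤ a := by
    have : (1:ℝ) < a + 1 := by linarith
    have : (0:ℝ) < a := by linarith
    exact_mod_cast this
  have hab : a + 1 ≤ b := by
    have : (a:ℝ) + 1 < b + 1 := by linarith
    have : (a:ℝ) < b := by linarith
    exact_mod_cast this
  have ha0 : (0:ℝ) < a := by exact_mod_cast ha3
  -- cells
  let N : ℕ → ℝ := fun m => #((range K).filter (fun D : ℕ => ⌊lam D * z⌋₊ = m))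
  have hsum : ∑ D ∈ range K, f ⌊lam D * z⌋ = ∑ m ∈ Icc a b, f (m : ℕ) * N m := by
    have hmaps : ∀ D ∈ range K, ⌊lam D * z⌋₊ ∈ Icc a b := by
      intro D _
      have h1 := lam_ge D
      have h2 := lam_lt D
      rw [mem_Icc]
      exact ⟨Nat.floor_le_floor (by nlinarith), Nat.floor_le_floor (by nlinarith)⟩
    rw [← Finset.sum_fiberwise_of_maps_to hmaps]
    apply Finset.sum_congr rfl
    intro m _
    have : ∀ D ∈ (range K).filter (fun D : ℕ => ⌊lam D * z⌋₊ = m), f ⌊lam D * z⌋ = f (m : ℕ) := by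
      intro D hD
      rw [mem_filter] at hD
      have h1 := lam_ge D
      rw [← hD.2, Int.natCast_floor_eq_floor (by positivity)]
    rw [Finset.sum_congr rfl this, Finset.sum_const, nsmul_eq_mul, mul_comm]
  let g : ℕ → ℝ := fun m => cl (Real.logb 2 ((m + 1 : ℕ) / z)) - cl (Real.logb 2 ((m : ℕ) / z))
  have hNg : ∀ m ∈ Icc a b, |N m - g m * K| ≤ 2 * η * K := by
    intro m hm
    rw [mem_Icc] at hm
    have hm0 : (0:ℝ) < m := by exact_mod_cast (by omega : 0 < m)
    have e1 := cnt_cell K m z hzpos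
    rw [cnt_eq K z _ hzpos (by positivity), cnt_eq K z _ hzpos hm0] at e1
    have h1 := hu (Real.logb 2 ((m + 1 : ℕ) / z))
    have h2 := hu (Real.logb 2 ((m : ℕ) / z))
    change |(#((range K).filter (fun D : ℕ => ⌊lam D * z⌋₊ = m)) : ℝ) - g m * K| ≤ 2 * η * K
    rw [e1]
    rw [abs_le] at h1 h2 ⊢
    simp only [g]
    constructor <;> nlinarith [h1.1, h1.2, h2.1, h2.2]
  -- limits
  have hglog : ∀ m : ℕ, a ≤ m → 0 ≤ g m ∧ g m ≤ LL m := by
    intro m hm
    have hm0 : (0:ℝ) < m := by exact_mod_cast (by omega : 0 < m)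
    have hle : Real.logb 2 ((m : ℕ) / z) ≤ Real.logb 2 ((m + 1 : ℕ) / z) := by
      apply Real.logb_le_logb_of_le (by norm_num) (by positivity)
      push_cast; gcongr; linarith
    have h1 := cl_diff _ _ hle
    refine ⟨h1.1, h1.2.trans (le_of_eq ?_)⟩
    unfold LL
    rw [← Real.logb_div (by positivity) (by positivity)]
    congr 1
    push_cast
    field_simp
  have hgin : ∀ m : ℕ, a + 1 ≤ m → m + 1 ≤ b → g m = LL m := by
    intro m hm1 hm2
    have hm0 : (0:ℝ) < m := by exact_mod_cast (by omega : 0 < m)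
    have h1 : (a + 1 : ℝ) ≤ m := by exact_mod_cast hm1
    have h2 : (m + 1 : ℝ) ≤ b := by exact_mod_cast hm2
    have c1 : ∀ x : ℝ, z ≤ x → x ≤ 2 * z → cl (Real.logb 2 (x / z)) = Real.logb 2 (x / z) := by
      intro x hx1 hx2
      have hx0 : 0 < x := by linarith
      unfold cl
      have k1 : 0 ≤ Real.logb 2 (x / z) := by
        apply Real.logb_nonneg (by norm_num)
        rw [le_div_iff₀ hzpos]; linarith
      have k2 : Real.logb 2 (x / z) ≤ 1 := by
        rw [Real.logb_le_iff_le_rpow (by norm_num) (by positivity), Real.rpow_one, div_le_iff₀ hzpos]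
        exact hx2
      rw [max_eq_left k1, min_eq_left k2]
    simp only [g]
    rw [c1 _ (by push_cast; linarith) (by push_cast; linarith), c1 _ (by linarith) (by linarith)]
    unfold LL
    rw [← Real.logb_div (by positivity) (by positivity)]
    congr 1
    push_cast
    field_simp
  -- main term
  have hmain : |∑ m ∈ Icc a b, f (m : ℕ) * g m| ≤ ε / 2 := by
    have hsplit : ∑ m ∈ Icc a b, f (m : ℕ) * g m
        = f (a : ℕ) * g a + ∑ m ∈ Ico (a + 1) b, f (m : ℕ) * LL m + f (b : ℕ) * g b := by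
      rw [← Finset.Ico_succ_right_eq_Icc]
      rw [Order.succ_eq_add_one]
      rw [Finset.sum_Ico_succ_top (by omega), Finset.sum_eq_sum_Ico_succ_bot (by omega)]
      congr 2
      apply Finset.sum_congr rfl
      intro m hm
      rw [mem_Ico] at hm
      rw [hgin m (by omega) (by omega)]
    rw [hsplit]
    have hM : ∀ k, a + 1 ≤ k → k ≤ b → |∑ m ∈ Ico (a + 1) k, f (m : ℕ)| ≤ 2 * ((ε / 64) * b + C) := by
      intro k hk1 hk2
      rw [Finset.sum_Ico_eq_sub _ hk1]
      have h1 := hC k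
      have h2 := hC (a + 1)
      have h3 : (ε / 64) * (k : ℝ) ≤ (ε / 64) * b := by gcongr
      have h4 : (ε / 64) * ((a + 1 : ℕ) : ℝ) ≤ (ε / 64) * b := by gcongr
      rw [abs_le] at h1 h2 ⊢
      constructor <;> linarith [h1.1, h1.2, h2.1, h2.2]
    have hA := abel (fun m => f (m : ℕ)) LL (a + 1) (2 * ((ε / 64) * b + C)) b hab hM
      (fun k hk => LL_anti k (by omega)) (fun k hk => LL_nonneg k (by omega))
    have t1 : |f (a : ℕ) * g a| ≤ 2 / a := by
      rw [abs_mul, abs_of_nonneg (hglog a le_rfl).1]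
      calc |f (a : ℕ)| * g a ≤ 1 * (2 / a) := mul_le_mul (hf _) ((hglog a le_rfl).2.trans (LL_le a ha3)) (hglog a le_rfl).1 zero_le_one
        _ = 2 / a := one_mul _
    have t2 : |f (b : ℕ) * g b| ≤ 2 / a := by
      rw [abs_mul, abs_of_nonneg (hglog b (by omega)).1]
      calc |f (b : ℕ)| * g b ≤ 1 * (2 / b) := mul_le_mul (hf _) ((hglog b (by omega)).2.trans (LL_le b (by omega))) (hglog b (by omega)).1 zero_le_one
        _ ≤ 2 / a := by rw [one_mul]; gcongr; omega
    have t3 : 2 * ((ε / 64) * b + C) * LL (a + 1) ≤ 2 * ((ε / 64) * (4 * a) + C) * (2 / a) := by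
      have hb4 : (b:ℝ) ≤ 4 * a := by
        have : (1:ℝ) ≤ a := by exact_mod_cast ha3
        linarith
      apply mul_le_mul _ _ (LL_nonneg _ (by omega)) (by positivity)
      · gcongr
      · refine (LL_le _ (by omega)).trans ?_
        gcongr
        linarith
    have t4 : 2 * ((ε / 64) * (4 * a) + C) * (2 / a) = ε / 4 + 4 * C / a := by
      field_simp; ring
    have t5 : (4 * C + 4) / a ≤ ε / 4 := by
      rw [div_le_iff₀ ha0]
      have : 16 * (C + 1) / ε ≤ a := by linarith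
      rw [div_le_iff₀ hε] at this
      linarith
    have t6 : (4 * C + 4) / a = 4 * C / a + 2 / a + 2 / a := by ring
    calc _ ≤ |f (a : ℕ) * g a| + |∑ m ∈ Ico (a + 1) b, f (m : ℕ) * LL m| + |f (b : ℕ) * g b| := by
          refine (abs_add_le _ _).trans ?_
          gcongr
          exact abs_add_le _ _
      _ ≤ ε / 2 := by linarith
  have hdiff : |∑ m ∈ Icc a b, f (m : ℕ) * N m - (∑ m ∈ Icc a b, f (m : ℕ) * g m) * K| ≤ (ε / 2) * K := by
    rw [Finset.sum_mul, ← Finset.sum_sub_distrib]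
    refine (Finset.abs_sum_le_sum_abs _ _).trans ?_
    have : ∀ m ∈ Icc a b, |f (m : ℕ) * N m - f (m : ℕ) * g m * K| ≤ 2 * η * K := by
      intro m hm
      rw [show f (m : ℕ) * N m - f (m : ℕ) * g m * K = f (m : ℕ) * (N m - g m * K) by ring, abs_mul]
      calc |f (m : ℕ)| * |N m - g m * K| ≤ 1 * (2 * η * K) := mul_le_mul (hf _) (hNg m hm) (abs_nonneg _) zero_le_one
        _ = 2 * η * K := one_mul _
    refine (Finset.sum_le_sum this).trans ?_
    rw [Finset.sum_const, nsmul_eq_mul, Nat.card_Icc]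
    have hc : ((b + 1 - a : ℕ) : ℝ) ≤ 2 * z1 + 1 := by
      have h1 : ((b + 1 - a : ℕ) : ℝ) ≤ ((b + 1 : ℕ) : ℝ) := by exact_mod_cast Nat.sub_le _ _
      refine h1.trans ?_
      push_cast
      linarith
    calc ((b + 1 - a : ℕ) : ℝ) * (2 * η * K) ≤ (2 * z1 + 1) * (2 * η * K) := by gcongr
      _ = (ε / 2) * K := by
        rw [hη]
        have : (2 * z1 + 1) ≠ 0 := by linarith
        field_simp; ring
  unfold AK
  rw [hsum, abs_div, abs_of_pos hK1, div_le_iff₀ hK1]
  have e : ∑ m ∈ Icc a b, f (m : ℕ) * N m = (∑ m ∈ Icc a b, f (m : ℕ) * N m - (∑ m ∈ Icc a b, f (m : ℕ) * g m) * K)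
    + (∑ m ∈ Icc a b, f (m : ℕ) * g m) * K := by ring
  rw [e]
  refine (abs_add_le _ _).trans ?_
  rw [abs_mul, abs_of_pos hK1]
  nlinarith

end Pool.Agent.KS6_24.LN.Base

namespace Pool.Agent.KS6_24.LN

/-- job BASE -/
theorem base : S_BASE := Base.base

end Pool.Agent.KS6_24.LN
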