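import Mathlib
import Pool.Agent.KS6_24.LN.Defs

/-! Job CI (helper56): averages over `[V, 2V]` from sums over blocks of integers, and the coalescence in
integral form. -/

set_option autoImplicit false

namespace Pool.Agent.KS6_24.LN

open Pool.Agent.H499R2.CO Pool.Agent.Y965.SI Finset MeasureTheory

theorem ii_of_bdd {F : ℝ → ℝ} (hF : Measurable F) {B : ℝ} (hFB : ∀ y, |F y| ≤ B) (a b : ℝ) :
    IntervalIntegrable F volume a b := by
  rw [intervalIntegrable_iff]
  apply Measure.integrableOn_of_bounded (M := B)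
  · rw [Set.uIoc]; exact measure_Ioc_lt_top.ne
  · exact hF.aestronglyMeasurable
  · exact Filter.Eventually.of_forall fun y => by rw [Real.norm_eq_abs]; exact hFB y

/-- the average over `[V, 2V]` is bounded by the averages over blocks of integers, shifted by `θ` -/
theorem av_le_block {F : ℝ → ℝ} (hF : Measurable F) {B : ℝ} (hF0 : ∀ y, 0 ≤ F y) (hFB : ∀ y, F y ≤ B)
    {P : ℕ} (hP : 1 ≤ P) {V : ℝ} (hV : (P : ℝ) ≤ V) {q : ℝ}
    (h : ∀ θ : ℝ, 0 ≤ θ → θ < 1 → ∀ a : ℕ, ∑ j ∈ range P, F (((a + j : ℕ) : ℝ) + θ) ≤ P * q) :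
    av V F ≤ 3 * q := by
  have hP1 : (1 : ℝ) ≤ P := by exact_mod_cast hP
  have hV1 : 1 ≤ V := by linarith
  have hii : ∀ a b : ℝ, IntervalIntegrable F volume a b := fun a b =>
    ii_of_bdd hF (B := B) (fun y => by rw [abs_of_nonneg (hF0 y)]; exact hFB y) a b
  have hq : 0 ≤ q := by
    have h1 := h 0 le_rfl zero_lt_one 0
    have h2 : 0 ≤ ∑ j ∈ range P, F (((0 + j : ℕ) : ℝ) + 0) := sum_nonneg fun j _ => hF0 _
    have h3 : 0 ≤ (P : ℝ) * q := h2.trans h1
    exact nonneg_of_mul_nonneg_right h3 (by linarith)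
  set a : ℕ := ⌊V⌋₊ with ha
  set m : ℕ := ⌈(V + 1) / P⌉₊ with hm
  have hm1 : V + 1 ≤ m * P := by
    have := Nat.le_ceil ((V + 1) / P)
    rw [← hm, div_le_iff₀ (by linarith)] at this
    exact this
  have hm2 : (m : ℝ) * P ≤ V + 1 + P := by
    have := Nat.ceil_lt_add_one (a := (V + 1) / P) (by positivity)
    rw [← hm] at this
    have h2 : (m : ℝ) * P ≤ ((V + 1) / P + 1) * P := mul_le_mul_of_nonneg_right this.le (by linarith)
    have h3 : ((V + 1) / P + 1) * P = V + 1 + P := by field_simp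
    linarith
  have ha1 : (a : ℝ) ≤ V := Nat.floor_le (by linarith)
  have ha2 : V < a + 1 := Nat.lt_floor_add_one V
  have hend : 2 * V ≤ (a : ℝ) + m * P := by linarith
  -- sums over `m` blocks
  have hblocks : ∀ θ : ℝ, 0 ≤ θ → θ < 1 → ∀ m' : ℕ,
      ∑ j ∈ range (m' * P), F (((a + j : ℕ) : ℝ) + θ) ≤ m' * (P * q) := by
    intro θ h0 h1 m'
    induction m' with
    | zero => simp
    | succ m' ih =>
      rw [Nat.succ_mul, sum_range_add]
      have h2 := h θ h0 h1 (a + m' * P)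
      have h3 : ∑ x ∈ range P, F (((a + (m' * P + x) : ℕ) : ℝ) + θ)
          = ∑ j ∈ range P, F (((a + m' * P + j : ℕ) : ℝ) + θ) := by
        apply sum_congr rfl; intro x _; rw [add_assoc]
      rw [h3]
      push_cast at *
      linarith
  have hint : ∫ y in V..2 * V, F y ≤ m * (P * q) := by
    have h1 : ∫ y in V..2 * V, F y ≤ ∫ y in (a : ℝ)..((a + m * P : ℕ) : ℝ), F y := by
      apply intervalIntegral.integral_mono_interval ha1 (by linarith) (by push_cast; exact hend)
        (Filter.Eventually.of_forall fun y => hF0 y) (hii _ _)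
    refine h1.trans ?_
    have h2 : ∫ y in (a : ℝ)..((a + m * P : ℕ) : ℝ), F y
        = ∑ j ∈ range (m * P), ∫ y in ((a + j : ℕ) : ℝ)..((a + (j + 1) : ℕ) : ℝ), F y := by
      have := intervalIntegral.sum_integral_adjacent_intervals (f := F) (μ := volume) (n := m * P)
        (a := fun j => ((a + j : ℕ) : ℝ)) (fun k _ => hii _ _)
      simpa using this.symm
    have h3 : ∀ j : ℕ, ∫ y in ((a + j : ℕ) : ℝ)..((a + (j + 1) : ℕ) : ℝ), F y
        = ∫ θ in (0 : ℝ)..1, F (((a + j : ℕ) : ℝ) + θ) := by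
      intro j
      rw [intervalIntegral.integral_comp_add_left (f := F)]
      congr 1
      · simp
      · push_cast; ring
    rw [h2]
    simp only [h3]
    rw [← intervalIntegral.integral_finsetSum]
    · have h4 : ∫ θ in (0 : ℝ)..1, ∑ j ∈ range (m * P), F (((a + j : ℕ) : ℝ) + θ)
          ≤ ∫ θ in (0 : ℝ)..1, (m * (P * q) : ℝ) := by
        apply intervalIntegral.integral_mono_on_of_le_Ioo zero_le_one
        · apply ii_of_bdd (B := ((m * P : ℕ) : ℝ) * B)
          · apply Finset.measurable_sum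
            intro j _
            exact hF.comp (measurable_const.add measurable_id)
          · intro y
            rw [abs_of_nonneg (sum_nonneg fun j _ => hF0 _)]
            calc ∑ j ∈ range (m * P), F (((a + j : ℕ) : ℝ) + y) ≤ ∑ j ∈ range (m * P), B :=
                  sum_le_sum fun j _ => hFB _
              _ = _ := by rw [sum_const, card_range, nsmul_eq_mul]
        · exact intervalIntegrable_const
        · intro θ hθ
          exact hblocks θ hθ.1.le hθ.2 m
      refine h4.trans (le_of_eq ?_)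
      rw [intervalIntegral.integral_const]; simp
    · intro j _
      apply ii_of_bdd (B := B)
      · exact hF.comp (measurable_const.add measurable_id)
      · intro y; rw [abs_of_nonneg (hF0 _)]; exact hFB _
  unfold av
  rw [div_le_iff₀ (by linarith)]
  refine hint.trans ?_
  have h5 : (m : ℝ) * (P * q) = (m * P) * q := by ring
  rw [h5]
  have h6 : (m : ℝ) * P ≤ 3 * V := by linarith
  calc (m : ℝ) * P * q ≤ (3 * V) * q := mul_le_mul_of_nonneg_right h6 hq
    _ = 3 * q * V := by ring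

theorem meas_floor (f : ℤ → ℝ) (g : ℝ → ℝ) (hg : Measurable g) : Measurable (fun y => f ⌊g y⌋) :=
  (Measurable.of_discrete (f := f)).comp (Int.measurable_floor.comp hg)

open Classical in
/-- the survivors in a block of length `2 ^ R` -/
theorem surv_block {d : ℤ} (hd : d % 2 = 1) (R : ℕ) (s : ℕ × ℤ) (a : ℤ) :
    ∑ j ∈ range (2 ^ R), (if surv d R s (a + (j : ℕ)) then (1 : ℝ) else 0) = 2 ^ R * q step (0, 0) R s := by
  rw [← count_surv hd]
  have h1 := sum_affine R (fun x : ℤ => if surv d R s x then (1 : ℝ) else 0)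
    (by intro x m; simp only [surv_periodic hd]) (a := 1) (by norm_num) a
  rw [← h1]
  apply sum_congr rfl
  intro j _
  rw [one_mul, add_comm]

theorem ci (d : ℤ) (hd : d = 1 ∨ d = -1) : S_CI d := by
  classical
  have hd2 : d % 2 = 1 := by rcases hd with rfl | rfl <;> decide
  have hdd : d * d = 1 := by rcases hd with rfl | rfl <;> norm_num
  obtain ⟨C0, hC0, hq⟩ := q_rate
  refine ⟨12 * C0, by positivity, ?_⟩
  intro f hf R hR V hV i u h hh
  have hVR : ((2 ^ R : ℕ) : ℝ) ≤ V := by push_cast; exact hV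
  have hρ := rho_nonneg R
  set Q : ℝ := C0 * √ (1 + (i : ℝ) ^ 2 + (i + u + 1 : ℕ)) * rho R with hQ
  have key : av V (fun y => |f ⌊y⌋ - f ⌊3 ^ i * y + h⌋|) ≤ 3 * (2 * Q) := by
    apply av_le_block (B := 2) (P := 2 ^ R) _ _ _ Nat.one_le_two_pow hVR
    · intro θ hθ0 hθ1 a
      set s : ℤ := ⌊3 ^ i * θ + h⌋ with hs
      have hsu : |((d * s : ℤ) : ℝ)| ≤ 4 ^ (i + u + 1) := by
        have e1 : |((d * s : ℤ) : ℝ)| = |(s : ℝ)| := by
          push_cast; rw [abs_mul]
          rcases hd with rfl | rfl <;> simp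
        rw [e1]
        have h1 : (s : ℝ) ≤ 3 ^ i * θ + h := Int.floor_le _
        have h2 : 3 ^ i * θ + h < s + 1 := Int.lt_floor_add_one _
        have h3 : (3 : ℝ) ^ i ≤ 4 ^ (i + u) := by
          calc (3 : ℝ) ^ i ≤ 4 ^ i := pow_le_pow_left₀ (by norm_num) (by norm_num) i
            _ ≤ 4 ^ (i + u) := pow_le_pow_right₀ (by norm_num) (by omega)
        have h4 : (4 : ℝ) ^ u ≤ 4 ^ (i + u) := pow_le_pow_right₀ (by norm_num) (by omega)
        have h5 : (1 : ℝ) ≤ 4 ^ (i + u) := one_le_pow₀ (by norm_num)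
        have h6 : (4 : ℝ) ^ (i + u + 1) = 4 * 4 ^ (i + u) := by rw [pow_succ]; ring
        have h7 : 0 ≤ (3 : ℝ) ^ i * θ := by positivity
        have h8 : (3 : ℝ) ^ i * θ ≤ 3 ^ i := by
          have : (3 : ℝ) ^ i * θ ≤ 3 ^ i * 1 := mul_le_mul_of_nonneg_left hθ1.le (by positivity)
          linarith
        rw [abs_le] at hh ⊢
        constructor <;> linarith [hh.1, hh.2]
      have hqs := hq R hR i (i + u + 1) (d * s) hsu
      have hterm : ∀ j : ℕ, |f ⌊((a + j : ℕ) : ℝ) + θ⌋ - f ⌊3 ^ i * (((a + j : ℕ) : ℝ) + θ) + h⌋|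
          ≤ 2 * (if surv d R (i, d * s) ((a : ℤ) + (j : ℕ)) then (1 : ℝ) else 0) := by
        intro j
        have e1 : ⌊((a + j : ℕ) : ℝ) + θ⌋ = ((a : ℤ) + (j : ℕ)) := by
          rw [Int.floor_eq_iff]; push_cast; constructor <;> linarith
        have e2 : ⌊3 ^ i * (((a + j : ℕ) : ℝ) + θ) + h⌋ = 3 ^ i * ((a : ℤ) + (j : ℕ)) + d * (d * s) := by
          rw [← mul_assoc, hdd, one_mul]
          have : 3 ^ i * (((a + j : ℕ) : ℝ) + θ) + h
              = (3 ^ i * θ + h) + ((3 ^ i * ((a : ℤ) + (j : ℕ)) : ℤ) : ℝ) := by push_cast; ring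
          rw [this, Int.floor_add_intCast, ← hs]; ring
        rw [e1, e2]
        split_ifs with hsv
        · have h1 := hf.1 ((a : ℤ) + (j : ℕ))
          have h2 := hf.1 (3 ^ i * ((a : ℤ) + (j : ℕ)) + d * (d * s))
          rw [abs_le] at h1 h2 ⊢
          constructor <;> linarith [h1.1, h1.2, h2.1, h2.2]
        · rw [hf.coal hd2 hsv, sub_self, abs_zero]; norm_num
      calc ∑ j ∈ range (2 ^ R), |f ⌊((a + j : ℕ) : ℝ) + θ⌋ - f ⌊3 ^ i * (((a + j : ℕ) : ℝ) + θ) + h⌋|
          ≤ ∑ j ∈ range (2 ^ R), 2 * (if surv d R (i, d * s) ((a : ℤ) + (j : ℕ)) then (1 : ℝ) else 0) :=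
            sum_le_sum fun j _ => hterm j
        _ = 2 * (2 ^ R * q step (0, 0) R (i, d * s)) := by rw [← mul_sum, surv_block hd2]
        _ ≤ 2 * (2 ^ R * Q) := by
            apply mul_le_mul_of_nonneg_left _ (by norm_num)
            apply mul_le_mul_of_nonneg_left _ (by positivity)
            exact hqs
        _ = ((2 ^ R : ℕ) : ℝ) * (2 * Q) := by push_cast; ring
    · exact ((meas_floor f (fun y => y) measurable_id).sub
        (meas_floor f (fun y => 3 ^ i * y + h) (by fun_prop))).abs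
    · intro y; exact abs_nonneg _
    · intro y
      have h1 := hf.1 ⌊y⌋
      have h2 := hf.1 ⌊3 ^ i * y + h⌋
      rw [abs_le] at h1 h2 ⊢
      constructor <;> linarith [h1.1, h1.2, h2.1, h2.2]
  refine key.trans ?_
  have hs2 : √ (1 + (i : ℝ) ^ 2 + (i + u + 1 : ℕ)) ≤ 2 * √ (1 + (i : ℝ) ^ 2 + u) := by
    rw [show (2 : ℝ) = √ (2 ^ 2) by rw [Real.sqrt_sq (by norm_num)], ← Real.sqrt_mul (by norm_num)]
    apply Real.sqrt_le_sqrt
    push_cast
    have h0 : (0 : ℝ) ≤ i := by positivity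
    have h1 : (0 : ℝ) ≤ u := by positivity
    nlinarith [sq_nonneg ((i : ℝ) - 1)]
  calc 3 * (2 * Q) = 6 * C0 * rho R * √ (1 + (i : ℝ) ^ 2 + (i + u + 1 : ℕ)) := by rw [hQ]; ring
    _ ≤ 6 * C0 * rho R * (2 * √ (1 + (i : ℝ) ^ 2 + u)) :=
        mul_le_mul_of_nonneg_left hs2 (by positivity)
    _ = _ := by ring

end Pool.Agent.KS6_24.LN
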