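import Mathlib
import Pool.Agent.KS6_24.LN.A
import Pool.Agent.KS6_24.LN.CI

/-! Job CO (helper56): the coarse lemma. -/

set_option autoImplicit false

namespace Pool.Agent.KS6_24.LN

open Pool.Agent.H499R2.CO Pool.Agent.Y965.SI Finset MeasureTheory

/-- distance between `T^t x` and `3 ^ od (x + θ) / 2 ^ t` -/
noncomputable def Dv (d : ℤ) (θ : ℝ) (t : ℕ) (x : ℤ) : ℝ :=
  |(((Tz d)^[t] x : ℤ) : ℝ) - 3 ^ (od d t x) * (x + θ) / 2 ^ t|

theorem Dv_nonneg (d : ℤ) (θ : ℝ) (t : ℕ) (x : ℤ) : 0 ≤ Dv d θ t x := abs_nonneg _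

theorem Dv_per {d : ℤ} (hd : d % 2 = 1) (θ : ℝ) (t : ℕ) (x u : ℤ) : Dv d θ t (x + 2 ^ t * u) = Dv d θ t x := by
  unfold Dv
  obtain ⟨h1, h2⟩ := iter_add hd t x u
  rw [h1, h2]
  congr 1
  push_cast
  field_simp
  ring

theorem Tz_real_even {d v : ℤ} (h : v % 2 = 0) : ((Tz d v : ℤ) : ℝ) = v / 2 := by
  rw [Tz_even h]
  obtain ⟨w, rfl⟩ : ∃ w, v = 2 * w := ⟨v / 2, by omega⟩
  rw [Int.mul_ediv_cancel_left _ (by norm_num)]; push_cast; ring

theorem Tz_real_odd {d v : ℤ} (hd : d % 2 = 1) (h : v % 2 = 1) : ((Tz d v : ℤ) : ℝ) = (3 * v + d) / 2 := by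
  rw [Tz_odd h]
  obtain ⟨w, hw⟩ : ∃ w, 3 * v + d = 2 * w := ⟨(3 * v + d) / 2, by omega⟩
  rw [hw, Int.mul_ediv_cancel_left _ (by norm_num)]
  have : (3 * (v : ℝ) + d) = 2 * w := by exact_mod_cast hw
  rw [this]; ring

theorem Dv_even {d : ℤ} (θ : ℝ) (t : ℕ) (x : ℤ) (h : (Tz d)^[t] x % 2 = 0) :
    Dv d θ (t + 1) x = Dv d θ t x / 2 := by
  unfold Dv
  rw [Function.iterate_succ_apply', Tz_real_even h, od_succ', if_neg (by omega), add_zero]
  have e : (((Tz d)^[t] x : ℤ) : ℝ) / 2 - 3 ^ od d t x * ((x : ℝ) + θ) / 2 ^ (t + 1)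
      = ((((Tz d)^[t] x : ℤ) : ℝ) - 3 ^ od d t x * ((x : ℝ) + θ) / 2 ^ t) / 2 := by
    rw [pow_succ]; field_simp
  rw [e, abs_div, abs_of_pos (show (0 : ℝ) < 2 by norm_num)]

theorem Dv_odd {d : ℤ} (hd : d = 1 ∨ d = -1) (θ : ℝ) (t : ℕ) (x : ℤ) (h : (Tz d)^[t] x % 2 = 1) :
    Dv d θ (t + 1) x ≤ (3 * Dv d θ t x + 1) / 2 := by
  have hd2 : d % 2 = 1 := by rcases hd with rfl | rfl <;> decide
  unfold Dv
  rw [Function.iterate_succ_apply', Tz_real_odd hd2 h, od_succ', if_pos h]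
  have e : (3 * (((Tz d)^[t] x : ℤ) : ℝ) + d) / 2 - 3 ^ (od d t x + 1) * ((x : ℝ) + θ) / 2 ^ (t + 1)
      = 3 / 2 * ((((Tz d)^[t] x : ℤ) : ℝ) - 3 ^ od d t x * ((x : ℝ) + θ) / 2 ^ t) + d / 2 := by
    rw [pow_succ, pow_succ]; field_simp; ring
  rw [e]
  refine (abs_add_le _ _).trans ?_
  rw [abs_mul, abs_of_pos (show (0 : ℝ) < 3 / 2 by norm_num)]
  have h1 : |(d : ℝ) / 2| = 1 / 2 := by
    rcases hd with rfl | rfl
    · norm_num
    · push_cast; rw [abs_div]; norm_num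
  rw [h1]; linarith

theorem pm_Dv {d : ℤ} (hd : d = 1 ∨ d = -1) {θ : ℝ} (h0 : 0 ≤ θ) (h1 : θ ≤ 1) (t : ℕ) :
    pm t (fun x => √ (Dv d θ t x)) ≤ 11 := by
  have hd2 : d % 2 = 1 := by rcases hd with rfl | rfl <;> decide
  induction t with
  | zero =>
    have : √ θ ≤ 1 := Real.sqrt_le_iff.2 ⟨by norm_num, by linarith⟩
    simp only [pm, Dv, od, pow_zero, range_one, sum_singleton, Function.iterate_zero, id, Nat.cast_zero,
      Int.cast_zero, zero_add, one_mul, div_one, zero_sub, abs_neg, abs_of_nonneg h0]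
    linarith
  | succ t ih =>
    rw [pm_succ]
    have key : ∀ x : ℤ, (√ (Dv d θ (t + 1) x) + √ (Dv d θ (t + 1) (x + 2 ^ t))) / 2
        ≤ 0.967 * √ (Dv d θ t x) + 0.3536 := by
      intro x
      have hper := Dv_per hd2 θ t x 1
      obtain ⟨hp1, hp2⟩ := iter_add hd2 t x 1
      rw [mul_one] at hper hp1 hp2
      have hodd := odd3 (od d t x)
      set D := Dv d θ t x with hD
      have hD0 : 0 ≤ D := Dv_nonneg _ _ _ _
      have hs0 := Real.sqrt_nonneg D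
      have hsq := Real.sq_sqrt hD0
      -- the two values
      have hA : √ (D / 2) ≤ 0.7072 * √ D := by
        apply Real.sqrt_le_iff.2
        refine ⟨by positivity, ?_⟩
        rw [mul_pow, hsq]; nlinarith
      have hB : √ ((3 * D + 1) / 2) ≤ 1.2248 * √ D + 0.7072 := by
        apply Real.sqrt_le_iff.2
        refine ⟨by positivity, ?_⟩
        nlinarith
      have hcase : ∀ y z : ℤ, Dv d θ t y = D → Dv d θ t z = D → (Tz d)^[t] y % 2 = 0 → (Tz d)^[t] z % 2 = 1 →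
          (√ (Dv d θ (t + 1) y) + √ (Dv d θ (t + 1) z)) / 2 ≤ 0.967 * √ D + 0.3536 := by
        intro y z hy hz hy2 hz2
        have e1 := Dv_even θ t y hy2
        have e2 := Dv_odd hd θ t z hz2
        rw [hy] at e1
        rw [hz] at e2
        have e3 : √ (Dv d θ (t + 1) z) ≤ √ ((3 * D + 1) / 2) := Real.sqrt_le_sqrt e2
        rw [e1]
        linarith
      rcases Int.emod_two_eq_zero_or_one ((Tz d)^[t] x) with h2 | h2
      · exact hcase x (x + 2 ^ t) rfl hper h2 (by rw [hp1]; omega)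
      · have := hcase (x + 2 ^ t) x hper rfl (by rw [hp1]; omega) h2
        rw [add_comm (√ (Dv d θ (t + 1) x))]
        exact this
    calc pm t (fun x => (√ (Dv d θ (t + 1) x) + √ (Dv d θ (t + 1) (x + 2 ^ t))) / 2)
        ≤ pm t (fun x => 0.967 * √ (Dv d θ t x) + 0.3536) := pm_mono key
      _ = 0.967 * pm t (fun x => √ (Dv d θ t x)) + 0.3536 := by
          rw [pm_add t (fun x => 0.967 * √ (Dv d θ t x)) (fun _ => 0.3536), pm_mul, pm_const]
      _ ≤ 11 := by linarith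

theorem sq_le_four_pow {z : ℝ} (hz : 0 ≤ z) : z ^ 2 ≤ 4 ^ ⌈z⌉₊ := by
  have h1 : z ≤ ⌈z⌉₊ := Nat.le_ceil z
  have h2 : ((⌈z⌉₊ : ℕ) : ℝ) ≤ 2 ^ ⌈z⌉₊ := by exact_mod_cast (Nat.lt_two_pow_self (n := ⌈z⌉₊)).le
  calc z ^ 2 ≤ (2 ^ ⌈z⌉₊) ^ 2 := pow_le_pow_left₀ hz (h1.trans h2) 2
    _ = 4 ^ ⌈z⌉₊ := by rw [← pow_mul, mul_comm, pow_mul]; norm_num

/-- the difference between `⌊3^(od+e) (x+θ)/2^t⌋` and `3^e T^t x` -/
noncomputable def rr (d : ℤ) (θ : ℝ) (t e : ℕ) (x : ℤ) : ℤ :=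
  ⌊3 ^ (od d t x + e) * ((x : ℝ) + θ) / 2 ^ t⌋ - 3 ^ e * (Tz d)^[t] x

theorem rr_per {d : ℤ} (hd : d % 2 = 1) (θ : ℝ) (t e : ℕ) (x u : ℤ) :
    rr d θ t e (x + 2 ^ t * u) = rr d θ t e x := by
  unfold rr
  obtain ⟨h1, h2⟩ := iter_add hd t x u
  rw [h1, h2]
  have e1 : (3 : ℝ) ^ (od d t x + e) * (((x + 2 ^ t * u : ℤ) : ℝ) + θ) / 2 ^ t
      = 3 ^ (od d t x + e) * ((x : ℝ) + θ) / 2 ^ t + ((3 ^ (od d t x + e) * u : ℤ) : ℝ) := by
    push_cast; field_simp; ring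
  rw [e1, Int.floor_add_intCast, pow_add]; ring

theorem rr_abs (d : ℤ) (θ : ℝ) (t e : ℕ) (x : ℤ) :
    |((rr d θ t e x : ℤ) : ℝ)| ≤ 4 ^ (e + ⌈√ (Dv d θ t x)⌉₊ + 1) := by
  set D := Dv d θ t x with hD
  have hD0 : 0 ≤ D := Dv_nonneg _ _ _ _
  have h1 := sq_le_four_pow (Real.sqrt_nonneg D)
  rw [Real.sq_sqrt hD0] at h1
  set A : ℝ := 4 ^ ⌈√ D⌉₊ with hA
  have hA1 : 1 ≤ A := one_le_pow₀ (by norm_num)
  have h3 : (3 : ℝ) ^ e ≤ 4 ^ e := pow_le_pow_left₀ (by norm_num) (by norm_num) e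
  have h30 : (0 : ℝ) ≤ 3 ^ e := by positivity
  have h40 : (1 : ℝ) ≤ 4 ^ e := one_le_pow₀ (by norm_num)
  have hf1 := Int.floor_le ((3 : ℝ) ^ (od d t x + e) * ((x : ℝ) + θ) / 2 ^ t)
  have hf2 := Int.lt_floor_add_one ((3 : ℝ) ^ (od d t x + e) * ((x : ℝ) + θ) / 2 ^ t)
  have e1 : (3 : ℝ) ^ (od d t x + e) * ((x : ℝ) + θ) / 2 ^ t
      = 3 ^ e * (3 ^ od d t x * ((x : ℝ) + θ) / 2 ^ t) := by rw [pow_add]; ring
  have h5 : |(((Tz d)^[t] x : ℤ) : ℝ) - 3 ^ (od d t x) * (x + θ) / 2 ^ t| = D := rfl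
  have h6 : |(3 : ℝ) ^ e * ((((Tz d)^[t] x : ℤ) : ℝ) - 3 ^ (od d t x) * (x + θ) / 2 ^ t)| = 3 ^ e * D := by
    rw [abs_mul, h5, abs_of_nonneg h30]
  have h7 : 3 ^ e * D ≤ 4 ^ e * A := mul_le_mul h3 h1 hD0 (by positivity)
  have h8 : (4 : ℝ) ^ (e + ⌈√ D⌉₊ + 1) = 4 * (4 ^ e * A) := by rw [pow_succ, pow_add]; ring
  have h9 : 1 ≤ 4 ^ e * A := by nlinarith
  rw [h8]
  have e2 : ((rr d θ t e x : ℤ) : ℝ)
      = ((⌊3 ^ (od d t x + e) * ((x : ℝ) + θ) / 2 ^ t⌋ : ℤ) : ℝ) - 3 ^ e * (((Tz d)^[t] x : ℤ) : ℝ) := by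
    unfold rr; push_cast; ring
  rw [e2]
  rw [mul_sub] at h6
  have h10 := (abs_le.1 h6.le)
  rw [e1] at hf1 hf2 ⊢
  rw [abs_le]
  constructor <;> linarith [h10.1, h10.2]

theorem co (d : ℤ) (hd : d = 1 ∨ d = -1) : S_CO d := by
  classical
  have hd2 : d % 2 = 1 := by rcases hd with rfl | rfl <;> decide
  have hdd : d * d = 1 := by rcases hd with rfl | rfl <;> norm_num
  obtain ⟨C0, hC0, hq⟩ := q_rate
  refine ⟨84 * C0, by positivity, ?_⟩
  intro f hf t R e hR V hV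
  have hVR : ((2 ^ (t + R) : ℕ) : ℝ) ≤ V := by push_cast; exact hV
  have hρ := rho_nonneg R
  have key : av V (fun y => |f ⌊y⌋ - f ⌊3 ^ (od d t ⌊y⌋ + e) * y / 2 ^ t⌋|)
      ≤ 3 * (28 * C0 * (1 + e) * rho R) := by
    apply av_le_block (B := 2) (P := 2 ^ (t + R)) _ _ _ Nat.one_le_two_pow hVR
    · intro θ hθ0 hθ1 a
      set G : ℤ → ℝ := fun n =>
        2 * (if surv d R (e, d * rr d θ t e n) ((Tz d)^[t] n) then (1 : ℝ) else 0) with hG
      have hGs : ∀ x u : ℤ, G (x + 2 ^ t * u) = 2 * (if surv d R (e, d * rr d θ t e x)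
          (3 ^ od d t x * u + (Tz d)^[t] x) then (1 : ℝ) else 0) := by
        intro x u
        rw [hG]
        simp only
        rw [rr_per hd2, (iter_add hd2 t x u).1, add_comm ((Tz d)^[t] x)]
      have hsp : ∀ (s : ℕ × ℤ), Per R (fun x : ℤ => if surv d R s x then (1 : ℝ) else 0) := by
        intro s x m; simp only [surv_periodic hd2]
      have hGper : Per (t + R) G := by
        intro x m
        have h1 := hGs x (m * 2 ^ R)
        have h2 := hGs x 0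
        rw [show x + 2 ^ t * (m * 2 ^ R) = x + m * 2 ^ (t + R) by rw [pow_add]; ring] at h1
        rw [mul_zero, add_zero, mul_zero, zero_add] at h2
        rw [h1, h2]
        have h3 := hsp (e, d * rr d θ t e x) ((Tz d)^[t] x) (3 ^ od d t x * m)
        simp only at h3
        rw [show 3 ^ od d t x * (m * 2 ^ R) + (Tz d)^[t] x = (Tz d)^[t] x + 3 ^ od d t x * m * 2 ^ R by ring,
          h3]
      have hterm : ∀ j : ℕ, |f ⌊((a + j : ℕ) : ℝ) + θ⌋
          - f ⌊3 ^ (od d t ⌊((a + j : ℕ) : ℝ) + θ⌋ + e) * (((a + j : ℕ) : ℝ) + θ) / 2 ^ t⌋|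
          ≤ G ((a : ℤ) + (j : ℕ)) := by
        intro j
        have e1 : ⌊((a + j : ℕ) : ℝ) + θ⌋ = ((a : ℤ) + (j : ℕ)) := by
          rw [Int.floor_eq_iff]; push_cast; constructor <;> linarith
        rw [e1]
        set n : ℤ := (a : ℤ) + (j : ℕ) with hn
        have e2 : ((a + j : ℕ) : ℝ) = (n : ℝ) := by rw [hn]; push_cast; ring
        rw [e2]
        have e3 : ⌊3 ^ (od d t n + e) * ((n : ℝ) + θ) / 2 ^ t⌋
            = 3 ^ e * (Tz d)^[t] n + d * (d * rr d θ t e n) := by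
          rw [← mul_assoc, hdd, one_mul]; unfold rr; ring
        rw [e3, hG]
        simp only
        split_ifs with hsv
        · have h1 := hf.1 n
          have h2 := hf.1 (3 ^ e * (Tz d)^[t] n + d * (d * rr d θ t e n))
          rw [abs_le] at h1 h2 ⊢
          constructor <;> linarith [h1.1, h1.2, h2.1, h2.2]
        · rw [hf.coal hd2 hsv, hf.iter, sub_self, abs_zero]; norm_num
      have hmean : pm (t + R) G ≤ 28 * C0 * (1 + e) * rho R := by
        rw [pm_split]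
        have h1 : ∀ x : ℤ, pm R (fun u => G (x + 2 ^ t * u))
            ≤ (2 * C0 * rho R) * √ (Dv d θ t x) + 2 * C0 * rho R * (3 + e) := by
          intro x
          simp only [hGs]
          rw [pm_mul, pm_affine (hsp (e, d * rr d θ t e x)) (odd3 (od d t x))]
          unfold pm
          rw [count_surv hd2, mul_div_cancel_left₀ _ (by positivity)]
          set D := Dv d θ t x with hD
          have hr : |((d * rr d θ t e x : ℤ) : ℝ)| ≤ 4 ^ (e + ⌈√ D⌉₊ + 1) := by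
            have e1 : |((d * rr d θ t e x : ℤ) : ℝ)| = |((rr d θ t e x : ℤ) : ℝ)| := by
              push_cast; rw [abs_mul]
              rcases hd with rfl | rfl <;> simp
            rw [e1]; exact rr_abs d θ t e x
          have h2 := hq R hR e (e + ⌈√ D⌉₊ + 1) (d * rr d θ t e x) hr
          have hs0 := Real.sqrt_nonneg D
          have h3 : √ (1 + (e : ℝ) ^ 2 + (e + ⌈√ D⌉₊ + 1 : ℕ)) ≤ 3 + e + √ D := by
            apply Real.sqrt_le_iff.2
            have he0 : (0 : ℝ) ≤ e := by positivity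
            refine ⟨by positivity, ?_⟩
            have h4 := (Nat.ceil_lt_add_one hs0).le
            push_cast
            nlinarith [mul_nonneg he0 hs0]
          calc 2 * q step (0, 0) R (e, d * rr d θ t e x)
              ≤ 2 * (C0 * √ (1 + (e : ℝ) ^ 2 + (e + ⌈√ D⌉₊ + 1 : ℕ)) * rho R) := by linarith
            _ = 2 * C0 * rho R * √ (1 + (e : ℝ) ^ 2 + (e + ⌈√ D⌉₊ + 1 : ℕ)) := by ring
            _ ≤ 2 * C0 * rho R * (3 + e + √ D) := mul_le_mul_of_nonneg_left h3 (by positivity)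
            _ = _ := by ring
        refine (pm_mono h1).trans ?_
        rw [pm_add t (fun x => (2 * C0 * rho R) * √ (Dv d θ t x)) (fun _ => 2 * C0 * rho R * (3 + e)),
          pm_mul, pm_const]
        have h2 := pm_Dv hd hθ0 hθ1.le t
        have h3 : 2 * C0 * rho R * pm t (fun x => √ (Dv d θ t x)) ≤ 2 * C0 * rho R * 11 :=
          mul_le_mul_of_nonneg_left h2 (by positivity)
        have he0 : (0 : ℝ) ≤ e := by positivity
        have h4 : 0 ≤ 26 * C0 * rho R * e := by positivity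
        nlinarith
      calc ∑ j ∈ range (2 ^ (t + R)), |f ⌊((a + j : ℕ) : ℝ) + θ⌋
          - f ⌊3 ^ (od d t ⌊((a + j : ℕ) : ℝ) + θ⌋ + e) * (((a + j : ℕ) : ℝ) + θ) / 2 ^ t⌋|
          ≤ ∑ j ∈ range (2 ^ (t + R)), G ((a : ℤ) + (j : ℕ)) := sum_le_sum fun j _ => hterm j
        _ = ((2 ^ (t + R) : ℕ) : ℝ) * pm (t + R) G := by
            have h1 := pm_shift hGper (a : ℤ)
            unfold pm at h1 ⊢
            rw [div_left_inj' (by positivity)] at h1
            rw [← h1]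
            push_cast
            rw [mul_div_cancel₀ _ (by positivity)]
            apply sum_congr rfl; intro j _; rw [add_comm]
        _ ≤ _ := mul_le_mul_of_nonneg_left hmean (by positivity)
    · have h1 : Measurable (fun y : ℝ => f ⌊3 ^ (od d t ⌊y⌋ + e) * y / 2 ^ t⌋) := by
        apply meas_floor
        apply Measurable.div_const
        apply Measurable.mul _ measurable_id
        exact (Measurable.of_discrete (f := fun n : ℤ => (3 : ℝ) ^ (od d t n + e))).comp Int.measurable_floor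
      exact ((meas_floor f (fun y => y) measurable_id).sub h1).abs
    · intro y; exact abs_nonneg _
    · intro y
      have h1 := hf.1 ⌊y⌋
      have h2 := hf.1 ⌊3 ^ (od d t ⌊y⌋ + e) * y / 2 ^ t⌋
      rw [abs_le] at h1 h2 ⊢
      constructor <;> linarith [h1.1, h1.2, h2.1, h2.2]
  refine key.trans (le_of_eq ?_)
  ring

end Pool.Agent.KS6_24.LN
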