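import Mathlib
import Pool.Agent.KS6_24.LN.Defs

/-! PROJECT LN: the final statements. -/

set_option autoImplicit false

namespace Pool.Agent.KS6_24.LN

open Pool.Agent.H499R2.CO Pool.Agent.Y965.SI Finset

/-- the set of `n ≥ 1` with `P n` has density zero -/
def Negl (P : ℕ → Prop) : Prop :=
  Filter.Tendsto (fun N : ℕ => ({n : ℕ | 1 ≤ n ∧ n ≤ N ∧ P n}.ncard : ℝ) / N) Filter.atTop (nhds 0)

open Classical in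
/-- LAW OF LARGE NUMBERS (from S_EN and S_CI) -/
def S_LLN (d : ℤ) : Prop := ∀ S : Set ℤ, (∀ x, Tz d x ∈ S ↔ x ∈ S) → ∀ δ : ℝ, 0 ≤ δ → δ ≤ 1 →
  MeanZero (fun x => S.indicator (fun _ => (1 : ℝ)) x - δ) → ∀ c ε : ℝ, 0 < c → 0 < ε →
  Negl (fun n => ε < |((#{i ∈ range ⌊c * Real.log n⌋₊ | ((3 ^ i * n / 2 ^ Nat.log 2 (3 ^ i) : ℕ) : ℤ) ∈ S} : ℕ) : ℝ)
    / ⌊c * Real.log n⌋₊ - δ|)

/-- WINDOWS (from S_EN, S_CI, S_DENS, S_STEER) -/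
def S_WIN (d : ℤ) : Prop := ∀ S : Set ℤ, (∀ x, Tz d x ∈ S ↔ x ∈ S) → (∃ x ∈ S, 0 < x) → ∀ ε : ℝ, 0 < ε →
  Negl (fun n => ∀ x : ℕ, n ≤ x → (x : ℝ) ≤ n + (n : ℝ) ^ ε → (x : ℤ) ∉ S)

end Pool.Agent.KS6_24.LN
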