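import Mathlib
import Pool.Agent.KS6_24.LN.Defs2
import Pool.Agent.KS6_24.LN.AV

/-! FIN, common tools: negligible sets, the averages `AK` at neighbouring points. -/

set_option autoImplicit false

namespace Pool.Agent.KS6_24.LN

open Pool.Agent.H499R2.CO Pool.Agent.Y965.SI Finset Filter Topology MeasureTheory

/-! ### negligible sets -/

open Classical in
theorem negl_of_dyadic {P : ℕ → Prop}
    (h : ∀ η : ℝ, 0 < η → ∃ N0 : ℕ, ∀ N : ℕ, N0 ≤ N → (#{n ∈ Ico N (2 * N) | P n} : ℝ) ≤ η * N) : Negl P := by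
  classical
  unfold Negl
  rw [Metric.tendsto_atTop]
  intro ε hε
  obtain ⟨N0, hN0⟩ := h (ε / 16) (by positivity)
  set A : ℕ := 2 * N0 + 4 with hA
  have hcnt : ∀ M : ℕ, (#{n ∈ range M | P n} : ℝ) ≤ A + ε / 4 * M := by
    intro M
    induction M using Nat.strong_induction_on with
    | _ M ih =>
      by_cases hM : M ≤ A
      · have h1 : #{n ∈ range M | P n} ≤ M := by simpa using card_filter_le (range M) P
        have h2 : (#{n ∈ range M | P n} : ℝ) ≤ M := by exact_mod_cast h1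
        have h3 : (M : ℝ) ≤ A := by exact_mod_cast hM
        have h4 : 0 ≤ ε / 4 * M := by positivity
        linarith
      · push Not at hM
        set N := (M + 1) / 2 with hN
        have hNM : N < M := by omega
        have h1 := ih N hNM
        have h2 := hN0 N (by omega)
        have h3 : #{n ∈ range M | P n} ≤ #{n ∈ range N | P n} + #{n ∈ Ico N (2 * N) | P n} := by
          rw [← card_union_of_disjoint]
          · apply card_le_card
            intro n hn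
            simp only [mem_union, mem_filter, mem_range, mem_Ico] at hn ⊢
            by_cases h : n < N
            · exact Or.inl ⟨h, hn.2⟩
            · exact Or.inr ⟨⟨by omega, by omega⟩, hn.2⟩
          · rw [disjoint_left]
            intro n hn hn'
            simp only [mem_filter, mem_range, mem_Ico] at hn hn'
            omega
        have h4 : (#{n ∈ range M | P n} : ℝ) ≤ #{n ∈ range N | P n} + #{n ∈ Ico N (2 * N) | P n} := by
          exact_mod_cast h3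
        have h5 : (2 : ℝ) * N ≤ M + 1 := by
          have : 2 * N ≤ M + 1 := by omega
          exact_mod_cast this
        have h6 : (4 : ℝ) ≤ M := by
          have : 4 ≤ M := by omega
          exact_mod_cast this
        nlinarith
  obtain ⟨N1, hN1⟩ := exists_nat_gt ((A + ε / 4) * 4 / ε)
  refine ⟨max N1 1, fun N hN => ?_⟩
  have hN' : (0 : ℝ) < N := by
    have : 1 ≤ N := (le_max_right _ _).trans hN
    exact_mod_cast this
  have hN1' : (N1 : ℝ) ≤ N := by exact_mod_cast (le_max_left _ _).trans hN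
  rw [Real.dist_eq, sub_zero, abs_of_nonneg (by positivity), div_lt_iff₀ hN']
  have h1 : {n : ℕ | 1 ≤ n ∧ n ≤ N ∧ P n}.ncard ≤ #{n ∈ range (N + 1) | P n} := by
    rw [← Set.ncard_coe_finset]
    apply Set.ncard_le_ncard _ (Finset.finite_toSet _)
    intro n hn
    simp only [coe_filter, mem_range, Set.mem_ofPred_eq] at hn ⊢
    exact ⟨by omega, hn.2.2⟩
  have h2 : ({n : ℕ | 1 ≤ n ∧ n ≤ N ∧ P n}.ncard : ℝ) ≤ #{n ∈ range (N + 1) | P n} := by exact_mod_cast h1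
  have h3 := hcnt (N + 1)
  push_cast at h3
  have h4 : (A + ε / 4) * 4 < ε * N := by
    rw [div_lt_iff₀ hε] at hN1
    nlinarith
  linarith

/-! ### the rate -/

theorem rho_tendsto : Tendsto rho atTop (𝓝 0) := by
  have h1 : Tendsto (fun x : ℝ => Real.log x / x) atTop (𝓝 0) :=
    Real.isLittleO_log_id_atTop.tendsto_div_nhds_zero
  have h2 : Tendsto (fun k : ℕ => ((k : ℝ) + 1)) atTop atTop :=
    tendsto_atTop_add_const_right _ _ tendsto_natCast_atTop_atTop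
  have h3 := h1.comp h2
  have h4 : Tendsto (fun k : ℕ => 2 * (Real.log ((k : ℝ) + 1) / ((k : ℝ) + 1))) atTop (𝓝 0) := by
    have := h3.const_mul 2
    rw [mul_zero] at this
    exact this
  have h5 : Tendsto (fun k : ℕ => √ (2 * (Real.log ((k : ℝ) + 1) / ((k : ℝ) + 1)))) atTop (𝓝 0) := by
    have := h4.sqrt
    rwa [Real.sqrt_zero] at this
  apply squeeze_zero' (Eventually.of_forall fun k => rho_nonneg k) _ h5
  filter_upwards [eventually_ge_atTop 1] with k hk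
  unfold rho
  apply Real.sqrt_le_sqrt
  have hk' : (1 : ℝ) ≤ k := by exact_mod_cast hk
  have h6 := log_pos' hk
  rw [div_le_iff₀ (by positivity)]
  have e : 2 * (Real.log ((k : ℝ) + 1) / ((k : ℝ) + 1)) * k = Real.log ((k : ℝ) + 1) * (2 * k / (k + 1)) := by ring
  rw [e]
  have h7 : 1 ≤ 2 * (k : ℝ) / (k + 1) := by rw [le_div_iff₀ (by positivity)]; linarith
  nlinarith

/-! ### floors -/

theorem int_floor_step (g : ℤ → ℝ) (n : ℕ) : ∫ y in ((n : ℕ) : ℝ)..((n + 1 : ℕ) : ℝ), g ⌊y⌋ = g n := by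
  have h1 : ∫ y in ((n : ℕ) : ℝ)..((n + 1 : ℕ) : ℝ), g ⌊y⌋ = ∫ y in ((n : ℕ) : ℝ)..((n + 1 : ℕ) : ℝ), g n := by
    apply intervalIntegral.integral_congr_Ioo_of_le (by push_cast; linarith)
    intro y hy
    have : ⌊y⌋ = (n : ℤ) := by
      rw [Int.floor_eq_iff]
      push_cast at hy ⊢
      exact ⟨hy.1.le, hy.2⟩
    simp only [this]
  rw [h1, intervalIntegral.integral_const, smul_eq_mul]
  push_cast; ring

theorem av_floor {g : ℤ → ℝ} {M : ℝ} (hg : ∀ x, |g x| ≤ M) {N : ℕ} (_hN : 1 ≤ N) :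
    av N (fun y => g ⌊y⌋) = (∑ n ∈ Ico N (2 * N), g n) / N := by
  unfold av
  congr 1
  have h := intervalIntegral.sum_integral_adjacent_intervals_Ico (a := fun k : ℕ => (k : ℝ)) (μ := volume)
    (f := fun y => g ⌊y⌋) (m := N) (n := 2 * N) (by omega) (fun k _ => (Bd.fl hg).ii _ _)
  rw [show (2 : ℝ) * (N : ℝ) = ((2 * N : ℕ) : ℝ) by push_cast; ring, ← h]
  exact sum_congr rfl fun n _ => int_floor_step g n

/-! ### `lam` -/

theorem log_pow_le (D : ℕ) : (2 : ℝ) ^ Nat.log 2 (3 ^ D) ≤ 3 ^ D := by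
  exact_mod_cast Nat.pow_log_le_self 2 (pow_ne_zero D (by norm_num : (3 : ℕ) ≠ 0))

theorem lt_log_pow (D : ℕ) : (3 : ℝ) ^ D < 2 * 2 ^ Nat.log 2 (3 ^ D) := by
  have := Nat.lt_pow_succ_log_self (b := 2) (by norm_num) (3 ^ D)
  rw [pow_succ, mul_comm] at this
  exact_mod_cast this

theorem one_le_lam (D : ℕ) : 1 ≤ lam D := by
  unfold lam
  rw [le_div_iff₀ (by positivity), one_mul]
  exact log_pow_le D

theorem lam_lt_two (D : ℕ) : lam D < 2 := by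
  unfold lam
  rw [div_lt_iff₀ (by positivity)]
  exact lt_log_pow D

theorem floor_lam (D n : ℕ) : ⌊lam D * n⌋ = ((3 ^ D * n / 2 ^ Nat.log 2 (3 ^ D) : ℕ) : ℤ) := by
  have h := Nat.floor_div_eq_div (K := ℝ) (3 ^ D * n) (2 ^ Nat.log 2 (3 ^ D))
  rw [← h, ← Int.natCast_floor_eq_floor (by have := one_le_lam D; positivity)]
  congr 2
  unfold lam
  push_cast
  ring

/-! ### `AK` -/

theorem AK_abs {f : ℤ → ℝ} (hf : ∀ x, |f x| ≤ 1) (K : ℕ) (z : ℝ) : |AK f K z| ≤ 1 := by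
  unfold AK
  rw [abs_div, Nat.abs_cast]
  apply div_le_one_of_le₀ _ (Nat.cast_nonneg _)
  calc |∑ D ∈ range K, f ⌊lam D * z⌋| ≤ ∑ D ∈ range K, |f ⌊lam D * z⌋| := abs_sum_le_sum_abs _ _
    _ ≤ ∑ D ∈ range K, (1 : ℝ) := sum_le_sum fun _ _ => hf _
    _ = K := by simp

theorem AK_bd {f : ℤ → ℝ} (hf : ∀ x, |f x| ≤ 1) (K : ℕ) : Bd 1 (AK f K) := by
  refine ⟨?_, AK_abs hf K⟩
  unfold AK
  apply Measurable.div_const
  apply Finset.measurable_sum
  intro D _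
  exact (Bd.flc hf (g := fun z => lam D * z) (by fun_prop)).1

/-- two values of `K` -/
theorem AK_change {f : ℤ → ℝ} (hf : ∀ x, |f x| ≤ 1) {K L : ℕ} (hK : 1 ≤ K) (hKL : K ≤ L) (z : ℝ) :
    |AK f L z - AK f K z| ≤ 2 * (L - K : ℕ) / K := by
  have hK' : (0 : ℝ) < K := by exact_mod_cast hK
  have hL' : (0 : ℝ) < L := by exact_mod_cast (lt_of_lt_of_le hK hKL)
  have hKL' : (K : ℝ) ≤ L := by exact_mod_cast hKL
  set s := ∑ D ∈ range K, f ⌊lam D * z⌋ with hs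
  set s' := ∑ D ∈ Ico K L, f ⌊lam D * z⌋ with hs'
  have e1 : ∑ D ∈ range L, f ⌊lam D * z⌋ = s + s' := by
    rw [hs, hs', range_eq_Ico, range_eq_Ico, sum_Ico_consecutive _ (by omega) hKL]
  have h1 : |s| ≤ K := by
    calc |s| ≤ ∑ D ∈ range K, |f ⌊lam D * z⌋| := abs_sum_le_sum_abs _ _
      _ ≤ ∑ D ∈ range K, (1 : ℝ) := sum_le_sum fun _ _ => hf _
      _ = K := by simp
  have h2 : |s'| ≤ (L - K : ℕ) := by
    calc |s'| ≤ ∑ D ∈ Ico K L, |f ⌊lam D * z⌋| := abs_sum_le_sum_abs _ _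
      _ ≤ ∑ D ∈ Ico K L, (1 : ℝ) := sum_le_sum fun _ _ => hf _
      _ = (L - K : ℕ) := by simp
  unfold AK
  rw [e1, ← hs]
  have e2 : (s + s') / L - s / K = s' / L - s * (L - K : ℕ) / (K * L) := by
    rw [Nat.cast_sub hKL]; field_simp; ring
  rw [e2]
  have h3 : |s' / L| ≤ (L - K : ℕ) / K := by
    rw [abs_div, Nat.abs_cast]
    apply div_le_div₀ (by positivity) h2 hK' hKL'
  have h4 : |s * (L - K : ℕ) / (K * L)| ≤ (L - K : ℕ) / K := by
    rw [abs_div, abs_mul, Nat.abs_cast, abs_of_pos (mul_pos hK' hL'), div_le_div_iff₀ (mul_pos hK' hL') hK']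
    have h5 : |s| * K ≤ K * L := by
      calc |s| * K ≤ K * K := by gcongr
        _ ≤ K * L := by gcongr
    have h6 : (0 : ℝ) ≤ (L - K : ℕ) := Nat.cast_nonneg _
    nlinarith
  calc |s' / L - s * (L - K : ℕ) / (K * L)| ≤ |s' / L| + |s * (L - K : ℕ) / (K * L)| := abs_sub _ _
    _ ≤ (L - K : ℕ) / K + (L - K : ℕ) / K := add_le_add h3 h4
    _ = 2 * (L - K : ℕ) / K := by ring

/-- the difference at the shifts by one and two -/
noncomputable def dj (f : ℤ → ℝ) (y : ℝ) : ℝ := |f ⌊y⌋ - f ⌊y + -1⌋| + |f ⌊y⌋ - f ⌊y + -2⌋|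

theorem dj_nonneg (f : ℤ → ℝ) (y : ℝ) : 0 ≤ dj f y := by unfold dj; positivity

theorem dj_bd {f : ℤ → ℝ} (hf : ∀ x, |f x| ≤ 1) : Bd 4 (dj f) := by
  have h1 : ∀ h : ℝ, Bd (1 + 1) (fun y => |f ⌊y⌋ - f ⌊y + h⌋|) := fun h =>
    ((Bd.fl hf).sub (Bd.flc hf (g := fun y => y + h) (by fun_prop))).abs
  have h2 := (h1 (-1)).add (h1 (-2))
  have h3 : (1 + 1 + (1 + 1) : ℝ) = 4 := by norm_num
  rw [h3] at h2
  exact h2

theorem lam_floor_diff (f : ℤ → ℝ) (D : ℕ) (y : ℝ) :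
    |f ⌊lam D * (⌊y⌋ : ℝ)⌋ - f ⌊lam D * y⌋| ≤ dj f (lam D * y) := by
  have h1 := one_le_lam D
  have h2 := lam_lt_two D
  have h3 := Int.floor_le y
  have h4 := Int.lt_floor_add_one y
  have h5 : lam D * (⌊y⌋ : ℝ) ≤ lam D * y := by gcongr
  have h6 : lam D * y < lam D * (⌊y⌋ : ℝ) + 2 := by nlinarith
  set Y := lam D * y with hY
  set X := lam D * (⌊y⌋ : ℝ) with hX
  have h7 : ⌊X⌋ ≤ ⌊Y⌋ := Int.floor_le_floor h5
  have h8 : ⌊Y⌋ ≤ ⌊X⌋ + 2 := by
    have : ⌊Y⌋ ≤ ⌊X + 2⌋ := Int.floor_le_floor h6.le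
    rwa [show X + 2 = X + (2 : ℤ) by push_cast; ring, Int.floor_add_intCast] at this
  have e1 : ⌊Y + -1⌋ = ⌊Y⌋ - 1 := by
    rw [show Y + -1 = Y - (1 : ℤ) by push_cast; ring, Int.floor_sub_intCast]
  have e2 : ⌊Y + -2⌋ = ⌊Y⌋ - 2 := by
    rw [show Y + -2 = Y - (2 : ℤ) by push_cast; ring, Int.floor_sub_intCast]
  unfold dj
  rw [e1, e2]
  have h9 : ⌊X⌋ = ⌊Y⌋ ∨ ⌊X⌋ = ⌊Y⌋ - 1 ∨ ⌊X⌋ = ⌊Y⌋ - 2 := by omega
  rcases h9 with h | h | h
  · rw [h, sub_self, abs_zero]; positivity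
  · rw [h, abs_sub_comm]
    have := abs_nonneg (f ⌊Y⌋ - f (⌊Y⌋ - 2))
    linarith
  · rw [h, abs_sub_comm]
    have := abs_nonneg (f ⌊Y⌋ - f (⌊Y⌋ - 1))
    linarith

theorem AK_floor_diff (f : ℤ → ℝ) (K : ℕ) (y : ℝ) :
    |AK f K (⌊y⌋ : ℝ) - AK f K y| ≤ (∑ D ∈ range K, dj f (lam D * y)) / K := by
  unfold AK
  rw [← sub_div, abs_div, Nat.abs_cast, ← sum_sub_distrib]
  apply div_le_div_of_nonneg_right _ (Nat.cast_nonneg _)
  exact (abs_sum_le_sum_abs _ _).trans (sum_le_sum fun D _ => lam_floor_diff f D y)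

/-- the mean of `dj` -/
theorem av_dj {d : ℤ} {C : ℝ}
    (hC : ∀ f : ℤ → ℝ, InvF d f → ∀ R : ℕ, 1 ≤ R → ∀ V : ℝ, 2 ^ R ≤ V →
      ∀ (i u : ℕ) (h : ℝ), |h| ≤ 4 ^ u →
      av V (fun y => |f ⌊y⌋ - f ⌊3 ^ i * y + h⌋|) ≤ C * √ (1 + (i : ℝ) ^ 2 + u) * rho R)
    {f : ℤ → ℝ} (hf : InvF d f) {R : ℕ} (hR : 1 ≤ R) {V : ℝ} (hV : 2 ^ R ≤ V) :
    av V (dj f) ≤ 2 * (C * √ 2 * rho R) := by
  have h1 := hC f hf R hR V hV 0 1 (-1) (by norm_num)
  have h2 := hC f hf R hR V hV 0 1 (-2) (by norm_num)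
  simp only [pow_zero, one_mul, Nat.cast_zero, Nat.cast_one] at h1 h2
  norm_num at h1 h2
  have h3 : ∀ h : ℝ, Bd (1 + 1) (fun y => |f ⌊y⌋ - f ⌊y + h⌋|) := fun h =>
    ((Bd.fl hf.1).sub (Bd.flc hf.1 (g := fun y => y + h) (by fun_prop))).abs
  have h4 := av_add V (h3 (-1)) (h3 (-2))
  have e : dj f = fun y => |f ⌊y⌋ - f ⌊y + -1⌋| + |f ⌊y⌋ - f ⌊y + -2⌋| := rfl
  rw [e, h4]
  linarith

theorem av_dj_sum {d : ℤ} {C : ℝ}
    (hC : ∀ f : ℤ → ℝ, InvF d f → ∀ R : ℕ, 1 ≤ R → ∀ V : ℝ, 2 ^ R ≤ V →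
      ∀ (i u : ℕ) (h : ℝ), |h| ≤ 4 ^ u →
      av V (fun y => |f ⌊y⌋ - f ⌊3 ^ i * y + h⌋|) ≤ C * √ (1 + (i : ℝ) ^ 2 + u) * rho R)
    {f : ℤ → ℝ} (hf : InvF d f) {R : ℕ} (hR : 1 ≤ R) {V : ℝ} (hV : 2 ^ R ≤ V) {K : ℕ} (hK : 1 ≤ K) :
    av V (fun y => (∑ D ∈ range K, dj f (lam D * y)) / K) ≤ 2 * (C * √ 2 * rho R) := by
  have hV0 : 0 < V := lt_of_lt_of_le (by positivity) hV
  have hK' : (0 : ℝ) < K := by exact_mod_cast hK
  have e1 : (fun y => (∑ D ∈ range K, dj f (lam D * y)) / K) = fun y => (1 / K) * ∑ D ∈ range K, dj f (lam D * y) := by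
    funext y; ring
  have hb : ∀ D ∈ range K, Bd 4 (fun y => dj f (lam D * y)) := fun D _ => (dj_bd hf.1).comp (by fun_prop)
  rw [e1, av_cmul, av_sum V hb]
  have h1 : ∀ D ∈ range K, av V (fun y => dj f (lam D * y)) ≤ 2 * (C * √ 2 * rho R) := by
    intro D _
    have hl := one_le_lam D
    rw [av_scale hV0 (by linarith)]
    apply av_dj hC hf hR
    nlinarith
  calc 1 / (K : ℝ) * ∑ D ∈ range K, av V (fun y => dj f (lam D * y))
      ≤ 1 / (K : ℝ) * ∑ D ∈ range K, 2 * (C * √ 2 * rho R) := by gcongr with D hD; exact h1 D hD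
    _ = 2 * (C * √ 2 * rho R) := by rw [sum_const, card_range, nsmul_eq_mul]; field_simp

/-! ### the invariant function -/

theorem invF_ind {d : ℤ} {S : Set ℤ} (hS : ∀ x, Tz d x ∈ S ↔ x ∈ S) {δ : ℝ} (h0 : 0 ≤ δ) (h1 : δ ≤ 1) :
    InvF d (fun x => S.indicator (fun _ => (1 : ℝ)) x - δ) := by
  classical
  refine ⟨fun x => ?_, fun x => ?_⟩
  · simp only [Set.indicator]
    rw [abs_le]
    split_ifs <;> constructor <;> linarith
  · simp only [Set.indicator, hS x]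

end Pool.Agent.KS6_24.LN
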