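import Mathlib
import Pool.Agent.KS6_24.LN.FinA

/-! PROJECT LN, U2: from one member in a window to the number of members in all longer windows. -/

set_option autoImplicit false

namespace Pool.Agent.KS6_24.LN

open Pool.Agent.H499R2.CO Pool.Agent.Y965.SI Finset Filter Topology

open Classical in
/-- one-sided maximal inequality -/
theorem maximal_aux (B : Finset ℕ) (N : ℕ) : ∀ k a : ℕ, N - a ≤ k →
    #{n ∈ Ico a N | ∃ L : ℕ, 1 ≤ L ∧ L ≤ 2 * #{b ∈ B | n ≤ b ∧ b < n + L}} ≤ 2 * #{b ∈ B | a ≤ b} := by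
  intro k
  induction k using Nat.strong_induction_on with
  | _ k ih =>
    intro a hk
    by_cases haN : N ≤ a
    · rw [Ico_eq_empty (by omega)]; simp
    push Not at haN
    by_cases hE : ∃ L : ℕ, 1 ≤ L ∧ L ≤ 2 * #{b ∈ B | a ≤ b ∧ b < a + L}
    · obtain ⟨L, hL1, hL⟩ := hE
      have h1 := ih (N - (a + L)) (by omega) (a + L) le_rfl
      have h2 : #{n ∈ Ico a N | ∃ L : ℕ, 1 ≤ L ∧ L ≤ 2 * #{b ∈ B | n ≤ b ∧ b < n + L}}
          ≤ L + #{n ∈ Ico (a + L) N | ∃ L : ℕ, 1 ≤ L ∧ L ≤ 2 * #{b ∈ B | n ≤ b ∧ b < n + L}} := by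
        have h3 : {n ∈ Ico a N | ∃ L : ℕ, 1 ≤ L ∧ L ≤ 2 * #{b ∈ B | n ≤ b ∧ b < n + L}}
            ⊆ Ico a (a + L) ∪
              {n ∈ Ico (a + L) N | ∃ L : ℕ, 1 ≤ L ∧ L ≤ 2 * #{b ∈ B | n ≤ b ∧ b < n + L}} := by
          intro n hn
          simp only [mem_filter, mem_Ico, mem_union] at hn ⊢
          by_cases h : n < a + L
          · exact Or.inl ⟨hn.1.1, h⟩
          · exact Or.inr ⟨⟨by omega, hn.1.2⟩, hn.2⟩
        refine (card_le_card h3).trans ((card_union_le _ _).trans ?_)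
        rw [Nat.card_Ico]
        omega
      have h4 : #{b ∈ B | a ≤ b ∧ b < a + L} + #{b ∈ B | a + L ≤ b} ≤ #{b ∈ B | a ≤ b} := by
        rw [← card_union_of_disjoint]
        · apply card_le_card
          intro b hb
          simp only [mem_union, mem_filter] at hb ⊢
          rcases hb with hb | hb
          · exact ⟨hb.1, hb.2.1⟩
          · exact ⟨hb.1, by omega⟩
        · rw [disjoint_left]
          intro b hb hb'
          simp only [mem_filter] at hb hb'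
          omega
      omega
    · have h1 := ih (N - (a + 1)) (by omega) (a + 1) le_rfl
      have h2 : {n ∈ Ico a N | ∃ L : ℕ, 1 ≤ L ∧ L ≤ 2 * #{b ∈ B | n ≤ b ∧ b < n + L}}
          ⊆ {n ∈ Ico (a + 1) N | ∃ L : ℕ, 1 ≤ L ∧ L ≤ 2 * #{b ∈ B | n ≤ b ∧ b < n + L}} := by
        intro n hn
        simp only [mem_filter, mem_Ico] at hn ⊢
        refine ⟨⟨?_, hn.1.2⟩, hn.2⟩
        rcases Nat.lt_or_ge a n with h | h
        · exact h
        · exfalso
          have : n = a := by omega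
          subst this
          exact hE hn.2
      have h3 : #{b ∈ B | a + 1 ≤ b} ≤ #{b ∈ B | a ≤ b} := by
        apply card_le_card
        intro b hb
        simp only [mem_filter] at hb ⊢
        exact ⟨hb.1, by omega⟩
      have h4 := card_le_card h2
      omega

open Classical in
theorem Negl.count {P : ℕ → Prop} (h : Negl P) {η : ℝ} (hη : 0 < η) :
    ∃ N0 : ℕ, ∀ N : ℕ, N0 ≤ N → (#{n ∈ Ico N (4 * N) | P n} : ℝ) ≤ η * N := by
  classical
  unfold Negl at h
  have h1 := h.eventually (gt_mem_nhds (show (0 : ℝ) < η / 4 by positivity))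
  obtain ⟨N1, hN1⟩ := eventually_atTop.1 h1
  refine ⟨max N1 1, fun N hN => ?_⟩
  have hN1' : 1 ≤ N := (le_max_right _ _).trans hN
  have hN0 : (0 : ℝ) < N := by exact_mod_cast hN1'
  have h2 := hN1 (4 * N) (by have := (le_max_left N1 1).trans hN; omega)
  have h3 : #{n ∈ Ico N (4 * N) | P n} ≤ {n : ℕ | 1 ≤ n ∧ n ≤ 4 * N ∧ P n}.ncard := by
    rw [← Set.ncard_coe_finset]
    apply Set.ncard_le_ncard
    · intro n hn
      simp only [coe_filter, mem_Ico, Set.mem_ofPred_eq] at hn ⊢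
      exact ⟨by omega, by omega, hn.2⟩
    · apply (Set.finite_Iic (4 * N)).subset
      intro n hn
      exact hn.2.1
  have h4 : (#{n ∈ Ico N (4 * N) | P n} : ℝ) ≤ ({n : ℕ | 1 ≤ n ∧ n ≤ 4 * N ∧ P n}.ncard : ℝ) := by
    exact_mod_cast h3
  rw [div_lt_iff₀ (by positivity)] at h2
  push_cast at h2
  linarith

open Classical in
/-- the number of members of `S` in `[n, n + L]` -/
noncomputable def cnt (S : Set ℤ) (n L : ℕ) : ℕ := #((Icc n (n + L)).filter fun x : ℕ => (x : ℤ) ∈ S)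

open Classical in
/-- COUNTING.  If almost all windows `[n, n + w n]` contain a member of `S`, then for almost all `n`
all the intervals `[n, n + L]`, `2 w (4 n) ≤ L ≤ n`, contain at least `L / (8 w (4 n))` members. -/
theorem count_of_win {S : Set ℤ} {w : ℕ → ℕ} (hmono : Monotone w) (hw1 : ∀ n, 1 ≤ w n)
    (h : Negl (fun n => ∀ x : ℕ, n ≤ x → x ≤ n + w n → (x : ℤ) ∉ S)) :
    Negl (fun n => ∃ L : ℕ, 2 * w (4 * n) ≤ L ∧ L ≤ n ∧
      8 * w (4 * n) * cnt S n L < L) := by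
  apply negl_of_dyadic
  intro η hη
  obtain ⟨N0, hN0⟩ := h.count (show (0 : ℝ) < η / 2 by positivity)
  refine ⟨N0, fun N hN => ?_⟩
  obtain ⟨B, hB⟩ : ∃ B : Finset ℕ, B = {n ∈ Ico N (4 * N) | ∀ x : ℕ, n ≤ x → x ≤ n + w n → (x : ℤ) ∉ S} :=
    ⟨_, rfl⟩
  have h1 : (#B : ℝ) ≤ η / 2 * N := by
    rw [hB]
    convert hN0 N hN
  have h2 := maximal_aux B (2 * N) (2 * N - N) N le_rfl
  have h3 : #{b ∈ B | N ≤ b} ≤ #B := card_filter_le _ _
  have h4 : #{n ∈ Ico N (2 * N) | ∃ L : ℕ, 2 * w (4 * n) ≤ L ∧ L ≤ n ∧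
      8 * w (4 * n) * cnt S n L < L}
      ≤ #{n ∈ Ico N (2 * N) | ∃ L : ℕ, 1 ≤ L ∧ L ≤ 2 * #{b ∈ B | n ≤ b ∧ b < n + L}} := by
    apply card_le_card
    intro n hn
    simp only [mem_filter, mem_Ico] at hn ⊢
    refine ⟨hn.1, ?_⟩
    obtain ⟨⟨hnN, hn2⟩, L, hL1, hL2, hL3⟩ := hn
    by_contra hcon
    push Not at hcon
    set W := w (4 * n) with hW
    have hW1 : 1 ≤ W := hw1 _
    -- the good starting points
    set L' := L - W with hL'
    have hL'1 : 1 ≤ L' := by omega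
    have h5 := hcon L' hL'1
    set G := {b ∈ Ico n (n + L') | b ∉ B} with hG
    have h6 : #{b ∈ B | n ≤ b ∧ b < n + L'} + #G = L' := by
      have h7 : #{b ∈ Ico n (n + L') | b ∈ B} + #G = #(Ico n (n + L')) := by
        rw [hG, card_filter_add_card_filter_not]
      have h8 : {b ∈ B | n ≤ b ∧ b < n + L'} = {b ∈ Ico n (n + L') | b ∈ B} := by
        ext b
        simp only [mem_filter, mem_Ico]
        tauto
      rw [h8, h7, Nat.card_Ico]
      omega
    have hmem : ∀ b ∈ G, ∃ x : ℕ, b ≤ x ∧ x ≤ b + W ∧ (x : ℤ) ∈ S := by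
      intro b hb
      rw [hG, mem_filter, mem_Ico] at hb
      obtain ⟨⟨hb1, hb2⟩, hbB⟩ := hb
      rw [hB, mem_filter, mem_Ico] at hbB
      have hb3 : N ≤ b ∧ b < 4 * N := by omega
      have hb4 : ¬ ∀ x : ℕ, b ≤ x → x ≤ b + w b → (x : ℤ) ∉ S := fun h0 => hbB ⟨hb3, h0⟩
      push Not at hb4
      obtain ⟨x, hx1, hx2, hx3⟩ := hb4
      have hwb : w b ≤ W := hmono (by omega)
      exact ⟨x, hx1, by omega, hx3⟩
    choose! g hg1 hg2 hg3 using hmem
    have h9 : #G ≤ (W + 1) * cnt S n L := by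
      unfold cnt
      refine card_le_mul_card_image_of_maps_to (f := g) ?_ (W + 1) ?_
      · intro b hb
        have hbG := hb
        rw [hG, mem_filter, mem_Ico] at hb
        rw [mem_filter, mem_Icc]
        have := hg1 b hbG
        have := hg2 b hbG
        exact ⟨⟨by omega, by omega⟩, hg3 b hbG⟩
      · intro x hx
        have h10 : {b ∈ G | g b = x} ⊆ Icc (x - W) x := by
          intro b hb
          rw [mem_filter] at hb
          have := hg1 b hb.1
          have := hg2 b hb.1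
          rw [mem_Icc]
          have := hb.2
          omega
        refine (card_le_card h10).trans ?_
        rw [Nat.card_Icc]
        omega
    have h11 : (W + 1) * cnt S n L
        ≤ 2 * W * cnt S n L := Nat.mul_le_mul_right _ (by omega)
    have h12 : 8 * W * cnt S n L
        = 4 * (2 * W * cnt S n L) := by ring
    omega
  have h5 : (#{n ∈ Ico N (2 * N) | ∃ L : ℕ, 2 * w (4 * n) ≤ L ∧ L ≤ n ∧
      8 * w (4 * n) * cnt S n L < L} : ℝ) ≤ 2 * (#B : ℝ) := by
    have : #{n ∈ Ico N (2 * N) | ∃ L : ℕ, 2 * w (4 * n) ≤ L ∧ L ≤ n ∧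
      8 * w (4 * n) * cnt S n L < L} ≤ 2 * #B := by omega
    exact_mod_cast this
  linarith

theorem Negl.mono {P Q : ℕ → Prop} (h : Negl P) (hPQ : ∀ᶠ n in atTop, Q n → P n) : Negl Q := by
  classical
  apply negl_of_dyadic
  intro η hη
  obtain ⟨N0, hN0⟩ := h.count hη
  obtain ⟨N1, hN1⟩ := eventually_atTop.1 hPQ
  refine ⟨max N0 N1, fun N hN => ?_⟩
  refine le_trans ?_ (hN0 N ((le_max_left _ _).trans hN))
  have : #{n ∈ Ico N (2 * N) | Q n} ≤ #{n ∈ Ico N (4 * N) | P n} := by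
    apply card_le_card
    intro n hn
    simp only [mem_filter, mem_Ico] at hn ⊢
    exact ⟨⟨hn.1.1, by omega⟩, hN1 n (((le_max_right _ _).trans hN).trans hn.1.1) hn.2⟩
  exact_mod_cast this

/-- COUNTING, real form. -/
theorem count_real {S : Set ℤ} {v V : ℕ → ℝ} (hmono : Monotone v)
    (h : Negl (fun n => ∀ x : ℕ, n ≤ x → (x : ℝ) ≤ n + v n → (x : ℤ) ∉ S))
    (hV : ∀ᶠ n : ℕ in atTop, 8 * (v (4 * n) + 1) ≤ V n) (hV1 : ∀ᶠ n : ℕ in atTop, 8 ≤ V n) :
    Negl (fun n => ∃ L : ℕ, V n ≤ L ∧ L ≤ n ∧ (cnt S n L : ℝ) < L / V n) := by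
  set w : ℕ → ℕ := fun n => ⌊v n⌋₊ + 1 with hw
  have hwm : Monotone w := fun a b hab => Nat.succ_le_succ (Nat.floor_le_floor (hmono hab))
  have h1 : Negl (fun n => ∀ x : ℕ, n ≤ x → x ≤ n + w n → (x : ℤ) ∉ S) := by
    refine h.mono (Eventually.of_forall fun n hn x hx hx2 => hn x hx ?_)
    by_contra hcon
    push Not at hcon
    have h2 : (x : ℝ) ≤ n + v n := hx2
    have h3 : x ≤ n + ⌊v n⌋₊ := by
      have : (x : ℝ) - n ≤ v n := by linarith
      have h4 : ((x - n : ℕ) : ℝ) ≤ v n := by rw [Nat.cast_sub hx]; exact this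
      have h5 : x - n ≤ ⌊v n⌋₊ := Nat.le_floor h4
      omega
    simp only [hw] at hcon
    omega
  refine (count_of_win hwm (fun n => by simp only [hw]; omega) h1).mono ?_
  filter_upwards [hV, hV1] with n hn hn1
  rintro ⟨L, hL1, hL2, hL3⟩
  have hwV : (8 : ℝ) * w (4 * n) ≤ V n := by
    by_cases hv : 0 ≤ v (4 * n)
    · have h4 := Nat.floor_le hv
      simp only [hw]
      push_cast
      linarith
    · push Not at hv
      have h4 : ⌊v (4 * n)⌋₊ = 0 := Nat.floor_of_nonpos hv.le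
      simp only [hw]
      rw [h4]
      push_cast
      linarith
  have hV0 : 0 < V n := by linarith
  refine ⟨L, ?_, hL2, ?_⟩
  · have h5 : ((2 * w (4 * n) : ℕ) : ℝ) ≤ L := by
      push_cast
      have : (0 : ℝ) ≤ w (4 * n) := Nat.cast_nonneg _
      linarith
    exact_mod_cast h5
  · rw [lt_div_iff₀ hV0] at hL3
    have h6 : (8 * w (4 * n) * cnt S n L : ℝ) < L := by
      have h7 : (0 : ℝ) ≤ cnt S n L := Nat.cast_nonneg _
      nlinarith
    exact_mod_cast h6

/-- In almost all windows of length `n ^ ε` there are at least `L / n ^ ε` members. -/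
theorem count_power {d : ℤ} (hW : S_WIN d) {S : Set ℤ} (hS : ∀ x, Tz d x ∈ S ↔ x ∈ S)
    (hex : ∃ x ∈ S, 0 < x) {ε : ℝ} (hε : 0 < ε) :
    Negl (fun n => ∃ L : ℕ, (n : ℝ) ^ ε ≤ L ∧ L ≤ n ∧ (cnt S n L : ℝ) < L / (n : ℝ) ^ ε) := by
  have h1 := hW S hS hex (ε / 2) (by positivity)
  refine count_real (v := fun n => (n : ℝ) ^ (ε / 2)) (V := fun n => (n : ℝ) ^ ε) ?_ h1 ?_ ?_
  · intro a b hab
    exact Real.rpow_le_rpow (by positivity) (by exact_mod_cast hab) (by positivity)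
  · have h2 : Tendsto (fun n : ℕ => (n : ℝ) ^ (ε / 2)) atTop atTop :=
      (tendsto_rpow_atTop (by positivity)).comp tendsto_natCast_atTop_atTop
    filter_upwards [h2.eventually_ge_atTop (8 * ((4 : ℝ) ^ (ε / 2) + 1)), h2.eventually_ge_atTop 1]
      with n hn hn1
    have e1 : (n : ℝ) ^ ε = (n : ℝ) ^ (ε / 2) * (n : ℝ) ^ (ε / 2) := by
      rw [← Real.rpow_add_of_nonneg (by positivity) (by positivity) (by positivity)]
      congr 1; ring
    have e2 : (((4 * n : ℕ) : ℕ) : ℝ) ^ (ε / 2) = (4 : ℝ) ^ (ε / 2) * (n : ℝ) ^ (ε / 2) := by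
      push_cast
      rw [Real.mul_rpow (by norm_num) (by positivity)]
    rw [e1, e2]
    have h4 : (0 : ℝ) < (4 : ℝ) ^ (ε / 2) := by positivity
    nlinarith
  · have h2 : Tendsto (fun n : ℕ => (n : ℝ) ^ ε) atTop atTop :=
      (tendsto_rpow_atTop hε).comp tendsto_natCast_atTop_atTop
    exact h2.eventually_ge_atTop 8

/-- the growth of the windows `exp ((log n) ^ θ)` -/
theorem growth {θ θ' : ℝ} (h0 : 0 < θ) (h : θ < θ') (h1 : θ' ≤ 1) :
    ∀ᶠ n : ℕ in atTop, 8 * (Real.exp ((Real.log ((4 * n : ℕ) : ℝ)) ^ θ) + 1)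
      ≤ Real.exp ((Real.log n) ^ θ') := by
  have hl : Tendsto (fun n : ℕ => Real.log (n : ℝ)) atTop atTop :=
    Real.tendsto_log_atTop.comp tendsto_natCast_atTop_atTop
  have h2 : Tendsto (fun n : ℕ => (Real.log (n : ℝ)) ^ (θ' - θ)) atTop atTop :=
    (tendsto_rpow_atTop (by linarith)).comp hl
  have h3 : Tendsto (fun n : ℕ => (Real.log (n : ℝ)) ^ θ) atTop atTop :=
    (tendsto_rpow_atTop h0).comp hl
  filter_upwards [h2.eventually_ge_atTop 3, h3.eventually_ge_atTop 4, hl.eventually_ge_atTop (Real.log 4),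
    eventually_ge_atTop 1] with n hn2 hn3 hl4 hn1
  have hn0 : (0 : ℝ) < n := by exact_mod_cast hn1
  have hl0 : 0 < Real.log n := lt_of_lt_of_le (Real.log_pos (by norm_num)) hl4
  have e1 : Real.log ((4 * n : ℕ) : ℝ) = Real.log 4 + Real.log n := by
    push_cast
    rw [Real.log_mul (by norm_num) hn0.ne']
  set x := (Real.log (n : ℝ)) ^ θ with hx
  have e2 : (Real.log ((4 * n : ℕ) : ℝ)) ^ θ ≤ 2 * x := by
    rw [e1]
    calc (Real.log 4 + Real.log n) ^ θ ≤ (2 * Real.log n) ^ θ :=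
          Real.rpow_le_rpow (by have := Real.log_pos (show (1 : ℝ) < 4 by norm_num); linarith)
            (by linarith) h0.le
      _ = 2 ^ θ * x := by rw [Real.mul_rpow (by norm_num) hl0.le]
      _ ≤ 2 * x := by
          have : (2 : ℝ) ^ θ ≤ 2 ^ (1 : ℝ) := Real.rpow_le_rpow_of_exponent_le (by norm_num) (by linarith)
          rw [Real.rpow_one] at this
          have hx0 : 0 < x := by linarith
          nlinarith
  have e3 : (Real.log (n : ℝ)) ^ θ' = x * (Real.log (n : ℝ)) ^ (θ' - θ) := by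
    rw [hx, ← Real.rpow_add hl0]
    congr 1; ring
  have e4 : 3 * x ≤ (Real.log (n : ℝ)) ^ θ' := by
    rw [e3]
    have hx0 : 0 < x := by linarith
    nlinarith
  have e5 : Real.exp (2 * x) * Real.exp x ≤ Real.exp ((Real.log n) ^ θ') := by
    rw [← Real.exp_add]
    exact Real.exp_le_exp.mpr (by linarith)
  have e6 : Real.exp ((Real.log ((4 * n : ℕ) : ℝ)) ^ θ) ≤ Real.exp (2 * x) := Real.exp_le_exp.mpr e2
  have e7 : (16 : ℝ) ≤ Real.exp x := by
    have h5 : Real.exp 4 ≤ Real.exp x := Real.exp_le_exp.mpr hn3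
    have h6 : Real.exp 4 = Real.exp 1 ^ 4 := by rw [← Real.exp_nat_mul]; norm_num
    have h7 := Real.exp_one_gt_d9
    have h8 : (2 : ℝ) ^ 4 ≤ Real.exp 1 ^ 4 := pow_le_pow_left₀ (by norm_num) (by linarith) 4
    rw [h6] at h5
    linarith
  have e8 : (1 : ℝ) ≤ Real.exp (2 * x) := Real.one_le_exp (by linarith)
  nlinarith

/-- the same for the windows `exp ((log n) ^ θ)` -/
theorem count_exp {S : Set ℤ} {θ θ' : ℝ} (h0 : 0 < θ) (hθ : θ < θ') (h1 : θ' ≤ 1)
    (h : Negl (fun n => ∀ x : ℕ, n ≤ x → (x : ℝ) ≤ n + Real.exp ((Real.log n) ^ θ) → (x : ℤ) ∉ S)) :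
    Negl (fun n => ∃ L : ℕ, Real.exp ((Real.log n) ^ θ') ≤ L ∧ L ≤ n ∧
      (cnt S n L : ℝ) < L / Real.exp ((Real.log n) ^ θ')) := by
  refine count_real (v := fun n => Real.exp ((Real.log n) ^ θ))
    (V := fun n => Real.exp ((Real.log n) ^ θ')) ?_ h (growth h0 hθ h1) ?_
  · intro a b hab
    apply Real.exp_le_exp.mpr
    apply Real.rpow_le_rpow (Real.log_natCast_nonneg a) _ h0.le
    rcases Nat.eq_zero_or_pos a with rfl | ha
    · simpa using Real.log_natCast_nonneg b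
    · exact Real.log_le_log (by exact_mod_cast ha) (by exact_mod_cast hab)
  · filter_upwards [growth h0 hθ h1] with n hn
    have := Real.exp_pos ((Real.log ((4 * n : ℕ) : ℝ)) ^ θ)
    linarith

end Pool.Agent.KS6_24.LN
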