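import Mathlib
import Pool.Agent.KS6_24.LN.A
import Pool.Agent.KS6_24.LN.AV

/-! The smoothing kernel `W g`, Chebyshev for the number of odd steps. -/

set_option autoImplicit false

namespace Pool.Agent.KS6_24.LN

open Pool.Agent.H499R2.CO Pool.Agent.Y965.SI Finset

/-- running average -/
noncomputable def Avg (g : ℕ) (F : ℤ → ℝ) (x : ℤ) : ℝ := (∑ i ∈ range g, F (x - (i : ℕ))) / g

/-- Dirac mass at 0 -/
noncomputable def dl (x : ℤ) : ℝ := if x = 0 then 1 else 0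

/-- threefold running average of the Dirac mass -/
noncomputable def W (g : ℕ) : ℤ → ℝ := Avg g (Avg g (Avg g dl))

theorem Avg_nonneg {g : ℕ} {F : ℤ → ℝ} (h : ∀ x, 0 ≤ F x) (x : ℤ) : 0 ≤ Avg g F x :=
  div_nonneg (sum_nonneg fun _ _ => h _) (Nat.cast_nonneg _)

theorem Avg_le {g : ℕ} (hg : 1 ≤ g) {F : ℤ → ℝ} {M : ℝ} (h : ∀ x, F x ≤ M) (x : ℤ) : Avg g F x ≤ M := by
  unfold Avg
  have hg' : (0 : ℝ) < g := by exact_mod_cast hg
  rw [div_le_iff₀ hg']
  calc ∑ i ∈ range g, F (x - (i : ℕ)) ≤ ∑ i ∈ range g, M := sum_le_sum fun _ _ => h _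
    _ = M * g := by rw [sum_const, card_range, nsmul_eq_mul, mul_comm]

theorem Avg_dl_le {g : ℕ} (hg : 1 ≤ g) (x : ℤ) : Avg g dl x ≤ 1 / g := by
  unfold Avg dl
  have hg' : (0 : ℝ) < g := by exact_mod_cast hg
  apply div_le_div_of_nonneg_right _ hg'.le
  rw [sum_ite, sum_const_zero, add_zero, sum_const, nsmul_eq_mul, mul_one]
  have : #{i ∈ range g | x - ((i : ℕ) : ℤ) = 0} ≤ 1 := by
    rw [card_le_one]
    intro a ha b hb
    rw [mem_filter] at ha hb
    omega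
  exact_mod_cast this

theorem Avg_diff {g : ℕ} (F : ℤ → ℝ) (x : ℤ) : Avg g F (x + 1) - Avg g F x = (F (x + 1) - F (x + 1 - g)) / g := by
  unfold Avg
  rw [← sub_div]
  congr 1
  induction g with
  | zero => simp
  | succ g ih =>
    rw [sum_range_succ, sum_range_succ]
    have e1 : x + 1 - ((g + 1 : ℕ) : ℤ) = x - g := by push_cast; ring
    rw [e1]
    linarith

theorem dl_nonneg (x : ℤ) : 0 ≤ dl x := by unfold dl; split_ifs <;> norm_num

theorem W_nonneg (g : ℕ) (x : ℤ) : 0 ≤ W g x := Avg_nonneg (Avg_nonneg (Avg_nonneg dl_nonneg)) x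

theorem W_le {g : ℕ} (hg : 1 ≤ g) (x : ℤ) : W g x ≤ 1 / g := Avg_le hg (Avg_le hg (Avg_dl_le hg)) x

theorem Avg_diff_abs {g : ℕ} (hg : 1 ≤ g) {F : ℤ → ℝ} {M : ℝ} (h0 : ∀ x, 0 ≤ F x) (h : ∀ x, F x ≤ M) (x : ℤ) :
    |Avg g F (x + 1) - Avg g F x| ≤ M / g := by
  have hg' : (0 : ℝ) < g := by exact_mod_cast hg
  rw [Avg_diff, abs_div, abs_of_pos hg']
  apply div_le_div_of_nonneg_right _ hg'.le
  rw [abs_le]
  have := h0 (x + 1); have := h (x + 1); have := h0 (x + 1 - g); have := h (x + 1 - g)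
  constructor <;> linarith

theorem W_diff {g : ℕ} (hg : 1 ≤ g) (x : ℤ) : |W g (x + 1) - W g x| ≤ 1 / g ^ 2 := by
  have := Avg_diff_abs hg (Avg_nonneg (Avg_nonneg dl_nonneg)) (Avg_le hg (Avg_dl_le hg)) x
  refine this.trans (le_of_eq ?_)
  rw [div_div, pow_two]

theorem W_diff2 {g : ℕ} (hg : 1 ≤ g) (x : ℤ) : |W g (x + 2) - 2 * W g (x + 1) + W g x| ≤ 2 / g ^ 3 := by
  have hg' : (0 : ℝ) < g := by exact_mod_cast hg
  set F := Avg g (Avg g dl) with hF
  have hd : ∀ x, |F (x + 1) - F x| ≤ 1 / g ^ 2 := by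
    intro x
    have := Avg_diff_abs hg (Avg_nonneg dl_nonneg) (Avg_dl_le hg) x
    refine this.trans (le_of_eq ?_)
    rw [div_div, pow_two]
  have e1 : W g (x + 2) - W g (x + 1) = (F (x + 2) - F (x + 2 - g)) / g := by
    have := Avg_diff (g := g) F (x + 1)
    rw [show x + 1 + 1 = x + 2 by ring] at this
    exact this
  have e2 : W g (x + 1) - W g x = (F (x + 1) - F (x + 1 - g)) / g := Avg_diff F x
  have e3 : W g (x + 2) - 2 * W g (x + 1) + W g x
      = ((F (x + 2) - F (x + 1)) - (F (x + 2 - g) - F (x + 1 - g))) / g := by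
    rw [show W g (x + 2) - 2 * W g (x + 1) + W g x = (W g (x + 2) - W g (x + 1)) - (W g (x + 1) - W g x) by ring,
      e1, e2]
    ring
  rw [e3, abs_div, abs_of_pos hg', div_le_iff₀ hg']
  have h1 := hd (x + 1)
  rw [show x + 1 + 1 = x + 2 by ring] at h1
  have h2 := hd (x + 1 - g)
  rw [show x + 1 - (g : ℤ) + 1 = x + 2 - g by ring] at h2
  refine (abs_sub _ _).trans ((add_le_add h1 h2).trans (le_of_eq ?_))
  field_simp
  ring

theorem Avg_supp {g n : ℕ} {F : ℤ → ℝ} (h : ∀ x, F x ≠ 0 → 0 ≤ x ∧ x ≤ n) (x : ℤ) (hx : Avg g F x ≠ 0) :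
    0 ≤ x ∧ x ≤ (n + g : ℕ) := by
  by_contra hcon
  apply hx
  unfold Avg
  rw [sum_eq_zero, zero_div]
  intro i hi
  by_contra h2
  obtain ⟨h3, h4⟩ := h _ h2
  rw [mem_range] at hi
  apply hcon
  push_cast
  constructor <;> omega

theorem W_supp {g : ℕ} (x : ℤ) (hx : W g x ≠ 0) : 0 ≤ x ∧ x ≤ (3 * g : ℕ) := by
  have h0 : ∀ x, dl x ≠ 0 → 0 ≤ x ∧ x ≤ (0 : ℕ) := by
    intro x hx
    unfold dl at hx
    have : x = 0 := by by_contra h; rw [if_neg h] at hx; exact hx rfl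
    subst this; simp
  have h1 := Avg_supp (g := g) h0
  have h2 := Avg_supp (g := g) h1
  have h3 := Avg_supp (g := g) h2 x hx
  push_cast at h3 ⊢
  constructor <;> omega

theorem Avg_sum {g N : ℕ} (G : ℤ → ℝ) (F : ℕ → ℝ) (a : ℕ) :
    ∑ c ∈ range N, Avg g G (c - a) * F c = (∑ i ∈ range g, ∑ c ∈ range N, G (c - (a + i : ℕ)) * F c) / g := by
  unfold Avg
  rw [sum_comm, sum_div]
  apply sum_congr rfl
  intro c _
  rw [div_mul_eq_mul_div, sum_mul]
  congr 1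
  apply sum_congr rfl
  intro i _
  push_cast
  rw [show (c : ℤ) - (a + i) = c - a - i by ring]

theorem dl_sum {N : ℕ} (F : ℕ → ℝ) {a : ℕ} (ha : a < N) : ∑ c ∈ range N, dl (c - (a : ℕ)) * F c = F a := by
  rw [sum_eq_single a]
  · simp [dl]
  · intro b _ hb
    unfold dl
    rw [if_neg (by omega), zero_mul]
  · intro h; exact absurd (mem_range.2 ha) h

/-- the kernel as a threefold average -/
theorem W_sum {g N : ℕ} (F : ℕ → ℝ) {a : ℕ} (ha : a + 3 * g ≤ N) (hg : 1 ≤ g) :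
    ∑ c ∈ range N, W g (c - a) * F c
      = (∑ i ∈ range g, (∑ j ∈ range g, (∑ l ∈ range g, F (a + i + j + l)) / g) / g) / g := by
  unfold W
  rw [Avg_sum]
  congr 1
  apply sum_congr rfl
  intro i hi
  rw [Avg_sum]
  congr 1
  apply sum_congr rfl
  intro j hj
  rw [Avg_sum]
  congr 1
  apply sum_congr rfl
  intro l hl
  rw [mem_range] at hi hj hl
  exact dl_sum F (by omega)

theorem W_sum_one {g N : ℕ} {a : ℕ} (ha : a + 3 * g ≤ N) (hg : 1 ≤ g) :
    ∑ c ∈ range N, W g (c - a) = 1 := by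
  have h := W_sum (fun _ => (1 : ℝ)) ha hg
  have hg' : (g : ℝ) ≠ 0 := by positivity
  simp only [mul_one] at h
  rw [h]
  simp [hg']

/-- comparison with a constant -/
theorem W_sum_sub {g N : ℕ} (F : ℕ → ℝ) {a : ℕ} (ha : a + 3 * g ≤ N) (hg : 1 ≤ g) (z : ℝ) :
    |z - ∑ c ∈ range N, W g (c - a) * F c|
      ≤ (∑ i ∈ range g, (∑ j ∈ range g, (∑ l ∈ range g, |z - F (a + (i + j + l))|) / g) / g) / g := by
  have hg' : (0 : ℝ) < g := by exact_mod_cast hg
  have h1 : z - ∑ c ∈ range N, W g (c - a) * F c = ∑ c ∈ range N, W g (c - a) * (z - F c) := by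
    have := W_sum_one (g := g) (N := N) ha hg
    calc z - ∑ c ∈ range N, W g (c - a) * F c
        = z * ∑ c ∈ range N, W g (c - a) - ∑ c ∈ range N, W g (c - a) * F c := by rw [this, mul_one]
      _ = _ := by
        rw [mul_sum, ← sum_sub_distrib]
        apply sum_congr rfl; intro c _; ring
  have h2 : |∑ c ∈ range N, W g (c - a) * (z - F c)| ≤ ∑ c ∈ range N, W g (c - a) * |z - F c| := by
    refine (abs_sum_le_sum_abs _ _).trans (le_of_eq ?_)
    apply sum_congr rfl; intro c _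
    rw [abs_mul, abs_of_nonneg (W_nonneg _ _)]
  rw [h1]
  refine h2.trans (le_of_eq ?_)
  rw [W_sum (fun c => |z - F c|) ha hg]
  simp only [add_assoc]

/-! ### Chebyshev -/

theorem flip {d : ℤ} (hd : d % 2 = 1) (t : ℕ) (x : ℤ) :
    (Tz d)^[t] (x + 2 ^ t) % 2 = 1 - (Tz d)^[t] x % 2 := by
  have h := iter_add' hd t x 1
  rw [one_mul] at h
  rw [h]
  have h3 := odd3 (od d t x)
  omega

theorem od_succ_pair {d : ℤ} (hd : d % 2 = 1) (t : ℕ) (x : ℤ) :
    (od d (t + 1) x = od d t x + 1 ∧ od d (t + 1) (x + 2 ^ t) = od d t x) ∨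
      (od d (t + 1) x = od d t x ∧ od d (t + 1) (x + 2 ^ t) = od d t x + 1) := by
  have h1 := flip hd t x
  have h2 := od_per hd t x 1
  rw [one_mul] at h2
  rw [od_succ', od_succ', h2]
  rcases Int.emod_two_eq_zero_or_one ((Tz d)^[t] x) with h | h
  · right; rw [if_neg (by omega), if_pos (by omega)]; exact ⟨rfl, rfl⟩
  · left; rw [if_pos h, if_neg (by omega)]; exact ⟨rfl, rfl⟩

theorem var_od {d : ℤ} (hd : d % 2 = 1) (t : ℕ) : pm t (fun x => ((od d t x : ℝ) - t / 2) ^ 2) = t / 4 := by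
  induction t with
  | zero => simp [pm, od]
  | succ t ih =>
    rw [pm_succ]
    have : ∀ x : ℤ, (((od d (t + 1) x : ℝ) - ((t + 1 : ℕ) : ℝ) / 2) ^ 2
        + ((od d (t + 1) (x + 2 ^ t) : ℝ) - ((t + 1 : ℕ) : ℝ) / 2) ^ 2) / 2
        = ((od d t x : ℝ) - t / 2) ^ 2 + 1 / 4 := by
      intro x
      rcases od_succ_pair hd t x with ⟨a, b⟩ | ⟨a, b⟩ <;> rw [a, b] <;> push_cast <;> ring
    rw [pm_congr this, pm_add, ih, pm_const]
    push_cast; ring

theorem cheb {d : ℤ} (hd : d % 2 = 1) (t : ℕ) {B : ℝ} (hB : 0 < B) :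
    pm t (fun x => if B < |(od d t x : ℝ) - t / 2| then (1 : ℝ) else 0) ≤ t / (4 * B ^ 2) := by
  have h1 : pm t (fun x => if B < |(od d t x : ℝ) - t / 2| then (1 : ℝ) else 0)
      ≤ pm t (fun x => (1 / B ^ 2) * ((od d t x : ℝ) - t / 2) ^ 2) := by
    apply pm_mono
    intro x
    split_ifs with h
    · rw [one_div, inv_mul_eq_div, le_div_iff₀ (by positivity), one_mul]
      rw [← sq_abs ((od d t x : ℝ) - t / 2)]
      exact pow_le_pow_left₀ hB.le h.le 2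
    · positivity
  rw [pm_mul, var_od hd] at h1
  refine h1.trans (le_of_eq ?_)
  field_simp

/-- means over real intervals of nonnegative periodic functions -/
theorem av_per {T : ℕ} {F : ℤ → ℝ} (hF : Per T F) (h0 : ∀ x, 0 ≤ F x) {M : ℝ} (hM : ∀ x, |F x| ≤ M) {V : ℝ}
    (hV : (2 : ℝ) ^ T ≤ V) : av V (fun y => F ⌊y⌋) ≤ 4 * pm T F := by
  have h2 : (1 : ℝ) ≤ 2 ^ T := one_le_pow₀ (by norm_num)
  have hV0 : 0 < V := by linarith
  have hle : ⌊V⌋ ≤ ⌊2 * V⌋ + 1 := by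
    have : ⌊V⌋ ≤ ⌊2 * V⌋ := Int.floor_le_floor (by linarith)
    omega
  have hp := pm_nonneg (t := T) h0
  have h1 := av_le_of_fib (Bd.fl hM) (fun y => h0 _) hV0 (B := 4 * V * pm T F) (by
    intro φ hφ0 hφ1
    have e : ∀ n ∈ Ico ⌊V⌋ (⌊2 * V⌋ + 1), F ⌊(n : ℝ) + φ⌋ = F n := by
      intro n _
      congr 1
      rw [Int.floor_eq_iff]; constructor <;> linarith
    rw [sum_congr rfl e]
    refine (sum_Ico_per hF h0 _ _ hle).trans ?_
    apply mul_le_mul_of_nonneg_right _ hp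
    push_cast
    have a1 := Int.floor_le (2 * V)
    have a2 := Int.lt_floor_add_one V
    linarith)
  refine h1.trans (le_of_eq ?_)
  field_simp

end Pool.Agent.KS6_24.LN
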