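import Mathlib
import Pool.Agent.KS6_24.LN.W

/-! PROJECT LN: the pair lemma and the energy step (statements). -/

set_option autoImplicit false

namespace Pool.Agent.KS6_24.LN

open Pool.Agent.H499R2.CO Pool.Agent.Y965.SI Finset

/-- `f` at scale `c` -/
noncomputable def fc (f : ℤ → ℝ) (t c : ℕ) (y : ℝ) : ℝ := f ⌊3 ^ c * y / 2 ^ t⌋

noncomputable def psi (d : ℤ) (t g c : ℕ) (x : ℤ) : ℝ := W g ((c : ℤ) - (od d t x : ℕ))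

noncomputable def pc (d : ℤ) (t g c : ℕ) : ℝ := pm t (psi d t g c)

/-- typical scales -/
def Cs (t g B : ℕ) : Finset ℕ := {c ∈ range (t + 3 * g) | t ≤ 2 * c + 2 * B ∧ 2 * c ≤ t + 2 * B + 6 * g}

/-- the averaged function -/
noncomputable def Pf (f : ℤ → ℝ) (d : ℤ) (t g B : ℕ) (y : ℝ) : ℝ := ∑ c ∈ Cs t g B, pc d t g c * fc f t c y

/-- PAIR LEMMA with the parameters `t = u^990`, `g = u^488`, `B = u^501`, for heights `≥ u^1000`. -/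
def S_PAIR (d : ℤ) : Prop := ∃ (C : ℝ) (u0 : ℕ), 0 < C ∧ 1 ≤ u0 ∧ ∀ f : ℤ → ℝ, InvF d f → ∀ u : ℕ, u0 ≤ u →
  ∀ V lam : ℝ, 2 * (2 : ℝ) ^ (u ^ 1000) ≤ V → 1 / 2 ≤ lam → lam ≤ 2 →
    |av V (fun y => f ⌊y⌋ * f ⌊lam * y⌋)
      - av V (fun y => Pf f d (u ^ 990) (u ^ 488) (u ^ 501) y * Pf f d (u ^ 990) (u ^ 488) (u ^ 501) (lam * y))|
      ≤ C / (u : ℝ) ^ 4 ∧
    (¬ Bad (2 ^ (2 * u ^ 990)) (V / 2 ^ (2 * u ^ 990)) lam →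
    |av V (fun y => f ⌊y⌋ * f ⌊lam * y⌋)
      - av V (fun y => Pf f d (u ^ 990) (u ^ 488) (u ^ 501) y * Pf f d (u ^ 990) (u ^ 488) (u ^ 501) (lam * y))|
      ≤ C / (u : ℝ) ^ 11)

/-- ENERGY STEP (from S_PAIR and S_EXC) -/
def S_STEP (d : ℤ) : Prop := ∀ κ : ℝ, 0 < κ → ∃ (C : ℝ) (u0 : ℕ), 0 < C ∧ 1 ≤ u0 ∧ ∀ f : ℤ → ℝ, InvF d f →
  ∀ u : ℕ, u0 ≤ u → ∀ Z : ℝ, 2 * (2 : ℝ) ^ (u ^ 1000) ≤ Z → ∀ K : ℕ, κ * Real.log Z ≤ K →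
    En f K Z ≤ (∑ c ∈ Cs (u ^ 990) (u ^ 488) (u ^ 501), pc d (u ^ 990) (u ^ 488) c
      * En f K (3 ^ c / 2 ^ (u ^ 990) * Z)) + C / (u : ℝ) ^ 11

end Pool.Agent.KS6_24.LN
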