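import Mathlib
import Pool.Agent.KS6_24.LN.Defs3

/-! Window averages against one or two oscillating factors. -/

set_option autoImplicit false

namespace Pool.Agent.KS6_24.LN

open Pool.Agent.H499R2.CO Pool.Agent.Y965.SI Finset

theorem Bd.shiftfl {φ : ℤ → ℝ} {M : ℝ} (hφ : ∀ x, |φ x| ≤ M) (w : ℤ) : Bd M (fun y : ℝ => φ (⌊y⌋ + w)) :=
  Bd.fl (F := fun x => φ (x + w)) fun x => hφ _

/-- average over shifts -/
theorem av_avg_shift {V : ℝ} (hV : 0 < V) {M : ℝ} {u : ℝ → ℝ} (h : Bd M u) {l : ℕ} (hl : 1 ≤ l) :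
    |av V u - (∑ w ∈ range l, av V (fun y => u (y + (w : ℕ)))) / l| ≤ 2 * l * M / V := by
  have hl' : (0 : ℝ) < l := by exact_mod_cast hl
  have h1 : av V u - (∑ w ∈ range l, av V (fun y => u (y + (w : ℕ)))) / l
      = (∑ w ∈ range l, (av V u - av V (fun y => u (y + (w : ℕ))))) / l := by
    rw [sum_sub_distrib, sum_const, card_range, nsmul_eq_mul]; field_simp
  rw [h1, abs_div, abs_of_pos hl', div_le_iff₀ hl']
  refine (abs_sum_le_sum_abs _ _).trans ?_
  calc ∑ w ∈ range l, |av V u - av V (fun y => u (y + (w : ℕ)))| ≤ ∑ w ∈ range l, 2 * l * M / V := by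
        apply sum_le_sum
        intro w hw
        rw [abs_sub_comm]
        refine (av_shift hV h w).trans ?_
        apply div_le_div_of_nonneg_right _ hV.le
        apply mul_le_mul_of_nonneg_right _ h.nonneg
        rw [abs_of_nonneg (Nat.cast_nonneg _)]
        have : (w : ℝ) ≤ l := by exact_mod_cast (mem_range.1 hw).le
        linarith
    _ = 2 * l * M / V * l := by rw [sum_const, card_range, nsmul_eq_mul, mul_comm]

/-- ONE oscillating factor -/
theorem t1 {φ : ℤ → ℝ} {M : ℝ} (hφ : ∀ x, |φ x| ≤ M) {G : ℝ → ℝ} (hG : Bd 1 G) {V : ℝ} (hV : 0 < V) {l : ℕ}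
    (hl : 1 ≤ l) {e₂ e₃ : ℝ} (h2 : ∀ x : ℤ, |(∑ w ∈ range l, φ (x + (w : ℕ))) / l| ≤ e₂)
    (h3 : ∀ w < l, av V (fun y => |G (y + (w : ℕ)) - G y|) ≤ e₃) :
    |av V (fun y => φ ⌊y⌋ * G y)| ≤ e₂ + M * e₃ + 2 * l * M / V := by
  have hl' : (0 : ℝ) < l := by exact_mod_cast hl
  have hM : 0 ≤ M := (abs_nonneg _).trans (hφ 0)
  have hφB : Bd M (fun y : ℝ => φ ⌊y⌋) := Bd.fl hφ
  have hu : Bd (M * 1) (fun y => φ ⌊y⌋ * G y) := hφB.mul hG
  have h0 := av_avg_shift hV hu hl
  rw [mul_one] at h0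
  have hfl : ∀ (y : ℝ) (w : ℕ), ⌊y + (w : ℕ)⌋ = ⌊y⌋ + (w : ℕ) := fun y w => by
    rw [Int.floor_add_natCast]
  simp only [hfl] at h0
  -- replace G (y + w) by G y
  have h4 : |(∑ w ∈ range l, av V (fun y => φ (⌊y⌋ + (w : ℕ)) * G (y + (w : ℕ)))) / l
      - (∑ w ∈ range l, av V (fun y => φ (⌊y⌋ + (w : ℕ)) * G y)) / l| ≤ M * e₃ := by
    rw [← sub_div, ← sum_sub_distrib, abs_div, abs_of_pos hl', div_le_iff₀ hl']
    refine (abs_sum_le_sum_abs _ _).trans ?_
    calc ∑ w ∈ range l, |av V (fun y => φ (⌊y⌋ + (w : ℕ)) * G (y + (w : ℕ))) - av V (fun y => φ (⌊y⌋ + (w : ℕ)) * G y)|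
        ≤ ∑ w ∈ range l, M * e₃ := by
          apply sum_le_sum
          intro w hw
          have b1 := Bd.shiftfl hφ (w : ℤ)
          have b2 : Bd 1 (fun y => G (y + (w : ℕ))) := hG.comp (by fun_prop)
          rw [← av_sub V (b1.mul b2) (b1.mul hG)]
          have b3 : Bd (M * (1 + 1)) (fun y => φ (⌊y⌋ + (w : ℕ)) * (G (y + (w : ℕ)) - G y)) := b1.mul (b2.sub hG)
          have e : (fun y => φ (⌊y⌋ + (w : ℕ)) * G (y + (w : ℕ)) - φ (⌊y⌋ + (w : ℕ)) * G y)
              = fun y => φ (⌊y⌋ + (w : ℕ)) * (G (y + (w : ℕ)) - G y) := by funext y; ring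
          rw [e]
          refine (abs_av_le hV b3).trans ?_
          have h5 : av V (fun y => |φ (⌊y⌋ + (w : ℕ)) * (G (y + (w : ℕ)) - G y)|)
              ≤ av V (fun y => M * |G (y + (w : ℕ)) - G y|) := by
            apply av_mono hV b3.abs ((b2.sub hG).abs.cmul M)
            intro y _ _
            rw [abs_mul]
            exact mul_le_mul_of_nonneg_right (hφ _) (abs_nonneg _)
          refine h5.trans ?_
          rw [av_cmul]
          exact mul_le_mul_of_nonneg_left (h3 w (mem_range.1 hw)) hM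
      _ = M * e₃ * l := by rw [sum_const, card_range, nsmul_eq_mul, mul_comm]
  have h6 : |(∑ w ∈ range l, av V (fun y => φ (⌊y⌋ + (w : ℕ)) * G y)) / l| ≤ e₂ := by
    have b : ∀ w ∈ range l, Bd (M * 1) (fun y => φ (⌊y⌋ + (w : ℕ)) * G y) := fun w _ => (Bd.shiftfl hφ (w : ℤ)).mul hG
    have e : (∑ w ∈ range l, av V (fun y => φ (⌊y⌋ + (w : ℕ)) * G y)) / l
        = av V (fun y => (1 / (l : ℝ)) * ∑ w ∈ range l, φ (⌊y⌋ + (w : ℕ)) * G y) := by
      rw [av_cmul, av_sum V b]; ring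
    rw [e]
    have bb := (Bd.sum b).cmul (1 / (l : ℝ))
    refine (abs_av_le hV bb).trans ?_
    apply av_le hV bb.abs
    intro y _ _
    have e2 : 1 / (l : ℝ) * ∑ w ∈ range l, φ (⌊y⌋ + (w : ℕ)) * G y
        = ((∑ w ∈ range l, φ (⌊y⌋ + (w : ℕ))) / l) * G y := by rw [← sum_mul]; ring
    rw [e2, abs_mul]
    have h7 := h2 ⌊y⌋
    have h8 := hG.2 y
    calc _ ≤ e₂ * 1 := mul_le_mul h7 h8 (abs_nonneg _) ((abs_nonneg _).trans h7)
      _ = e₂ := mul_one _
  have h9 := abs_le.1 h0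
  have h10 := abs_le.1 h4
  have h11 := abs_le.1 h6
  rw [abs_le]
  constructor <;> linarith [h9.1, h9.2, h10.1, h10.2, h11.1, h11.2]

theorem pm_even {t : ℕ} {φ : ℤ → ℝ} (hφ : Per t φ) (w w' : ℤ) :
    pm t (fun x => φ (x + w) * φ (x + w')) = pm t (fun x => φ x * φ (x + (w' - w))) := by
  have hP : Per t (fun x => φ x * φ (x + (w' - w))) := by
    intro x m
    simp only
    rw [hφ x m, show x + m * 2 ^ t + (w' - w) = x + (w' - w) + m * 2 ^ t by ring, hφ]
  have := pm_shift hP w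
  rw [← this]
  apply pm_congr
  intro x
  rw [show x + w + (w' - w) = x + w' by ring]

/-- sum over pairs of a function of the difference -/
theorem sum_pairs_le {T : ℤ → ℝ} (h0 : ∀ h, 0 ≤ T h) (hs : ∀ h, T (-h) = T h) (l : ℕ) :
    ∑ w ∈ range l, ∑ w' ∈ range l, T ((w' : ℤ) - w) ≤ 2 * l * ∑ h ∈ range l, T (h : ℕ) := by
  have h1 : ∀ w ∈ range l, ∑ w' ∈ range l, T ((w' : ℤ) - w) ≤ 2 * ∑ h ∈ range l, T (h : ℕ) := by
    intro w hw
    rw [mem_range] at hw
    have hsplit : ∑ w' ∈ range l, T ((w' : ℤ) - w) = ∑ w' ∈ range w, T ((w' : ℤ) - w) + ∑ w' ∈ Ico w l, T ((w' : ℤ) - w) := by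
      rw [range_eq_Ico, range_eq_Ico, sum_Ico_consecutive _ (by omega) (by omega)]
    rw [hsplit, two_mul]
    apply add_le_add
    · have e : ∑ w' ∈ range w, T ((w' : ℤ) - w) = ∑ j ∈ range w, T (((j + 1 : ℕ)) : ℤ) := by
        rw [← sum_range_reflect]
        apply sum_congr rfl
        intro j hj
        rw [mem_range] at hj
        rw [← hs]
        congr 1
        push_cast
        omega
      rw [e]
      calc ∑ j ∈ range w, T (((j + 1 : ℕ)) : ℤ) ≤ ∑ h ∈ range (w + 1), T ((h : ℕ) : ℤ) := by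
            rw [sum_range_succ']
            have := h0 ((0 : ℕ) : ℤ)
            linarith
        _ ≤ ∑ h ∈ range l, T (h : ℕ) := by
            apply sum_le_sum_of_subset_of_nonneg
            · intro x hx; rw [mem_range] at hx ⊢; omega
            · intro x _ _; exact h0 _
    · have e : ∑ w' ∈ Ico w l, T ((w' : ℤ) - w) = ∑ j ∈ range (l - w), T ((j : ℕ) : ℤ) := by
        rw [sum_Ico_eq_sum_range]
        apply sum_congr rfl
        intro j _
        congr 1; push_cast; ring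
      rw [e]
      apply sum_le_sum_of_subset_of_nonneg
      · intro x hx; rw [mem_range] at hx ⊢; omega
      · intro x _ _; exact h0 _
  refine (sum_le_sum h1).trans (le_of_eq ?_)
  rw [sum_const, card_range, nsmul_eq_mul]; ring

/-- TWO oscillating factors -/
theorem q1 {t : ℕ} {φ χ : ℤ → ℝ} (hφ : ∀ x, |φ x| ≤ 1) (hχ : ∀ x, |χ x| ≤ 1) (hP : Per t φ)
    {G : ℝ → ℝ} (hG : Bd 1 G) {V : ℝ} (hV : 0 < V) {l : ℕ}
    (hl : 1 ≤ l) {lam e₃ e₄ e₅ : ℝ} (h3 : ∀ w < l, av V (fun y => |G (y + (w : ℕ)) - G y|) ≤ e₃)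
    (h4 : (∑ h ∈ range l, |pm t (fun x => φ x * φ (x + (h : ℕ)))|) / l ≤ e₄)
    (h5 : ∀ w w' : ℕ, |av V (fun y => (φ (⌊y⌋ + w) * φ (⌊y⌋ + w')) * (χ ⌊lam * y + lam * w⌋ * χ ⌊lam * y + lam * w'⌋))|
      ≤ |pm t (fun x => φ (x + w) * φ (x + w'))| + e₅) :
    |av V (fun y => φ ⌊y⌋ * χ ⌊lam * y⌋ * G y)| ≤ √ (2 * e₄ + e₅) + e₃ + 2 * l / V := by
  have hl' : (0 : ℝ) < l := by exact_mod_cast hl
  have hφB : Bd 1 (fun y : ℝ => φ ⌊y⌋) := Bd.fl hφ
  have hχB : Bd 1 (fun y : ℝ => χ ⌊lam * y⌋) := Bd.flc hχ (by fun_prop)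
  have hu : Bd (1 * 1 * 1) (fun y => φ ⌊y⌋ * χ ⌊lam * y⌋ * G y) := (hφB.mul hχB).mul hG
  have h0 := av_avg_shift hV hu hl
  simp only [mul_one] at h0
  have hfl : ∀ (y : ℝ) (w : ℕ), ⌊y + (w : ℕ)⌋ = ⌊y⌋ + (w : ℕ) := fun y w => by
    rw [Int.floor_add_natCast]
  simp only [hfl, mul_add] at h0
  set P : ℕ → ℝ → ℝ := fun w y => φ (⌊y⌋ + (w : ℕ)) * χ ⌊lam * y + lam * (w : ℕ)⌋ with hPdef
  have bP : ∀ w : ℕ, Bd (1 * 1) (P w) := fun w => (Bd.shiftfl hφ (w : ℤ)).mul (Bd.flc hχ (by fun_prop))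
  have h4' : |(∑ w ∈ range l, av V (fun y => P w y * G (y + (w : ℕ)))) / l
      - (∑ w ∈ range l, av V (fun y => P w y * G y)) / l| ≤ e₃ := by
    rw [← sub_div, ← sum_sub_distrib, abs_div, abs_of_pos hl', div_le_iff₀ hl']
    refine (abs_sum_le_sum_abs _ _).trans ?_
    calc ∑ w ∈ range l, |av V (fun y => P w y * G (y + (w : ℕ))) - av V (fun y => P w y * G y)|
        ≤ ∑ w ∈ range l, e₃ := by
          apply sum_le_sum
          intro w hw
          have b1 := bP w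
          have b2 : Bd 1 (fun y => G (y + (w : ℕ))) := hG.comp (by fun_prop)
          rw [← av_sub V (b1.mul b2) (b1.mul hG)]
          have b3 : Bd (1 * 1 * (1 + 1)) (fun y => P w y * (G (y + (w : ℕ)) - G y)) := b1.mul (b2.sub hG)
          have e : (fun y => P w y * G (y + (w : ℕ)) - P w y * G y)
              = fun y => P w y * (G (y + (w : ℕ)) - G y) := by funext y; ring
          rw [e]
          refine (abs_av_le hV b3).trans ?_
          refine le_trans ?_ (h3 w (mem_range.1 hw))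
          apply av_mono hV b3.abs (b2.sub hG).abs
          intro y _ _
          rw [abs_mul]
          have := b1.2 y
          rw [one_mul] at this
          exact mul_le_of_le_one_left (abs_nonneg _) this
      _ = e₃ * l := by rw [sum_const, card_range, nsmul_eq_mul, mul_comm]
  -- second moment
  set A : ℝ → ℝ := fun y => (1 / (l : ℝ)) * ∑ w ∈ range l, P w y with hA
  have bA : Bd 1 A := by
    have b := (Bd.sum fun w (_ : w ∈ range l) => bP w).cmul (1 / (l : ℝ))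
    refine b.mono (le_of_eq ?_)
    rw [abs_of_pos (by positivity), sum_const, card_range, nsmul_eq_mul]
    field_simp
  have h6 : (∑ w ∈ range l, av V (fun y => P w y * G y)) / l = av V (fun y => A y * G y) := by
    have b : ∀ w ∈ range l, Bd (1 * 1 * 1) (fun y => P w y * G y) := fun w _ => (bP w).mul hG
    have e : (fun y => A y * G y) = fun y => (1 / (l : ℝ)) * ∑ w ∈ range l, P w y * G y := by
      funext y; rw [hA]; simp only; rw [← sum_mul]; ring
    rw [e, av_cmul, av_sum V b]; ring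
  have h7 : |av V (fun y => A y * G y)| ≤ √ (av V (fun y => A y ^ 2)) := by
    refine (abs_av_le hV (bA.mul hG)).trans (le_trans ?_ (av_abs_le_sqrt hV bA))
    apply av_mono hV (bA.mul hG).abs bA.abs
    intro y _ _
    rw [abs_mul]
    exact mul_le_of_le_one_right (abs_nonneg _) (hG.2 y)
  have h8 : av V (fun y => A y ^ 2) ≤ 2 * e₄ + e₅ := by
    have b2 : ∀ w ∈ range l, ∀ w' ∈ range l, Bd (1 * 1 * (1 * 1)) (fun y => P w y * P w' y) :=
      fun w _ w' _ => (bP w).mul (bP w')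
    have e : (fun y => A y ^ 2) = fun y => (1 / (l : ℝ) ^ 2) * ∑ w ∈ range l, ∑ w' ∈ range l, P w y * P w' y := by
      funext y
      rw [hA]
      simp only
      rw [mul_pow, pow_two (∑ w ∈ range l, P w y), sum_mul_sum, one_div, inv_pow, one_div]
    rw [e, av_cmul]
    have bs : ∀ w ∈ range l, Bd (∑ w' ∈ range l, (1 * 1 * (1 * 1) : ℝ)) (fun y => ∑ w' ∈ range l, P w y * P w' y) :=
      fun w hw => Bd.sum fun w' hw' => b2 w hw w' hw'
    rw [av_sum V bs]
    have e2 : ∀ w ∈ range l, av V (fun y => ∑ w' ∈ range l, P w y * P w' y)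
        = ∑ w' ∈ range l, av V (fun y => P w y * P w' y) := fun w hw => av_sum V fun w' hw' => b2 w hw w' hw'
    rw [sum_congr rfl e2]
    set T : ℤ → ℝ := fun h => |pm t (fun x => φ x * φ (x + h))| with hT
    have hTs : ∀ h, T (-h) = T h := by
      intro h
      rw [hT]
      simp only
      congr 1
      have := pm_even hP h 0
      rw [zero_sub] at this
      rw [← this]
      apply pm_congr
      intro x
      rw [add_zero]; ring
    have h9 : ∀ w ∈ range l, ∀ w' ∈ range l, av V (fun y => P w y * P w' y) ≤ T ((w' : ℤ) - w) + e₅ := by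
      intro w _ w' _
      have := h5 w w'
      rw [pm_even hP] at this
      have e3 : (fun y => P w y * P w' y) = fun y => (φ (⌊y⌋ + w) * φ (⌊y⌋ + w')) *
          (χ ⌊lam * y + lam * w⌋ * χ ⌊lam * y + lam * w'⌋) := by
        funext y; rw [hPdef]; simp only; ring
      rw [e3]
      exact (le_abs_self _).trans this
    have h10 : ∑ w ∈ range l, ∑ w' ∈ range l, av V (fun y => P w y * P w' y)
        ≤ 2 * l * ∑ h ∈ range l, T (h : ℕ) + l * (l * e₅) := by
      have h11 : ∑ w ∈ range l, ∑ w' ∈ range l, av V (fun y => P w y * P w' y)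
          ≤ ∑ w ∈ range l, ∑ w' ∈ range l, (T ((w' : ℤ) - w) + e₅) :=
        sum_le_sum fun w hw => sum_le_sum fun w' hw' => h9 w hw w' hw'
      refine h11.trans ?_
      simp only [sum_add_distrib, sum_const, card_range, nsmul_eq_mul]
      have := sum_pairs_le (T := T) (fun h => abs_nonneg _) hTs l
      linarith
    have h12 : ∑ h ∈ range l, T (h : ℕ) ≤ e₄ * l := by
      rw [div_le_iff₀ hl'] at h4
      exact h4
    have h13 : 2 * l * ∑ h ∈ range l, T (h : ℕ) + l * (l * e₅) ≤ (2 * e₄ + e₅) * (l : ℝ) ^ 2 := by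
      have : 2 * (l : ℝ) * ∑ h ∈ range l, T (h : ℕ) ≤ 2 * l * (e₄ * l) :=
        mul_le_mul_of_nonneg_left h12 (by positivity)
      nlinarith
    calc 1 / (l : ℝ) ^ 2 * ∑ w ∈ range l, ∑ w' ∈ range l, av V (fun y => P w y * P w' y)
        ≤ 1 / (l : ℝ) ^ 2 * ((2 * e₄ + e₅) * (l : ℝ) ^ 2) :=
          mul_le_mul_of_nonneg_left (h10.trans h13) (by positivity)
      _ = 2 * e₄ + e₅ := by field_simp
  have h14 : √ (av V (fun y => A y ^ 2)) ≤ √ (2 * e₄ + e₅) := Real.sqrt_le_sqrt h8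
  rw [h6] at h4'
  have h9 := abs_le.1 h0
  have h10 := abs_le.1 h4'
  have h11 := abs_le.1 h7
  rw [abs_le]
  constructor <;> linarith [h9.1, h9.2, h10.1, h10.2, h11.1, h11.2]

end Pool.Agent.KS6_24.LN
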