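import Mathlib
import Pool.Agent.KS6_24.LN.TQ

/-! The pair lemma with abstract error terms. -/

set_option autoImplicit false

namespace Pool.Agent.KS6_24.LN

open Pool.Agent.H499R2.CO Pool.Agent.Y965.SI Finset

variable {d : ℤ} {f : ℤ → ℝ} {t g B : ℕ}

theorem psi_nonneg (c : ℕ) (x : ℤ) : 0 ≤ psi d t g c x := W_nonneg _ _

theorem psi_le (hg : 1 ≤ g) (c : ℕ) (x : ℤ) : psi d t g c x ≤ 1 / g := W_le hg _

theorem pc_nonneg (c : ℕ) : 0 ≤ pc d t g c := pm_nonneg fun x => psi_nonneg c x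

theorem pc_le (hg : 1 ≤ g) (c : ℕ) : pc d t g c ≤ 1 / g := by
  have := pm_mono (t := t) (F := psi d t g c) (G := fun _ => 1 / (g : ℝ)) fun x => psi_le hg c x
  rwa [pm_const] at this

theorem psi_per (hd : d % 2 = 1) (c : ℕ) : Per t (psi d t g c) := by
  intro x m; unfold psi; rw [od_per hd]

theorem Cs_sub : Cs t g B ⊆ range (t + 3 * g) := filter_subset _ _

theorem sum_psi_le (hg : 1 ≤ g) (x : ℤ) : ∑ c ∈ Cs t g B, psi d t g c x ≤ 1 := by
  have h1 := W_sum_one (g := g) (N := t + 3 * g) (a := od d t x) (by have := od_le d t x; omega) hg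
  rw [← h1]
  exact sum_le_sum_of_subset_of_nonneg Cs_sub fun c _ _ => W_nonneg _ _

theorem sum_pc_le (hg : 1 ≤ g) : ∑ c ∈ Cs t g B, pc d t g c ≤ 1 := by
  unfold pc
  rw [← pm_sum]
  have := pm_mono (t := t) (F := fun x => ∑ c ∈ Cs t g B, psi d t g c x) (G := fun _ => (1 : ℝ)) fun x => sum_psi_le hg x
  rwa [pm_const] at this

/-- the sum with the true weights -/
noncomputable def Ff (f : ℤ → ℝ) (d : ℤ) (t g B : ℕ) (y : ℝ) : ℝ := ∑ c ∈ Cs t g B, psi d t g c ⌊y⌋ * fc f t c y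

/-- the normalized oscillating factor -/
noncomputable def ph (d : ℤ) (t g c : ℕ) (x : ℤ) : ℝ := g * (psi d t g c x - pc d t g c)

theorem ph_abs (hg : 1 ≤ g) (c : ℕ) (x : ℤ) : |ph d t g c x| ≤ 1 := by
  unfold ph
  have hg' : (0 : ℝ) < g := by exact_mod_cast hg
  have h1 := psi_nonneg (d := d) (t := t) (g := g) c x
  have h2 := psi_le (d := d) (t := t) hg c x
  have h3 := pc_nonneg (d := d) (t := t) (g := g) c
  have h4 := pc_le (d := d) (t := t) hg c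
  rw [abs_mul, abs_of_pos hg']
  have h5 : |psi d t g c x - pc d t g c| ≤ 1 / g := by rw [abs_le]; constructor <;> linarith
  calc (g : ℝ) * |psi d t g c x - pc d t g c| ≤ g * (1 / g) := mul_le_mul_of_nonneg_left h5 hg'.le
    _ = 1 := by field_simp

theorem ph_per (hd : d % 2 = 1) (c : ℕ) : Per t (ph d t g c) := by
  intro x m; unfold ph; rw [psi_per hd c x m]

theorem psi_eq (hg : 1 ≤ g) (c : ℕ) (x : ℤ) : psi d t g c x - pc d t g c = 1 / g * ph d t g c x := by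
  unfold ph
  have hg' : (g : ℝ) ≠ 0 := by positivity
  field_simp

variable (hf : ∀ x, |f x| ≤ 1)
include hf

theorem fcB (t c : ℕ) : Bd 1 (fc f t c) := Bd.flc (g := fun y : ℝ => 3 ^ c * y / 2 ^ t) hf (by fun_prop)

theorem PfB (hg : 1 ≤ g) : Bd 1 (Pf f d t g B) := by
  have h : ∀ c ∈ Cs t g B, Bd (|pc d t g c| * 1) (fun y => pc d t g c * fc f t c y) :=
    fun c _ => (fcB hf t c).cmul _
  have := Bd.sum h
  refine this.mono ?_
  have e : ∑ c ∈ Cs t g B, |pc d t g c| * 1 = ∑ c ∈ Cs t g B, pc d t g c :=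
    sum_congr rfl fun c _ => by rw [mul_one, abs_of_nonneg (pc_nonneg c)]
  rw [e]; exact sum_pc_le hg

theorem psifl (hg : 1 ≤ g) (c : ℕ) : Bd 1 (fun y : ℝ => psi d t g c ⌊y⌋) := Bd.fl fun x => by
  rw [abs_of_nonneg (psi_nonneg c x)]
  refine (psi_le hg c x).trans ?_
  rw [div_le_one (by positivity)]
  exact_mod_cast hg

theorem FfB (hg : 1 ≤ g) : Bd 1 (Ff f d t g B) := by
  have h : ∀ c ∈ Cs t g B, Bd (1 * 1) (fun y => psi d t g c ⌊y⌋ * fc f t c y) :=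
    fun c _ => (psifl hf hg c).mul (fcB hf t c)
  refine ⟨(Bd.sum h).1, fun y => ?_⟩
  unfold Ff
  refine (abs_sum_le_sum_abs _ _).trans (le_trans ?_ (sum_psi_le (d := d) (t := t) (B := B) hg ⌊y⌋))
  apply sum_le_sum
  intro c _
  rw [abs_mul, abs_of_nonneg (psi_nonneg c _)]
  exact mul_le_of_le_one_right (psi_nonneg c _) ((fcB hf t c).2 y)

/-- the difference -/
theorem Ff_sub (hg : 1 ≤ g) (y : ℝ) :
    Ff f d t g B y - Pf f d t g B y = 1 / g * ∑ c ∈ Cs t g B, ph d t g c ⌊y⌋ * fc f t c y := by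
  unfold Ff Pf
  rw [← sum_sub_distrib, mul_sum]
  apply sum_congr rfl
  intro c _
  rw [← sub_mul, psi_eq hg]; ring

/-- constancy of `Pf` -/
theorem Pf_const (hg : 1 ≤ g) {V : ℝ} (hV : 0 < V) {w e₃ : ℝ}
    (h3 : ∀ c ∈ Cs t g B, av V (fun y => |fc f t c (y + w) - fc f t c y|) ≤ e₃) (h30 : 0 ≤ e₃) :
    av V (fun y => |Pf f d t g B (y + w) - Pf f d t g B y|) ≤ e₃ := by
  have b1 : ∀ c, Bd 2 (fun y => fc f t c (y + w) - fc f t c y) := fun c => by
    have := ((fcB hf t c).comp (g := fun y => y + w) (by fun_prop)).sub (fcB hf t c)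
    refine this.mono (by norm_num)
  have b2 : ∀ c ∈ Cs t g B, Bd (|pc d t g c| * 2) (fun y => pc d t g c * |fc f t c (y + w) - fc f t c y|) :=
    fun c _ => (b1 c).abs.cmul _
  have b3 : Bd 2 (fun y => Pf f d t g B (y + w) - Pf f d t g B y) := by
    have := ((PfB (d := d) (t := t) (B := B) hf hg).comp (g := fun y => y + w) (by fun_prop)).sub (PfB (d := d) (t := t) (B := B) hf hg)
    refine this.mono (by norm_num)
  have h1 : av V (fun y => |Pf f d t g B (y + w) - Pf f d t g B y|)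
      ≤ av V (fun y => ∑ c ∈ Cs t g B, pc d t g c * |fc f t c (y + w) - fc f t c y|) := by
    apply av_mono hV b3.abs (Bd.sum b2)
    intro y _ _
    unfold Pf
    rw [← sum_sub_distrib]
    refine (abs_sum_le_sum_abs _ _).trans (le_of_eq (sum_congr rfl fun c _ => ?_))
    rw [← mul_sub, abs_mul, abs_of_nonneg (pc_nonneg c)]
  refine h1.trans ?_
  rw [av_sum V b2]
  calc ∑ c ∈ Cs t g B, av V (fun y => pc d t g c * |fc f t c (y + w) - fc f t c y|)
      ≤ ∑ c ∈ Cs t g B, pc d t g c * e₃ := by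
        apply sum_le_sum
        intro c hc
        rw [av_cmul]
        exact mul_le_mul_of_nonneg_left (h3 c hc) (pc_nonneg c)
    _ = (∑ c ∈ Cs t g B, pc d t g c) * e₃ := by rw [sum_mul]
    _ ≤ 1 * e₃ := mul_le_mul_of_nonneg_right (sum_pc_le hg) h30
    _ = e₃ := one_mul _

/-- constancy of a product -/
theorem prod_const {u v : ℝ → ℝ} (hu : Bd 1 u) (hv : Bd 1 v) {V : ℝ} (hV : 0 < V) {w e e' : ℝ}
    (h1 : av V (fun y => |u (y + w) - u y|) ≤ e) (h2 : av V (fun y => |v (y + w) - v y|) ≤ e') :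
    av V (fun y => |u (y + w) * v (y + w) - u y * v y|) ≤ e + e' := by
  have bu : Bd 1 (fun y => u (y + w)) := hu.comp (by fun_prop)
  have bv : Bd 1 (fun y => v (y + w)) := hv.comp (by fun_prop)
  have h3 : av V (fun y => |u (y + w) * v (y + w) - u y * v y|)
      ≤ av V (fun y => |u (y + w) - u y| + |v (y + w) - v y|) := by
    apply av_mono hV ((bu.mul bv).sub (hu.mul hv)).abs ((bu.sub hu).abs.add (bv.sub hv).abs)
    intro y _ _
    have e1 : u (y + w) * v (y + w) - u y * v y = (u (y + w) - u y) * v (y + w) + u y * (v (y + w) - v y) := by ring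
    rw [e1]
    refine (abs_add_le _ _).trans ?_
    rw [abs_mul, abs_mul]
    apply add_le_add
    · exact mul_le_of_le_one_right (abs_nonneg _) (bv.2 y)
    · exact mul_le_of_le_one_left (abs_nonneg _) (hu.2 y)
  rw [av_add V (bu.sub hu).abs (bv.sub hv).abs] at h3
  linarith

/-- the mixed term -/
theorem term1 (hg : 1 ≤ g) {V : ℝ} (hV : 0 < V) {Q : ℝ → ℝ} (hQ : Bd 1 Q) {l : ℕ} (hl : 1 ≤ l) {e₂ e₃ e₃' : ℝ}
    (h2 : ∀ c ∈ Cs t g B, ∀ x : ℤ, |(∑ w ∈ range l, ph d t g c (x + (w : ℕ))) / l| ≤ e₂)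
    (h3 : ∀ c ∈ Cs t g B, ∀ w < l, av V (fun y => |fc f t c (y + (w : ℕ)) - fc f t c y|) ≤ e₃)
    (h3' : ∀ w < l, av V (fun y => |Q (y + (w : ℕ)) - Q y|) ≤ e₃') :
    |av V (fun y => (Ff f d t g B y - Pf f d t g B y) * Q y)|
      ≤ (#(Cs t g B) : ℝ) / g * (e₂ + (e₃ + e₃') + 2 * l / V) := by
  have hg' : (0 : ℝ) < g := by exact_mod_cast hg
  have bp : ∀ c, Bd 1 (fun y : ℝ => ph d t g c ⌊y⌋) := fun c => Bd.fl fun x => ph_abs hg c x
  have b : ∀ c ∈ Cs t g B, Bd (1 * (1 * 1)) (fun y => ph d t g c ⌊y⌋ * (fc f t c y * Q y)) :=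
    fun c _ => (bp c).mul ((fcB hf t c).mul hQ)
  have e : (fun y => (Ff f d t g B y - Pf f d t g B y) * Q y)
      = fun y => 1 / (g : ℝ) * ∑ c ∈ Cs t g B, ph d t g c ⌊y⌋ * (fc f t c y * Q y) := by
    funext y
    rw [Ff_sub hf hg, mul_assoc, sum_mul]
    congr 1
    apply sum_congr rfl; intro c _; ring
  rw [e, av_cmul, av_sum V b, abs_mul, abs_of_pos (by positivity : (0 : ℝ) < 1 / g)]
  have h4 : |∑ c ∈ Cs t g B, av V (fun y => ph d t g c ⌊y⌋ * (fc f t c y * Q y))|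
      ≤ ∑ c ∈ Cs t g B, (e₂ + (e₃ + e₃') + 2 * l / V) := by
    refine (abs_sum_le_sum_abs _ _).trans (sum_le_sum fun c hc => ?_)
    have := t1 (φ := ph d t g c) (M := 1) (ph_abs hg c) (G := fun y => fc f t c y * Q y)
      (by simpa using (fcB hf t c).mul hQ) hV hl (h2 c hc) (e₃ := e₃ + e₃')
      (fun w hw => prod_const hf (fcB hf t c) hQ hV (h3 c hc w hw) (h3' w hw))
    rw [one_mul, mul_one] at this
    exact this
  rw [sum_const, nsmul_eq_mul] at h4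
  calc 1 / (g : ℝ) * |∑ c ∈ Cs t g B, av V (fun y => ph d t g c ⌊y⌋ * (fc f t c y * Q y))|
      ≤ 1 / (g : ℝ) * ((#(Cs t g B) : ℝ) * (e₂ + (e₃ + e₃') + 2 * l / V)) :=
        mul_le_mul_of_nonneg_left h4 (by positivity)
    _ = _ := by ring

/-- the quadratic term -/
theorem term2 (hd : d % 2 = 1) (hg : 1 ≤ g) {V lam : ℝ} (hV : 0 < V) (hlam : 0 < lam) {l : ℕ} (hl : 1 ≤ l) {e₃ e₄ e₅ : ℝ}
    (h3 : ∀ c ∈ Cs t g B, ∀ w < l, av V (fun y => |fc f t c (y + (w : ℕ)) - fc f t c y|) ≤ e₃)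
    (h3' : ∀ c ∈ Cs t g B, ∀ w < l, av (lam * V) (fun y => |fc f t c (y + lam * (w : ℕ)) - fc f t c y|) ≤ e₃)
    (h4 : ∀ c ∈ Cs t g B, (∑ h ∈ range l, |pm t (fun x => ph d t g c x * ph d t g c (x + (h : ℕ)))|) / l ≤ e₄)
    (h5 : ∀ c ∈ Cs t g B, ∀ c' ∈ Cs t g B, ∀ w w' : ℕ,
      |av V (fun y => (ph d t g c (⌊y⌋ + w) * ph d t g c (⌊y⌋ + w')) *
        (ph d t g c' ⌊lam * y + lam * w⌋ * ph d t g c' ⌊lam * y + lam * w'⌋))|
      ≤ |pm t (fun x => ph d t g c (x + w) * ph d t g c (x + w'))| + e₅) :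
    |av V (fun y => (Ff f d t g B y - Pf f d t g B y) * (Ff f d t g B (lam * y) - Pf f d t g B (lam * y)))|
      ≤ ((#(Cs t g B) : ℝ) / g) ^ 2 * (√ (2 * e₄ + e₅) + 2 * e₃ + 2 * l / V) := by
  have hg' : (0 : ℝ) < g := by exact_mod_cast hg
  have bp : ∀ c, Bd 1 (fun y : ℝ => ph d t g c ⌊y⌋) := fun c => Bd.fl fun x => ph_abs hg c x
  have bp' : ∀ c, Bd 1 (fun y : ℝ => ph d t g c ⌊lam * y⌋) := fun c => Bd.flc (fun x => ph_abs hg c x) (by fun_prop)
  have bf' : ∀ c, Bd 1 (fun y => fc f t c (lam * y)) := fun c => (fcB hf t c).comp (by fun_prop)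
  have b : ∀ c ∈ Cs t g B, ∀ c' ∈ Cs t g B, Bd (1 * 1 * (1 * 1))
      (fun y => ph d t g c ⌊y⌋ * ph d t g c' ⌊lam * y⌋ * (fc f t c y * fc f t c' (lam * y))) :=
    fun c _ c' _ => ((bp c).mul (bp' c')).mul ((fcB hf t c).mul (bf' c'))
  have e : (fun y => (Ff f d t g B y - Pf f d t g B y) * (Ff f d t g B (lam * y) - Pf f d t g B (lam * y)))
      = fun y => (1 / (g : ℝ) ^ 2) * ∑ c ∈ Cs t g B, ∑ c' ∈ Cs t g B,
        ph d t g c ⌊y⌋ * ph d t g c' ⌊lam * y⌋ * (fc f t c y * fc f t c' (lam * y)) := by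
    funext y
    rw [Ff_sub hf hg, Ff_sub hf hg]
    have : (1 / (g : ℝ) * ∑ c ∈ Cs t g B, ph d t g c ⌊y⌋ * fc f t c y)
        * (1 / (g : ℝ) * ∑ c ∈ Cs t g B, ph d t g c ⌊lam * y⌋ * fc f t c (lam * y))
        = (1 / (g : ℝ) ^ 2) * ((∑ c ∈ Cs t g B, ph d t g c ⌊y⌋ * fc f t c y)
          * (∑ c ∈ Cs t g B, ph d t g c ⌊lam * y⌋ * fc f t c (lam * y))) := by
      field_simp
    rw [this, sum_mul_sum]
    congr 1
    apply sum_congr rfl; intro c _
    apply sum_congr rfl; intro c' _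
    ring
  have bs : ∀ c ∈ Cs t g B, Bd (∑ c' ∈ Cs t g B, (1 * 1 * (1 * 1) : ℝ)) (fun y => ∑ c' ∈ Cs t g B,
        ph d t g c ⌊y⌋ * ph d t g c' ⌊lam * y⌋ * (fc f t c y * fc f t c' (lam * y))) :=
    fun c hc => Bd.sum fun c' hc' => b c hc c' hc'
  rw [e, av_cmul, av_sum V bs, abs_mul, abs_of_pos (by positivity : (0 : ℝ) < 1 / (g : ℝ) ^ 2)]
  have e2 : ∀ c ∈ Cs t g B, av V (fun y => ∑ c' ∈ Cs t g B,
        ph d t g c ⌊y⌋ * ph d t g c' ⌊lam * y⌋ * (fc f t c y * fc f t c' (lam * y)))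
        = ∑ c' ∈ Cs t g B, av V (fun y => ph d t g c ⌊y⌋ * ph d t g c' ⌊lam * y⌋ * (fc f t c y * fc f t c' (lam * y))) :=
    fun c hc => av_sum V fun c' hc' => b c hc c' hc'
  rw [sum_congr rfl e2]
  set E := √ (2 * e₄ + e₅) + 2 * e₃ + 2 * l / V with hE
  have h6 : |∑ c ∈ Cs t g B, ∑ c' ∈ Cs t g B, av V (fun y => ph d t g c ⌊y⌋ * ph d t g c' ⌊lam * y⌋
      * (fc f t c y * fc f t c' (lam * y)))| ≤ ∑ c ∈ Cs t g B, ∑ c' ∈ Cs t g B, E := by
    refine (abs_sum_le_sum_abs _ _).trans (sum_le_sum fun c hc => ?_)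
    refine (abs_sum_le_sum_abs _ _).trans (sum_le_sum fun c' hc' => ?_)
    refine q1 (φ := ph d t g c) (χ := ph d t g c') (ph_abs hg c) (ph_abs hg c') (ph_per hd c)
      (G := fun y => fc f t c y * fc f t c' (lam * y)) (by simpa using (fcB hf t c).mul (bf' c')) hV hl
      (e₃ := 2 * e₃) (fun w hw => ?_) (h4 c hc) (h5 c hc c' hc')
    have h7 : av V (fun y => |fc f t c' (lam * (y + (w : ℕ))) - fc f t c' (lam * y)|) ≤ e₃ := by
      have := av_scale hV hlam (fun y => |fc f t c' (y + lam * (w : ℕ)) - fc f t c' y|)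
      have e3 : (fun y => |fc f t c' (lam * (y + (w : ℕ))) - fc f t c' (lam * y)|)
          = fun y => |fc f t c' (lam * y + lam * (w : ℕ)) - fc f t c' (lam * y)| := by
        funext y; rw [mul_add]
      rw [e3, this]
      exact h3' c' hc' w hw
    have := prod_const hf (fcB hf t c) (bf' c') hV (h3 c hc w hw) h7
    rw [two_mul]
    exact this
  have h7 : ∑ c ∈ Cs t g B, ∑ c' ∈ Cs t g B, E = (#(Cs t g B) : ℝ) ^ 2 * E := by
    simp only [sum_const, nsmul_eq_mul]; ring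
  rw [h7] at h6
  calc 1 / (g : ℝ) ^ 2 * |∑ c ∈ Cs t g B, ∑ c' ∈ Cs t g B, av V (fun y => ph d t g c ⌊y⌋ * ph d t g c' ⌊lam * y⌋
      * (fc f t c y * fc f t c' (lam * y)))| ≤ 1 / (g : ℝ) ^ 2 * ((#(Cs t g B) : ℝ) ^ 2 * E) :=
        mul_le_mul_of_nonneg_left h6 (by positivity)
    _ = _ := by rw [div_pow]; ring

/-- PAIR LEMMA, abstract form -/
theorem pair_abs (hd : d % 2 = 1) (hg : 1 ≤ g) {V lam : ℝ} (hV : 0 < V) (hlam : 1 / 2 ≤ lam) (hlam2 : lam ≤ 2) {l : ℕ}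
    (hl : 1 ≤ l) {e₁ e₂ e₃ e₄ e₅ : ℝ} (h30 : 0 ≤ e₃)
    (h1 : av V (fun y => |f ⌊y⌋ - Ff f d t g B y|) ≤ e₁)
    (h1' : av (lam * V) (fun y => |f ⌊y⌋ - Ff f d t g B y|) ≤ e₁)
    (h2 : ∀ c ∈ Cs t g B, ∀ x : ℤ, |(∑ w ∈ range l, ph d t g c (x + (w : ℕ))) / l| ≤ e₂)
    (h3 : ∀ c ∈ Cs t g B, ∀ w : ℝ, 0 ≤ w → w ≤ 2 * l → av V (fun y => |fc f t c (y + w) - fc f t c y|) ≤ e₃)
    (h3' : ∀ c ∈ Cs t g B, ∀ w : ℝ, 0 ≤ w → w ≤ 2 * l → av (lam * V) (fun y => |fc f t c (y + w) - fc f t c y|) ≤ e₃)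
    (h4 : ∀ c ∈ Cs t g B, (∑ h ∈ range l, |pm t (fun x => ph d t g c x * ph d t g c (x + (h : ℕ)))|) / l ≤ e₄)
    (h5 : ∀ c ∈ Cs t g B, ∀ c' ∈ Cs t g B, ∀ w w' : ℕ,
      |av V (fun y => (ph d t g c (⌊y⌋ + w) * ph d t g c (⌊y⌋ + w')) *
        (ph d t g c' ⌊lam * y + lam * w⌋ * ph d t g c' ⌊lam * y + lam * w'⌋))|
      ≤ |pm t (fun x => ph d t g c (x + w) * ph d t g c (x + w'))| + e₅) :
    |av V (fun y => f ⌊y⌋ * f ⌊lam * y⌋) - av V (fun y => Pf f d t g B y * Pf f d t g B (lam * y))|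
      ≤ 2 * e₁ + (#(Cs t g B) : ℝ) / g * (2 * e₂ + 4 * e₃ + 6 * l / V)
        + ((#(Cs t g B) : ℝ) / g) ^ 2 * (√ (2 * e₄ + e₅) + 2 * e₃ + 2 * l / V) := by
  have hlam0 : 0 < lam := by linarith
  have hlV : 0 < lam * V := by positivity
  have bP := PfB (d := d) (t := t) (B := B) hf hg
  have bF := FfB (d := d) (t := t) (B := B) hf hg
  have bf : Bd 1 (fun y : ℝ => f ⌊y⌋) := Bd.fl hf
  have bP' : Bd 1 (fun y => Pf f d t g B (lam * y)) := bP.comp (by fun_prop)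
  have bF' : Bd 1 (fun y => Ff f d t g B (lam * y)) := bF.comp (by fun_prop)
  have bf' : Bd 1 (fun y : ℝ => f ⌊lam * y⌋) := bf.comp (g := fun y => lam * y) (by fun_prop)
  have hwl : ∀ w : ℕ, w < l → (0 : ℝ) ≤ w ∧ (w : ℝ) ≤ 2 * l := fun w hw => by
    have : (w : ℝ) ≤ l := by exact_mod_cast hw.le
    have h0 : (0 : ℝ) ≤ l := by positivity
    exact ⟨by positivity, by linarith⟩
  -- five terms
  set D : ℝ → ℝ := fun y => Ff f d t g B y - Pf f d t g B y with hD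
  have bD : Bd (1 + 1) D := bF.sub bP
  have bD' : Bd (1 + 1) (fun y => D (lam * y)) := bD.comp (by fun_prop)
  have b1 : Bd ((1 + 1) * 1) (fun y => (f ⌊y⌋ - Ff f d t g B y) * f ⌊lam * y⌋) := (bf.sub bF).mul bf'
  have b2 : Bd (1 * (1 + 1)) (fun y => Ff f d t g B y * (f ⌊lam * y⌋ - Ff f d t g B (lam * y))) :=
    bF.mul (bf'.sub bF')
  have b3 : Bd ((1 + 1) * 1) (fun y => D y * Pf f d t g B (lam * y)) := bD.mul bP'
  have b4 : Bd (1 * (1 + 1)) (fun y => Pf f d t g B y * D (lam * y)) := bP.mul bD'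
  have b5 : Bd ((1 + 1) * (1 + 1)) (fun y => D y * D (lam * y)) := bD.mul bD'
  have bff : Bd (1 * 1) (fun y => f ⌊y⌋ * f ⌊lam * y⌋) := bf.mul bf'
  have bPP : Bd (1 * 1) (fun y => Pf f d t g B y * Pf f d t g B (lam * y)) := bP.mul bP'
  have e : av V (fun y => f ⌊y⌋ * f ⌊lam * y⌋) - av V (fun y => Pf f d t g B y * Pf f d t g B (lam * y))
      = av V (fun y => (f ⌊y⌋ - Ff f d t g B y) * f ⌊lam * y⌋)
        + av V (fun y => Ff f d t g B y * (f ⌊lam * y⌋ - Ff f d t g B (lam * y)))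
        + av V (fun y => D y * Pf f d t g B (lam * y)) + av V (fun y => Pf f d t g B y * D (lam * y))
        + av V (fun y => D y * D (lam * y)) := by
    rw [← av_sub V bff bPP, ← av_add V b1 b2, ← av_add V (b1.add b2) b3, ← av_add V ((b1.add b2).add b3) b4,
      ← av_add V (((b1.add b2).add b3).add b4) b5]
    congr 1
    funext y
    rw [hD]
    ring
  -- the first two
  have k1 : |av V (fun y => (f ⌊y⌋ - Ff f d t g B y) * f ⌊lam * y⌋)| ≤ e₁ := by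
    refine (abs_av_le hV b1).trans (le_trans ?_ h1)
    apply av_mono hV b1.abs (bf.sub bF).abs
    intro y _ _
    rw [abs_mul]
    exact mul_le_of_le_one_right (abs_nonneg _) (bf'.2 y)
  have k2 : |av V (fun y => Ff f d t g B y * (f ⌊lam * y⌋ - Ff f d t g B (lam * y)))| ≤ e₁ := by
    refine (abs_av_le hV b2).trans (le_trans ?_ h1')
    have := av_scale hV hlam0 (fun y => |f ⌊y⌋ - Ff f d t g B y|)
    rw [← this]
    apply av_mono hV b2.abs (bf'.sub bF').abs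
    intro y _ _
    rw [abs_mul]
    exact mul_le_of_le_one_left (abs_nonneg _) (bF.2 y)
  -- the mixed terms
  have k3 : |av V (fun y => D y * Pf f d t g B (lam * y))|
      ≤ (#(Cs t g B) : ℝ) / g * (e₂ + (e₃ + e₃) + 2 * l / V) := by
    refine term1 hf hg hV (Q := fun y => Pf f d t g B (lam * y)) bP' hl h2
      (fun c hc w hw => h3 c hc w (hwl w hw).1 (hwl w hw).2) (fun w hw => ?_)
    have e3 : (fun y => |Pf f d t g B (lam * (y + (w : ℕ))) - Pf f d t g B (lam * y)|)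
        = fun y => |Pf f d t g B (lam * y + lam * (w : ℕ)) - Pf f d t g B (lam * y)| := by
      funext y; rw [mul_add]
    rw [e3, av_scale hV hlam0 (fun y => |Pf f d t g B (y + lam * (w : ℕ)) - Pf f d t g B y|)]
    apply Pf_const hf hg hlV _ h30
    intro c hc
    have := (hwl w hw).1
    have hw' : (w : ℝ) ≤ l := by exact_mod_cast hw.le
    exact h3' c hc _ (by positivity) (by nlinarith)
  have k4 : |av V (fun y => Pf f d t g B y * D (lam * y))|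
      ≤ (#(Cs t g B) : ℝ) / g * (e₂ + (e₃ + e₃) + 2 * l / (lam * V)) := by
    have e3 : (fun y => Pf f d t g B y * D (lam * y)) = fun y => (fun z => D z * Pf f d t g B (lam⁻¹ * z)) (lam * y) := by
      funext y
      simp only
      rw [← mul_assoc, inv_mul_cancel₀ hlam0.ne', one_mul, mul_comm]
    rw [e3, av_scale hV hlam0 (fun z => D z * Pf f d t g B (lam⁻¹ * z))]
    refine term1 hf hg hlV (Q := fun z => Pf f d t g B (lam⁻¹ * z)) (bP.comp (by fun_prop)) hl h2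
      (fun c hc w hw => h3' c hc w (hwl w hw).1 (hwl w hw).2) (fun w hw => ?_)
    have e4 : (fun y => |Pf f d t g B (lam⁻¹ * (y + (w : ℕ))) - Pf f d t g B (lam⁻¹ * y)|)
        = fun y => |Pf f d t g B (lam⁻¹ * y + lam⁻¹ * (w : ℕ)) - Pf f d t g B (lam⁻¹ * y)| := by
      funext y; rw [mul_add]
    rw [e4, av_scale hlV (inv_pos.2 hlam0) (fun y => |Pf f d t g B (y + lam⁻¹ * (w : ℕ)) - Pf f d t g B y|),
      ← mul_assoc, inv_mul_cancel₀ hlam0.ne', one_mul]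
    apply Pf_const hf hg hV _ h30
    intro c hc
    have := (hwl w hw).1
    have hw' : (w : ℝ) ≤ l := by exact_mod_cast hw.le
    have hi : lam⁻¹ ≤ 2 := by
      rw [inv_le_comm₀ hlam0 (by norm_num)]; linarith
    have hi0 : 0 ≤ lam⁻¹ := by positivity
    exact h3 c hc _ (by positivity) (by nlinarith)
  have k5 : |av V (fun y => D y * D (lam * y))|
      ≤ ((#(Cs t g B) : ℝ) / g) ^ 2 * (√ (2 * e₄ + e₅) + 2 * e₃ + 2 * l / V) := by
    refine term2 hf hd hg hV hlam0 hl (fun c hc w hw => h3 c hc w (hwl w hw).1 (hwl w hw).2)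
      (fun c hc w hw => ?_) h4 h5
    have := (hwl w hw).1
    have hw' : (w : ℝ) ≤ l := by exact_mod_cast hw.le
    exact h3' c hc _ (by positivity) (by nlinarith)
  have k6 : 2 * (l : ℝ) / (lam * V) ≤ 4 * l / V := by
    rw [div_le_div_iff₀ hlV hV]
    have : (0 : ℝ) ≤ l := by positivity
    nlinarith [mul_nonneg this hV.le]
  have hn : (0 : ℝ) ≤ (#(Cs t g B) : ℝ) / g := by positivity
  have k7 : (#(Cs t g B) : ℝ) / g * (e₂ + (e₃ + e₃) + 2 * l / V) + (#(Cs t g B) : ℝ) / g * (e₂ + (e₃ + e₃) + 2 * l / (lam * V))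
      ≤ (#(Cs t g B) : ℝ) / g * (2 * e₂ + 4 * e₃ + 6 * l / V) := by
    rw [← mul_add]
    apply mul_le_mul_of_nonneg_left _ hn
    have : 6 * (l : ℝ) / V = 2 * l / V + 4 * l / V := by ring
    rw [this]; linarith
  rw [e]
  have a1 := abs_le.1 k1
  have a2 := abs_le.1 k2
  have a3 := abs_le.1 k3
  have a4 := abs_le.1 k4
  have a5 := abs_le.1 k5
  rw [abs_le]
  constructor <;> linarith [a1.1, a1.2, a2.1, a2.2, a3.1, a3.2, a4.1, a4.2, a5.1, a5.2]

/-- COARSE form: `f` is close to `Pf` -/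
theorem coarse_abs (hg : 1 ≤ g) {V : ℝ} (hV : 0 < V) {l : ℕ} (hl : 1 ≤ l) {e₁ e₂ e₃ e₆ : ℝ}
    (h1 : av V (fun y => |f ⌊y⌋ - Ff f d t g B y|) ≤ e₁)
    (h2 : ∀ c ∈ Cs t g B, ∀ x : ℤ, |(∑ w ∈ range l, ph d t g c (x + (w : ℕ))) / l| ≤ e₂)
    (h3 : ∀ c ∈ Cs t g B, ∀ w < l, av V (fun y => |fc f t c (y + (w : ℕ)) - fc f t c y|) ≤ e₃)
    (h6 : ∀ w < l, av V (fun y => |f ⌊y + (w : ℕ)⌋ - f ⌊y⌋|) ≤ e₆) :
    av V (fun y => |f ⌊y⌋ - Pf f d t g B y|) ≤ e₆ + e₁ + 4 * l / V + (#(Cs t g B) : ℝ) / g * (e₂ + e₃) := by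
  have hg' : (0 : ℝ) < g := by exact_mod_cast hg
  have hl' : (0 : ℝ) < l := by exact_mod_cast hl
  have bP := PfB (d := d) (t := t) (B := B) hf hg
  have bF := FfB (d := d) (t := t) (B := B) hf hg
  have bf : Bd 1 (fun y : ℝ => f ⌊y⌋) := Bd.fl hf
  have bfw : ∀ w : ℕ, Bd 1 (fun y : ℝ => f ⌊y + (w : ℕ)⌋) := fun w => bf.comp (g := fun y => y + (w : ℕ)) (by fun_prop)
  have bFw : ∀ w : ℕ, Bd 1 (fun y : ℝ => Ff f d t g B (y + (w : ℕ))) := fun w => bF.comp (by fun_prop)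
  have bfcw : ∀ (c w : ℕ), Bd 1 (fun y : ℝ => fc f t c (y + (w : ℕ))) := fun c w => (fcB hf t c).comp (by fun_prop)
  -- pointwise bound
  set X : ℕ → ℝ → ℝ := fun w y => |f ⌊y + (w : ℕ)⌋ - f ⌊y⌋| + |f ⌊y + (w : ℕ)⌋ - Ff f d t g B (y + (w : ℕ))|
    + (1 / (g : ℝ)) * ∑ c ∈ Cs t g B, |fc f t c (y + (w : ℕ)) - fc f t c y| with hX
  have bX : ∀ w ∈ range l, Bd ((1 + 1) + (1 + 1) + |1 / (g : ℝ)| * ∑ c ∈ Cs t g B, (1 + 1)) (X w) := fun w _ =>
    (((bfw w).sub bf).abs.add ((bfw w).sub (bFw w)).abs).add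
      ((Bd.sum fun c (_ : c ∈ Cs t g B) => ((bfcw c w).sub (fcB hf t c)).abs).cmul _)
  have hpt : ∀ y : ℝ, |f ⌊y⌋ - Pf f d t g B y|
      ≤ (1 / (l : ℝ)) * ∑ w ∈ range l, X w y + (#(Cs t g B) : ℝ) / g * e₂ := by
    intro y
    have e1 : f ⌊y⌋ - Pf f d t g B y = (1 / (l : ℝ)) * ∑ w ∈ range l, ((f ⌊y⌋ - f ⌊y + (w : ℕ)⌋)
        + (f ⌊y + (w : ℕ)⌋ - Ff f d t g B (y + (w : ℕ)))
        + ∑ c ∈ Cs t g B, psi d t g c ⌊y + (w : ℕ)⌋ * (fc f t c (y + (w : ℕ)) - fc f t c y))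
        + ∑ c ∈ Cs t g B, (1 / (g : ℝ)) * ((∑ w ∈ range l, ph d t g c (⌊y⌋ + (w : ℕ))) / l) * fc f t c y := by
      have e2 : ∀ w ∈ range l, ((f ⌊y⌋ - f ⌊y + (w : ℕ)⌋)
          + (f ⌊y + (w : ℕ)⌋ - Ff f d t g B (y + (w : ℕ)))
          + ∑ c ∈ Cs t g B, psi d t g c ⌊y + (w : ℕ)⌋ * (fc f t c (y + (w : ℕ)) - fc f t c y))
          = f ⌊y⌋ - ∑ c ∈ Cs t g B, psi d t g c ⌊y + (w : ℕ)⌋ * fc f t c y := by
        intro w _
        have : ∑ c ∈ Cs t g B, psi d t g c ⌊y + (w : ℕ)⌋ * (fc f t c (y + (w : ℕ)) - fc f t c y)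
            = Ff f d t g B (y + (w : ℕ)) - ∑ c ∈ Cs t g B, psi d t g c ⌊y + (w : ℕ)⌋ * fc f t c y := by
          unfold Ff
          rw [← sum_sub_distrib]
          apply sum_congr rfl; intro c _; ring
        rw [this]; ring
      rw [sum_congr rfl e2, sum_sub_distrib, sum_const, card_range, nsmul_eq_mul, sum_comm]
      have e3 : ∑ c ∈ Cs t g B, (1 / (g : ℝ)) * ((∑ w ∈ range l, ph d t g c (⌊y⌋ + (w : ℕ))) / l) * fc f t c y
          = (1 / (l : ℝ)) * (∑ c ∈ Cs t g B, ∑ w ∈ range l, psi d t g c ⌊y + (w : ℕ)⌋ * fc f t c y) - Pf f d t g B y := by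
        unfold Pf
        rw [mul_sum, ← sum_sub_distrib]
        apply sum_congr rfl; intro c _
        have e4 : ∑ w ∈ range l, psi d t g c ⌊y + (w : ℕ)⌋ * fc f t c y
            = (∑ w ∈ range l, (pc d t g c + 1 / g * ph d t g c (⌊y⌋ + (w : ℕ)))) * fc f t c y := by
          rw [sum_mul]
          apply sum_congr rfl; intro w _
          rw [Int.floor_add_natCast]
          have := psi_eq (d := d) (t := t) hg c (⌊y⌋ + (w : ℕ))
          rw [← this]; ring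
        rw [e4, sum_add_distrib, sum_const, card_range, nsmul_eq_mul, ← mul_sum]
        field_simp
        ring
      rw [e3]
      field_simp
      ring
    rw [e1]
    refine (abs_add_le _ _).trans (add_le_add ?_ ?_)
    · rw [abs_mul, abs_of_pos (by positivity : (0 : ℝ) < 1 / l)]
      apply mul_le_mul_of_nonneg_left _ (by positivity)
      refine (abs_sum_le_sum_abs _ _).trans (sum_le_sum fun w _ => ?_)
      rw [hX]
      simp only
      refine (abs_add_three _ _ _).trans ?_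
      rw [abs_sub_comm (f ⌊y⌋)]
      apply add_le_add le_rfl
      refine (abs_sum_le_sum_abs _ _).trans ?_
      rw [mul_sum]
      apply sum_le_sum
      intro c _
      rw [abs_mul, abs_of_nonneg (psi_nonneg c _)]
      exact mul_le_mul_of_nonneg_right (psi_le hg c _) (abs_nonneg _)
    · refine (abs_sum_le_sum_abs _ _).trans ?_
      calc ∑ c ∈ Cs t g B, |(1 / (g : ℝ)) * ((∑ w ∈ range l, ph d t g c (⌊y⌋ + (w : ℕ))) / l) * fc f t c y|
          ≤ ∑ c ∈ Cs t g B, (1 / (g : ℝ)) * e₂ := by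
            apply sum_le_sum
            intro c hc
            rw [abs_mul, abs_mul, abs_of_pos (by positivity : (0 : ℝ) < 1 / g)]
            have h7 := h2 c hc ⌊y⌋
            have h8 := (fcB hf t c).2 y
            calc 1 / (g : ℝ) * |(∑ w ∈ range l, ph d t g c (⌊y⌋ + (w : ℕ))) / l| * |fc f t c y|
                ≤ 1 / (g : ℝ) * e₂ * 1 := by
                  apply mul_le_mul _ h8 (abs_nonneg _)
                  · exact mul_nonneg (by positivity) ((abs_nonneg _).trans h7)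
                  · exact mul_le_mul_of_nonneg_left h7 (by positivity)
              _ = 1 / (g : ℝ) * e₂ := mul_one _
        _ = (#(Cs t g B) : ℝ) / g * e₂ := by rw [sum_const, nsmul_eq_mul]; ring
  have h7 : av V (fun y => |f ⌊y⌋ - Pf f d t g B y|)
      ≤ (1 / (l : ℝ)) * ∑ w ∈ range l, av V (X w) + (#(Cs t g B) : ℝ) / g * e₂ := by
    have := av_mono hV (bf.sub bP).abs (((Bd.sum bX).cmul (1 / (l : ℝ))).add (Bd.const ((#(Cs t g B) : ℝ) / g * e₂)))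
      fun y _ _ => hpt y
    rwa [av_add V ((Bd.sum bX).cmul (1 / (l : ℝ))) (Bd.const _), av_cmul, av_sum V bX, av_const hV] at this
  refine h7.trans ?_
  have h8 : ∀ w ∈ range l, av V (X w) ≤ e₆ + (e₁ + 4 * l / V) + (#(Cs t g B) : ℝ) / g * e₃ := by
    intro w hw
    rw [mem_range] at hw
    have c1 := ((bfw w).sub bf).abs
    have c2 := ((bfw w).sub (bFw w)).abs
    have c3 := (Bd.sum fun c (_ : c ∈ Cs t g B) => ((bfcw c w).sub (fcB hf t c)).abs)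
    have e9 : av V (X w) = av V (fun y => |f ⌊y + (w : ℕ)⌋ - f ⌊y⌋|)
        + av V (fun y => |f ⌊y + (w : ℕ)⌋ - Ff f d t g B (y + (w : ℕ))|)
        + (1 / (g : ℝ)) * ∑ c ∈ Cs t g B, av V (fun y => |fc f t c (y + (w : ℕ)) - fc f t c y|) := by
      rw [hX]
      simp only
      rw [av_add V (c1.add c2) (c3.cmul (1 / (g : ℝ))), av_add V c1 c2, av_cmul,
        av_sum V (fun c _ => ((bfcw c w).sub (fcB hf t c)).abs)]
    rw [e9]
    have h10 : av V (fun y => |f ⌊y + (w : ℕ)⌋ - Ff f d t g B (y + (w : ℕ))|) ≤ e₁ + 4 * l / V := by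
      have := av_shift hV ((bf.sub bF).abs) (w : ℝ)
      have h11 := (abs_le.1 this).2
      have h12 : 2 * |(w : ℝ)| * (1 + 1) / V ≤ 4 * l / V := by
        apply div_le_div_of_nonneg_right _ hV.le
        rw [abs_of_nonneg (by positivity)]
        have : (w : ℝ) ≤ l := by exact_mod_cast hw.le
        linarith
      linarith
    have h13 : (1 / (g : ℝ)) * ∑ c ∈ Cs t g B, av V (fun y => |fc f t c (y + (w : ℕ)) - fc f t c y|)
        ≤ (#(Cs t g B) : ℝ) / g * e₃ := by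
      calc (1 / (g : ℝ)) * ∑ c ∈ Cs t g B, av V (fun y => |fc f t c (y + (w : ℕ)) - fc f t c y|)
          ≤ (1 / (g : ℝ)) * ∑ c ∈ Cs t g B, e₃ :=
            mul_le_mul_of_nonneg_left (sum_le_sum fun c hc => h3 c hc w hw) (by positivity)
        _ = _ := by rw [sum_const, nsmul_eq_mul]; ring
    have h14 := h6 w hw
    linarith
  have h9 : (1 / (l : ℝ)) * ∑ w ∈ range l, av V (X w)
      ≤ e₆ + (e₁ + 4 * l / V) + (#(Cs t g B) : ℝ) / g * e₃ := by
    calc (1 / (l : ℝ)) * ∑ w ∈ range l, av V (X w)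
        ≤ (1 / (l : ℝ)) * ∑ w ∈ range l, (e₆ + (e₁ + 4 * l / V) + (#(Cs t g B) : ℝ) / g * e₃) :=
          mul_le_mul_of_nonneg_left (sum_le_sum h8) (by positivity)
      _ = _ := by rw [sum_const, card_range, nsmul_eq_mul]; field_simp
  have : (#(Cs t g B) : ℝ) / g * (e₂ + e₃) = (#(Cs t g B) : ℝ) / g * e₂ + (#(Cs t g B) : ℝ) / g * e₃ := by ring
  rw [this]
  linarith

/-- COARSE pair lemma -/
theorem coarse_pair (hg : 1 ≤ g) {V lam : ℝ} (hV : 0 < V) (hlam : 0 < lam) {e e' : ℝ}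
    (h1 : av V (fun y => |f ⌊y⌋ - Pf f d t g B y|) ≤ e)
    (h2 : av (lam * V) (fun y => |f ⌊y⌋ - Pf f d t g B y|) ≤ e') :
    |av V (fun y => f ⌊y⌋ * f ⌊lam * y⌋) - av V (fun y => Pf f d t g B y * Pf f d t g B (lam * y))| ≤ e + e' := by
  have bP := PfB (d := d) (t := t) (B := B) hf hg
  have bf : Bd 1 (fun y : ℝ => f ⌊y⌋) := Bd.fl hf
  have bP' : Bd 1 (fun y => Pf f d t g B (lam * y)) := bP.comp (by fun_prop)
  have bf' : Bd 1 (fun y : ℝ => f ⌊lam * y⌋) := bf.comp (g := fun y => lam * y) (by fun_prop)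
  rw [← av_sub V (bf.mul bf') (bP.mul bP')]
  refine (abs_av_le hV ((bf.mul bf').sub (bP.mul bP'))).trans ?_
  have h3 : av V (fun y => |f ⌊y⌋ * f ⌊lam * y⌋ - Pf f d t g B y * Pf f d t g B (lam * y)|)
      ≤ av V (fun y => |f ⌊y⌋ - Pf f d t g B y| + |f ⌊lam * y⌋ - Pf f d t g B (lam * y)|) := by
    apply av_mono hV ((bf.mul bf').sub (bP.mul bP')).abs ((bf.sub bP).abs.add (bf'.sub bP').abs)
    intro y _ _
    have e1 : f ⌊y⌋ * f ⌊lam * y⌋ - Pf f d t g B y * Pf f d t g B (lam * y)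
        = (f ⌊y⌋ - Pf f d t g B y) * f ⌊lam * y⌋ + Pf f d t g B y * (f ⌊lam * y⌋ - Pf f d t g B (lam * y)) := by ring
    rw [e1]
    refine (abs_add_le _ _).trans ?_
    rw [abs_mul, abs_mul]
    apply add_le_add
    · exact mul_le_of_le_one_right (abs_nonneg _) (bf'.2 y)
    · exact mul_le_of_le_one_left (abs_nonneg _) (bP.2 y)
  refine h3.trans ?_
  rw [av_add V (bf.sub bP).abs (bf'.sub bP').abs]
  have := av_scale hV hlam (fun y => |f ⌊y⌋ - Pf f d t g B y|)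
  rw [this]
  linarith

end Pool.Agent.KS6_24.LN
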