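import Mathlib
import Pool.Agent.KS6_24.LN.PairAbs
import Pool.Agent.KS6_24.LN.CO

/-! `f` is close to the weighted sum `Ff` over the typical scales. -/

set_option autoImplicit false

namespace Pool.Agent.KS6_24.LN

open Pool.Agent.H499R2.CO Pool.Agent.Y965.SI Finset

theorem foB {f : ℤ → ℝ} (hf : ∀ x, |f x| ≤ 1) (d : ℤ) (t e : ℕ) :
    Bd 1 (fun y : ℝ => f ⌊3 ^ (od d t ⌊y⌋ + e) * y / 2 ^ t⌋) := by
  refine ⟨?_, fun y => hf _⟩
  apply (Measurable.of_discrete (f := f)).comp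
  apply Int.measurable_floor.comp
  apply Measurable.div_const
  apply Measurable.mul _ measurable_id
  exact (Measurable.of_discrete (f := fun n : ℤ => (3 : ℝ) ^ (od d t n + e))).comp Int.measurable_floor

theorem co2 (d : ℤ) (hd : d = 1 ∨ d = -1) : ∃ C : ℝ, 0 < C ∧ ∀ f : ℤ → ℝ, InvF d f → ∀ t R g B : ℕ, 1 ≤ R → 1 ≤ g →
    1 ≤ B → ∀ V : ℝ, 2 ^ (t + R) ≤ V →
      av V (fun y => |f ⌊y⌋ - Ff f d t g B y|) ≤ C * g * rho R + t / (B : ℝ) ^ 2 := by
  classical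
  have hd2 : d % 2 = 1 := by rcases hd with rfl | rfl <;> decide
  obtain ⟨C0, hC0, hco⟩ := co d hd
  refine ⟨4 * C0, by positivity, ?_⟩
  intro f hf t R g B hR hg hB V hV
  have hfb := hf.1
  have hg' : (0 : ℝ) < g := by exact_mod_cast hg
  have hB' : (0 : ℝ) < B := by exact_mod_cast hB
  have h2t : (1 : ℝ) ≤ 2 ^ (t + R) := one_le_pow₀ (by norm_num)
  have hV0 : 0 < V := by linarith
  have hρ := rho_nonneg R
  set N := t + 3 * g with hN
  set Y : ℕ → ℝ → ℝ := fun e y => |f ⌊y⌋ - f ⌊3 ^ (od d t ⌊y⌋ + e) * y / 2 ^ t⌋| with hY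
  have bf : Bd 1 (fun y : ℝ => f ⌊y⌋) := Bd.fl hfb
  have bY : ∀ e, Bd (1 + 1) (Y e) := fun e => (bf.sub (foB hfb d t e)).abs
  set X : ℤ → ℝ := fun x => if (B : ℝ) < |(od d t x : ℝ) - t / 2| then (1 : ℝ) else 0 with hX
  have hX0 : ∀ x, 0 ≤ X x := fun x => by rw [hX]; simp only; split_ifs <;> norm_num
  have hX1 : ∀ x, |X x| ≤ 1 := fun x => by rw [hX]; simp only; split_ifs <;> norm_num
  have hXp : Per t X := fun x m => by rw [hX]; simp only; rw [od_per hd2]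
  have bX : Bd 1 (fun y : ℝ => X ⌊y⌋) := Bd.fl hX1
  set Z : ℝ → ℝ := fun y => (1 / (g : ℝ)) * ∑ i ∈ range g, (1 / (g : ℝ)) * ∑ j ∈ range g, (1 / (g : ℝ)) * ∑ l ∈ range g,
    Y (i + j + l) y with hZ
  have b3 : ∀ i j, Bd (|1 / (g : ℝ)| * ∑ l ∈ range g, (1 + 1)) (fun y => (1 / (g : ℝ)) * ∑ l ∈ range g, Y (i + j + l) y) :=
    fun i j => (Bd.sum fun l _ => bY _).cmul _
  have b2 : ∀ i, Bd (|1 / (g : ℝ)| * ∑ j ∈ range g, (|1 / (g : ℝ)| * ∑ l ∈ range g, (1 + 1)))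
      (fun y => (1 / (g : ℝ)) * ∑ j ∈ range g, (1 / (g : ℝ)) * ∑ l ∈ range g, Y (i + j + l) y) :=
    fun i => (Bd.sum fun j _ => b3 i j).cmul _
  have b1 : Bd (|1 / (g : ℝ)| * ∑ i ∈ range g, (|1 / (g : ℝ)| * ∑ j ∈ range g, (|1 / (g : ℝ)| * ∑ l ∈ range g, (1 + 1)))) Z :=
    (Bd.sum fun i _ => b2 i).cmul _
  -- pointwise
  have hpt : ∀ y, |f ⌊y⌋ - Ff f d t g B y| ≤ Z y + X ⌊y⌋ := by
    intro y
    have ha : od d t ⌊y⌋ + 3 * g ≤ N := by have := od_le d t ⌊y⌋; omega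
    have h1 := W_sum_sub (g := g) (N := N) (fun c => fc f t c y) ha hg (f ⌊y⌋)
    have e1 : (∑ i ∈ range g, (∑ j ∈ range g, (∑ l ∈ range g, |f ⌊y⌋ - fc f t (od d t ⌊y⌋ + (i + j + l)) y|) / g) / g) / g
        = Z y := by
      rw [hZ, hY]
      simp only [fc, one_div, inv_mul_eq_div]
    rw [e1] at h1
    have h2 : |(∑ c ∈ range N, W g ((c : ℤ) - (od d t ⌊y⌋ : ℕ)) * fc f t c y) - Ff f d t g B y| ≤ X ⌊y⌋ := by
      have e2 : (∑ c ∈ range N, W g ((c : ℤ) - (od d t ⌊y⌋ : ℕ)) * fc f t c y) - Ff f d t g B y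
          = ∑ c ∈ range N \ Cs t g B, W g ((c : ℤ) - (od d t ⌊y⌋ : ℕ)) * fc f t c y := by
        have h3 := sum_sdiff (f := fun c : ℕ => W g ((c : ℤ) - (od d t ⌊y⌋ : ℕ)) * fc f t c y) (Cs_sub (t := t) (g := g) (B := B))
        unfold Ff psi
        rw [← h3]; ring
      rw [e2]
      rw [hX]
      simp only
      split_ifs with h
      · refine (abs_sum_le_sum_abs _ _).trans ?_
        calc ∑ c ∈ range N \ Cs t g B, |W g ((c : ℤ) - (od d t ⌊y⌋ : ℕ)) * fc f t c y|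
            ≤ ∑ c ∈ range N \ Cs t g B, W g ((c : ℤ) - (od d t ⌊y⌋ : ℕ)) := by
              apply sum_le_sum; intro c _
              rw [abs_mul, abs_of_nonneg (W_nonneg _ _)]
              exact mul_le_of_le_one_right (W_nonneg _ _) ((fcB hfb t c).2 y)
          _ ≤ ∑ c ∈ range N, W g ((c : ℤ) - (od d t ⌊y⌋ : ℕ)) :=
              sum_le_sum_of_subset_of_nonneg sdiff_subset fun c _ _ => W_nonneg _ _
          _ = 1 := W_sum_one ha hg
      · rw [sum_eq_zero, abs_zero]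
        intro c hc
        rw [mem_sdiff, mem_range] at hc
        by_contra hne
        have hW : W g ((c : ℤ) - (od d t ⌊y⌋ : ℕ)) ≠ 0 := fun h0 => hne (by rw [h0, zero_mul])
        obtain ⟨w1, w2⟩ := W_supp _ hW
        apply hc.2
        unfold Cs
        rw [mem_filter, mem_range]
        refine ⟨hc.1, ?_⟩
        push Not at h
        rw [abs_le] at h
        obtain ⟨h3, h4⟩ := h
        have w1' : od d t ⌊y⌋ ≤ c := by omega
        have w2' : c ≤ od d t ⌊y⌋ + 3 * g := by push_cast at w2; omega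
        have h5 : (t : ℝ) ≤ 2 * (od d t ⌊y⌋ : ℝ) + 2 * B := by linarith
        have h6 : 2 * (od d t ⌊y⌋ : ℝ) ≤ t + 2 * B := by linarith
        have h5' : t ≤ 2 * od d t ⌊y⌋ + 2 * B := by exact_mod_cast h5
        have h6' : 2 * od d t ⌊y⌋ ≤ t + 2 * B := by exact_mod_cast h6
        omega
    have h3 := abs_sub_le (f ⌊y⌋) (∑ c ∈ range N, W g ((c : ℤ) - (od d t ⌊y⌋ : ℕ)) * fc f t c y) (Ff f d t g B y)
    linarith
  have h1 : av V (fun y => |f ⌊y⌋ - Ff f d t g B y|) ≤ av V Z + av V (fun y => X ⌊y⌋) := by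
    rw [← av_add V b1 bX]
    exact av_mono hV0 (bf.sub (FfB (B := B) hfb hg)).abs (b1.add bX) fun y _ _ => hpt y
  have hXav : av V (fun y => X ⌊y⌋) ≤ t / (B : ℝ) ^ 2 := by
    have h2 := av_per hXp hX0 hX1 (V := V) (le_trans (pow_le_pow_right₀ (by norm_num) (by omega)) hV)
    have h3 := cheb hd2 t hB'
    have h4 : 4 * ((t : ℝ) / (4 * (B : ℝ) ^ 2)) = t / (B : ℝ) ^ 2 := by field_simp
    linarith
  have hYav : ∀ e < 3 * g, av V (Y e) ≤ 4 * C0 * g * rho R := by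
    intro e he
    refine (hco f hf t R e hR V hV).trans ?_
    have : (1 : ℝ) + e ≤ 4 * g := by
      have h1 : (e : ℝ) ≤ 3 * g := by exact_mod_cast he.le
      have h2 : (1 : ℝ) ≤ g := by exact_mod_cast hg
      linarith
    calc C0 * (1 + (e : ℝ)) * rho R ≤ C0 * (4 * g) * rho R :=
          mul_le_mul_of_nonneg_right (mul_le_mul_of_nonneg_left this hC0.le) hρ
      _ = _ := by ring
  have hZav : av V Z ≤ 4 * C0 * g * rho R := by
    set A := 4 * C0 * g * rho R with hA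
    have hmean : ∀ F : ℕ → ℝ, (∀ i < g, F i ≤ A) → (1 / (g : ℝ)) * ∑ i ∈ range g, F i ≤ A := by
      intro F hF
      calc (1 / (g : ℝ)) * ∑ i ∈ range g, F i ≤ (1 / (g : ℝ)) * ∑ i ∈ range g, A :=
            mul_le_mul_of_nonneg_left (sum_le_sum fun i hi => hF i (mem_range.1 hi)) (by positivity)
        _ = A := by rw [sum_const, card_range, nsmul_eq_mul]; field_simp
    rw [hZ, av_cmul, av_sum V (fun i _ => b2 i)]
    apply hmean
    intro i hi
    rw [av_cmul, av_sum V (fun j _ => b3 i j)]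
    apply hmean
    intro j hj
    rw [av_cmul, av_sum V (fun l _ => bY _)]
    apply hmean
    intro l hl
    exact hYav _ (by omega)
  linarith

end Pool.Agent.KS6_24.LN
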