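import Mathlib
import Pool.Agent.KS6_24.LN.Defs
import Pool.Graph.R_seed8.H499R2.NDClass2

/-! DENSITY of invariant sets, from the library structure theorem. -/

set_option autoImplicit false

namespace Pool.Agent.KS6_24.LN

open Pool.Agent.H499R2.CO Pool.Agent.Y965.SI Finset Filter Topology
open Pool.Agent.H499R2.ND (Ci Kc IsRep)

theorem dens_Tz_mul {d : ℤ} (hd : d = 1 ∨ d = -1) (x : ℤ) : Tz d (d * x) = d * Tz 1 x := by
  unfold Tz
  rcases hd with rfl | rfl
  · simp
  · by_cases h : x % 2 = 0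
    · rw [if_pos h, if_pos (by omega)]; omega
    · rw [if_neg h, if_neg (by omega)]; omega

theorem dens_Ci_inv {d : ℤ} (hd : d = 1 ∨ d = -1) {S : Set ℤ} (hS : ∀ x, Tz d x ∈ S ↔ x ∈ S) (x : ℤ) :
    d * x ∈ S ↔ d * Ci x ∈ S := by
  have h1 : ∀ x : ℤ, d * x ∈ S ↔ d * Tz 1 x ∈ S := by
    intro x; rw [← dens_Tz_mul hd, hS]
  by_cases h : x % 2 = 0
  · have : Ci x = Tz 1 x := by simp [Ci, Tz, h]
    rw [this, h1]
  · have e1 : Ci x = 3 * x + 1 := by simp only [Ci]; rw [if_neg h]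
    have e2 : Tz 1 (3 * x + 1) = Tz 1 x := by
      unfold Tz; rw [if_neg h, if_pos (by omega)]
    rw [e1, h1 (3 * x + 1), e2, ← h1]

theorem dens {d : ℤ} (hd : d = 1 ∨ d = -1) : S_DENS d := by
  classical
  intro S hS hex
  have hdd : ∀ x : ℤ, d * (d * x) = x := by intro x; rcases hd with rfl | rfl <;> ring
  set S' : Set ℤ := {x | d * x ∈ S} with hS'
  have hCi : ∀ x : ℤ, x ∈ S' ↔ Ci x ∈ S' := fun x => dens_Ci_inv hd hS x
  obtain ⟨δ, h1, h2, h3⟩ := Pool.Agent.H499R2.ND.structure_full hd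
  have hlim := h2 S' hCi
  -- summability
  set ι : {a : ℤ // IsRep d a ∧ a ∈ S'} → {a : ℤ // IsRep d a} := fun a => ⟨a.1, a.2.1⟩ with hι
  have hinj : Function.Injective ι := by
    intro a b hab
    simp only [hι, Subtype.mk.injEq] at hab
    exact Subtype.ext hab
  have hpos : ∀ a : {a : ℤ // IsRep d a}, 0 < δ a := fun a => (h1 a.1 a.2.1).1
  have hsum : Summable (fun a : {a : ℤ // IsRep d a ∧ a ∈ S'} => δ a) := h3.summable.comp_injective hinj
  have hle : ∑' a : {a : ℤ // IsRep d a ∧ a ∈ S'}, δ a ≤ 1 := by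
    rw [← h3.tsum_eq]
    exact Summable.tsum_le_tsum_of_inj ι hinj (fun c _ => (hpos c).le) (fun a => le_refl _) hsum h3.summable
  -- a representative in S'
  obtain ⟨x, hxS, hx0⟩ := hex
  have hrep : ∃ a : ℤ, IsRep d a ∧ a ∈ S' := by
    have hne : ∃ n : ℕ, 0 < n ∧ ∃ i j : ℕ, Ci^[i] (d * x) = Ci^[j] (d * n) := by
      refine ⟨x.toNat, by omega, 0, 0, ?_⟩
      simp only [Function.iterate_zero, id]
      congr 1; omega
    obtain ⟨hn0, i, j, hij⟩ := Nat.find_spec hne
    set n := Nat.find hne with hn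
    have hxn : (d * x) ∈ Kc (d * n) := ⟨i, j, hij⟩
    refine ⟨d * n, ⟨by rw [hdd]; exact_mod_cast hn0, ?_⟩, ?_⟩
    · intro b hb hm
      rw [hdd]
      obtain ⟨m, hm'⟩ : ∃ m : ℕ, d * b = m := ⟨(d * b).toNat, by omega⟩
      rw [hm']
      have hb' : b = d * m := by rw [← hm', hdd]
      have : n ≤ m := by
        apply Nat.find_min' hne
        refine ⟨by omega, ?_⟩
        have h4 : d * n ∈ Kc b := hm
        have h5 := Pool.Agent.H499R2.ND.Kc_trans hxn h4
        rw [hb'] at h5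
        exact h5
      exact_mod_cast this
    · have h4 := Pool.Agent.H499R2.ND.mem_of_merge (S := S') hCi hxn
      rw [← h4]
      show d * (d * x) ∈ S
      rw [hdd]; exact hxS
  obtain ⟨a0, ha0, ha0'⟩ := hrep
  have hgt : 0 < ∑' a : {a : ℤ // IsRep d a ∧ a ∈ S'}, δ a :=
    hsum.tsum_pos (fun a => (hpos ⟨a.1, a.2.1⟩).le) ⟨a0, ha0, ha0'⟩ (hpos ⟨a0, ha0⟩)
  refine ⟨∑' a : {a : ℤ // IsRep d a ∧ a ∈ S'}, δ a, hgt, hle, ?_⟩
  set D := ∑' a : {a : ℤ // IsRep d a ∧ a ∈ S'}, δ a with hD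
  set ind : ℤ → ℝ := S.indicator (fun _ => (1 : ℝ)) with hind
  have hind01 : ∀ x, 0 ≤ ind x ∧ ind x ≤ 1 := by
    intro x
    simp only [hind, Set.indicator]
    split_ifs <;> norm_num
  have hc : ∀ N : ℕ, ({n : ℤ | 0 < d * n ∧ d * n ≤ N ∧ n ∈ S'}.ncard : ℝ)
      = ∑ n ∈ range N, ind ((n + 1 : ℕ)) := by
    intro N
    have e1 : {n : ℤ | 0 < d * n ∧ d * n ≤ N ∧ n ∈ S'}
        = (((range N).filter fun n : ℕ => ((n + 1 : ℕ) : ℤ) ∈ S).image fun n : ℕ => d * ((n + 1 : ℕ) : ℤ) : Finset ℤ) := by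
      ext n
      simp only [Set.mem_ofPred_eq, coe_image, coe_filter, mem_range, Set.mem_image]
      constructor
      · rintro ⟨ha, hb, hc⟩
        refine ⟨(d * n - 1).toNat, ⟨by omega, ?_⟩, ?_⟩
        · have : (((d * n - 1).toNat + 1 : ℕ) : ℤ) = d * n := by omega
          rw [this]; exact hc
        · have : (((d * n - 1).toNat + 1 : ℕ) : ℤ) = d * n := by omega
          rw [this, hdd]
      · rintro ⟨m, ⟨hm, hmS⟩, rfl⟩
        rw [hdd]
        refine ⟨by positivity, by exact_mod_cast hm, ?_⟩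
        show d * (d * _) ∈ S
        rw [hdd]; exact hmS
    rw [e1, Set.ncard_coe_finset, card_image_of_injective, card_filter]
    · push_cast
      apply sum_congr rfl
      intro n _
      simp only [hind, Set.indicator]
      try push_cast
      try rfl
    · intro a b hab
      simp only at hab
      have : d * (d * ((a + 1 : ℕ) : ℤ)) = d * (d * ((b + 1 : ℕ) : ℤ)) := by rw [hab]
      rw [hdd, hdd] at this
      omega
  have hs : ∀ N : ℕ, ∑ n ∈ range N, (ind (n : ℕ) - D) = ∑ n ∈ range N, ind ((n + 1 : ℕ)) + (ind 0 - ind N) - N * D := by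
    intro N
    have e1 := sum_range_succ (fun n : ℕ => ind (n : ℕ)) N
    have e2 := sum_range_succ' (fun n : ℕ => ind (n : ℕ)) N
    rw [sum_sub_distrib, sum_const, card_range, nsmul_eq_mul]
    simp only [Nat.cast_zero] at e2
    linarith
  unfold MeanZero
  have h5 : Tendsto (fun N : ℕ => (ind 0 - ind N) / N) atTop (𝓝 0) := by
    apply squeeze_zero_norm (a := fun N : ℕ => 1 / (N : ℝ))
    · intro N
      rw [Real.norm_eq_abs, abs_div, Nat.abs_cast]
      gcongr
      rw [abs_le]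
      constructor <;> linarith [(hind01 0).1, (hind01 0).2, (hind01 N).1, (hind01 N).2]
    · exact tendsto_one_div_atTop_nhds_zero_nat
  have h6 : Tendsto (fun N : ℕ => (∑ n ∈ range N, ind ((n + 1 : ℕ))) / N + (ind 0 - ind N) / N - D) atTop
      (𝓝 (D + 0 - D)) := by
    apply Tendsto.sub_const
    apply Tendsto.add _ h5
    refine hlim.congr fun N => ?_
    rw [hc]
  rw [add_zero, sub_self] at h6
  apply h6.congr'
  filter_upwards [eventually_gt_atTop 0] with N hN
  have hN' : (N : ℝ) ≠ 0 := by positivity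
  show _ = (∑ n ∈ range N, (ind (n : ℕ) - D)) / N
  rw [hs]
  field_simp

end Pool.Agent.KS6_24.LN
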