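import Mathlib
import Pool.Agent.KS6_24.LN.Defs3

/-! Job STEP (helper56): the energy step from the pair lemma and the count of the exceptional exponents. -/

set_option autoImplicit false

namespace Pool.Agent.KS6_24.LN

open Pool.Agent.H499R2.CO Pool.Agent.Y965.SI Finset

theorem lam_ge (D : ℕ) : 1 ≤ lam D := by
  unfold lam
  rw [le_div_iff₀ (by positivity), one_mul]
  have := Nat.pow_log_le_self 2 (x := 3 ^ D) (by positivity)
  exact_mod_cast this

theorem lam_lt (D : ℕ) : lam D < 2 := by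
  unfold lam
  rw [div_lt_iff₀ (by positivity)]
  have := Nat.lt_pow_succ_log_self (b := 2) (by norm_num) (3 ^ D)
  rw [Nat.succ_eq_add_one, pow_succ] at this
  have h : ((3 ^ D : ℕ) : ℝ) < ((2 ^ Nat.log 2 (3 ^ D) * 2 : ℕ) : ℝ) := by exact_mod_cast this
  push_cast at h
  linarith

theorem lam_ratio {D D' : ℕ} (h : D ≤ D') :
    ∃ j : ℕ, lam D' / lam D = (3 : ℝ) ^ (D' - D) / 2 ^ j := by
  refine ⟨Nat.log 2 (3 ^ D') - Nat.log 2 (3 ^ D), ?_⟩
  have h1 : Nat.log 2 (3 ^ D) ≤ Nat.log 2 (3 ^ D') :=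
    Nat.log_mono_right (Nat.pow_le_pow_right (by norm_num) h)
  obtain ⟨e, rfl⟩ := Nat.exists_eq_add_of_le h
  obtain ⟨j, hj⟩ := Nat.exists_eq_add_of_le h1
  unfold lam
  rw [hj, Nat.add_sub_cancel_left, Nat.add_sub_cancel_left, pow_add, pow_add]
  field_simp

/-- squares of means of families -/
theorem av_sq_mean {Z : ℝ} (K : ℕ) {M : ℝ} {F : ℕ → ℝ → ℝ} (hF : ∀ D, Bd M (F D)) :
    av Z (fun z => ((∑ D ∈ range K, F D z) / K) ^ 2)
      = (∑ D ∈ range K, ∑ D' ∈ range K, av Z (fun z => F D z * F D' z)) / (K : ℝ) ^ 2 := by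
  have e : (fun z => ((∑ D ∈ range K, F D z) / (K : ℝ)) ^ 2)
      = fun z => (1 / (K : ℝ) ^ 2) * ∑ D ∈ range K, ∑ D' ∈ range K, F D z * F D' z := by
    funext z
    rw [div_pow, pow_two (∑ D ∈ range K, F D z), sum_mul_sum, one_div, inv_mul_eq_div]
  rw [e, av_cmul, av_sum Z (M := fun _ => ∑ _D' ∈ range K, M * M) (fun D _ => Bd.sum fun D' _ => (hF D).mul (hF D'))]
  rw [one_div, inv_mul_eq_div]
  congr 1
  apply sum_congr rfl
  intro D _
  exact av_sum Z (M := fun _ => M * M) fun D' _ => (hF D).mul (hF D')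

theorem jensen {ι : Type*} (s : Finset ι) (p x : ι → ℝ) (hp : ∀ i ∈ s, 0 ≤ p i) (h1 : ∑ i ∈ s, p i ≤ 1) :
    (∑ i ∈ s, p i * x i) ^ 2 ≤ ∑ i ∈ s, p i * x i ^ 2 := by
  set μ := ∑ i ∈ s, p i * x i with hμ
  have h : 0 ≤ ∑ i ∈ s, p i * (x i - μ) ^ 2 := sum_nonneg fun i hi => mul_nonneg (hp i hi) (sq_nonneg _)
  have e : ∑ i ∈ s, p i * (x i - μ) ^ 2
      = ∑ i ∈ s, p i * x i ^ 2 - 2 * μ * μ + μ ^ 2 * ∑ i ∈ s, p i := by
    have h3 : ∀ i, p i * (x i - μ) ^ 2 = p i * x i ^ 2 - 2 * μ * (p i * x i) + μ ^ 2 * p i := by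
      intro i; ring
    simp only [h3, sum_add_distrib, sum_sub_distrib, ← mul_sum]
    rw [← hμ]
  rw [e] at h
  have h2 : μ ^ 2 * ∑ i ∈ s, p i ≤ μ ^ 2 * 1 := mul_le_mul_of_nonneg_left h1 (sq_nonneg _)
  nlinarith

theorem stp_pc_nonneg (d : ℤ) (t g c : ℕ) : 0 ≤ pc d t g c := pm_nonneg fun _ => W_nonneg _ _

theorem stp_pc_sum (d : ℤ) {t g : ℕ} (hg : 1 ≤ g) (B : ℕ) : ∑ c ∈ Cs t g B, pc d t g c ≤ 1 := by
  have h1 : ∑ c ∈ Cs t g B, pc d t g c ≤ ∑ c ∈ range (t + 3 * g), pc d t g c :=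
    sum_le_sum_of_subset_of_nonneg (filter_subset _ _) fun c _ _ => stp_pc_nonneg d t g c
  have h2 : ∑ c ∈ range (t + 3 * g), pc d t g c = 1 := by
    unfold pc
    rw [← pm_sum]
    have : ∀ x : ℤ, ∑ c ∈ range (t + 3 * g), psi d t g c x = 1 := by
      intro x
      unfold psi
      exact W_sum_one (by have := od_le d t x; omega) hg
    rw [pm_congr this, pm_const]
  linarith

/-- the number of pairs with an exceptional difference -/
theorem exc_pairs (K : ℕ) (E : Finset ℕ) (D : ℕ) :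
    ∑ D' ∈ range K, (if (D ≤ D' ∧ D' - D ∈ E) ∨ (D' ≤ D ∧ D - D' ∈ E) then (1 : ℝ) else 0) ≤ 2 * #E := by
  classical
  have h1 : #{D' ∈ range K | (D ≤ D' ∧ D' - D ∈ E) ∨ (D' ≤ D ∧ D - D' ∈ E)} ≤ 2 * #E := by
    rw [filter_or]
    refine (card_union_le _ _).trans ?_
    have h2 : #{D' ∈ range K | D ≤ D' ∧ D' - D ∈ E} ≤ #E := by
      apply card_le_card_of_injOn (fun D' => D' - D)
      · intro x hx
        rw [mem_coe, mem_filter] at hx
        exact hx.2.2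
      · intro x hx y hy hxy
        rw [mem_coe, mem_filter] at hx hy
        simp only at hxy
        omega
    have h3 : #{D' ∈ range K | D' ≤ D ∧ D - D' ∈ E} ≤ #E := by
      apply card_le_card_of_injOn (fun D' => D - D')
      · intro x hx
        rw [mem_coe, mem_filter] at hx
        exact hx.2.2
      · intro x hx y hy hxy
        rw [mem_coe, mem_filter] at hx hy
        simp only at hxy
        omega
    omega
  have h4 : ∑ D' ∈ range K, (if (D ≤ D' ∧ D' - D ∈ E) ∨ (D' ≤ D ∧ D - D' ∈ E) then (1 : ℝ) else 0)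
      = (#{D' ∈ range K | (D ≤ D' ∧ D' - D ∈ E) ∨ (D' ≤ D ∧ D - D' ∈ E)} : ℝ) := by
    rw [card_filter]; push_cast; rfl
  rw [h4]
  exact_mod_cast h1

theorem Pf_bd {f : ℤ → ℝ} (hf : ∀ x, |f x| ≤ 1) (d : ℤ) (t g B : ℕ) :
    Bd (∑ c ∈ Cs t g B, |pc d t g c| * 1) (Pf f d t g B) := by
  have := Bd.sum (s := Cs t g B) (M := fun c => |pc d t g c| * 1) (u := fun c y => pc d t g c * fc f t c y)
    fun c _ => Bd.cmul (pc d t g c) (M := 1) (u := fc f t c)
      (Bd.flc (g := fun y => 3 ^ c * y / 2 ^ t) hf (by fun_prop))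
  exact this

theorem step_core {d : ℤ} (hEX : S_EXC) {f : ℤ → ℝ} (hf : ∀ x, |f x| ≤ 1) {t g B : ℕ} (ht : 1 ≤ t)
    (hg : 1 ≤ g) {Z ε ε' : ℝ} {m K : ℕ} (hm1 : (2 : ℝ) ^ m ≤ Z) (hm : 12 + 8 * t ≤ m) (hK : 1 ≤ K)
    (hε : 0 ≤ ε) (hε' : 0 ≤ ε')
    (hpair : ∀ V L : ℝ, Z ≤ V → 1 / 2 ≤ L → L ≤ 2 →
      |av V (fun y => f ⌊y⌋ * f ⌊L * y⌋) - av V (fun y => Pf f d t g B y * Pf f d t g B (L * y))| ≤ ε ∧
      (¬ Bad (2 ^ (2 * t)) (V / 2 ^ (2 * t)) L →
        |av V (fun y => f ⌊y⌋ * f ⌊L * y⌋) - av V (fun y => Pf f d t g B y * Pf f d t g B (L * y))| ≤ ε')) :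
    En f K Z ≤ (∑ c ∈ Cs t g B, pc d t g c * En f K (3 ^ c / 2 ^ t * Z))
      + (ε' + 2 * (4 * t + 1) * (1 / ((m / 4 : ℕ) : ℝ) + 1 / K) * ε) := by
  classical
  have hZ0 : 0 < Z := lt_of_lt_of_le (by positivity) hm1
  have hK0 : (0 : ℝ) < K := by exact_mod_cast hK
  set P : ℝ → ℝ := Pf f d t g B with hP
  have hPB := Pf_bd hf d t g B
  rw [← hP] at hPB
  set a : ℕ → ℕ → ℝ := fun D D' => av Z (fun z => f ⌊lam D * z⌋ * f ⌊lam D' * z⌋) with ha
  set b : ℕ → ℕ → ℝ := fun D D' => av Z (fun z => P (lam D * z) * P (lam D' * z)) with hb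
  set E : Finset ℕ := {e ∈ range K | ∃ j : ℕ, 1 / 2 ≤ (3 : ℝ) ^ e / 2 ^ j ∧ (3 : ℝ) ^ e / 2 ^ j ≤ 2 ∧
    Bad (2 ^ (2 * t)) (Z / 2 ^ (2 * t)) ((3 : ℝ) ^ e / 2 ^ j)} with hE
  -- the pair estimate for `D ≤ D'`
  have hle : ∀ D D' : ℕ, D ≤ D' → D' < K → |a D D' - b D D'| ≤ ε ∧ (D' - D ∉ E → |a D D' - b D D'| ≤ ε') := by
    intro D D' hDD hD'K
    have hl1 := lam_ge D
    have hl2 := lam_lt D
    have hl1' := lam_ge D'
    have hl2' := lam_lt D'
    have hl0 : 0 < lam D := by linarith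
    obtain ⟨j, hj⟩ := lam_ratio hDD
    set L : ℝ := lam D' / lam D with hL
    have hLD : ∀ y : ℝ, L * (lam D * y) = lam D' * y := by
      intro y; rw [hL]; field_simp
    have hL1 : 1 / 2 ≤ L := by
      rw [hL, le_div_iff₀ hl0]; linarith
    have hL2 : L ≤ 2 := by
      rw [hL, div_le_iff₀ hl0]; linarith
    have hea : a D D' = av (lam D * Z) (fun y => f ⌊y⌋ * f ⌊L * y⌋) := by
      rw [ha, ← av_scale hZ0 hl0]
      simp only [hLD]
    have heb : b D D' = av (lam D * Z) (fun y => P y * P (L * y)) := by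
      rw [hb, ← av_scale hZ0 hl0]
      simp only [hLD]
    have hZV : Z ≤ lam D * Z := by nlinarith
    obtain ⟨h1, h2⟩ := hpair (lam D * Z) L hZV hL1 hL2
    rw [hea, heb]
    refine ⟨h1, fun hnE => h2 fun hbad => hnE ?_⟩
    rw [hE, mem_filter, mem_range]
    refine ⟨by omega, j, by rw [← hj]; exact hL1, by rw [← hj]; exact hL2, ?_⟩
    rw [← hj]
    obtain ⟨r, p, hr1, hr2, hr3⟩ := hbad
    refine ⟨r, p, hr1, hr2, hr3.trans ?_⟩
    apply one_div_le_one_div_of_le (by positivity)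
    exact div_le_div_of_nonneg_right hZV (by positivity)
  have hsymm : ∀ D D', a D D' = a D' D := by
    intro D D'; rw [ha]; simp only; congr 1; funext z; rw [mul_comm]
  have hsymmb : ∀ D D', b D D' = b D' D := by
    intro D D'; rw [hb]; simp only; congr 1; funext z; rw [mul_comm]
  have hall : ∀ D D' : ℕ, D < K → D' < K → a D D' ≤ b D D' + (ε' + ε *
      (if (D ≤ D' ∧ D' - D ∈ E) ∨ (D' ≤ D ∧ D - D' ∈ E) then (1 : ℝ) else 0)) := by
    intro D D' hD hD'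
    rcases le_total D D' with h | h
    · obtain ⟨h1, h2⟩ := hle D D' h hD'
      split_ifs with hc
      · have := (abs_le.1 h1).2; linarith
      · have hn : D' - D ∉ E := fun hx => hc (Or.inl ⟨h, hx⟩)
        have := (abs_le.1 (h2 hn)).2; linarith
    · obtain ⟨h1, h2⟩ := hle D' D h hD
      rw [hsymm D D', hsymmb D D']
      split_ifs with hc
      · have := (abs_le.1 h1).2; linarith
      · have hn : D - D' ∉ E := fun hx => hc (Or.inr ⟨h, hx⟩)
        have := (abs_le.1 (h2 hn)).2; linarith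
  -- the count
  have hEcard : (#E : ℝ) ≤ (K / ((m / 4 : ℕ) : ℝ) + 1) * (4 * t + 1) := by
    have hLz : 1 ≤ m / 4 := by omega
    have h1 := hEX (2 ^ (2 * t)) (Z / 2 ^ (2 * t)) (4 * t) (m / 4) K (one_le_pow₀ (by norm_num))
      (by
        rw [← pow_mul, pow_succ, mul_comm]
        apply mul_lt_mul_of_pos_right _ (by norm_num)
        rw [show 2 * t * 2 = 4 * t by ring]
        exact pow_lt_pow_left₀ (by norm_num) (by norm_num) (by omega))
      (by
        rw [le_div_iff₀ (by positivity)]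
        have h3 : (3 : ℝ) ^ (m / 4) ≤ 2 ^ (m / 2) := by
          calc (3 : ℝ) ^ (m / 4) ≤ 4 ^ (m / 4) := pow_le_pow_left₀ (by norm_num) (by norm_num) _
            _ = 2 ^ (2 * (m / 4)) := by rw [pow_mul]; norm_num
            _ ≤ 2 ^ (m / 2) := pow_le_pow_right₀ (by norm_num) (by omega)
        have h4 : (40 : ℝ) * 2 ^ (2 * t) * 2 ^ (2 * t) ≤ 2 ^ (m / 2) := by
          calc (40 : ℝ) * 2 ^ (2 * t) * 2 ^ (2 * t) = 40 * 2 ^ (4 * t) := by
                rw [mul_assoc, ← pow_add]; congr 2; ring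
            _ ≤ 2 ^ 6 * 2 ^ (4 * t) := mul_le_mul_of_nonneg_right (by norm_num) (by positivity)
            _ = 2 ^ (6 + 4 * t) := by rw [pow_add]
            _ ≤ 2 ^ (m / 2) := pow_le_pow_right₀ (by norm_num) (by omega)
        calc (40 : ℝ) * 2 ^ (2 * t) * 3 ^ (m / 4) * 2 ^ (2 * t)
            = (40 * 2 ^ (2 * t) * 2 ^ (2 * t)) * 3 ^ (m / 4) := by ring
          _ ≤ 2 ^ (m / 2) * 2 ^ (m / 2) := mul_le_mul h4 h3 (by positivity) (by positivity)
          _ = 2 ^ (m / 2 + m / 2) := by rw [pow_add]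
          _ ≤ 2 ^ m := pow_le_pow_right₀ (by norm_num) (by omega)
          _ ≤ Z := hm1)
      hLz E (filter_subset _ _) (fun e he => (mem_filter.1 he).2)
    have h2 : (#E : ℝ) ≤ (((K / (m / 4) : ℕ) : ℝ) + 1) * (4 * t + 1) := by exact_mod_cast h1
    refine h2.trans ?_
    apply mul_le_mul_of_nonneg_right _ (by positivity)
    have := @Nat.cast_div_le ℝ _ _ _ K (m / 4)
    linarith
  -- the energies
  have hEn : En f K Z = (∑ D ∈ range K, ∑ D' ∈ range K, a D D') / (K : ℝ) ^ 2 := by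
    unfold En AK
    exact av_sq_mean K (M := 1) (F := fun D z => f ⌊lam D * z⌋)
      fun D => Bd.flc (g := fun z => lam D * z) hf (by fun_prop)
  have hEnb : av Z (fun z => ((∑ D ∈ range K, P (lam D * z)) / K) ^ 2)
      = (∑ D ∈ range K, ∑ D' ∈ range K, b D D') / (K : ℝ) ^ 2 :=
    av_sq_mean K (F := fun D z => P (lam D * z)) fun D => hPB.comp (by fun_prop)
  have hcomp : ∑ D ∈ range K, ∑ D' ∈ range K, a D D'
      ≤ (∑ D ∈ range K, ∑ D' ∈ range K, b D D') + ((K : ℝ) ^ 2 * ε' + ε * (K * (2 * #E))) := by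
    calc ∑ D ∈ range K, ∑ D' ∈ range K, a D D'
        ≤ ∑ D ∈ range K, ∑ D' ∈ range K, (b D D' + (ε' + ε *
          (if (D ≤ D' ∧ D' - D ∈ E) ∨ (D' ≤ D ∧ D - D' ∈ E) then (1 : ℝ) else 0))) :=
          sum_le_sum fun D hD => sum_le_sum fun D' hD' => hall D D' (mem_range.1 hD) (mem_range.1 hD')
      _ = (∑ D ∈ range K, ∑ D' ∈ range K, b D D') + ((K : ℝ) ^ 2 * ε' + ε * ∑ D ∈ range K, ∑ D' ∈ range K,
          (if (D ≤ D' ∧ D' - D ∈ E) ∨ (D' ≤ D ∧ D - D' ∈ E) then (1 : ℝ) else 0)) := by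
          simp only [sum_add_distrib, sum_const, card_range, nsmul_eq_mul, ← mul_sum]
          ring
      _ ≤ _ := by
          have h1 : ∑ D ∈ range K, ∑ D' ∈ range K,
              (if (D ≤ D' ∧ D' - D ∈ E) ∨ (D' ≤ D ∧ D - D' ∈ E) then (1 : ℝ) else 0)
              ≤ ∑ D ∈ range K, (2 * #E : ℝ) := sum_le_sum fun D _ => exc_pairs K E D
          rw [sum_const, card_range, nsmul_eq_mul] at h1
          have := mul_le_mul_of_nonneg_left h1 hε
          linarith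
  have hmean : av Z (fun z => ((∑ D ∈ range K, P (lam D * z)) / K) ^ 2)
      ≤ ∑ c ∈ Cs t g B, pc d t g c * En f K (3 ^ c / 2 ^ t * Z) := by
    have hAKB : Bd 1 (AK f K) := by
      have h1 := (Bd.sum (s := range K) (M := fun _ => (1 : ℝ)) (u := fun D z => f ⌊lam D * z⌋)
        fun D _ => Bd.flc (g := fun z => lam D * z) hf (by fun_prop)).cmul (1 / (K : ℝ))
      refine ⟨?_, ?_⟩
      · have := h1.1
        have e : (fun y => 1 / (K : ℝ) * ∑ D ∈ range K, f ⌊lam D * y⌋) = AK f K := by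
          funext y; unfold AK; rw [one_div, inv_mul_eq_div]
        rwa [e] at this
      · intro y
        unfold AK
        rw [abs_div, abs_of_pos hK0, div_le_one hK0]
        refine (abs_sum_le_sum_abs _ _).trans ?_
        calc ∑ D ∈ range K, |f ⌊lam D * y⌋| ≤ ∑ _D ∈ range K, (1 : ℝ) := sum_le_sum fun D _ => hf _
          _ = K := by rw [sum_const, card_range, nsmul_eq_mul, mul_one]
    have hsqB : ∀ c : ℕ, Bd (1 * 1) (fun z => AK f K (3 ^ c / 2 ^ t * z) ^ 2) := by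
      intro c
      have h1 : Bd 1 (fun z => AK f K (3 ^ c / 2 ^ t * z)) := hAKB.comp (by fun_prop)
      have := h1.mul h1
      simpa [pow_two] using this
    have e1 : ∀ z : ℝ, (∑ D ∈ range K, P (lam D * z)) / K = ∑ c ∈ Cs t g B, pc d t g c * AK f K (3 ^ c / 2 ^ t * z) := by
      intro z
      rw [hP]
      unfold Pf AK fc
      rw [sum_comm, sum_div]
      apply sum_congr rfl
      intro c _
      rw [← mul_sum, mul_div_assoc]
      congr 2
      apply sum_congr rfl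
      intro D _
      congr 2
      field_simp
    simp only [e1]
    have hR : Bd (∑ c ∈ Cs t g B, |pc d t g c| * (1 * 1))
        (fun z => ∑ c ∈ Cs t g B, pc d t g c * AK f K (3 ^ c / 2 ^ t * z) ^ 2) :=
      Bd.sum fun c _ => (hsqB c).cmul _
    have hLs : Bd (∑ c ∈ Cs t g B, |pc d t g c| * 1)
        (fun z => ∑ c ∈ Cs t g B, pc d t g c * AK f K (3 ^ c / 2 ^ t * z)) :=
      Bd.sum fun c _ => Bd.cmul _ (hAKB.comp (by fun_prop))
    have hL2 := hLs.mul hLs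
    have hL2' : Bd ((∑ c ∈ Cs t g B, |pc d t g c| * 1) * ∑ c ∈ Cs t g B, |pc d t g c| * 1)
        (fun z => (∑ c ∈ Cs t g B, pc d t g c * AK f K (3 ^ c / 2 ^ t * z)) ^ 2) := by
      simpa only [pow_two] using hL2
    refine (av_mono hZ0 hL2' hR fun z _ _ =>
      jensen (Cs t g B) (pc d t g) _ (fun c _ => stp_pc_nonneg d t g c) (stp_pc_sum d hg B)).trans (le_of_eq ?_)
    rw [av_sum Z (M := fun c => |pc d t g c| * (1 * 1)) fun c _ => (hsqB c).cmul _]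
    apply sum_congr rfl
    intro c _
    rw [av_cmul]
    congr 1
    unfold En
    exact av_scale hZ0 (by positivity) (fun z => AK f K z ^ 2)
  rw [hEnb] at hmean
  rw [hEn]
  have h1 : (∑ D ∈ range K, ∑ D' ∈ range K, a D D') / (K : ℝ) ^ 2
      ≤ (∑ D ∈ range K, ∑ D' ∈ range K, b D D') / (K : ℝ) ^ 2 + (ε' + ε * (2 * #E) / K) := by
    rw [div_le_iff₀ (by positivity)]
    refine hcomp.trans (le_of_eq ?_)
    field_simp
  have h2 : ε * (2 * #E) / K ≤ 2 * (4 * t + 1) * (1 / ((m / 4 : ℕ) : ℝ) + 1 / K) * ε := by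
    rw [div_le_iff₀ hK0]
    have h3 : ε * (2 * #E) ≤ ε * (2 * ((K / ((m / 4 : ℕ) : ℝ) + 1) * (4 * t + 1))) := by
      apply mul_le_mul_of_nonneg_left _ hε
      linarith
    refine h3.trans (le_of_eq ?_)
    field_simp
  linarith

theorem step (d : ℤ) (hP : S_PAIR d) (hE : S_EXC) : S_STEP d := by
  intro κ hκ
  obtain ⟨C1, u1, hC1, hu1, hpair⟩ := hP
  refine ⟨C1 * (81 + 20 / κ), max u1 2, by positivity, by omega, ?_⟩
  intro f hf u hu Z hZ K hK
  have hu1' : u1 ≤ u := le_trans (le_max_left _ _) hu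
  have hu2 : 2 ≤ u := le_trans (le_max_right _ _) hu
  have hu2r : (2 : ℝ) ≤ u := by exact_mod_cast hu2
  have hu0 : (0 : ℝ) < u := by linarith
  have hpw : (0 : ℝ) < (2 : ℝ) ^ (u ^ 1000) := by positivity
  have hZ1 : (2 : ℝ) ^ (u ^ 1000) ≤ Z := by linarith
  have h1Z : 1 ≤ Z := le_trans (one_le_pow₀ (by norm_num)) hZ1
  obtain ⟨m, hm1, hm2⟩ := exists_nat_pow_near h1Z (show (1 : ℝ) < 2 by norm_num)
  have hmu : u ^ 1000 ≤ m := by
    have h1 : (2 : ℝ) ^ (u ^ 1000) < 2 ^ (m + 1) := lt_of_le_of_lt hZ1 hm2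
    have h2 := (pow_lt_pow_iff_right₀ (show (1 : ℝ) < 2 by norm_num)).1 h1
    omega
  set t := u ^ 990 with ht
  have ht1 : 1 ≤ t := Nat.one_le_pow _ _ (by omega)
  have htm : u ^ 10 * t ≤ m := by
    refine le_trans (le_of_eq ?_) hmu
    rw [ht, ← pow_add]
  have h10 : 1024 ≤ u ^ 10 := by
    calc 1024 = 2 ^ 10 := by norm_num
      _ ≤ u ^ 10 := Nat.pow_le_pow_left hu2 10
  have hm3 : 1024 * t ≤ m := le_trans (Nat.mul_le_mul_right t h10) htm
  have hmr : (0 : ℝ) < m := by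
    have : 0 < m := by omega
    exact_mod_cast this
  have hlogZ : (m : ℝ) / 2 ≤ Real.log Z := by
    have h1 := Real.log_le_log (by positivity) hm1
    rw [Real.log_pow] at h1
    have h2 := Real.log_two_gt_d9
    have h3 : (m : ℝ) / 2 ≤ m * Real.log 2 := by nlinarith
    linarith
  have hKm : κ * m / 2 ≤ K := by
    have : κ * (m / 2) ≤ κ * Real.log Z := mul_le_mul_of_nonneg_left hlogZ hκ.le
    linarith
  have hK0 : (0 : ℝ) < K := lt_of_lt_of_le (by positivity) hKm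
  have hK1 : 1 ≤ K := by exact_mod_cast hK0
  have hC4 : 0 ≤ C1 / (u : ℝ) ^ 4 := by positivity
  have hC11 : 0 ≤ C1 / (u : ℝ) ^ 11 := by positivity
  have hcore := step_core (d := d) hE (f := f) hf.1 (t := t) (g := u ^ 488) (B := u ^ 501) ht1
    (Nat.one_le_pow _ _ (by omega)) (Z := Z) (m := m) (K := K) hm1 (by omega) hK1 hC4 hC11
    (fun V L hV hL1 hL2 => hpair f hf u hu1' V L (hZ.trans hV) hL1 hL2)
  refine hcore.trans ?_
  have hgoal : C1 / (u : ℝ) ^ 11 + 2 * (4 * t + 1) * (1 / ((m / 4 : ℕ) : ℝ) + 1 / K) * (C1 / (u : ℝ) ^ 4)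
      ≤ C1 * (81 + 20 / κ) / (u : ℝ) ^ 11 := by
    have h1 : 1 / ((m / 4 : ℕ) : ℝ) ≤ 8 / m := by
      have h2 : m ≤ 8 * (m / 4) := by omega
      have h3 : (m : ℝ) ≤ 8 * ((m / 4 : ℕ) : ℝ) := by exact_mod_cast h2
      have h4 : (0 : ℝ) < ((m / 4 : ℕ) : ℝ) := by linarith
      rw [div_le_div_iff₀ h4 hmr]; linarith
    have h2 : 1 / (K : ℝ) ≤ (2 / κ) / m := by
      rw [div_div, div_le_div_iff₀ hK0 (by positivity)]
      linarith
    have h3 : 2 * (4 * (t : ℝ) + 1) ≤ 10 * t := by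
      have : (1 : ℝ) ≤ t := by exact_mod_cast ht1
      linarith
    have h4 : (t : ℝ) / m ≤ 1 / (u : ℝ) ^ 10 := by
      rw [div_le_div_iff₀ hmr (by positivity)]
      have : ((u ^ 10 * t : ℕ) : ℝ) ≤ m := by exact_mod_cast htm
      push_cast at this
      linarith
    have h5 : 2 * (4 * (t : ℝ) + 1) * (1 / ((m / 4 : ℕ) : ℝ) + 1 / K) ≤ (80 + 20 / κ) * (1 / (u : ℝ) ^ 10) := by
      calc 2 * (4 * (t : ℝ) + 1) * (1 / ((m / 4 : ℕ) : ℝ) + 1 / K)
          ≤ (10 * t) * (8 / m + (2 / κ) / m) := by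
            apply mul_le_mul h3 (add_le_add h1 h2) (by positivity) (by positivity)
        _ = (80 + 20 / κ) * (t / m) := by field_simp; ring
        _ ≤ (80 + 20 / κ) * (1 / (u : ℝ) ^ 10) := mul_le_mul_of_nonneg_left h4 (by positivity)
    have h6 : 2 * (4 * (t : ℝ) + 1) * (1 / ((m / 4 : ℕ) : ℝ) + 1 / K) * (C1 / (u : ℝ) ^ 4)
        ≤ (80 + 20 / κ) * (1 / (u : ℝ) ^ 10) * (C1 / (u : ℝ) ^ 4) := mul_le_mul_of_nonneg_right h5 hC4
    have h7 : (80 + 20 / κ) * (1 / (u : ℝ) ^ 10) * (C1 / (u : ℝ) ^ 4)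
        = (C1 * (80 + 20 / κ) / (u : ℝ) ^ 11) * (1 / (u : ℝ) ^ 3) := by field_simp
    have h8 : 1 / (u : ℝ) ^ 3 ≤ 1 := by
      rw [div_le_one (by positivity)]
      exact one_le_pow₀ (by linarith)
    have h9 : (C1 * (80 + 20 / κ) / (u : ℝ) ^ 11) * (1 / (u : ℝ) ^ 3) ≤ C1 * (80 + 20 / κ) / (u : ℝ) ^ 11 * 1 :=
      mul_le_mul_of_nonneg_left h8 (by positivity)
    have h10 : C1 * (81 + 20 / κ) / (u : ℝ) ^ 11 = C1 / (u : ℝ) ^ 11 + C1 * (80 + 20 / κ) / (u : ℝ) ^ 11 := by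
      ring
    rw [h10]
    linarith
  linarith

end Pool.Agent.KS6_24.LN
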