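import Mathlib
import Pool.Agent.KS6_24.LN.Step

/-! Job EN (helper56): the energy tends to zero, from `S_STEP` and `S_BASE`. -/

set_option autoImplicit false


namespace Pool.Agent.KS6_24.LN

open Pool.Agent.H499R2.CO Pool.Agent.Y965.SI Finset

/-- `x ^ (-1/1000)` -/
noncomputable def GG (x : ℝ) : ℝ := (x ^ ((1000 : ℕ) : ℝ)⁻¹)⁻¹

theorem GG_nonneg (x : ℝ) (hx : 0 ≤ x) : 0 ≤ GG x := inv_nonneg.2 (Real.rpow_nonneg hx _)

theorem GG_small {A η x : ℝ} (hA : 0 < A) (hη : 0 < η) (hx : (A / η) ^ 1000 ≤ x) : A * GG x ≤ η := by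
  have h1 : A / η ≤ x ^ ((1000 : ℕ) : ℝ)⁻¹ := by
    have h2 := Real.rpow_le_rpow (z := ((1000 : ℕ) : ℝ)⁻¹) (by positivity) hx (by positivity)
    rw [Real.pow_rpow_inv_natCast (by positivity) (by norm_num)] at h2
    exact h2
  have h3 : 0 < A / η := by positivity
  unfold GG
  rw [← div_eq_mul_inv, div_le_iff₀ (lt_of_lt_of_le h3 h1)]
  rw [div_le_iff₀ hη] at h1
  linarith

theorem GG_step {m m' s : ℝ} (hs : 0 < s) (hsm : s < m) (hm' : 0 < m') (h : m' ≤ m - s) :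
    GG m + GG m * (s / m) / 1000 ≤ GG m' := by
  have hm : 0 < m := by linarith
  set x : ℝ := s / m with hx
  have hx0 : 0 < x := by positivity
  have hx1 : x < 1 := by rw [hx, div_lt_one hm]; exact hsm
  have hms : m - s = m * (1 + -x) := by rw [hx]; field_simp; ring
  have hpos : 0 < 1 + -x := by linarith
  have h1 : m' ^ ((1000 : ℕ) : ℝ)⁻¹ ≤ m ^ ((1000 : ℕ) : ℝ)⁻¹ * (1 + -x) ^ ((1000 : ℕ) : ℝ)⁻¹ := by
    rw [← Real.mul_rpow hm.le hpos.le, ← hms]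
    exact Real.rpow_le_rpow hm'.le h (by positivity)
  have h2 : (1 + -x) ^ ((1000 : ℕ) : ℝ)⁻¹ ≤ 1 + ((1000 : ℕ) : ℝ)⁻¹ * (-x) :=
    rpow_one_add_le_one_add_mul_self (by linarith) (by positivity) (by norm_num)
  have hmp : 0 < m ^ ((1000 : ℕ) : ℝ)⁻¹ := Real.rpow_pos_of_pos hm _
  have hmp' : 0 < m' ^ ((1000 : ℕ) : ℝ)⁻¹ := Real.rpow_pos_of_pos hm' _
  have h3 : m' ^ ((1000 : ℕ) : ℝ)⁻¹ ≤ m ^ ((1000 : ℕ) : ℝ)⁻¹ * (1 - x / 1000) := by
    refine h1.trans (mul_le_mul_of_nonneg_left ?_ hmp.le)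
    refine h2.trans (le_of_eq ?_)
    push_cast; ring
  unfold GG
  set a := m ^ ((1000 : ℕ) : ℝ)⁻¹ with ha
  set b := m' ^ ((1000 : ℕ) : ℝ)⁻¹ with hb
  have h4 : a⁻¹ + a⁻¹ * x / 1000 = a⁻¹ * (1 + x / 1000) := by ring
  rw [h4, inv_mul_eq_div, div_le_iff₀ hmp, inv_mul_eq_div, le_div_iff₀ hmp']
  calc (1 + x / 1000) * b ≤ (1 + x / 1000) * (a * (1 - x / 1000)) :=
        mul_le_mul_of_nonneg_left h3 (by positivity)
    _ = a * (1 - (x / 1000) ^ 2) := by ring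
    _ ≤ a * 1 := mul_le_mul_of_nonneg_left (by nlinarith [sq_nonneg (x / 1000)]) hmp.le
    _ = a := mul_one a

theorem GG_err {C m u : ℝ} (hC : 0 < C) (hu : 0 < u) (hm : 0 < m) (hmu : m ≤ (2 * u) ^ 1000) :
    C / u ^ 11 ≤ (5000 * 2 ^ 1001 * C) * (GG m * (u ^ 990 / 5 / m) / 1000) := by
  have h1 : m ^ ((1000 : ℕ) : ℝ)⁻¹ ≤ 2 * u := by
    have h2 := Real.rpow_le_rpow (z := ((1000 : ℕ) : ℝ)⁻¹) hm.le hmu (by positivity)
    rwa [Real.pow_rpow_inv_natCast (by positivity) (by norm_num)] at h2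
  have hmp : 0 < m ^ ((1000 : ℕ) : ℝ)⁻¹ := Real.rpow_pos_of_pos hm _
  unfold GG
  set a := m ^ ((1000 : ℕ) : ℝ)⁻¹ with ha
  have h2 : a * m ≤ (2 * u) * (2 * u) ^ 1000 := mul_le_mul h1 hmu hm.le (by positivity)
  have h3 : (2 * u) * (2 * u) ^ 1000 = 2 ^ 1001 * (u ^ 11 * u ^ 990) := by
    rw [← pow_succ', mul_pow, ← pow_add]
  rw [h3] at h2
  have e : (5000 * 2 ^ 1001 * C) * (a⁻¹ * (u ^ 990 / 5 / m) / 1000) = (2 ^ 1001 * C * u ^ 990) / (a * m) := by
    set q : ℝ := 2 ^ 1001 with hq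
    set v : ℝ := u ^ 990 with hv
    field_simp
    ring
  rw [e, div_le_div_iff₀ (by positivity) (by positivity)]
  calc C * (a * m) ≤ C * (2 ^ 1001 * (u ^ 11 * u ^ 990)) := mul_le_mul_of_nonneg_left h2 hC.le
    _ = 2 ^ 1001 * C * u ^ 990 * u ^ 11 := by
        set q : ℝ := 2 ^ 1001 with hq
        set v : ℝ := u ^ 990 with hv
        ring

theorem en_AK_bd {f : ℤ → ℝ} (hf : ∀ x, |f x| ≤ 1) (K : ℕ) : Bd 1 (AK f K) := by
  have h1 := (Bd.sum (s := range K) (M := fun _ => (1 : ℝ)) (u := fun D z => f ⌊lam D * z⌋)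
    fun D _ => Bd.flc (g := fun z => lam D * z) hf (by fun_prop)).cmul (1 / (K : ℝ))
  refine ⟨?_, ?_⟩
  · have := h1.1
    have e : (fun y => 1 / (K : ℝ) * ∑ D ∈ range K, f ⌊lam D * y⌋) = AK f K := by
      funext y; unfold AK; rw [one_div, inv_mul_eq_div]
    rwa [e] at this
  · intro y
    unfold AK
    rcases Nat.eq_zero_or_pos K with h | h
    · subst h; simp
    · have hK0 : (0 : ℝ) < K := by exact_mod_cast h
      rw [abs_div, abs_of_pos hK0, div_le_one hK0]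
      refine (abs_sum_le_sum_abs _ _).trans ?_
      calc ∑ D ∈ range K, |f ⌊lam D * y⌋| ≤ ∑ _D ∈ range K, (1 : ℝ) := sum_le_sum fun D _ => hf _
        _ = K := by rw [sum_const, card_range, nsmul_eq_mul, mul_one]

/-- the heights `3^c / 2^t Z` for typical `c` -/
theorem Cs_height {u c : ℕ} (hu : 2 ≤ u) (hc : c ∈ Cs (u ^ 990) (u ^ 488) (u ^ 501)) {Z : ℝ} (hZ : 0 < Z) :
    Real.logb 2 Z - (u : ℝ) ^ 990 ≤ Real.logb 2 (3 ^ c / 2 ^ (u ^ 990) * Z) ∧
      Real.logb 2 (3 ^ c / 2 ^ (u ^ 990) * Z) ≤ Real.logb 2 Z - (u : ℝ) ^ 990 / 5 := by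
  have e1 : Real.logb 2 (3 ^ c / 2 ^ (u ^ 990) * Z)
      = c * Real.logb 2 3 - ((u ^ 990 : ℕ) : ℝ) + Real.logb 2 Z := by
    rw [Real.logb_mul (by positivity) hZ.ne', Real.logb_div (by positivity) (by positivity), Real.logb_pow,
      Real.logb_pow, Real.logb_self_eq_one (by norm_num), mul_one]
  have h3 : Real.logb 2 3 ≤ 1.59 := by
    have h4 : (3 : ℝ) ^ 100 ≤ 2 ^ 159 := by norm_num
    have h5 := Real.logb_le_logb_of_le (show (1 : ℝ) < 2 by norm_num) (by positivity) h4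
    rw [Real.logb_pow, Real.logb_pow, Real.logb_self_eq_one (by norm_num)] at h5
    push_cast at h5
    linarith
  have h30 : 0 ≤ Real.logb 2 3 := Real.logb_nonneg (by norm_num) (by norm_num)
  rw [e1]
  push_cast
  unfold Cs at hc
  rw [mem_filter] at hc
  obtain ⟨-, -, hc2⟩ := hc
  have hg : u ^ 488 ≤ u ^ 501 := Nat.pow_le_pow_right (by omega) (by norm_num)
  have ht : 2048 * u ^ 501 ≤ u ^ 990 := by
    have h6 : 2048 ≤ u ^ 489 := by
      calc 2048 = 2 ^ 11 := by norm_num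
        _ ≤ u ^ 11 := Nat.pow_le_pow_left hu 11
        _ ≤ u ^ 489 := Nat.pow_le_pow_right (by omega) (by norm_num)
    calc 2048 * u ^ 501 ≤ u ^ 489 * u ^ 501 := Nat.mul_le_mul_right _ h6
      _ = u ^ 990 := by rw [← pow_add]
  have hc3 : (2 : ℝ) * c ≤ u ^ 990 + 2 * u ^ 501 + 6 * u ^ 488 := by exact_mod_cast hc2
  have hgr : (u : ℝ) ^ 488 ≤ u ^ 501 := by exact_mod_cast hg
  have htr : 2048 * (u : ℝ) ^ 501 ≤ u ^ 990 := by exact_mod_cast ht
  set T : ℝ := (u : ℝ) ^ 990 with hT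
  set B : ℝ := (u : ℝ) ^ 501 with hB
  set g : ℝ := (u : ℝ) ^ 488 with hg'
  have hc0 : (0 : ℝ) ≤ c := Nat.cast_nonneg c
  constructor
  · have := mul_nonneg hc0 h30
    linarith
  · have : (c : ℝ) * Real.logb 2 3 ≤ c * 1.59 := mul_le_mul_of_nonneg_left h3 hc0
    linarith

theorem exists_root {m : ℝ} (hm : 1 ≤ m) : ∃ u : ℕ, (u : ℝ) ^ 1000 + 1 ≤ m ∧ m < ((u + 1 : ℕ) : ℝ) ^ 1000 + 1 := by
  set w : ℝ := (m - 1) ^ ((1000 : ℕ) : ℝ)⁻¹ with hw
  have hw0 : 0 ≤ w := Real.rpow_nonneg (by linarith) _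
  have hw1 : w ^ 1000 = m - 1 := Real.rpow_inv_natCast_pow (by linarith) (by norm_num)
  refine ⟨⌊w⌋₊, ?_, ?_⟩
  · have h1 : (⌊w⌋₊ : ℝ) ^ 1000 ≤ w ^ 1000 := pow_le_pow_left₀ (by positivity) (Nat.floor_le hw0) _
    linarith
  · have h1 : w ^ 1000 < ((⌊w⌋₊ + 1 : ℕ) : ℝ) ^ 1000 := by
      apply pow_lt_pow_left₀ _ hw0 (by norm_num)
      push_cast; exact Nat.lt_floor_add_one w
    linarith

theorem en (d : ℤ) (hS : S_STEP d) (hB : S_BASE) : S_EN d := by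
  intro f hf hmz κ ε hκ hε
  obtain ⟨C, u0, hC, hu0, hstep⟩ := hS κ hκ
  set η : ℝ := ε / 2 with hη
  have hη0 : 0 < η := by positivity
  obtain ⟨z0, hz0, hbase⟩ := hB f hf.1 hmz (√ η) (Real.sqrt_pos.2 hη0)
  set C1 : ℝ := 5000 * 2 ^ 1001 * C with hC1
  have hC10 : 0 < C1 := by positivity
  set U : ℕ := max u0 2 with hU
  have hU2 : 2 ≤ U := le_max_right _ _
  have hUu0 : u0 ≤ U := le_max_left _ _
  obtain ⟨m0, hm0a, hm0b, hm0c⟩ : ∃ m0 : ℕ, (C1 / η) ^ 1000 ≤ (m0 : ℝ) ∧ (U : ℝ) ^ 1000 + 1 ≤ m0 ∧ z0 ≤ m0 := by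
    obtain ⟨a, ha⟩ := exists_nat_ge ((C1 / η) ^ 1000)
    obtain ⟨b, hb⟩ := exists_nat_ge ((U : ℝ) ^ 1000 + 1)
    obtain ⟨c, hc⟩ := exists_nat_ge z0
    refine ⟨a + b + c, ?_, ?_, ?_⟩ <;> push_cast
    · linarith [(Nat.cast_nonneg b : (0 : ℝ) ≤ b), (Nat.cast_nonneg c : (0 : ℝ) ≤ c)]
    · linarith [(Nat.cast_nonneg a : (0 : ℝ) ≤ a), (Nat.cast_nonneg c : (0 : ℝ) ≤ c)]
    · linarith [(Nat.cast_nonneg a : (0 : ℝ) ≤ a), (Nat.cast_nonneg b : (0 : ℝ) ≤ b)]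
  have hm01 : (1 : ℝ) ≤ m0 := by linarith
  have hz02 : z0 ≤ 2 ^ m0 := by
    have : (m0 : ℝ) ≤ 2 ^ m0 := by exact_mod_cast (Nat.lt_two_pow_self (n := m0)).le
    linarith
  have hpow : (2 : ℝ) ^ m0 ≤ 2 ^ (2 * m0) := pow_le_pow_right₀ (by norm_num) (by omega)
  obtain ⟨K0, hK0⟩ := hbase (2 * 2 ^ (2 * m0)) (by
    have : (0 : ℝ) < 2 ^ (2 * m0) := by positivity
    linarith)
  -- the claim
  have hclaim : ∀ K : ℕ, K0 ≤ K → ∀ n : ℕ, ∀ Z : ℝ, (2 : ℝ) ^ m0 ≤ Z → Z ≤ 2 ^ (2 * m0 + n) →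
      κ * Real.log Z ≤ K → En f K Z ≤ 2 * η - C1 * GG (Real.logb 2 Z) := by
    intro K hK n
    induction n with
    | zero =>
      intro Z hZ1 hZ2 _
      rw [add_zero] at hZ2
      have hZ0 : 0 < Z := lt_of_lt_of_le (by positivity) hZ1
      have hmZ : (m0 : ℝ) ≤ Real.logb 2 Z := by
        rw [Real.le_logb_iff_rpow_le (by norm_num) hZ0, Real.rpow_natCast]; exact hZ1
      have hG := GG_small hC10 hη0 (hm0a.trans hmZ)
      have hsq : Bd (1 * 1) (fun z => AK f K z ^ 2) := by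
        have := (en_AK_bd hf.1 K).mul (en_AK_bd hf.1 K)
        simpa only [pow_two] using this
      have hE : En f K Z ≤ η := by
        unfold En
        apply av_le hZ0 hsq
        intro y hy1 hy2
        have h1 := hK0 K hK y (by linarith) (by linarith)
        rw [← sq_abs]
        calc |AK f K y| ^ 2 ≤ (√ η) ^ 2 := pow_le_pow_left₀ (abs_nonneg _) h1 2
          _ = η := Real.sq_sqrt hη0.le
      linarith
    | succ n ih =>
      intro Z hZ1 hZ2 hKZ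
      by_cases hsmall : Z ≤ 2 ^ (2 * m0 + n)
      · exact ih Z hZ1 hsmall hKZ
      push Not at hsmall
      have hZ0 : 0 < Z := lt_of_lt_of_le (by positivity) hZ1
      set m : ℝ := Real.logb 2 Z with hm
      have hm2 : 2 * (m0 : ℝ) ≤ m := by
        have : ((2 * m0 + n : ℕ) : ℝ) ≤ Real.logb 2 Z := by
          rw [Real.le_logb_iff_rpow_le (by norm_num) hZ0, Real.rpow_natCast]; exact hsmall.le
        push_cast at this
        linarith [(Nat.cast_nonneg n : (0 : ℝ) ≤ n)]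
      have hmm0 : (m0 : ℝ) ≤ m := by linarith
      have hm0' : 0 < m := by linarith
      obtain ⟨u, hu1, hu2⟩ := exists_root (show 1 ≤ m by linarith)
      have huU : U ≤ u := by
        by_contra hcon
        push Not at hcon
        have h1 : ((u + 1 : ℕ) : ℝ) ^ 1000 ≤ (U : ℝ) ^ 1000 := by
          apply pow_le_pow_left₀ (by positivity)
          exact_mod_cast hcon
        linarith
      have hu2' : 2 ≤ u := by omega
      have hu2r : (2 : ℝ) ≤ u := by exact_mod_cast hu2'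
      have hur : (0 : ℝ) < u := by linarith
      have hmu : m ≤ (2 * (u : ℝ)) ^ 1000 := by
        have h1 : (u + 1) ^ 1000 < (u + 2) ^ 1000 := Nat.pow_lt_pow_left (by omega) (by norm_num)
        have h2 : (u + 2) ^ 1000 ≤ (2 * u) ^ 1000 := Nat.pow_le_pow_left (by omega) _
        have h3 : (u + 1) ^ 1000 + 1 ≤ (2 * u) ^ 1000 := by omega
        have h4 : ((u + 1 : ℕ) : ℝ) ^ 1000 + 1 ≤ (2 * (u : ℝ)) ^ 1000 := by exact_mod_cast h3
        linarith
      have hZu : 2 * (2 : ℝ) ^ (u ^ 1000) ≤ Z := by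
        have h1 : ((u ^ 1000 + 1 : ℕ) : ℝ) ≤ Real.logb 2 Z := by push_cast; exact hu1
        rw [Real.le_logb_iff_rpow_le (by norm_num) hZ0, Real.rpow_natCast, pow_succ] at h1
        linarith
      have hst := hstep f hf u (hUu0.trans huU) Z hZu K hKZ
      -- sizes
      have htm : (1024 : ℝ) * u ^ 990 ≤ m := by
        have h1 : (1024 : ℝ) ≤ (u : ℝ) ^ 10 := by
          calc (1024 : ℝ) = 2 ^ 10 := by norm_num
            _ ≤ (u : ℝ) ^ 10 := pow_le_pow_left₀ (by norm_num) hu2r 10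
        have h2 : (u : ℝ) ^ 10 * u ^ 990 = u ^ 1000 := by rw [← pow_add]
        have h3 : (1024 : ℝ) * u ^ 990 ≤ (u : ℝ) ^ 10 * u ^ 990 := mul_le_mul_of_nonneg_right h1 (by positivity)
        linarith
      have ht5 : (5 : ℝ) ≤ (u : ℝ) ^ 990 := by
        calc (5 : ℝ) ≤ 2 ^ 3 := by norm_num
          _ ≤ (u : ℝ) ^ 3 := pow_le_pow_left₀ (by norm_num) hu2r 3
          _ ≤ (u : ℝ) ^ 990 := pow_le_pow_right₀ (by linarith) (by norm_num)
      set T : ℝ := (u : ℝ) ^ 990 with hT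
      set δ : ℝ := C1 * (GG m * (T / 5 / m) / 1000) with hδ
      have herr : C / (u : ℝ) ^ 11 ≤ δ := GG_err hC hur hm0' hmu
      have hGm := GG_small hC10 hη0 (hm0a.trans hmm0)
      have hG0 := GG_nonneg m hm0'.le
      have hδη : δ ≤ η := by
        have h1 : T / 5 / m ≤ 1 := by
          rw [div_le_one hm0']; linarith
        have h2 : GG m * (T / 5 / m) ≤ GG m * 1 := mul_le_mul_of_nonneg_left h1 hG0
        have h3 : GG m * (T / 5 / m) / 1000 ≤ GG m := by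
          have h4 : 0 ≤ GG m * (T / 5 / m) := by positivity
          linarith
        calc δ ≤ C1 * GG m := mul_le_mul_of_nonneg_left h3 hC10.le
          _ ≤ η := hGm
      have hterm : ∀ c ∈ Cs (u ^ 990) (u ^ 488) (u ^ 501),
          En f K (3 ^ c / 2 ^ (u ^ 990) * Z) ≤ 2 * η - C1 * GG m - δ := by
        intro c hc
        obtain ⟨h1, h2⟩ := Cs_height hu2' hc hZ0
        rw [← hT, ← hm] at h1 h2
        set Z' : ℝ := 3 ^ c / 2 ^ (u ^ 990) * Z with hZ'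
        have hZ'0 : 0 < Z' := by positivity
        have hm'1 : (m0 : ℝ) ≤ Real.logb 2 Z' := by linarith
        have hZ'1 : (2 : ℝ) ^ m0 ≤ Z' := by
          rw [Real.le_logb_iff_rpow_le (by norm_num) hZ'0, Real.rpow_natCast] at hm'1; exact hm'1
        have hmn : m ≤ ((2 * m0 + (n + 1) : ℕ) : ℝ) := by
          rw [hm, Real.logb_le_iff_le_rpow (by norm_num) hZ0, Real.rpow_natCast]; exact hZ2
        have hZ'2 : Z' ≤ 2 ^ (2 * m0 + n) := by
          have h3 : Real.logb 2 Z' ≤ ((2 * m0 + n : ℕ) : ℝ) := by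
            push_cast at hmn ⊢
            linarith
          rw [Real.logb_le_iff_le_rpow (by norm_num) hZ'0, Real.rpow_natCast] at h3; exact h3
        have hZ'Z : Z' ≤ Z := by
          have h4 : Real.logb 2 Z' ≤ Real.logb 2 Z := by rw [← hm]; linarith
          exact (Real.logb_le_logb (by norm_num) hZ'0 hZ0).1 h4
        have hK' : κ * Real.log Z' ≤ K := by
          have h4 := Real.log_le_log hZ'0 hZ'Z
          have h5 := mul_le_mul_of_nonneg_left h4 hκ.le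
          linarith
        have h6 := ih Z' hZ'1 hZ'2 hK'
        have h7 := GG_step (m := m) (m' := Real.logb 2 Z') (s := T / 5) (by linarith) (by linarith)
          (by linarith) h2
        have h8 := mul_le_mul_of_nonneg_left h7 hC10.le
        have h9 : C1 * (GG m + GG m * (T / 5 / m) / 1000) = C1 * GG m + δ := by rw [hδ]; ring
        linarith
      have hpos : 0 ≤ 2 * η - C1 * GG m - δ := by linarith
      have hsum : ∑ c ∈ Cs (u ^ 990) (u ^ 488) (u ^ 501), pc d (u ^ 990) (u ^ 488) c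
          * En f K (3 ^ c / 2 ^ (u ^ 990) * Z) ≤ 2 * η - C1 * GG m - δ := by
        calc ∑ c ∈ Cs (u ^ 990) (u ^ 488) (u ^ 501), pc d (u ^ 990) (u ^ 488) c
              * En f K (3 ^ c / 2 ^ (u ^ 990) * Z)
            ≤ ∑ c ∈ Cs (u ^ 990) (u ^ 488) (u ^ 501), pc d (u ^ 990) (u ^ 488) c * (2 * η - C1 * GG m - δ) :=
              sum_le_sum fun c hc => mul_le_mul_of_nonneg_left (hterm c hc) (stp_pc_nonneg _ _ _ _)
          _ = (∑ c ∈ Cs (u ^ 990) (u ^ 488) (u ^ 501), pc d (u ^ 990) (u ^ 488) c) * (2 * η - C1 * GG m - δ) := by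
              rw [sum_mul]
          _ ≤ 1 * (2 * η - C1 * GG m - δ) := by
              apply mul_le_mul_of_nonneg_right _ hpos
              exact stp_pc_sum d (Nat.one_le_pow _ _ (by omega)) _
          _ = _ := one_mul _
      linarith
  -- conclusion
  refine ⟨max (2 ^ m0) (Real.exp (K0 / κ)), le_trans (one_le_pow₀ (by norm_num)) (le_max_left _ _), ?_⟩
  intro Z hZ K hK
  have hZ1 : (2 : ℝ) ^ m0 ≤ Z := le_trans (le_max_left _ _) hZ
  have hZ2 : Real.exp (K0 / κ) ≤ Z := le_trans (le_max_right _ _) hZ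
  have hZ0 : 0 < Z := lt_of_lt_of_le (by positivity) hZ1
  have hKK : K0 ≤ K := by
    have h1 : (K0 : ℝ) / κ ≤ Real.log Z := by
      rw [Real.le_log_iff_exp_le hZ0]; exact hZ2
    rw [div_le_iff₀ hκ] at h1
    have : (K0 : ℝ) ≤ K := by linarith
    exact_mod_cast this
  obtain ⟨n, hn⟩ := pow_unbounded_of_one_lt Z (show (1 : ℝ) < 2 by norm_num)
  have hn2 : Z ≤ 2 ^ (2 * m0 + n) := hn.le.trans (pow_le_pow_right₀ (by norm_num) (by omega))
  have hfin := hclaim K hKK n Z hZ1 hn2 hK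
  have hmZ : (m0 : ℝ) ≤ Real.logb 2 Z := by
    rw [Real.le_logb_iff_rpow_le (by norm_num) hZ0, Real.rpow_natCast]; exact hZ1
  have hG0 := GG_nonneg (Real.logb 2 Z) (by linarith)
  have : 0 ≤ C1 * GG (Real.logb 2 Z) := mul_nonneg hC10.le hG0
  linarith

end Pool.Agent.KS6_24.LN
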