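import Mathlib
import Pool.Agent.KS6_24.LN.Defs

/-! EXCEPTIONAL EXPONENTS. -/

set_option autoImplicit false

namespace Pool.Agent.KS6_24.LN

open Pool.Agent.H499R2.CO Pool.Agent.Y965.SI Finset

/-- two bad exponents at a distance `< L` have a distance `≤ a` -/
theorem exc_pair {R0 R : ℝ} {a L : ℕ} (hR0 : 1 ≤ R0) (ha : 3 * R0 ^ 2 < 3 ^ (a + 1)) (hR : 40 * R0 * 3 ^ L ≤ R)
    {e D j j' : ℕ} (hDL : D < L)
    (h1 : 1 / 2 ≤ (3 : ℝ) ^ e / 2 ^ j) (h2 : (3 : ℝ) ^ e / 2 ^ j ≤ 2) (hB : Bad R0 R ((3 : ℝ) ^ e / 2 ^ j))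
    (h1' : 1 / 2 ≤ (3 : ℝ) ^ (e + D) / 2 ^ j') (h2' : (3 : ℝ) ^ (e + D) / 2 ^ j' ≤ 2)
    (hB' : Bad R0 R ((3 : ℝ) ^ (e + D) / 2 ^ j')) : D ≤ a := by
  rcases Nat.eq_zero_or_pos D with hD | hD
  · omega
  obtain ⟨r, p, hr1, hrR, hp⟩ := hB
  obtain ⟨r', p', hr1', hrR', hp'⟩ := hB'
  have h3L : (3 : ℝ) ≤ 3 ^ L := by
    have : (3 : ℝ) ^ 1 ≤ 3 ^ L := pow_le_pow_right₀ (by norm_num) (by omega)
    simpa using this
  have hRpos : 120 ≤ R := by nlinarith
  have hR1 : 1 / R ≤ 1 / 120 := one_div_le_one_div_of_le (by norm_num) hRpos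
  have hR0' : 0 < 1 / R := by positivity
  have hr : (1 : ℝ) ≤ r := by exact_mod_cast hr1
  have hr' : (1 : ℝ) ≤ r' := by exact_mod_cast hr1'
  have hjj : j ≤ j' := by
    by_contra hcon
    push Not at hcon
    have h5 : (2 : ℝ) * 2 ^ j' ≤ 2 ^ j := by
      have : (2 : ℝ) ^ (j' + 1) ≤ 2 ^ j := pow_le_pow_right₀ (by norm_num) (by omega)
      rw [pow_succ] at this; linarith
    rw [div_le_iff₀ (by positivity), pow_add] at h2'
    rw [le_div_iff₀ (by positivity)] at h1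
    have h6 : (3 : ℝ) ≤ 3 ^ D := by
      have : (3 : ℝ) ^ 1 ≤ 3 ^ D := pow_le_pow_right₀ (by norm_num) (by omega)
      simpa using this
    have h7 : (0 : ℝ) < 3 ^ e := by positivity
    have h8 : (0 : ℝ) < 2 ^ j' := by positivity
    nlinarith
  obtain ⟨q, rfl⟩ := Nat.exists_eq_add_of_le hjj
  set x : ℝ := (3 : ℝ) ^ e / 2 ^ j with hx
  set y : ℝ := (3 : ℝ) ^ (e + D) / 2 ^ (j + q) with hy
  have hxy : (2 : ℝ) ^ q * y = 3 ^ D * x := by
    rw [hx, hy, pow_add, pow_add]; field_simp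
  have hq : (2 : ℝ) ^ q ≤ 4 * 3 ^ D := by
    have h7 : (0 : ℝ) < 3 ^ D := by positivity
    have h8 : (0 : ℝ) < 2 ^ q := by positivity
    nlinarith
  have hid : (2 : ℝ) ^ q * r * p' - 3 ^ D * r' * p = 2 ^ q * r * (p' - r' * y) + 3 ^ D * r' * (r * x - p) := by
    linear_combination (r : ℝ) * r' * hxy
  have habs : |(2 : ℝ) ^ q * r * p' - 3 ^ D * r' * p| < 1 := by
    rw [hid]
    have h3DL : (3 : ℝ) ^ D ≤ 3 ^ L := pow_le_pow_right₀ (by norm_num) hDL.le
    have e1 : |(2 : ℝ) ^ q * r * (p' - r' * y)| ≤ 4 * 3 ^ L * R0 * (1 / R) := by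
      rw [abs_mul, abs_of_pos (by positivity : (0 : ℝ) < 2 ^ q * r), abs_sub_comm]
      have : (2 : ℝ) ^ q * r ≤ 4 * 3 ^ L * R0 := by
        apply mul_le_mul (by linarith) hrR.le (by positivity) (by positivity)
      exact mul_le_mul this hp' (abs_nonneg _) (by positivity)
    have e2 : |(3 : ℝ) ^ D * r' * (r * x - p)| ≤ 3 ^ L * R0 * (1 / R) := by
      rw [abs_mul, abs_of_pos (by positivity : (0 : ℝ) < 3 ^ D * r')]
      have : (3 : ℝ) ^ D * r' ≤ 3 ^ L * R0 := mul_le_mul h3DL hrR'.le (by positivity) (by positivity)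
      exact mul_le_mul this hp (abs_nonneg _) (by positivity)
    have e3 : R0 * 3 ^ L * (1 / R) ≤ 1 / 40 := by
      rw [mul_one_div, div_le_div_iff₀ (by linarith) (by norm_num)]; linarith
    calc |(2 : ℝ) ^ q * r * (p' - r' * y) + 3 ^ D * r' * (r * x - p)|
        ≤ |(2 : ℝ) ^ q * r * (p' - r' * y)| + |3 ^ D * r' * (r * x - p)| := abs_add_le _ _
      _ ≤ 4 * 3 ^ L * R0 * (1 / R) + 3 ^ L * R0 * (1 / R) := add_le_add e1 e2
      _ = 5 * (R0 * 3 ^ L * (1 / R)) := by ring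
      _ < 1 := by linarith
  have hint : (2 : ℤ) ^ q * r * p' - 3 ^ D * r' * p = 0 := by
    have : |((2 : ℤ) ^ q * r * p' - 3 ^ D * r' * p : ℤ)| < 1 := by
      have h9 : ((|((2 : ℤ) ^ q * r * p' - 3 ^ D * r' * p : ℤ)| : ℤ) : ℝ) < 1 := by
        push_cast
        exact habs
      exact_mod_cast h9
    exact Int.abs_lt_one_iff.1 this
  have hnat : 2 ^ q * (r * p') = 3 ^ D * (r' * p) := by
    have : (2 : ℤ) ^ q * (r * p') = 3 ^ D * (r' * p) := by linarith
    exact_mod_cast this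
  have hdvd : 3 ^ D ∣ r * p' := by
    have hc : Nat.Coprime (3 ^ D) (2 ^ q) := Nat.Coprime.pow _ _ (by norm_num)
    exact hc.dvd_of_dvd_mul_left ⟨r' * p, hnat⟩
  rw [abs_le] at hp'
  have hp'pos : 0 < p' := by
    have : (0 : ℝ) < p' := by nlinarith [hp'.2]
    exact_mod_cast this
  have hle : 3 ^ D ≤ r * p' := Nat.le_of_dvd (by positivity) hdvd
  have hle' : (3 : ℝ) ^ D ≤ r * p' := by exact_mod_cast hle
  have hp'up : (p' : ℝ) ≤ 3 * R0 := by nlinarith [hp'.1]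
  have hlt : (3 : ℝ) ^ D < 3 ^ (a + 1) := by
    have : (r : ℝ) * p' ≤ R0 * (3 * R0) := mul_le_mul hrR.le hp'up (by positivity) (by linarith)
    nlinarith
  have := (pow_lt_pow_iff_right₀ (by norm_num : (1 : ℝ) < 3)).1 hlt
  omega

theorem card_le_of_close {F : Finset ℕ} {a : ℕ} (h : ∀ x ∈ F, ∀ y ∈ F, x ≤ y → y - x ≤ a) : #F ≤ a + 1 := by
  rcases F.eq_empty_or_nonempty with rfl | hne
  · simp
  · set m := F.min' hne with hm
    have hsub : F ⊆ Icc m (m + a) := by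
      intro x hx
      rw [mem_Icc]
      have h1 : m ≤ x := F.min'_le x hx
      have h2 := h m (F.min'_mem hne) x hx h1
      omega
    have := card_le_card hsub
    rw [Nat.card_Icc] at this
    omega

theorem exc : S_EXC := by
  classical
  intro R0 R a L K hR0 ha hR hL E hE hbad
  have hmaps : ∀ e ∈ E, e / L ∈ range (K / L + 1) := by
    intro e he
    have h1 : e < K := mem_range.1 (hE he)
    rw [mem_range]
    have := Nat.div_le_div_right (c := L) h1.le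
    omega
  rw [card_eq_sum_card_fiberwise hmaps]
  calc ∑ b ∈ range (K / L + 1), #{e ∈ E | e / L = b} ≤ ∑ b ∈ range (K / L + 1), (a + 1) := by
        apply sum_le_sum
        intro b _
        apply card_le_of_close
        intro x hx y hy hxy
        rw [mem_filter] at hx hy
        obtain ⟨D, rfl⟩ := Nat.exists_eq_add_of_le hxy
        rw [Nat.add_sub_cancel_left]
        have hDL : D < L := by
          have h1 := Nat.div_add_mod x L
          have h2 := Nat.div_add_mod (x + D) L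
          have h3 := Nat.mod_lt (x + D) (show 0 < L by omega)
          rw [hx.2] at h1
          rw [hy.2] at h2
          omega
        obtain ⟨j, h1, h2, h3⟩ := hbad x hx.1
        obtain ⟨j', h1', h2', h3'⟩ := hbad (x + D) hy.1
        exact exc_pair hR0 ha hR hDL h1 h2 h3 h1' h2' h3'
    _ = (K / L + 1) * (a + 1) := by rw [sum_const, card_range, smul_eq_mul]

end Pool.Agent.KS6_24.LN
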