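import Mathlib
import Pool.Agent.KS6_24.LN.A
import Pool.Agent.KS6_24.LN.CI

/-! Job IND (helper56): joint equidistribution of `y` and `lam * y`. The means over the unit intervals of
`g (lam * y)` are Lipschitz functions, so that no jumps have to be counted. -/

set_option autoImplicit false

namespace Pool.Agent.KS6_24.LN

open Finset MeasureTheory

/-- An affine map with slope prime to `r` permutes the classes modulo `r`. -/
theorem sum_affine_nat {r : ℕ} (hr : 1 ≤ r) {p : ℕ} (hpr : Nat.Coprime p r) (l : ℤ) (Φ : ℤ → ℝ)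
    (hΦ : ∀ x m : ℤ, Φ (x + m * r) = Φ x) :
    ∑ n ∈ range r, Φ (p * (n : ℕ) + l) = ∑ n ∈ range r, Φ (n : ℕ) := by
  have hN : (0 : ℤ) < r := by exact_mod_cast hr
  set e : ℕ → ℕ := fun u => ((p * u + l) % r).toNat with he
  have he' : ∀ u : ℕ, ((e u : ℕ) : ℤ) = (p * u + l) % r := by
    intro u
    rw [he]
    exact Int.toNat_of_nonneg (Int.emod_nonneg _ hN.ne')
  have hmaps : ∀ u ∈ range r, e u ∈ range r := by
    intro u _
    rw [mem_range]
    have := Int.emod_lt_of_pos (p * u + l) hN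
    rw [← he'] at this
    exact_mod_cast this
  have hcop : IsCoprime (r : ℤ) (p : ℤ) := (Nat.isCoprime_iff_coprime.2 hpr).symm
  have hinj : Set.InjOn e (range r : Finset ℕ) := by
    intro u hu u' hu' h
    rw [mem_coe, mem_range] at hu hu'
    have h1 : ((p : ℤ) * u + l) % r = (p * u' + l) % r := by rw [← he', ← he', h]
    have h2 : (r : ℤ) ∣ (p * u + l) - (p * u' + l) := Int.ModEq.dvd (Int.ModEq.symm h1)
    have h3 : (r : ℤ) ∣ p * ((u : ℤ) - u') := by
      have e : ((p : ℤ) * u + l) - (p * u' + l) = p * ((u : ℤ) - u') := by ring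
      rwa [e] at h2
    have h4 : (r : ℤ) ∣ (u : ℤ) - u' := hcop.dvd_of_dvd_mul_left h3
    have hu1 : (u : ℤ) < r := by exact_mod_cast hu
    have hu2 : (u' : ℤ) < r := by exact_mod_cast hu'
    have h5 : (u : ℤ) - u' = 0 := by
      apply Int.eq_zero_of_abs_lt_dvd h4
      rw [abs_lt]; constructor <;> omega
    omega
  have himg : (range r).image e = range r := by
    apply eq_of_subset_of_card_le
    · intro y hy
      rw [mem_image] at hy
      obtain ⟨u, hu, rfl⟩ := hy
      exact hmaps u hu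
    · rw [card_image_of_injOn hinj]
  have hPe : ∀ u : ℕ, Φ (p * u + l) = Φ (e u) := by
    intro u
    rw [he']
    have h := hΦ (((p : ℤ) * u + l) % r) ((p * u + l) / r)
    rw [← h]
    congr 1
    have := Int.emod_add_mul_ediv ((p : ℤ) * u + l) r
    rw [mul_comm (((p : ℤ) * u + l) / r)]
    exact this.symm
  calc ∑ u ∈ range r, Φ (p * u + l) = ∑ u ∈ range r, Φ (e u) :=
        sum_congr rfl (fun u _ => hPe u)
    _ = ∑ y ∈ (range r).image e, Φ (y : ℕ) := (sum_image (f := fun y : ℕ => Φ (y : ℤ)) hinj).symm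
    _ = ∑ u ∈ range r, Φ u := by rw [himg]

/-- almost equally spaced points see the same mean of a periodic Lipschitz function -/
theorem equi {H : ℝ → ℝ} {P : ℝ} (hP : 0 < P) (hper : ∀ (w : ℝ) (m : ℤ), H (w + m * P) = H w) {L : ℝ}
    (hL : 0 ≤ L) (hLip : ∀ w w', |H w - H w'| ≤ L * |w - w'|) {p r : ℕ} (hr : 1 ≤ r)
    (hpr : Nat.Coprime p r) {R lam : ℝ} (hR : 0 < R) (hlam : |lam - p / r| ≤ 1 / (r * R)) (w0 : ℝ) :
    |∑ n ∈ range r, H (w0 + lam * (P * n)) - ∑ n ∈ range r, H (P * n / r)| ≤ L * P * (r / R + 1) := by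
  have hr0 : (0 : ℝ) < r := by exact_mod_cast hr
  set l : ℤ := ⌊w0 * r / P⌋ with hl
  set δ : ℝ := w0 - P * l / r with hδ
  have hl1 : (l : ℝ) ≤ w0 * r / P := Int.floor_le _
  have hl2 : w0 * r / P < l + 1 := Int.lt_floor_add_one _
  have hδ0 : 0 ≤ δ := by
    rw [le_div_iff₀ hP] at hl1
    rw [hδ, sub_nonneg, div_le_iff₀ hr0]; linarith
  have hδ1 : δ ≤ P / r := by
    rw [div_lt_iff₀ hP] at hl2
    rw [hδ, sub_le_iff_le_add, ← add_div, le_div_iff₀ hr0]; linarith
  have h1 : |∑ n ∈ range r, H (w0 + lam * (P * n)) - ∑ n ∈ range r, H (w0 + P * (p * n) / r)|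
      ≤ r * (L * (P / R)) := by
    rw [← sum_sub_distrib]
    refine (abs_sum_le_sum_abs _ _).trans ?_
    calc ∑ n ∈ range r, |H (w0 + lam * (P * n)) - H (w0 + P * (p * n) / r)|
        ≤ ∑ n ∈ range r, L * (P / R) := by
          apply sum_le_sum
          intro n hn
          rw [mem_range] at hn
          refine (hLip _ _).trans (mul_le_mul_of_nonneg_left ?_ hL)
          have e : w0 + lam * (P * n) - (w0 + P * (p * n) / r) = (lam - p / r) * (P * n) := by
            field_simp; ring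
          rw [e, abs_mul, abs_of_nonneg (show (0 : ℝ) ≤ P * n by positivity)]
          have hn' : (n : ℝ) ≤ r := by exact_mod_cast hn.le
          calc |lam - p / r| * (P * n) ≤ 1 / (r * R) * (P * r) := by
                apply mul_le_mul hlam _ (by positivity) (by positivity)
                exact mul_le_mul_of_nonneg_left hn' hP.le
            _ = P / R := by field_simp
      _ = r * (L * (P / R)) := by rw [sum_const, card_range, nsmul_eq_mul]
  have h2 : ∑ n ∈ range r, H (w0 + P * (p * n) / r) = ∑ n ∈ range r, H (δ + P * n / r) := by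
    have h3 := sum_affine_nat hr hpr l (fun k : ℤ => H (δ + P * k / r)) (by
      intro x m
      have e : δ + P * ((x + m * r : ℤ) : ℝ) / r = (δ + P * x / r) + m * P := by
        push_cast; field_simp; ring
      rw [e, hper])
    simp only [Int.cast_natCast] at h3
    rw [← h3]
    apply sum_congr rfl
    intro n _
    congr 1
    rw [hδ]; push_cast; field_simp; ring
  have h4 : |∑ n ∈ range r, H (δ + P * n / r) - ∑ n ∈ range r, H (P * n / r)| ≤ r * (L * (P / r)) := by
    rw [← sum_sub_distrib]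
    refine (abs_sum_le_sum_abs _ _).trans ?_
    calc ∑ n ∈ range r, |H (δ + P * n / r) - H (P * n / r)|
        ≤ ∑ n ∈ range r, L * (P / r) := by
          apply sum_le_sum
          intro n _
          refine (hLip _ _).trans (mul_le_mul_of_nonneg_left ?_ hL)
          rw [add_sub_cancel_right, abs_of_nonneg hδ0]; exact hδ1
      _ = r * (L * (P / r)) := by rw [sum_const, card_range, nsmul_eq_mul]
  rw [h2] at h1
  have h5 := abs_sub_le (∑ n ∈ range r, H (w0 + lam * (P * n))) (∑ n ∈ range r, H (δ + P * n / r))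
    (∑ n ∈ range r, H (P * n / r))
  have h6 : (r : ℝ) * (L * (P / R)) + r * (L * (P / r)) = L * P * (r / R + 1) := by field_simp
  linarith

theorem sum_range_blocks (N r : ℕ) (F : ℕ → ℝ) :
    ∑ k ∈ range (r * N), F k = ∑ n ∈ range r, ∑ s ∈ range N, F (n * N + s) := by
  induction r with
  | zero => simp
  | succ r ih => rw [Nat.succ_mul, sum_range_add, ih, sum_range_succ]

theorem ind : S_IND := by
  refine ⟨4, by norm_num, ?_⟩
  intro t p r R V lam hpr hr hrR hlam hl1 hl2 hV Ψ χ hΨ hχ hΨt hχt α β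
  have hr0 : (0 : ℝ) < r := by exact_mod_cast hr
  have hr1 : (1 : ℝ) ≤ r := by exact_mod_cast hr
  have hR : 0 < R := by linarith
  have hV0 : 0 < V := by linarith
  have hlam0 : 0 < lam := by linarith
  set g : ℝ → ℝ := fun w => χ ⌊w + α⌋ * χ ⌊w + β⌋ with hg
  have hgm : Measurable g := (meas_floor χ (fun w => w + α) (by fun_prop)).mul
    (meas_floor χ (fun w => w + β) (by fun_prop))
  have hg1 : ∀ w, |g w| ≤ 1 := by
    intro w
    rw [hg]; simp only
    rw [abs_mul]
    exact mul_le_one₀ (hχ _) (abs_nonneg _) (hχ _)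
  have hgper : ∀ (w : ℝ) (m : ℤ), g (w + m * 2 ^ t) = g w := by
    intro w m
    rw [hg]; simp only
    have e : ∀ c : ℝ, ⌊w + m * 2 ^ t + c⌋ = ⌊w + c⌋ + m * 2 ^ t := by
      intro c
      have : w + m * 2 ^ t + c = (w + c) + ((m * 2 ^ t : ℤ) : ℝ) := by push_cast; ring
      rw [this, Int.floor_add_intCast]
    rw [e, e, hχt, hχt]
  have hgii : ∀ a b : ℝ, IntervalIntegrable g volume a b := fun a b => ii_of_bdd hgm hg1 a b
  -- the smoothed function
  set H : ℝ → ℝ := fun w => ∫ θ in (0 : ℝ)..1, g (w + lam * θ) with hH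
  have hHg : ∀ w, H w = lam⁻¹ * ∫ v in w..w + lam, g v := by
    intro w
    rw [hH]; simp only
    rw [intervalIntegral.integral_comp_add_mul g hlam0.ne']
    simp [smul_eq_mul]
  have hLip : ∀ w w', |H w - H w'| ≤ 4 * |w - w'| := by
    intro w w'
    rw [hHg, hHg, ← mul_sub, intervalIntegral.integral_interval_sub_interval_comm (hgii _ _) (hgii _ _) (hgii _ _),
      abs_mul, abs_of_pos (inv_pos.2 hlam0)]
    have h1 : |∫ x in w..w', g x| ≤ 1 * |w' - w| :=
      intervalIntegral.norm_integral_le_of_norm_le_const (C := 1) (fun x _ => by rw [Real.norm_eq_abs]; exact hg1 x)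
    have h2 : |∫ x in (w + lam)..(w' + lam), g x| ≤ 1 * |w' + lam - (w + lam)| :=
      intervalIntegral.norm_integral_le_of_norm_le_const (C := 1) (fun x _ => by rw [Real.norm_eq_abs]; exact hg1 x)
    rw [show w' + lam - (w + lam) = w' - w by ring] at h2
    have h3 := abs_sub (∫ x in w..w', g x) (∫ x in (w + lam)..(w' + lam), g x)
    have h4 : lam⁻¹ ≤ 2 := by
      rw [inv_le_comm₀ hlam0 (by norm_num)]; linarith
    rw [abs_sub_comm w w']
    calc lam⁻¹ * |(∫ x in w..w', g x) - ∫ x in (w + lam)..(w' + lam), g x|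
        ≤ 2 * (2 * |w' - w|) := by
          apply mul_le_mul h4 _ (abs_nonneg _) (by norm_num)
          linarith
      _ = 4 * |w' - w| := by ring
  have hHper : ∀ (w : ℝ) (m : ℤ), H (w + m * 2 ^ t) = H w := by
    intro w m
    rw [hH]; simp only
    congr 1; funext θ
    rw [show w + m * 2 ^ t + lam * θ = (w + lam * θ) + m * 2 ^ t by ring, hgper]
  have hH1 : ∀ w, |H w| ≤ 1 := by
    intro w
    have := intervalIntegral.norm_integral_le_of_norm_le_const (a := 0) (b := 1) (C := 1)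
      (f := fun θ => g (w + lam * θ)) (fun x _ => by rw [Real.norm_eq_abs]; exact hg1 _)
    rw [Real.norm_eq_abs] at this
    simpa using this
  -- blocks
  set N : ℕ := 2 ^ t with hN
  have hNr : ((N : ℕ) : ℝ) = 2 ^ t := by rw [hN]; push_cast; rfl
  have hN1 : (1 : ℝ) ≤ 2 ^ t := one_le_pow₀ (by norm_num)
  set M : ℝ := ∑ n ∈ range r, H (2 ^ t * n / r) with hM
  have hM1 : |M| ≤ r := by
    refine (abs_sum_le_sum_abs _ _).trans ?_
    calc ∑ n ∈ range r, |H (2 ^ t * n / r)| ≤ ∑ n ∈ range r, (1 : ℝ) := sum_le_sum fun n _ => hH1 _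
      _ = r := by rw [sum_const, card_range, nsmul_eq_mul, mul_one]
  have hblock : ∀ a : ℕ, |∑ k ∈ range (r * N), Ψ ((a + k : ℕ) : ℤ) * H (lam * ((a + k : ℕ) : ℝ))|
      ≤ r * 2 ^ t * |pm t Ψ| + 4 * 2 ^ t * 2 ^ t * (r / R + 1) := by
    intro a
    rw [sum_range_blocks, sum_comm]
    have h1 : ∀ s : ℕ, ∑ n ∈ range r, Ψ ((a + (n * N + s) : ℕ) : ℤ) * H (lam * ((a + (n * N + s) : ℕ) : ℝ))
        = Ψ ((s : ℤ) + a) * ∑ n ∈ range r, H (lam * (a + s) + lam * (2 ^ t * n)) := by
      intro s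
      rw [mul_sum]
      apply sum_congr rfl
      intro n _
      have e1 : ((a + (n * N + s) : ℕ) : ℤ) = ((s : ℤ) + a) + (n : ℤ) * 2 ^ t := by
        rw [hN]; push_cast; ring
      have e2 : lam * ((a + (n * N + s) : ℕ) : ℝ) = lam * (a + s) + lam * (2 ^ t * n) := by
        push_cast; rw [hNr]; ring
      rw [e1, hΨt, e2]
    simp only [h1]
    have h2 : ∀ s : ℕ, |Ψ ((s : ℤ) + a) * ∑ n ∈ range r, H (lam * (a + s) + lam * (2 ^ t * n))
        - Ψ ((s : ℤ) + a) * M| ≤ 4 * 2 ^ t * (r / R + 1) := by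
      intro s
      rw [← mul_sub, abs_mul]
      have h3 := equi (H := H) (P := 2 ^ t) (by positivity) hHper (L := 4) (by norm_num) hLip hr hpr hR
        hlam (lam * (a + s))
      calc |Ψ ((s : ℤ) + a)| * |∑ n ∈ range r, H (lam * (a + s) + lam * (2 ^ t * n)) - M|
          ≤ 1 * (4 * 2 ^ t * (r / R + 1)) := mul_le_mul (hΨ _) h3 (abs_nonneg _) (by norm_num)
        _ = _ := one_mul _
    have h4 : |∑ s ∈ range N, Ψ ((s : ℤ) + a) * ∑ n ∈ range r, H (lam * (a + s) + lam * (2 ^ t * n))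
        - ∑ s ∈ range N, Ψ ((s : ℤ) + a) * M| ≤ 2 ^ t * (4 * 2 ^ t * (r / R + 1)) := by
      rw [← sum_sub_distrib]
      refine (abs_sum_le_sum_abs _ _).trans ?_
      calc ∑ s ∈ range N, |Ψ ((s : ℤ) + a) * ∑ n ∈ range r, H (lam * (a + s) + lam * (2 ^ t * n))
            - Ψ ((s : ℤ) + a) * M| ≤ ∑ s ∈ range N, 4 * 2 ^ t * (r / R + 1) := sum_le_sum fun s _ => h2 s
        _ = _ := by rw [sum_const, card_range, nsmul_eq_mul, hNr]
    have h5 : ∑ s ∈ range N, Ψ ((s : ℤ) + a) * M = 2 ^ t * pm t Ψ * M := by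
      rw [← sum_mul]
      congr 1
      have := pm_shift hΨt (a : ℤ)
      rw [← this]
      unfold pm
      rw [mul_div_cancel₀ _ (by positivity)]
    rw [h5] at h4
    have h6 : |2 ^ t * pm t Ψ * M| ≤ r * 2 ^ t * |pm t Ψ| := by
      rw [abs_mul, abs_mul, abs_of_pos (show (0 : ℝ) < 2 ^ t by positivity)]
      have : 2 ^ t * |pm t Ψ| * |M| ≤ 2 ^ t * |pm t Ψ| * r := mul_le_mul_of_nonneg_left hM1 (by positivity)
      linarith
    have h7 := abs_sub_abs_le_abs_sub
      (∑ s ∈ range N, Ψ ((s : ℤ) + a) * ∑ n ∈ range r, H (lam * (a + s) + lam * (2 ^ t * n)))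
      (2 ^ t * pm t Ψ * M)
    have h8 : (2 : ℝ) ^ t * (4 * 2 ^ t * (r / R + 1)) = 4 * 2 ^ t * 2 ^ t * (r / R + 1) := by ring
    linarith
  have hblocks : ∀ m a : ℕ, |∑ k ∈ range (m * (r * N)), Ψ ((a + k : ℕ) : ℤ) * H (lam * ((a + k : ℕ) : ℝ))|
      ≤ m * (r * 2 ^ t * |pm t Ψ| + 4 * 2 ^ t * 2 ^ t * (r / R + 1)) := by
    intro m a
    induction m with
    | zero => simp
    | succ m ih =>
      rw [Nat.succ_mul, sum_range_add]
      refine (abs_add_le _ _).trans ?_
      have h1 := hblock (a + m * (r * N))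
      have h2 : ∑ k ∈ range (r * N), Ψ ((a + (m * (r * N) + k) : ℕ) : ℤ)
          * H (lam * ((a + (m * (r * N) + k) : ℕ) : ℝ))
          = ∑ k ∈ range (r * N), Ψ ((a + m * (r * N) + k : ℕ) : ℤ)
          * H (lam * ((a + m * (r * N) + k : ℕ) : ℝ)) := by
        apply sum_congr rfl; intro k _; rw [add_assoc]
      rw [h2]
      have h3 : (((m + 1 : ℕ) : ℝ)) * (r * 2 ^ t * |pm t Ψ| + 4 * 2 ^ t * 2 ^ t * (r / R + 1))
          = m * (r * 2 ^ t * |pm t Ψ| + 4 * 2 ^ t * 2 ^ t * (r / R + 1))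
            + (r * 2 ^ t * |pm t Ψ| + 4 * 2 ^ t * 2 ^ t * (r / R + 1)) := by push_cast; ring
      rw [h3]
      linarith
  -- the integral
  set F : ℝ → ℝ := fun y => Ψ ⌊y⌋ * (χ ⌊lam * y + α⌋ * χ ⌊lam * y + β⌋) with hF
  have hFg : ∀ y, F y = Ψ ⌊y⌋ * g (lam * y) := fun y => rfl
  have hFm : Measurable F := (meas_floor Ψ (fun y => y) measurable_id).mul
    ((meas_floor χ (fun y => lam * y + α) (by fun_prop)).mul
      (meas_floor χ (fun y => lam * y + β) (by fun_prop)))
  have hF1 : ∀ y, |F y| ≤ 1 := by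
    intro y
    rw [hFg, abs_mul]
    exact mul_le_one₀ (hΨ _) (abs_nonneg _) (hg1 _)
  have hFii : ∀ a b : ℝ, IntervalIntegrable F volume a b := fun a b => ii_of_bdd hFm hF1 a b
  set a : ℕ := ⌊V⌋₊ with ha
  set D : ℝ := r * 2 ^ t with hD
  have hD1 : 1 ≤ D := by rw [hD]; nlinarith
  set m : ℕ := ⌊V / D⌋₊ with hm
  have hm1 : (m : ℝ) * D ≤ V := by
    have := Nat.floor_le (a := V / D) (by positivity)
    rw [← hm, le_div_iff₀ (by linarith)] at this
    exact this
  have hm2 : V ≤ m * D + D := by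
    have := Nat.lt_floor_add_one (V / D)
    rw [← hm, div_lt_iff₀ (by linarith)] at this
    linarith
  have ha1 : (a : ℝ) ≤ V := Nat.floor_le (by linarith)
  have ha2 : V < a + 1 := Nat.lt_floor_add_one V
  have hcast : ((a + m * (r * N) : ℕ) : ℝ) = a + m * D := by
    push_cast; rw [hNr, hD]
  have hsumint : ∫ y in (a : ℝ)..(a + m * D), F y
      = ∑ k ∈ range (m * (r * N)), Ψ ((a + k : ℕ) : ℤ) * H (lam * ((a + k : ℕ) : ℝ)) := by
    rw [← hcast]
    have h2 : ∫ y in (a : ℝ)..((a + m * (r * N) : ℕ) : ℝ), F y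
        = ∑ j ∈ range (m * (r * N)), ∫ y in ((a + j : ℕ) : ℝ)..((a + (j + 1) : ℕ) : ℝ), F y := by
      have := intervalIntegral.sum_integral_adjacent_intervals (f := F) (μ := volume) (n := m * (r * N))
        (a := fun j => ((a + j : ℕ) : ℝ)) (fun k _ => hFii _ _)
      simpa using this.symm
    rw [h2]
    apply sum_congr rfl
    intro j _
    have h3 : ∫ y in ((a + j : ℕ) : ℝ)..((a + (j + 1) : ℕ) : ℝ), F y
        = ∫ θ in (0 : ℝ)..1, F (((a + j : ℕ) : ℝ) + θ) := by
      rw [intervalIntegral.integral_comp_add_left (f := F)]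
      congr 1
      · simp
      · push_cast; ring
    rw [h3, hH]
    simp only
    rw [← intervalIntegral.integral_const_mul]
    apply intervalIntegral.integral_congr_Ioo_of_le zero_le_one
    intro θ hθ
    simp only
    rw [hFg]
    have e1 : ⌊((a + j : ℕ) : ℝ) + θ⌋ = ((a + j : ℕ) : ℤ) := by
      rw [Int.floor_eq_iff]; push_cast; constructor <;> linarith [hθ.1, hθ.2]
    rw [e1, mul_add]
  have hsplit : ∫ y in V..2 * V, F y = (∫ y in (a : ℝ)..(a + m * D), F y) - (∫ y in (a : ℝ)..V, F y)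
      + ∫ y in (a + m * D)..2 * V, F y := by
    have h1 := intervalIntegral.integral_add_adjacent_intervals (hFii (a : ℝ) V) (hFii V (2 * V))
    have h2 := intervalIntegral.integral_add_adjacent_intervals (hFii (a : ℝ) (a + m * D))
      (hFii (a + m * D) (2 * V))
    linarith
  have hE1 : |∫ y in (a : ℝ)..V, F y| ≤ 1 := by
    have := intervalIntegral.norm_integral_le_of_norm_le_const (a := (a : ℝ)) (b := V) (C := 1)
      (f := F) (fun x _ => by rw [Real.norm_eq_abs]; exact hF1 _)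
    rw [Real.norm_eq_abs, one_mul] at this
    refine this.trans ?_
    rw [abs_le]; constructor <;> linarith
  have hE2 : |∫ y in (a + m * D)..2 * V, F y| ≤ 1 + D := by
    have := intervalIntegral.norm_integral_le_of_norm_le_const (a := (a : ℝ) + m * D) (b := 2 * V) (C := 1)
      (f := F) (fun x _ => by rw [Real.norm_eq_abs]; exact hF1 _)
    rw [Real.norm_eq_abs, one_mul] at this
    refine this.trans ?_
    rw [abs_le]; constructor <;> linarith
  have hmain := hblocks m a
  rw [← hsumint] at hmain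
  have htot : |∫ y in V..2 * V, F y|
      ≤ m * (D * |pm t Ψ| + 4 * 2 ^ t * 2 ^ t * (r / R + 1)) + 3 * D := by
    rw [hsplit]
    have h1 := abs_add_le ((∫ y in (a : ℝ)..(a + m * D), F y) - ∫ y in (a : ℝ)..V, F y)
      (∫ y in (a + m * D)..2 * V, F y)
    have h2 := abs_sub (∫ y in (a : ℝ)..(a + m * D), F y) (∫ y in (a : ℝ)..V, F y)
    linarith
  unfold av
  rw [abs_div, abs_of_pos hV0, div_le_iff₀ hV0]
  refine htot.trans ?_
  have hm3 : (m : ℝ) * (D * |pm t Ψ|) ≤ V * |pm t Ψ| := by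
    rw [← mul_assoc]
    exact mul_le_mul_of_nonneg_right hm1 (abs_nonneg _)
  have hm4 : (m : ℝ) * (4 * 2 ^ t * 2 ^ t * (r / R + 1)) ≤ V * (4 * 2 ^ t * (1 / R + 1 / r)) := by
    have e : (m : ℝ) * (4 * 2 ^ t * 2 ^ t * (r / R + 1)) = (m * D) * (4 * 2 ^ t * (1 / R + 1 / r)) := by
      rw [hD]; field_simp
    rw [e]
    exact mul_le_mul_of_nonneg_right hm1 (by positivity)
  have e2 : (|pm t Ψ| + 4 * 2 ^ t * (1 / r + 1 / R + r / V)) * V
      = V * |pm t Ψ| + V * (4 * 2 ^ t * (1 / R + 1 / r)) + 4 * D := by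
    rw [hD]; field_simp; ring
  rw [e2]
  nlinarith

end Pool.Agent.KS6_24.LN
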