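import Mathlib
import Pool.Agent.KS6_24.LN.FinA

/-! FIN, part 1: the law of large numbers. -/

set_option autoImplicit false

namespace Pool.Agent.KS6_24.LN

open Pool.Agent.H499R2.CO Pool.Agent.Y965.SI Finset Filter Topology MeasureTheory

open Classical in
theorem AK_eq (S : Set ℤ) (δ : ℝ) {K : ℕ} (hK : 1 ≤ K) (n : ℕ) :
    ((#{i ∈ range K | ((3 ^ i * n / 2 ^ Nat.log 2 (3 ^ i) : ℕ) : ℤ) ∈ S} : ℕ) : ℝ) / K - δ
      = AK (fun x => S.indicator (fun _ => (1 : ℝ)) x - δ) K n := by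
  have hK' : (K : ℝ) ≠ 0 := by positivity
  unfold AK
  rw [sum_sub_distrib, sum_const, card_range, nsmul_eq_mul, sub_div, mul_div_cancel_left₀ _ hK', card_filter]
  congr 2
  push_cast
  apply sum_congr rfl
  intro i _
  rw [floor_lam]
  simp only [Set.indicator]
  push_cast
  rfl

/-- the averages at integers -/
theorem AK_int_mean {d : ℤ} {C : ℝ}
    (hC : ∀ f : ℤ → ℝ, InvF d f → ∀ R : ℕ, 1 ≤ R → ∀ V : ℝ, 2 ^ R ≤ V →
      ∀ (i u : ℕ) (h : ℝ), |h| ≤ 4 ^ u →
      av V (fun y => |f ⌊y⌋ - f ⌊3 ^ i * y + h⌋|) ≤ C * √ (1 + (i : ℝ) ^ 2 + u) * rho R)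
    {f : ℤ → ℝ} (hf : InvF d f) {R N K : ℕ} (hR : 1 ≤ R) (hN : 2 ^ R ≤ N) (hK : 1 ≤ K) :
    (∑ n ∈ Ico N (2 * N), |AK f K n|) / N ≤ √ (En f K N) + 2 * (C * √ 2 * rho R) := by
  have hN1 : 1 ≤ N := le_trans Nat.one_le_two_pow hN
  have hN' : (0 : ℝ) < N := by exact_mod_cast hN1
  have hV : (2 : ℝ) ^ R ≤ N := by exact_mod_cast hN
  set g : ℤ → ℝ := fun n => |AK f K (n : ℝ)| with hg
  have hg1 : ∀ x, |g x| ≤ 1 := fun x => by rw [hg, abs_abs]; exact AK_abs hf.1 K _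
  have h1 := av_floor hg1 hN1
  have h2 : (∑ n ∈ Ico N (2 * N), |AK f K n|) / N = av N (fun y => g ⌊y⌋) := by
    rw [h1]; simp only [hg, Int.cast_natCast]
  rw [h2]
  have hb := AK_bd hf.1 K
  have hb2 : Bd (1 / K * ∑ D ∈ range K, 4) (fun y => (∑ D ∈ range K, dj f (lam D * y)) / K) := by
    have h3 : ∀ D ∈ range K, Bd 4 (fun y => dj f (lam D * y)) := fun D _ => (dj_bd hf.1).comp (by fun_prop)
    have h4 := (Bd.sum h3).cmul (1 / K : ℝ)
    rw [abs_of_nonneg (by positivity : (0 : ℝ) ≤ 1 / K)] at h4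
    have e : (fun y => (∑ D ∈ range K, dj f (lam D * y)) / K)
        = fun y => (1 / K : ℝ) * ∑ D ∈ range K, dj f (lam D * y) := by funext y; ring
    rw [e]; exact h4
  calc av N (fun y => g ⌊y⌋) ≤ av N (fun y => |AK f K y| + (∑ D ∈ range K, dj f (lam D * y)) / K) := by
        apply av_mono hN' (Bd.fl hg1) (hb.abs.add hb2)
        intro y _ _
        have := AK_floor_diff f K y
        have h3 := abs_sub_abs_le_abs_sub (AK f K (⌊y⌋ : ℝ)) (AK f K y)
        simp only [hg]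
        linarith
    _ = av N (fun y => |AK f K y|) + av N (fun y => (∑ D ∈ range K, dj f (lam D * y)) / K) :=
        av_add _ hb.abs hb2
    _ ≤ √ (En f K N) + 2 * (C * √ 2 * rho R) :=
        add_le_add (av_abs_le_sqrt hN' hb) (av_dj_sum hC hf hR hV hK)

theorem lln {d : ℤ} (hE : S_EN d) (hCI : S_CI d) : S_LLN d := by
  classical
  intro S hS δ h0 h1 hmz c ε hc hε
  obtain ⟨C, hCpos, hC⟩ := hCI
  set f : ℤ → ℝ := fun x => S.indicator (fun _ => (1 : ℝ)) x - δ with hfdef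
  have hf : InvF d f := invF_ind hS h0 h1
  apply negl_of_dyadic
  intro η hη
  obtain ⟨Z0, hZ0, hEN⟩ := hE f hf hmz (c / 2) ((η * ε / 8) ^ 2) (by positivity) (by positivity)
  have hlog : Tendsto (fun N : ℕ => c * Real.log N) atTop atTop :=
    (Real.tendsto_log_atTop.comp tendsto_natCast_atTop_atTop).const_mul_atTop hc
  have hrho : Tendsto (fun N : ℕ => 2 * (C * √ 2 * rho (Nat.log 2 N))) atTop (𝓝 0) := by
    have h2 : Tendsto (fun N : ℕ => Nat.log 2 N) atTop atTop := by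
      apply tendsto_atTop.2
      intro b
      filter_upwards [eventually_ge_atTop (2 ^ b)] with N hN
      exact (Nat.le_log_iff_pow_le (by norm_num) (by have := Nat.one_le_two_pow (n := b); omega)).2 hN
    have := ((rho_tendsto.comp h2).const_mul (C * √ 2)).const_mul 2
    rw [mul_zero, mul_zero] at this
    exact this
  have hev : ∀ᶠ N : ℕ in atTop, (#{n ∈ Ico N (2 * N) | ε < |((#{i ∈ range ⌊c * Real.log n⌋₊ |
      ((3 ^ i * n / 2 ^ Nat.log 2 (3 ^ i) : ℕ) : ℤ) ∈ S} : ℕ) : ℝ) / ⌊c * Real.log n⌋₊ - δ|} : ℝ) ≤ η * N := by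
    filter_upwards [eventually_ge_atTop 2, eventually_ge_atTop ⌈Z0⌉₊,
      hlog.eventually_ge_atTop (2 + 4 * (c * Real.log 2 + 1) / ε),
      hrho.eventually (eventually_le_nhds (show (0 : ℝ) < η * ε / 8 by positivity))] with N hN2 hNZ hNl hNr
    have hl2 : 0 < Real.log 2 := Real.log_pos (by norm_num)
    have hN' : (0 : ℝ) < N := by positivity
    have hq : 0 < 4 * (c * Real.log 2 + 1) / ε := by positivity
    set K := ⌊c * Real.log N⌋₊ with hK
    have hKle : (K : ℝ) ≤ c * Real.log N := Nat.floor_le (by linarith)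
    have hKlt : c * Real.log N < K + 1 := Nat.lt_floor_add_one _
    have hK1' : (1 : ℝ) < K := by linarith
    have hK1 : 1 ≤ K := by exact_mod_cast hK1'.le
    have hZN : Z0 ≤ N := by
      have := Nat.le_ceil Z0
      have h3 : ((⌈Z0⌉₊ : ℕ) : ℝ) ≤ N := by exact_mod_cast hNZ
      linarith
    have hen := hEN N hZN K (by linarith)
    have hlogN : 2 ^ Nat.log 2 N ≤ N := Nat.pow_log_le_self 2 (by omega)
    have hR : 1 ≤ Nat.log 2 N := (Nat.le_log_iff_pow_le (by norm_num) (by omega)).2 (by simpa using hN2)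
    have hmean := AK_int_mean hC hf hR hlogN hK1
    have hsq : √ (En f K N) ≤ η * ε / 8 := by
      have := Real.sqrt_le_sqrt hen
      rwa [Real.sqrt_sq (by positivity)] at this
    have hsum : ∑ n ∈ Ico N (2 * N), |AK f K n| ≤ η * ε / 4 * N := by
      rw [div_le_iff₀ hN'] at hmean
      refine hmean.trans ?_
      gcongr
      linarith
    have hinc : ∀ n ∈ Ico N (2 * N), ε < |((#{i ∈ range ⌊c * Real.log n⌋₊ |
        ((3 ^ i * n / 2 ^ Nat.log 2 (3 ^ i) : ℕ) : ℤ) ∈ S} : ℕ) : ℝ) / ⌊c * Real.log n⌋₊ - δ| →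
        ε / 2 < |AK f K n| := by
      intro n hn hlt
      rw [mem_Ico] at hn
      have hNn : (N : ℝ) ≤ n := by exact_mod_cast hn.1
      have hnN : (n : ℝ) ≤ 2 * N := by exact_mod_cast hn.2.le
      have hn0 : (0 : ℝ) < n := by linarith
      have hl1 : Real.log N ≤ Real.log n := Real.log_le_log hN' hNn
      have hl3 : Real.log n ≤ Real.log 2 + Real.log N := by
        rw [← Real.log_mul (by norm_num) hN'.ne']
        exact Real.log_le_log hn0 hnN
      set L := ⌊c * Real.log n⌋₊ with hL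
      have hKL : K ≤ L := Nat.floor_le_floor (by gcongr)
      have hLle : (L : ℝ) ≤ c * Real.log n := Nat.floor_le (by nlinarith)
      rw [AK_eq S δ (hK1.trans hKL) n] at hlt
      have hch := AK_change hf.1 hK1 hKL (n : ℝ)
      have hLK : ((L - K : ℕ) : ℝ) ≤ c * Real.log 2 + 1 := by
        rw [Nat.cast_sub hKL]
        nlinarith
      have h5 : 2 * ((L - K : ℕ) : ℝ) / K ≤ ε / 2 := by
        rw [div_le_iff₀ (by linarith)]
        have h6 : 4 * (c * Real.log 2 + 1) / ε ≤ K := by linarith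
        rw [div_le_iff₀ hε] at h6
        linarith
      have h7 := abs_sub_abs_le_abs_sub (AK f L n) (AK f K n)
      have h8 : ε < |AK f L n| := hlt
      linarith
    have hcard : (ε / 2) * (#{n ∈ Ico N (2 * N) | ε < |((#{i ∈ range ⌊c * Real.log n⌋₊ |
        ((3 ^ i * n / 2 ^ Nat.log 2 (3 ^ i) : ℕ) : ℤ) ∈ S} : ℕ) : ℝ) / ⌊c * Real.log n⌋₊ - δ|} : ℝ)
        ≤ η * ε / 4 * N := by
      refine le_trans ?_ hsum
      rw [mul_comm, ← nsmul_eq_mul, ← sum_const]
      calc ∑ n ∈ Ico N (2 * N) with ε < |((#{i ∈ range ⌊c * Real.log n⌋₊ |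
          ((3 ^ i * n / 2 ^ Nat.log 2 (3 ^ i) : ℕ) : ℤ) ∈ S} : ℕ) : ℝ) / ⌊c * Real.log n⌋₊ - δ|, ε / 2
          ≤ ∑ n ∈ Ico N (2 * N) with ε < |((#{i ∈ range ⌊c * Real.log n⌋₊ |
          ((3 ^ i * n / 2 ^ Nat.log 2 (3 ^ i) : ℕ) : ℤ) ∈ S} : ℕ) : ℝ) / ⌊c * Real.log n⌋₊ - δ|, |AK f K n| := by
            apply sum_le_sum
            intro n hn
            rw [mem_filter] at hn
            exact (hinc n hn.1 hn.2).le
        _ ≤ ∑ n ∈ Ico N (2 * N), |AK f K n| :=
            sum_le_sum_of_subset_of_nonneg (filter_subset _ _) fun _ _ _ => abs_nonneg _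
    have h9 : (0 : ℝ) ≤ η * N := by positivity
    nlinarith
  exact eventually_atTop.1 hev

end Pool.Agent.KS6_24.LN
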