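import Mathlib
import Pool.Agent.KS6_24.LN.Co2
import Pool.Agent.KS6_24.LN.CI
import Pool.Agent.KS6_24.LN.IND

/-! Error terms of the pair lemma. -/

set_option autoImplicit false

namespace Pool.Agent.KS6_24.LN

open Pool.Agent.H499R2.CO Pool.Agent.Y965.SI Finset

theorem log3_lt : Real.log 3 < 1.1 := by
  have h1 : Real.log 3 < Real.log (Real.exp 1.1) := by
    apply Real.log_lt_log (by norm_num)
    have : (2.7182818283 : ℝ) ^ 11 < Real.exp 1 ^ 11 := pow_lt_pow_left₀ Real.exp_one_gt_d9 (by norm_num) (by norm_num)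
    have e : Real.exp 1 ^ 11 = Real.exp 1.1 ^ 10 := by
      rw [← Real.exp_nat_mul, ← Real.exp_nat_mul]; norm_num
    by_contra hcon
    push Not at hcon
    have h4 : Real.exp 1.1 ^ 10 ≤ 3 ^ 10 := pow_le_pow_left₀ (Real.exp_pos _).le hcon 10
    rw [e] at this
    norm_num at this h4
    linarith
  rwa [Real.log_exp] at h1

theorem log3_gt : 1.09 < Real.log 3 := by
  have h1 : Real.log (Real.exp 1.09) < Real.log 3 := by
    apply Real.log_lt_log (Real.exp_pos _)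
    have : Real.exp 1 ^ 109 < (2.7182818286 : ℝ) ^ 109 := pow_lt_pow_left₀ Real.exp_one_lt_d9 (Real.exp_pos _).le (by norm_num)
    have e : Real.exp 1 ^ 109 = Real.exp 1.09 ^ 100 := by
      rw [← Real.exp_nat_mul, ← Real.exp_nat_mul]; norm_num
    by_contra hcon
    push Not at hcon
    have h4 : (3 : ℝ) ^ 100 ≤ Real.exp 1.09 ^ 100 := pow_le_pow_left₀ (by norm_num) hcon 100
    rw [e] at this
    norm_num at this h4
    linarith
  rwa [Real.log_exp] at h1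

theorem gm_bounds : 0 < gm ∧ gm < 0.15 := by
  unfold gm
  have h2 := Real.log_two_gt_d9
  have h2' := Real.log_two_lt_d9
  have h3 := log3_lt
  have h3' := log3_gt
  constructor <;> linarith

theorem Cs_card (t g B : ℕ) : #(Cs t g B) ≤ 2 * B + 3 * g + 2 := by
  have hsub : Cs t g B ⊆ Icc (t / 2 - B) (t / 2 + B + 3 * g + 1) := by
    intro c hc
    unfold Cs at hc
    rw [mem_filter, mem_range] at hc
    rw [mem_Icc]; omega
  refine (card_le_card hsub).trans ?_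
  rw [Nat.card_Icc]; omega

/-- `rho (u^999)` -/
theorem rho_u {u : ℕ} (hu : 2 ≤ u) : rho (u ^ 999) ≤ 32 / (u : ℝ) ^ 499 := by
  have hu' : (2 : ℝ) ≤ u := by exact_mod_cast hu
  unfold rho
  have h1 : Real.log (((u ^ 999 : ℕ) : ℝ) + 1) ≤ 1000 * u := by
    have h2 : ((u ^ 999 : ℕ) : ℝ) + 1 ≤ (u : ℝ) ^ 1000 := by
      push_cast
      have h3 : (1 : ℝ) ≤ (u : ℝ) ^ 999 := one_le_pow₀ (by linarith)
      have : (u : ℝ) ^ 1000 = u * (u : ℝ) ^ 999 := by ring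
      rw [this]; nlinarith
    have h3 := Real.log_le_log (by positivity) h2
    rw [Real.log_pow] at h3
    have h4 := Real.log_le_sub_one_of_pos (show (0 : ℝ) < u by linarith)
    push_cast at h3 ⊢
    linarith
  rw [Real.sqrt_le_left (by positivity)]
  rw [div_pow, ← pow_mul]
  rw [div_le_div_iff₀ (by positivity) (by positivity)]
  calc Real.log (((u ^ 999 : ℕ) : ℝ) + 1) * (u : ℝ) ^ (499 * 2) ≤ (1000 * u) * (u : ℝ) ^ (499 * 2) :=
        mul_le_mul_of_nonneg_right h1 (by positivity)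
    _ = 1000 * (u : ℝ) ^ 999 := by ring
    _ ≤ 32 ^ 2 * ((u ^ 999 : ℕ) : ℝ) := by
        push_cast
        have : (0 : ℝ) < (u : ℝ) ^ 999 := by positivity
        linarith

/-- constancy of `fc` under shifts -/
theorem fc_shift {d : ℤ} {f : ℤ → ℝ} (hf : InvF d f) {C : ℝ}
    (hci : ∀ f : ℤ → ℝ, InvF d f → ∀ R : ℕ, 1 ≤ R → ∀ V : ℝ, 2 ^ R ≤ V →
      ∀ (i u : ℕ) (h : ℝ), |h| ≤ 4 ^ u →
        av V (fun y => |f ⌊y⌋ - f ⌊3 ^ i * y + h⌋|) ≤ C * √ (1 + (i : ℝ) ^ 2 + u) * rho R)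
    {t R c n : ℕ} (hR : 1 ≤ R) {V : ℝ} (hV : 2 ^ (t + R) ≤ V) {w : ℝ} (hw : |w| * 3 ^ c ≤ 4 ^ n * 2 ^ t) :
    av V (fun y => |fc f t c (y + w) - fc f t c y|) ≤ C * √ (1 + n) * rho R := by
  have h2t : (0 : ℝ) < 2 ^ t := by positivity
  have hV0 : 0 < V := lt_of_lt_of_le (by positivity) hV
  set θ : ℝ := 3 ^ c / 2 ^ t with hθ
  have hθ0 : 0 < θ := by positivity
  have e : (fun y => |fc f t c (y + w) - fc f t c y|)
      = fun y => (fun z => |f ⌊z⌋ - f ⌊3 ^ 0 * z + θ * w⌋|) (θ * y) := by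
    funext y
    unfold fc
    simp only
    rw [abs_sub_comm]
    have e1 : (3 : ℝ) ^ c * y / 2 ^ t = θ * y := by rw [hθ]; ring
    have e2 : (3 : ℝ) ^ c * (y + w) / 2 ^ t = 3 ^ 0 * (θ * y) + θ * w := by rw [hθ]; ring
    rw [e1, e2]
  rw [e, av_scale hV0 hθ0 (fun z => |f ⌊z⌋ - f ⌊3 ^ 0 * z + θ * w⌋|)]
  have h1 : (2 : ℝ) ^ R ≤ θ * V := by
    have h3 : (1 : ℝ) ≤ 3 ^ c := one_le_pow₀ (by norm_num)
    have h4 : 1 / 2 ^ t ≤ θ := div_le_div_of_nonneg_right h3 h2t.le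
    calc (2 : ℝ) ^ R = 1 / 2 ^ t * 2 ^ (t + R) := by rw [pow_add]; field_simp
      _ ≤ θ * V := mul_le_mul h4 hV (by positivity) hθ0.le
  have h2 : |θ * w| ≤ 4 ^ n := by
    rw [abs_mul, abs_of_pos hθ0, hθ, div_mul_eq_mul_div, div_le_iff₀ h2t]
    linarith
  have := hci f hf R hR (θ * V) h1 0 n (θ * w) h2
  refine this.trans (le_of_eq ?_)
  norm_num

/-- the windows -/
theorem exists_l {t k : ℕ} : ∃ l : ℕ, 1 ≤ l ∧ gm * t + 40 * k ≤ Real.log l ∧ (l : ℝ) ≤ 2 * Real.exp (gm * t + 40 * k) := by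
  have hgm := gm_bounds.1
  set E := Real.exp (gm * t + 40 * k) with hE
  have hE1 : 1 ≤ E := by
    rw [hE]; apply Real.one_le_exp; positivity
  refine ⟨⌈E⌉₊, Nat.one_le_ceil_iff.2 (by linarith), ?_, ?_⟩
  · rw [← Real.log_exp (gm * t + 40 * k)]
    exact Real.log_le_log (by positivity) (Nat.le_ceil E)
  · have := Nat.ceil_lt_add_one (show 0 ≤ E by linarith)
    linarith

/-- the window law for `ph` -/
theorem ph_window {d : ℤ} (hd : d % 2 = 1) {C : ℝ} {t k g c l : ℕ} (hg : 1 ≤ g)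
    (htv : ∀ Ψ : ℕ → ℤ → ℝ, (∀ a x, |Ψ a x| ≤ 1) → (∀ a, Per 0 (Ψ a)) → ∀ x : ℤ,
      |(∑ i ∈ range l, Ψ (od d t (x + (i : ℕ))) ((Tz d)^[t] (x + (i : ℕ)))) / l
        - pm (t + 0) (fun y => Ψ (od d t y) ((Tz d)^[t] y))| ≤ C * ((t + k : ℝ) ^ 3 / (k : ℝ) ^ 4))
    (hl : 1 ≤ l) (x : ℤ) :
    |(∑ w ∈ range l, ph d t g c (x + (w : ℕ))) / l| ≤ C * ((t + k : ℝ) ^ 3 / (k : ℝ) ^ 4) := by
  have hg' : (0 : ℝ) < g := by exact_mod_cast hg
  have hl' : (0 : ℝ) < l := by exact_mod_cast hl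
  have h1 := htv (fun a _ => g * W g ((c : ℤ) - (a : ℕ))) (fun a _ => by
    rw [abs_mul, abs_of_pos hg', abs_of_nonneg (W_nonneg _ _)]
    calc (g : ℝ) * W g ((c : ℤ) - (a : ℕ)) ≤ g * (1 / g) := mul_le_mul_of_nonneg_left (W_le hg _) hg'.le
      _ = 1 := by field_simp) (fun a x m => rfl) x
  have e : (∑ w ∈ range l, ph d t g c (x + (w : ℕ))) / l
      = (∑ i ∈ range l, (g : ℝ) * W g ((c : ℤ) - (od d t (x + (i : ℕ)) : ℕ))) / l
        - pm (t + 0) (fun y => (g : ℝ) * W g ((c : ℤ) - (od d t y : ℕ))) := by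
    have e1 : ∀ w ∈ range l, ph d t g c (x + (w : ℕ)) = (g : ℝ) * W g ((c : ℤ) - (od d t (x + (w : ℕ)) : ℕ)) - g * pc d t g c := by
      intro w _; unfold ph psi; ring
    rw [sum_congr rfl e1, sum_sub_distrib, sum_const, card_range, nsmul_eq_mul, add_zero, pm_mul]
    unfold pc psi
    field_simp
  rw [e]
  exact h1

/-- two walkers for `ph` -/
theorem ph_corr {d : ℤ} (hd : d % 2 = 1) {t g c : ℕ} (h : ℤ) :
    pm t (fun x => ph d t g c x * ph d t g c (x + h))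
      = pm t (fun y => (g * W g ((c : ℤ) - (od d t y : ℕ))) * (g * W g ((c : ℤ) - (od d t (y + h) : ℕ))))
        - pm t (fun y => g * W g ((c : ℤ) - (od d t y : ℕ))) * pm t (fun y => g * W g ((c : ℤ) - (od d t y : ℕ))) := by
  set F : ℤ → ℝ := fun y => g * W g ((c : ℤ) - (od d t y : ℕ)) with hF
  have hFp : Per t F := fun x m => by rw [hF]; simp only; rw [od_per hd]
  have hm : pm t F = g * pc d t g c := by rw [hF, pm_mul]; rfl
  have hs : pm t (fun x => F (x + h)) = pm t F := pm_shift hFp h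
  have e : ∀ x, ph d t g c x * ph d t g c (x + h) = (F x * F (x + h) - (g * pc d t g c) * F x)
      - ((g * pc d t g c) * F (x + h) - (g * pc d t g c) * (g * pc d t g c)) := by
    intro x; unfold ph psi; rw [hF]; ring
  have e1 : pm t (fun x => (g * pc d t g c) * F x) = (g * pc d t g c) * pm t F := pm_mul t _ F
  have e2 : pm t (fun x => (g * pc d t g c) * F (x + h)) = (g * pc d t g c) * pm t F := by
    rw [← hs]; exact pm_mul t _ (fun x => F (x + h))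
  rw [pm_congr e, pm_sub, pm_sub, pm_sub, e1, e2, pm_const]
  change _ = pm t (fun y => F y * F (y + h)) - pm t F * pm t F
  rw [hm]
  ring

end Pool.Agent.KS6_24.LN
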