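import Mathlib
import Pool.Agent.KS6_24.LN.Par

/-! The pair lemma. -/

set_option autoImplicit false

namespace Pool.Agent.KS6_24.LN

open Pool.Agent.H499R2.CO Pool.Agent.Y965.SI Finset

/-- rational approximation with a large denominator -/
theorem approx {R0 R lam : ℝ} (hR : 2 ≤ R) (hlam : 1 / 2 ≤ lam) (hb : ¬ Bad R0 R lam) :
    ∃ p r : ℕ, Nat.Coprime p r ∧ 1 ≤ r ∧ R0 ≤ r ∧ (r : ℝ) ≤ R ∧ |lam - p / r| ≤ 1 / (r * R) := by
  set n : ℕ := ⌊R⌋₊ with hn
  have hn2 : 2 ≤ n := Nat.le_floor (by exact_mod_cast hR)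
  have hnR : (n : ℝ) ≤ R := Nat.floor_le (by linarith)
  have hnR' : R < n + 1 := Nat.lt_floor_add_one R
  obtain ⟨q, hq, hqn⟩ := Real.exists_rat_abs_sub_le_and_den_le lam (show 0 < n by omega)
  have hden : (0 : ℝ) < q.den := by exact_mod_cast q.den_pos
  have hden1 : (1 : ℝ) ≤ q.den := by exact_mod_cast q.den_pos
  have hn2R : (2 : ℝ) ≤ n := by exact_mod_cast hn2
  have hq0 : 0 < q := by
    by_contra hcon
    push Not at hcon
    have h1 : (q : ℝ) ≤ 0 := by exact_mod_cast hcon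
    have h2 : 1 / 2 ≤ |lam - q| := by
      rw [abs_of_nonneg (by linarith)]; linarith
    have h3 : 1 / (((n : ℝ) + 1) * q.den) < 1 / 2 := by
      apply one_div_lt_one_div_of_lt (by norm_num)
      nlinarith
    linarith
  have hnum : 0 < q.num := Rat.num_pos.2 hq0
  have hqe : (q : ℝ) = ((q.num.natAbs : ℕ) : ℝ) / (q.den : ℝ) := by
    have h1 : ((q.num.natAbs : ℕ) : ℝ) = (q.num : ℝ) := by
      have h0 : ((q.num.natAbs : ℕ) : ℤ) = q.num := Int.natAbs_of_nonneg hnum.le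
      have h00 : (((q.num.natAbs : ℕ) : ℤ) : ℝ) = (q.num : ℝ) := by rw [h0]
      rw [← h00]; rfl
    rw [h1]
    exact_mod_cast (Rat.num_div_den q).symm
  have hR0 : (0 : ℝ) < R := by linarith
  refine ⟨q.num.natAbs, q.den, q.reduced, q.den_pos, ?_, ?_, ?_⟩
  · by_contra hcon
    push Not at hcon
    apply hb
    refine ⟨q.den, q.num.natAbs, q.den_pos, hcon, ?_⟩
    have e : (q.den : ℝ) * lam - (q.num.natAbs : ℕ) = q.den * (lam - q) := by
      rw [hqe]; field_simp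
    rw [e, abs_mul, abs_of_pos hden]
    calc (q.den : ℝ) * |lam - q| ≤ q.den * (1 / (((n : ℝ) + 1) * q.den)) := mul_le_mul_of_nonneg_left hq hden.le
      _ = 1 / ((n : ℝ) + 1) := by field_simp
      _ ≤ 1 / R := one_div_le_one_div_of_le hR0 hnR'.le
  · have : (q.den : ℝ) ≤ n := by exact_mod_cast hqn
    linarith
  · rw [← hqe]
    refine hq.trans ?_
    apply one_div_le_one_div_of_le (by positivity)
    rw [mul_comm]
    exact mul_le_mul_of_nonneg_right hnR'.le hden.le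

theorem pair (d : ℤ) (hd : d = 1 ∨ d = -1) (hTV : S_TV d) (hTW : S_TW d) : S_PAIR d := by
  have hd2 : d % 2 = 1 := by rcases hd with rfl | rfl <;> decide
  obtain ⟨C1, hC1, h1⟩ := co2 d hd
  obtain ⟨C2, hC2, h2⟩ := hTV
  obtain ⟨C3, hC3, h3⟩ := ci d hd
  obtain ⟨C4, hC4, h4⟩ := hTW
  obtain ⟨C5, hC5, h5⟩ := ind
  set S : ℝ := √ (16 * C4 + 3 * C5) with hS
  have hS0 : 0 ≤ S := Real.sqrt_nonneg _
  refine ⟨100 * C1 + 400 * C2 + 60000 * C3 + 36 * S + 1000, max 4 (max ⌈C2⌉₊ ⌈C4⌉₊), by positivity, by omega, ?_⟩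
  intro f hf u hu V lam hV hlam hlam2
  have hfb := hf.1
  have hu4 : 4 ≤ u := by omega
  have huC2 : C2 ≤ u := (Nat.le_ceil C2).trans (by exact_mod_cast (show ⌈C2⌉₊ ≤ u by omega))
  have huC4 : C4 ≤ u := (Nat.le_ceil C4).trans (by exact_mod_cast (show ⌈C4⌉₊ ≤ u by omega))
  set U : ℝ := (u : ℝ) with hU
  have hU4 : (4 : ℝ) ≤ U := by rw [hU]; exact_mod_cast hu4
  have hU1 : (1 : ℝ) ≤ U := by linarith
  have hU0 : (0 : ℝ) < U := by linarith
  -- powers
  have ivm : ∀ a b : ℕ, a ≤ b → 1 / U ^ b ≤ 1 / U ^ a := fun a b hab =>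
    one_div_le_one_div_of_le (by positivity) (pow_le_pow_right₀ hU1 hab)
  have ivk : ∀ a b : ℕ, U ^ a * (1 / U ^ (a + b)) = 1 / U ^ b := fun a b => by
    rw [pow_add]; field_simp
  set t := u ^ 990 with ht
  set g := u ^ 488 with hg
  set B := u ^ 501 with hB
  set k := u ^ 900 with hk
  set R := u ^ 999 with hR
  set Λ := u ^ 250 with hΛ
  have hu1 : 1 ≤ u := by omega
  have pw : ∀ n : ℕ, 1 ≤ u ^ n := fun n => Nat.one_le_pow _ _ (by omega)
  have pm' : ∀ a b : ℕ, a ≤ b → u ^ a ≤ u ^ b := fun a b hab => Nat.pow_le_pow_right (by omega) hab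
  have htR : (t : ℝ) = U ^ 990 := by rw [ht]; push_cast; rfl
  have hgR : (g : ℝ) = U ^ 488 := by rw [hg]; push_cast; rfl
  have hBR : (B : ℝ) = U ^ 501 := by rw [hB]; push_cast; rfl
  have hkR : (k : ℝ) = U ^ 900 := by rw [hk]; push_cast; rfl
  have hRR : (R : ℝ) = U ^ 999 := by rw [hR]; push_cast; rfl
  have hΛR : (Λ : ℝ) = U ^ 250 := by rw [hΛ]; push_cast; rfl
  have huk : u ≤ k := by
    calc u = u ^ 1 := (pow_one u).symm
      _ ≤ k := pm' 1 900 (by norm_num)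
  have hukR : U ≤ k := by rw [hU]; exact_mod_cast huk
  have h4t : 4 * t ≤ u ^ 1000 := by
    have : u ^ 1000 = u ^ 10 * t := by rw [ht, ← pow_add]
    rw [this]
    apply Nat.mul_le_mul_right
    calc 4 ≤ u := hu4
      _ = u ^ 1 := (pow_one u).symm
      _ ≤ u ^ 10 := pm' 1 10 (by norm_num)
  have htR' : t + R ≤ u ^ 1000 := by
    have e1 : u ^ 1000 = u * R := by rw [hR]; ring
    have e2 : t ≤ R := pm' 990 999 (by norm_num)
    rw [e1]; nlinarith
  have hgB : g ≤ B := pm' 488 501 (by norm_num)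
  have hBk : B ≤ k := pm' 501 900 (by norm_num)
  have hB2 : 2 ≤ B := by
    calc 2 ≤ u := by omega
      _ = u ^ 1 := (pow_one u).symm
      _ ≤ B := pm' 1 501 (by norm_num)
  have h80 : 80 * k ≤ t := by
    have : t = u ^ 90 * k := by rw [ht, hk, ← pow_add]
    rw [this]
    apply Nat.mul_le_mul_right
    calc 80 ≤ 4 ^ 4 := by norm_num
      _ ≤ u ^ 4 := Nat.pow_le_pow_left hu4 4
      _ ≤ u ^ 90 := pm' 4 90 (by norm_num)
  have h80R : 80 * (k : ℝ) ≤ t := by exact_mod_cast h80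
  -- sizes
  have h2t : (0 : ℝ) < 2 ^ t := by positivity
  have hV4 : 2 * (2 : ℝ) ^ (4 * t) ≤ V := by
    refine le_trans ?_ hV
    apply mul_le_mul_of_nonneg_left _ (by norm_num)
    exact pow_le_pow_right₀ (by norm_num) h4t
  have hV0 : 0 < V := lt_of_lt_of_le (by positivity) hV
  have hVtR : (2 : ℝ) ^ (t + R) ≤ V := by
    have h0 : (2 : ℝ) ^ (t + R) ≤ 2 ^ (u ^ 1000) := pow_le_pow_right₀ (by norm_num) htR'
    have h00 : (0 : ℝ) < 2 ^ (u ^ 1000) := by positivity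
    linarith
  have hlV : (2 : ℝ) ^ (t + R) ≤ lam * V := by
    have h0 : (2 : ℝ) ^ (t + R) ≤ 2 ^ (u ^ 1000) := pow_le_pow_right₀ (by norm_num) htR'
    have h00 : (1 / 2) * V ≤ lam * V := mul_le_mul_of_nonneg_right hlam hV0.le
    linarith
  have hlV0 : 0 < lam * V := by positivity
  have h2tU : 1 / (2 : ℝ) ^ t ≤ 1 / U ^ 100 := by
    apply one_div_le_one_div_of_le (by positivity)
    have h0 : t < 2 ^ t := Nat.lt_two_pow_self
    have h00 : (t : ℝ) ≤ 2 ^ t := by exact_mod_cast h0.le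
    rw [htR] at h00
    exact (pow_le_pow_right₀ hU1 (by norm_num)).trans h00
  obtain ⟨hgm0, hgm1⟩ := gm_bounds
  obtain ⟨l, hl1, hl2, hl3⟩ := exists_l (t := t) (k := k)
  have hl0 : (0 : ℝ) < l := by exact_mod_cast hl1
  have ht0 : (0 : ℝ) < t := by rw [htR]; positivity
  have hlexp : (l : ℝ) ≤ 2 * 2 ^ t := by
    refine hl3.trans (mul_le_mul_of_nonneg_left ?_ (by norm_num))
    have h0 : (2 : ℝ) ^ t = Real.exp (t * Real.log 2) := by rw [Real.exp_nat_mul, Real.exp_log (by norm_num)]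
    rw [h0]
    apply Real.exp_le_exp.2
    have := Real.log_two_gt_d9
    nlinarith
  have hlVb : (l : ℝ) / V ≤ 1 / U ^ 100 := by
    refine le_trans ?_ h2tU
    rw [div_le_div_iff₀ hV0 h2t, one_mul]
    calc (l : ℝ) * 2 ^ t ≤ (2 * 2 ^ t) * 2 ^ t := mul_le_mul_of_nonneg_right hlexp h2t.le
      _ = 2 * 2 ^ (2 * t) := by rw [two_mul t, pow_add]; ring
      _ ≤ 2 * 2 ^ (4 * t) := mul_le_mul_of_nonneg_left (pow_le_pow_right₀ (by norm_num) (by omega)) (by norm_num)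
      _ ≤ V := hV4
  have hlVb' : (l : ℝ) / (lam * V) ≤ 2 / U ^ 100 := by
    have h0 : (l : ℝ) / (lam * V) ≤ 2 * (l / V) := by
      rw [← mul_div_assoc, div_le_div_iff₀ hlV0 hV0]
      nlinarith [mul_nonneg hl0.le hV0.le]
    have h00 : 2 / U ^ 100 = 2 * (1 / U ^ 100) := by ring
    rw [h00]; linarith
  -- rho
  have hρ : rho R ≤ 32 / U ^ 499 := rho_u (by omega)
  have hρ0 := rho_nonneg R
  -- e₁
  have he1 : ∀ V' : ℝ, 2 ^ (t + R) ≤ V' → av V' (fun y => |f ⌊y⌋ - Ff f d t g B y|) ≤ (32 * C1 + 1) / U ^ 11 := by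
    intro V' hV'
    refine (h1 f hf t R g B (pw _) (pw _) (pw _) V' hV').trans ?_
    rw [htR, hgR, hBR]
    have k1 : C1 * U ^ 488 * rho R ≤ 32 * C1 / U ^ 11 := by
      calc C1 * U ^ 488 * rho R ≤ C1 * U ^ 488 * (32 / U ^ 499) := mul_le_mul_of_nonneg_left hρ (by positivity)
        _ = 32 * C1 * (U ^ 488 * (1 / U ^ (488 + 11))) := by norm_num; ring
        _ = 32 * C1 / U ^ 11 := by rw [ivk]; ring
    have k2 : U ^ 990 / (U ^ 501) ^ 2 ≤ 1 / U ^ 11 := by
      rw [← pow_mul]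
      have e1 : U ^ 990 / U ^ (501 * 2) = 1 / U ^ 12 := by
        rw [show 501 * 2 = 990 + 12 by norm_num, pow_add]; field_simp
      rw [e1]
      exact ivm 11 12 (by norm_num)
    have k3 : (32 * C1 + 1) / U ^ 11 = 32 * C1 / U ^ 11 + 1 / U ^ 11 := by ring
    rw [k3]; linarith
  -- e₂
  have htk : ((t : ℝ) + k) ^ 3 / (k : ℝ) ^ 4 ≤ 8 / U ^ 630 := by
    have hkt : (k : ℝ) ≤ t := by
      have : (0 : ℝ) ≤ k := by positivity
      linarith
    have k1 : ((t : ℝ) + k) ^ 3 ≤ (2 * t) ^ 3 := pow_le_pow_left₀ (by positivity) (by linarith) 3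
    calc ((t : ℝ) + k) ^ 3 / (k : ℝ) ^ 4 ≤ (2 * t) ^ 3 / (k : ℝ) ^ 4 := div_le_div_of_nonneg_right k1 (by positivity)
      _ = 8 * (U ^ 2970 * (1 / U ^ (2970 + 630))) := by rw [htR, hkR]; ring
      _ = 8 / U ^ 630 := by rw [ivk]; ring
  have htk0 : 0 ≤ ((t : ℝ) + k) ^ 3 / (k : ℝ) ^ 4 := by positivity
  have he2 : ∀ c ∈ Cs t g B, ∀ x : ℤ, |(∑ w ∈ range l, ph d t g c (x + (w : ℕ))) / l| ≤ 8 * C2 / U ^ 100 := by
    intro c _ x
    refine (ph_window hd2 (pw _) (fun Ψ hΨ1 hΨ2 x => h2 t k 0 (huC2.trans hukR) (Nat.zero_le _) Ψ hΨ1 hΨ2 x l hl2) hl1 x).trans ?_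
    calc C2 * (((t : ℝ) + k) ^ 3 / (k : ℝ) ^ 4) ≤ C2 * (8 / U ^ 630) := mul_le_mul_of_nonneg_left htk hC2.le
      _ = 8 * C2 * (1 / U ^ 630) := by ring
      _ ≤ 8 * C2 * (1 / U ^ 100) := mul_le_mul_of_nonneg_left (ivm 100 630 (by norm_num)) (by positivity)
      _ = _ := by ring
  -- e₃
  have he3 : ∀ V' : ℝ, 2 ^ (t + R) ≤ V' → ∀ c ∈ Cs t g B, ∀ w : ℝ, 0 ≤ w → w ≤ 2 * l →
      av V' (fun y => |fc f t c (y + w) - fc f t c y|) ≤ 256 * C3 / U ^ 49 := by
    intro V' hV' c hc w hw0 hw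
    have hcs : 2 * c ≤ t + 2 * B + 6 * g := by
      unfold Cs at hc; rw [mem_filter] at hc; exact hc.2.2
    have hwc : |w| * 3 ^ c ≤ 4 ^ (50 * k) * 2 ^ t := by
      rw [abs_of_nonneg hw0]
      have a1 : w ≤ 4 * Real.exp (gm * t + 40 * k) := by linarith
      have a2 : (3 : ℝ) ^ c = Real.exp (c * Real.log 3) := by rw [Real.exp_nat_mul, Real.exp_log (by norm_num)]
      have a3 : (4 : ℝ) ^ (50 * k) * 2 ^ t = Real.exp (100 * k * Real.log 2 + t * Real.log 2) := by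
        rw [Real.exp_add]
        congr 1
        · rw [show (4 : ℝ) = 2 ^ 2 by norm_num, ← pow_mul]
          have : (100 * (k : ℝ)) * Real.log 2 = ((2 * (50 * k) : ℕ) : ℝ) * Real.log 2 := by push_cast; ring
          rw [this, Real.exp_nat_mul, Real.exp_log (by norm_num)]
        · rw [Real.exp_nat_mul, Real.exp_log (by norm_num)]
      have a4 : (4 : ℝ) = Real.exp (2 * Real.log 2) := by
        rw [show (2 : ℝ) * Real.log 2 = Real.log (2 ^ 2) by rw [Real.log_pow]; norm_num]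
        rw [Real.exp_log (by norm_num)]; norm_num
      have a5 : w * 3 ^ c ≤ Real.exp (2 * Real.log 2 + (gm * t + 40 * k) + c * Real.log 3) := by
        rw [Real.exp_add, Real.exp_add, ← a2, ← a4]
        exact mul_le_mul_of_nonneg_right a1 (by positivity)
      refine a5.trans ?_
      rw [a3]
      apply Real.exp_le_exp.2
      have b1 : (2 : ℝ) * c ≤ t + 2 * B + 6 * g := by exact_mod_cast hcs
      have b2 : (g : ℝ) ≤ B := by exact_mod_cast hgB
      have b3 : (B : ℝ) ≤ k := by exact_mod_cast hBk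
      have b4 : (2 : ℝ) ≤ B := by exact_mod_cast hB2
      have l2 := Real.log_two_gt_d9
      have l3 : Real.log 3 ≤ 1.1 := log3_lt.le
      have l30 : 0 ≤ Real.log 3 := Real.log_nonneg (by norm_num)
      have b5 : (c : ℝ) * Real.log 3 ≤ (t / 2 + 4 * k) * Real.log 3 := by
        apply mul_le_mul_of_nonneg_right _ l30
        linarith
      have e1 : gm * (t : ℝ) = t * Real.log 2 - t / 2 * Real.log 3 := by unfold gm; ring
      have b6 : (4 * (k : ℝ)) * Real.log 3 ≤ 4 * k * 1.1 := mul_le_mul_of_nonneg_left l3 (by positivity)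
      have b7 : 100 * (k : ℝ) * 0.6931471803 ≤ 100 * k * Real.log 2 := mul_le_mul_of_nonneg_left l2.le (by positivity)
      have l2' := Real.log_two_lt_d9
      have e2 : (t / 2 + 4 * (k : ℝ)) * Real.log 3 = t / 2 * Real.log 3 + 4 * k * Real.log 3 := by ring
      rw [e1]
      linarith
    refine (fc_shift hf h3 (pw _) hV' hwc).trans ?_
    have hs : √ (1 + ((50 * k : ℕ) : ℝ)) ≤ 8 * U ^ 450 := by
      rw [Real.sqrt_le_left (by positivity)]
      push_cast
      rw [hkR, mul_pow, ← pow_mul]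
      have : (1 : ℝ) ≤ U ^ 900 := one_le_pow₀ hU1
      norm_num
      linarith
    calc C3 * √ (1 + ((50 * k : ℕ) : ℝ)) * rho R ≤ C3 * (8 * U ^ 450) * (32 / U ^ 499) := by
          apply mul_le_mul (mul_le_mul_of_nonneg_left hs hC3.le) hρ hρ0 (by positivity)
      _ = 256 * C3 * (U ^ 450 * (1 / U ^ (450 + 49))) := by norm_num; ring
      _ = 256 * C3 / U ^ 49 := by rw [ivk]; ring
  have hng : (#(Cs t g B) : ℝ) / g ≤ 6 * U ^ 13 := by
    have a1 := Cs_card t g B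
    have a2 : #(Cs t g B) ≤ 6 * B := by omega
    have a3 : (#(Cs t g B) : ℝ) ≤ 6 * B := by exact_mod_cast a2
    rw [div_le_iff₀ (by rw [hgR]; positivity)]
    calc (#(Cs t g B) : ℝ) ≤ 6 * B := a3
      _ = 6 * U ^ 13 * g := by rw [hBR, hgR]; ring
  have hng0 : 0 ≤ (#(Cs t g B) : ℝ) / g := by positivity
  have e13 : U ^ 13 * (1 / U ^ 49) = 1 / U ^ 36 := ivk 13 36
  have e13' : U ^ 13 * (1 / U ^ 100) = 1 / U ^ 87 := ivk 13 87
  constructor
  · -- coarse
    have hcoarse : ∀ V' : ℝ, 2 ^ (t + R) ≤ V' → (l : ℝ) / V' ≤ 2 / U ^ 100 →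
        av V' (fun y => |f ⌊y⌋ - Pf f d t g B y|)
          ≤ (50 * C1 + 100 * C2 + 1700 * C3 + 100) / U ^ 4 := by
      intro V' hV' hlV'
      have hV'0 : 0 < V' := lt_of_lt_of_le (by positivity) hV'
      have he6 : ∀ w < l, av V' (fun y => |f ⌊y + (w : ℕ)⌋ - f ⌊y⌋|) ≤ 46 * C3 / U ^ 4 := by
        intro w hw
        have a1 := h3 f hf R (pw _) V' (le_trans (pow_le_pow_right₀ (by norm_num) (by omega)) hV') 0 t (w : ℕ) (by
          rw [abs_of_nonneg (by positivity)]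
          have b1 : (w : ℝ) ≤ l := by exact_mod_cast hw.le
          have b2 : (2 : ℝ) * 2 ^ t ≤ 4 ^ t := by
            rw [show (4 : ℝ) = 2 * 2 by norm_num, mul_pow]
            apply mul_le_mul_of_nonneg_right _ h2t.le
            calc (2 : ℝ) = 2 ^ 1 := (pow_one _).symm
              _ ≤ 2 ^ t := pow_le_pow_right₀ (by norm_num) (pw _)
          linarith)
        have a2 : (fun y : ℝ => |f ⌊y + (w : ℕ)⌋ - f ⌊y⌋|) = fun y : ℝ => |f ⌊y⌋ - f ⌊3 ^ 0 * y + (w : ℕ)⌋| := by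
          funext y; rw [abs_sub_comm, pow_zero, one_mul]
        rw [a2]
        refine a1.trans ?_
        have hs : √ (1 + ((0 : ℕ) : ℝ) ^ 2 + t) ≤ 1.42 * U ^ 495 := by
          rw [Real.sqrt_le_left (by positivity)]
          rw [htR, mul_pow, ← pow_mul]
          have : (100 : ℝ) ≤ U ^ 990 := by
            calc (100 : ℝ) ≤ 4 ^ 4 := by norm_num
              _ ≤ U ^ 4 := pow_le_pow_left₀ (by norm_num) hU4 4
              _ ≤ U ^ 990 := pow_le_pow_right₀ hU1 (by norm_num)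
          norm_num
          linarith
        calc C3 * √ (1 + ((0 : ℕ) : ℝ) ^ 2 + t) * rho R ≤ C3 * (1.42 * U ^ 495) * (32 / U ^ 499) := by
              apply mul_le_mul (mul_le_mul_of_nonneg_left hs hC3.le) hρ hρ0 (by positivity)
          _ = 45.44 * C3 * (U ^ 495 * (1 / U ^ (495 + 4))) := by norm_num; ring
          _ = 45.44 * C3 / U ^ 4 := by rw [ivk]; ring
          _ ≤ 46 * C3 / U ^ 4 := by
            apply div_le_div_of_nonneg_right _ (by positivity)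
            linarith
      have a := coarse_abs (d := d) (t := t) (B := B) hfb (pw _) hV'0 hl1 (he1 V' hV') he2
        (fun c hc w hw => he3 V' hV' c hc w (by positivity) (by
          have : (w : ℝ) ≤ l := by exact_mod_cast hw.le
          linarith)) he6
      refine a.trans ?_
      have b1 : 4 * (l : ℝ) / V' ≤ 8 / U ^ 4 := by
        have : 4 * (l : ℝ) / V' = 4 * (l / V') := by ring
        rw [this]
        have i1 := ivm 4 100 (by norm_num)
        have i2 : 8 / U ^ 4 = 8 * (1 / U ^ 4) := by ring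
        have i3 : 2 / U ^ 100 = 2 * (1 / U ^ 100) := by ring
        rw [i2]; rw [i3] at hlV'; linarith
      have b2 : (#(Cs t g B) : ℝ) / g * (8 * C2 / U ^ 100 + 256 * C3 / U ^ 49) ≤ (48 * C2 + 1536 * C3) / U ^ 4 := by
        calc (#(Cs t g B) : ℝ) / g * (8 * C2 / U ^ 100 + 256 * C3 / U ^ 49)
            ≤ (6 * U ^ 13) * (8 * C2 / U ^ 100 + 256 * C3 / U ^ 49) := mul_le_mul_of_nonneg_right hng (by positivity)
          _ = 48 * C2 * (U ^ 13 * (1 / U ^ 100)) + 1536 * C3 * (U ^ 13 * (1 / U ^ 49)) := by ring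
          _ = 48 * C2 * (1 / U ^ 87) + 1536 * C3 * (1 / U ^ 36) := by rw [e13, e13']
          _ ≤ 48 * C2 * (1 / U ^ 4) + 1536 * C3 * (1 / U ^ 4) :=
            add_le_add (mul_le_mul_of_nonneg_left (ivm _ _ (by norm_num)) (by positivity))
              (mul_le_mul_of_nonneg_left (ivm _ _ (by norm_num)) (by positivity))
          _ = _ := by ring
      have b3 : (32 * C1 + 1) / U ^ 11 ≤ (32 * C1 + 1) / U ^ 4 := by
        have := mul_le_mul_of_nonneg_left (ivm 4 11 (by norm_num)) (show 0 ≤ 32 * C1 + 1 by positivity)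
        have i1 : ∀ n : ℕ, (32 * C1 + 1) / U ^ n = (32 * C1 + 1) * (1 / U ^ n) := fun n => by ring
        rw [i1, i1]; exact this
      have b4 : (50 * C1 + 100 * C2 + 1700 * C3 + 100) / U ^ 4 = 46 * C3 / U ^ 4 + (32 * C1 + 1) / U ^ 4 + 8 / U ^ 4
          + (48 * C2 + 1536 * C3) / U ^ 4 + (18 * C1 + 52 * C2 + 118 * C3 + 91) / U ^ 4 := by ring
      have b5 : 0 ≤ (18 * C1 + 52 * C2 + 118 * C3 + 91) / U ^ 4 := by positivity
      rw [b4]; linarith
    have c1 := hcoarse V hVtR (by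
      have : 2 / U ^ 100 = 2 * (1 / U ^ 100) := by ring
      have h0 : 0 < 1 / U ^ 100 := by positivity
      rw [this]; linarith)
    have c2 := hcoarse (lam * V) hlV hlVb'
    refine (coarse_pair (d := d) (t := t) (B := B) hfb (pw _) hV0 (by linarith) c1 c2).trans ?_
    rw [← add_div]
    apply div_le_div_of_nonneg_right _ (by positivity)
    nlinarith
  · intro hbad
    -- e₄
    have he4 : ∀ c ∈ Cs t g B, (∑ h ∈ range l, |pm t (fun x => ph d t g c x * ph d t g c (x + (h : ℕ)))|) / l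
        ≤ 8 * C4 / U ^ 100 := by
      intro c _
      have hgp : (0 : ℝ) < g := by rw [hgR]; positivity
      have a1 := h4 t k Λ l (huC4.trans hukR) (pw _) (pm' 250 900 (by norm_num)) hl2
        (fun a => g * W g ((c : ℤ) - (a : ℕ))) (fun a => g * W g ((c : ℤ) - (a : ℕ))) (1 / g) (2 / (g : ℝ) ^ 2)
        (fun a => by
          have := W_diff (g := g) (pw _) ((c : ℤ) - ((a + 1 : ℕ) : ℤ))
          rw [show (c : ℤ) - ((a + 1 : ℕ) : ℤ) + 1 = (c : ℤ) - (a : ℕ) by push_cast; ring, abs_sub_comm] at this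
          rw [← mul_sub, abs_mul, abs_of_pos hgp]
          calc (g : ℝ) * |W g ((c : ℤ) - ((a + 1 : ℕ) : ℤ)) - W g ((c : ℤ) - (a : ℕ))| ≤ g * (1 / (g : ℝ) ^ 2) :=
                mul_le_mul_of_nonneg_left this hgp.le
            _ = 1 / g := by field_simp)
        (fun a => by
          have := W_diff (g := g) (pw _) ((c : ℤ) - ((a + 1 : ℕ) : ℤ))
          rw [show (c : ℤ) - ((a + 1 : ℕ) : ℤ) + 1 = (c : ℤ) - (a : ℕ) by push_cast; ring, abs_sub_comm] at this
          rw [← mul_sub, abs_mul, abs_of_pos hgp]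
          calc (g : ℝ) * |W g ((c : ℤ) - ((a + 1 : ℕ) : ℤ)) - W g ((c : ℤ) - (a : ℕ))| ≤ g * (1 / (g : ℝ) ^ 2) :=
                mul_le_mul_of_nonneg_left this hgp.le
            _ = 1 / g := by field_simp)
        (fun a => by
          have := W_diff2 (g := g) (pw _) ((c : ℤ) - ((a + 2 : ℕ) : ℤ))
          rw [show (c : ℤ) - ((a + 2 : ℕ) : ℤ) + 2 = (c : ℤ) - (a : ℕ) by push_cast; ring,
            show (c : ℤ) - ((a + 2 : ℕ) : ℤ) + 1 = (c : ℤ) - ((a + 1 : ℕ) : ℤ) by push_cast; ring] at this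
          have e : g * W g ((c : ℤ) - ((a + 2 : ℕ) : ℤ)) - 2 * (g * W g ((c : ℤ) - ((a + 1 : ℕ) : ℤ))) + g * W g ((c : ℤ) - (a : ℕ))
              = g * (W g ((c : ℤ) - (a : ℕ)) - 2 * W g ((c : ℤ) - ((a + 1 : ℕ) : ℤ)) + W g ((c : ℤ) - ((a + 2 : ℕ) : ℤ))) := by ring
          rw [e, abs_mul, abs_of_pos hgp]
          calc (g : ℝ) * |W g ((c : ℤ) - (a : ℕ)) - 2 * W g ((c : ℤ) - ((a + 1 : ℕ) : ℤ)) + W g ((c : ℤ) - ((a + 2 : ℕ) : ℤ))|
              ≤ g * (2 / (g : ℝ) ^ 3) := mul_le_mul_of_nonneg_left this hgp.le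
            _ = 2 / (g : ℝ) ^ 2 := by field_simp)
        (fun a => by
          have := W_diff2 (g := g) (pw _) ((c : ℤ) - ((a + 2 : ℕ) : ℤ))
          rw [show (c : ℤ) - ((a + 2 : ℕ) : ℤ) + 2 = (c : ℤ) - (a : ℕ) by push_cast; ring,
            show (c : ℤ) - ((a + 2 : ℕ) : ℤ) + 1 = (c : ℤ) - ((a + 1 : ℕ) : ℤ) by push_cast; ring] at this
          have e : g * W g ((c : ℤ) - ((a + 2 : ℕ) : ℤ)) - 2 * (g * W g ((c : ℤ) - ((a + 1 : ℕ) : ℤ))) + g * W g ((c : ℤ) - (a : ℕ))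
              = g * (W g ((c : ℤ) - (a : ℕ)) - 2 * W g ((c : ℤ) - ((a + 1 : ℕ) : ℤ)) + W g ((c : ℤ) - ((a + 2 : ℕ) : ℤ))) := by ring
          rw [e, abs_mul, abs_of_pos hgp]
          calc (g : ℝ) * |W g ((c : ℤ) - (a : ℕ)) - 2 * W g ((c : ℤ) - ((a + 1 : ℕ) : ℤ)) + W g ((c : ℤ) - ((a + 2 : ℕ) : ℤ))|
              ≤ g * (2 / (g : ℝ) ^ 3) := mul_le_mul_of_nonneg_left this hgp.le
            _ = 2 / (g : ℝ) ^ 2 := by field_simp)
      have a2 : ∀ h ∈ range l, |pm t (fun x => ph d t g c x * ph d t g c (x + (h : ℕ)))|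
          = |pm t (fun y => (fun a : ℕ => (g : ℝ) * W g ((c : ℤ) - (a : ℕ))) (od d t y)
              * (fun a : ℕ => (g : ℝ) * W g ((c : ℤ) - (a : ℕ))) (od d t (y + (h : ℕ))))
            - pm t (fun y => (fun a : ℕ => (g : ℝ) * W g ((c : ℤ) - (a : ℕ))) (od d t y))
              * pm t (fun y => (fun a : ℕ => (g : ℝ) * W g ((c : ℤ) - (a : ℕ))) (od d t y))| := by
        intro h _
        rw [ph_corr hd2]
      rw [sum_congr rfl a2]
      refine a1.trans ?_
      have b1 : (t : ℝ) * Λ * (1 / g * (2 / (g : ℝ) ^ 2)) ≤ 2 * (1 / U ^ 100) := by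
        calc (t : ℝ) * Λ * (1 / g * (2 / (g : ℝ) ^ 2)) = 2 * (U ^ 1240 * (1 / U ^ (1240 + 224))) := by
              rw [htR, hΛR, hgR]; field_simp
          _ = 2 * (1 / U ^ 224) := by rw [ivk]
          _ ≤ 2 * (1 / U ^ 100) := mul_le_mul_of_nonneg_left (ivm _ _ (by norm_num)) (by norm_num)
      have b2 : √ (1 / (Λ : ℝ) + ((t : ℝ) + k) ^ 3 / (k : ℝ) ^ 4) ≤ 3 / U ^ 125 := by
        rw [Real.sqrt_le_left (by positivity), div_pow, ← pow_mul]
        have c1 : 8 / U ^ 630 ≤ 8 / U ^ 250 := by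
          have := mul_le_mul_of_nonneg_left (ivm 250 630 (by norm_num)) (show (0 : ℝ) ≤ 8 by norm_num)
          calc 8 / U ^ 630 = 8 * (1 / U ^ 630) := by ring
            _ ≤ 8 * (1 / U ^ 250) := this
            _ = _ := by ring
        have c2 : (3 : ℝ) ^ 2 / U ^ (125 * 2) = 1 / U ^ 250 + 8 / U ^ 250 := by norm_num; ring
        rw [c2, hΛR]
        linarith
      have b3 : ((t : ℝ) + Λ) * (1 / (g : ℝ)) ^ 2 ≤ 2 * U ^ 14 := by
        have c1 : (Λ : ℝ) ≤ t := by exact_mod_cast pm' 250 990 (by norm_num)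
        calc ((t : ℝ) + Λ) * (1 / (g : ℝ)) ^ 2 ≤ (2 * t) * (1 / (g : ℝ)) ^ 2 :=
              mul_le_mul_of_nonneg_right (by linarith) (by positivity)
          _ = 2 * U ^ 14 := by
            rw [htR, hgR]
            have : U ^ 990 = U ^ 14 * (U ^ 488) ^ 2 := by ring
            rw [this]; field_simp
      have b4 : ((t : ℝ) + Λ) * (1 / (g : ℝ)) ^ 2 * √ (1 / (Λ : ℝ) + ((t : ℝ) + k) ^ 3 / (k : ℝ) ^ 4)
          ≤ 6 * (1 / U ^ 100) := by
        calc ((t : ℝ) + Λ) * (1 / (g : ℝ)) ^ 2 * √ (1 / (Λ : ℝ) + ((t : ℝ) + k) ^ 3 / (k : ℝ) ^ 4)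
            ≤ (2 * U ^ 14) * (3 / U ^ 125) := mul_le_mul b3 b2 (Real.sqrt_nonneg _) (by positivity)
          _ = 6 * (U ^ 14 * (1 / U ^ (14 + 111))) := by norm_num; ring
          _ = 6 * (1 / U ^ 111) := by rw [ivk]
          _ ≤ _ := mul_le_mul_of_nonneg_left (ivm _ _ (by norm_num)) (by norm_num)
      calc C4 * ((t : ℝ) * Λ * (1 / g * (2 / (g : ℝ) ^ 2))
            + ((t : ℝ) + Λ) * (1 / (g : ℝ)) ^ 2 * √ (1 / (Λ : ℝ) + ((t : ℝ) + k) ^ 3 / (k : ℝ) ^ 4))
          ≤ C4 * (2 * (1 / U ^ 100) + 6 * (1 / U ^ 100)) := mul_le_mul_of_nonneg_left (add_le_add b1 b4) hC4.le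
        _ = _ := by ring
    -- e₅
    have hR2 : 2 ≤ V / 2 ^ (2 * t) := by
      rw [le_div_iff₀ (by positivity)]
      refine le_trans ?_ hV4
      apply mul_le_mul_of_nonneg_left _ (by norm_num)
      exact pow_le_pow_right₀ (by norm_num) (by omega)
    obtain ⟨p, r, hpr, hr1, hrR0, hrR, happ⟩ := approx hR2 hlam hbad
    have hr0 : (0 : ℝ) < r := by exact_mod_cast hr1
    have hV1 : 1 ≤ V := by
      have : (1 : ℝ) ≤ 2 ^ (4 * t) := one_le_pow₀ (by norm_num)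
      linarith
    have he5 : ∀ c ∈ Cs t g B, ∀ c' ∈ Cs t g B, ∀ w w' : ℕ,
        |av V (fun y => (ph d t g c (⌊y⌋ + w) * ph d t g c (⌊y⌋ + w')) *
          (ph d t g c' ⌊lam * y + lam * w⌋ * ph d t g c' ⌊lam * y + lam * w'⌋))|
        ≤ |pm t (fun x => ph d t g c (x + w) * ph d t g c (x + w'))| + 3 * C5 / U ^ 100 := by
      intro c _ c' _ w w'
      have hab := ph_abs (d := d) (t := t) (g := g) (pw _)
      have hpp := ph_per (t := t) (g := g) hd2
      have a1 := h5 t p r (V / 2 ^ (2 * t)) V lam hpr hr1 hrR happ hlam hlam2 hV1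
        (fun x => ph d t g c (x + w) * ph d t g c (x + w')) (ph d t g c')
        (fun x => by
          rw [abs_mul]
          calc _ ≤ (1 : ℝ) * 1 := mul_le_mul (hab c _) (hab c _) (abs_nonneg _) (by norm_num)
            _ = 1 := one_mul _)
        (hab c')
        (fun x m => by
          simp only
          rw [show x + m * 2 ^ t + (w : ℤ) = x + w + m * 2 ^ t by ring,
            show x + m * 2 ^ t + (w' : ℤ) = x + w' + m * 2 ^ t by ring, hpp c, hpp c])
        (hpp c') (lam * w) (lam * w')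
      refine a1.trans (add_le_add le_rfl ?_)
      have b1 : 1 / (r : ℝ) ≤ 1 / 2 ^ (2 * t) := one_div_le_one_div_of_le (by positivity) hrR0
      have b2 : 1 / (V / 2 ^ (2 * t)) ≤ 1 / 2 ^ (2 * t) := by
        apply one_div_le_one_div_of_le (by positivity)
        rw [le_div_iff₀ (by positivity), ← pow_add]
        have : 2 * t + 2 * t = 4 * t := by ring
        rw [this]
        have : (0 : ℝ) < 2 ^ (4 * t) := by positivity
        linarith
      have b3 : (r : ℝ) / V ≤ 1 / 2 ^ (2 * t) := by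
        rw [div_le_div_iff₀ hV0 (by positivity), one_mul]
        rwa [le_div_iff₀ (by positivity)] at hrR
      calc C5 * 2 ^ t * (1 / (r : ℝ) + 1 / (V / 2 ^ (2 * t)) + r / V)
          ≤ C5 * 2 ^ t * (3 * (1 / 2 ^ (2 * t))) := mul_le_mul_of_nonneg_left (by linarith) (by positivity)
        _ = 3 * C5 * (1 / 2 ^ t) := by rw [two_mul t, pow_add]; field_simp
        _ ≤ 3 * C5 * (1 / U ^ 100) := mul_le_mul_of_nonneg_left h2tU (by positivity)
        _ = _ := by ring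
    have hmain := pair_abs (d := d) (t := t) (g := g) (B := B) hfb hd2 (pw _) hV0 hlam hlam2 hl1
      (e₃ := 256 * C3 / U ^ 49) (by positivity) (he1 V hVtR) (he1 (lam * V) hlV) he2 (he3 V hVtR) (he3 (lam * V) hlV) he4 he5
    refine hmain.trans ?_
    have hsq : √ (2 * (8 * C4 / U ^ 100) + 3 * C5 / U ^ 100) = S / U ^ 50 := by
      have e : 2 * (8 * C4 / U ^ 100) + 3 * C5 / U ^ 100 = (16 * C4 + 3 * C5) / (U ^ 50) ^ 2 := by
        rw [← pow_mul]; norm_num; ring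
      rw [e, Real.sqrt_div' _ (by positivity), Real.sqrt_sq (by positivity)]
    rw [hsq]
    have hlV6 : 6 * (l : ℝ) / V ≤ 6 * (1 / U ^ 100) := by
      have : 6 * (l : ℝ) / V = 6 * (l / V) := by ring
      rw [this]; linarith
    have hlV2 : 2 * (l : ℝ) / V ≤ 2 * (1 / U ^ 100) := by
      have : 2 * (l : ℝ) / V = 2 * (l / V) := by ring
      rw [this]; linarith
    have q1 : (#(Cs t g B) : ℝ) / g * (2 * (8 * C2 / U ^ 100) + 4 * (256 * C3 / U ^ 49) + 6 * l / V)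
        ≤ (96 * C2 + 6144 * C3 + 36) * (1 / U ^ 11) := by
      calc (#(Cs t g B) : ℝ) / g * (2 * (8 * C2 / U ^ 100) + 4 * (256 * C3 / U ^ 49) + 6 * l / V)
          ≤ (6 * U ^ 13) * (2 * (8 * C2 / U ^ 100) + 4 * (256 * C3 / U ^ 49) + 6 * (1 / U ^ 100)) := by
            apply mul_le_mul hng (by linarith) (by positivity) (by positivity)
        _ = (96 * C2 + 36) * (U ^ 13 * (1 / U ^ 100)) + 6144 * C3 * (U ^ 13 * (1 / U ^ 49)) := by ring
        _ = (96 * C2 + 36) * (1 / U ^ 87) + 6144 * C3 * (1 / U ^ 36) := by rw [e13, e13']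
        _ ≤ (96 * C2 + 36) * (1 / U ^ 11) + 6144 * C3 * (1 / U ^ 11) :=
            add_le_add (mul_le_mul_of_nonneg_left (ivm _ _ (by norm_num)) (by positivity))
              (mul_le_mul_of_nonneg_left (ivm _ _ (by norm_num)) (by positivity))
        _ = _ := by ring
    have q2 : ((#(Cs t g B) : ℝ) / g) ^ 2 * (S / U ^ 50 + 2 * (256 * C3 / U ^ 49) + 2 * l / V)
        ≤ (36 * S + 18432 * C3 + 72) * (1 / U ^ 11) := by
      have c1 : ((#(Cs t g B) : ℝ) / g) ^ 2 ≤ 36 * U ^ 26 := by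
        calc ((#(Cs t g B) : ℝ) / g) ^ 2 ≤ (6 * U ^ 13) ^ 2 := pow_le_pow_left₀ hng0 hng 2
          _ = 36 * U ^ 26 := by ring
      calc ((#(Cs t g B) : ℝ) / g) ^ 2 * (S / U ^ 50 + 2 * (256 * C3 / U ^ 49) + 2 * l / V)
          ≤ (36 * U ^ 26) * (S / U ^ 50 + 2 * (256 * C3 / U ^ 49) + 2 * (1 / U ^ 100)) := by
            apply mul_le_mul c1 (by linarith) (by positivity) (by positivity)
        _ = 36 * S * (U ^ 26 * (1 / U ^ (26 + 24))) + 18432 * C3 * (U ^ 26 * (1 / U ^ (26 + 23)))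
            + 72 * (U ^ 26 * (1 / U ^ (26 + 74))) := by norm_num; ring
        _ = 36 * S * (1 / U ^ 24) + 18432 * C3 * (1 / U ^ 23) + 72 * (1 / U ^ 74) := by rw [ivk, ivk, ivk]
        _ ≤ 36 * S * (1 / U ^ 11) + 18432 * C3 * (1 / U ^ 11) + 72 * (1 / U ^ 11) :=
            add_le_add (add_le_add (mul_le_mul_of_nonneg_left (ivm _ _ (by norm_num)) (by positivity))
              (mul_le_mul_of_nonneg_left (ivm _ _ (by norm_num)) (by positivity)))
              (mul_le_mul_of_nonneg_left (ivm _ _ (by norm_num)) (by positivity))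
        _ = _ := by ring
    have q3 : 2 * ((32 * C1 + 1) / U ^ 11) = (64 * C1 + 2) * (1 / U ^ 11) := by ring
    rw [q3]
    have q4 : (100 * C1 + 400 * C2 + 60000 * C3 + 36 * S + 1000) / U ^ 11
        = (64 * C1 + 2) * (1 / U ^ 11) + (96 * C2 + 6144 * C3 + 36) * (1 / U ^ 11)
          + (36 * S + 18432 * C3 + 72) * (1 / U ^ 11) + (36 * C1 + 304 * C2 + 35424 * C3 + 890) * (1 / U ^ 11) := by ring
    have q5 : 0 ≤ (36 * C1 + 304 * C2 + 35424 * C3 + 890) * (1 / U ^ 11) := by positivity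
    rw [q4]
    linarith

end Pool.Agent.KS6_24.LN
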