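import Mathlib
import Pool.Agent.KS6_24.LN.Defs

/-! STEERING: from `y` prime to 3 go back exactly `D` odd steps and `s` steps in all. -/

set_option autoImplicit false

namespace Pool.Agent.KS6_24.LN

open Pool.Agent.H499R2.CO Pool.Agent.Y965.SI Finset

theorem steer_halve (d : ℤ) (s : ℕ) : ∀ y : ℤ, (Tz d)^[s] (2 ^ s * y) = y := by
  induction s with
  | zero => intro y; simp
  | succ s ih =>
    intro y
    have h1 : Tz d (2 ^ (s + 1) * y) = 2 ^ s * y := by
      have e : (2 : ℤ) ^ (s + 1) * y = 2 * (2 ^ s * y) := by rw [pow_succ]; ring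
      rw [e]
      unfold Tz
      rw [if_pos (by omega)]
      omega
    rw [Function.iterate_succ_apply, h1, ih]

/-- one of `i, i + 2` works -/
theorem steer_choice {d y : ℤ} (hd : d = 1 ∨ d = -1) (hy : y % 3 ≠ 0) :
    ∃ i : ℕ, i < 4 ∧ (2 ^ (i + 1) * y - d) % 3 = 0 ∧ (2 ^ (i + 1) * y - d) % 9 ≠ 0 := by
  have h : y % 9 = 1 ∨ y % 9 = 2 ∨ y % 9 = 4 ∨ y % 9 = 5 ∨ y % 9 = 7 ∨ y % 9 = 8 := by omega
  rcases hd with rfl | rfl <;> rcases h with h | h | h | h | h | h
  all_goals first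
    | exact ⟨0, by norm_num, by norm_num; omega, by norm_num; omega⟩
    | exact ⟨1, by norm_num, by norm_num; omega, by norm_num; omega⟩
    | exact ⟨2, by norm_num, by norm_num; omega, by norm_num; omega⟩
    | exact ⟨3, by norm_num, by norm_num; omega, by norm_num; omega⟩

theorem steer {d : ℤ} (hd : d = 1 ∨ d = -1) : S_STEER d := by
  intro y D
  induction D generalizing y with
  | zero =>
    intro s hy _ _
    refine ⟨2 ^ s * y, by positivity, steer_halve d s y, ?_⟩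
    push_cast
    simp
  | succ D ih =>
    intro s hy h3 hs
    obtain ⟨i, hi, h4, h5⟩ := steer_choice hd h3
    obtain ⟨y', hy'⟩ : ∃ y' : ℤ, 2 ^ (i + 1) * y - d = 3 * y' := ⟨(2 ^ (i + 1) * y - d) / 3, by omega⟩
    have h6 : y' % 3 ≠ 0 := by omega
    have hpow : (2 : ℤ) ≤ 2 ^ (i + 1) := by
      rw [pow_succ]
      have : (1 : ℤ) ≤ 2 ^ i := one_le_pow₀ (by norm_num)
      omega
    have h7 : 1 ≤ y' := by
      have : 2 * 1 ≤ 2 ^ (i + 1) * y := by gcongr
      rcases hd with rfl | rfl <;> omega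
    obtain ⟨s', rfl⟩ : ∃ s', s = s' + (i + 1) := ⟨s - (i + 1), by omega⟩
    obtain ⟨M, hM, hM1, hM2⟩ := ih y' s' h7 h6 (by omega)
    have hT : Tz d y' = 2 ^ i * y := by
      have e : (2 : ℤ) ^ (i + 1) * y = 2 * (2 ^ i * y) := by rw [pow_succ]; ring
      rw [e] at hy'
      unfold Tz
      rw [if_neg (by rcases hd with rfl | rfl <;> omega)]
      omega
    refine ⟨M, hM, ?_, ?_⟩
    · rw [show s' + (i + 1) = (i + 1) + s' by ring, Function.iterate_add_apply, hM1,
        Function.iterate_succ_apply, hT, steer_halve]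
    · have hy2 : (3 : ℝ) * y' = 2 ^ (i + 1) * y - d := by exact_mod_cast hy'.symm
      have e1 : (2 : ℝ) ^ (s' + (i + 1)) * y / 3 ^ (D + 1) = 2 ^ s' * y' / 3 ^ D + 2 ^ s' * d / 3 ^ (D + 1) := by
        rw [pow_add, pow_succ 3 D]
        field_simp
        linear_combination hy2 * (-1)
      have e2 : |(2 : ℝ) ^ s' * d / 3 ^ (D + 1)| ≤ 2 ^ s' := by
        rw [abs_div, abs_mul]
        have : |(d : ℝ)| = 1 := by rcases hd with rfl | rfl <;> simp
        rw [this, abs_of_pos (by positivity : (0 : ℝ) < 2 ^ s'), abs_of_pos (by positivity : (0 : ℝ) < 3 ^ (D + 1)),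
          mul_one]
        exact div_le_self (by positivity) (one_le_pow₀ (by norm_num))
      have e3 : (2 : ℝ) * 2 ^ s' ≤ 2 ^ (s' + (i + 1)) := by
        rw [pow_add, mul_comm]
        gcongr
        have : (2 : ℝ) ^ 1 ≤ 2 ^ (i + 1) := pow_le_pow_right₀ (by norm_num) (by omega)
        simpa using this
      rw [e1]
      calc |(M : ℝ) - (2 ^ s' * y' / 3 ^ D + 2 ^ s' * d / 3 ^ (D + 1))|
          = |((M : ℝ) - 2 ^ s' * y' / 3 ^ D) - 2 ^ s' * d / 3 ^ (D + 1)| := by congr 1; ring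
        _ ≤ |(M : ℝ) - 2 ^ s' * y' / 3 ^ D| + |(2 : ℝ) ^ s' * d / 3 ^ (D + 1)| := abs_sub _ _
        _ ≤ 2 ^ s' + 2 ^ s' := add_le_add hM2 e2
        _ ≤ 2 ^ (s' + (i + 1)) := by linarith

end Pool.Agent.KS6_24.LN
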