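import Pool.Agent.KS6_24.LN.TV3

/-! The window law `S_TV`. -/

set_option autoImplicit false

namespace Pool.Agent.KS6_24.LN

open Pool.Agent.H320R2.PD Pool.Agent.H499R2.ND Pool.Agent.H499R2.CO Pool.Agent.W41.FU Finset
open Pool.Agent.Y965.SI Pool.Agent.KS6_32.BD Pool.Agent.KS6_32.CL

/-- averages of a periodic function -/
theorem avg_per {L : ℕ} {F : ℤ → ℝ} (hF : Per L F) (hF1 : ∀ x, |F x| ≤ 1) (a b : ℤ) (hab : a ≤ b) :
    |∑ n ∈ Ico a b, F n - ((b - a : ℤ) : ℝ) * pm L F| ≤ 2 * 2 ^ L := by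
  have h2L : (0 : ℝ) < 2 ^ L := by positivity
  have hcard : ∑ _n ∈ Ico a b, (1 : ℝ) = ((b - a : ℤ) : ℝ) := by
    rw [sum_const, nsmul_eq_mul, mul_one, Int.card_Ico]
    have : (((b - a).toNat : ℤ)) = b - a := Int.toNat_of_nonneg (by linarith)
    exact_mod_cast this
  have hpm := pm_abs (t := L) hF1
  rw [abs_le] at hpm
  have h1 := sum_Ico_per (t := L) (F := fun n => 1 + F n) (by
    intro x m
    simp only
    rw [hF x m]) (fun x => by have := (abs_le.1 (hF1 x)).1; linarith) a b hab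
  have h2 := sum_Ico_per (t := L) (F := fun n => 1 - F n) (by
    intro x m
    simp only
    rw [hF x m]) (fun x => by have := (abs_le.1 (hF1 x)).2; linarith) a b hab
  rw [sum_add_distrib, hcard, pm_add, pm_const] at h1
  rw [sum_sub_distrib, hcard, pm_sub, pm_const] at h2
  rw [abs_le]
  constructor
  · nlinarith
  · nlinarith

/-- odd and even members of a window -/
theorem AS_two {G H : ℤ → ℝ} (h : ∀ x, G (2 * x) = H x) (a b : ℝ) : AS G a b = OS G a b + AS H (a / 2) (b / 2) := by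
  classical
  unfold AS OS WS
  have e1 : cls Set.univ a b 0 1 0 = (Ico ⌈a⌉ ⌈b⌉).filter fun x => Odd x := by
    ext x
    rw [mem_cls, mem_filter, mem_Ico]
    constructor
    · rintro ⟨⟨h1, h2⟩, h3, -⟩
      exact ⟨⟨Int.ceil_le.2 h1, Int.lt_ceil.2 h2⟩, h3⟩
    · rintro ⟨⟨h1, h2⟩, h3⟩
      exact ⟨⟨Int.ceil_le.1 h1, Int.lt_ceil.1 h2⟩, h3, Set.mem_univ _, by rw [pow_zero]; exact one_dvd _⟩
  rw [e1, ← sum_filter_add_sum_filter_not (Ico ⌈a⌉ ⌈b⌉) (fun x => Odd x)]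
  congr 1
  symm
  refine sum_bij' (fun x _ => 2 * x) (fun x _ => x / 2) ?_ ?_ ?_ ?_ ?_
  · intro x hx
    rw [mem_Ico] at hx
    have h1 := Int.ceil_le.1 hx.1
    have h2 := Int.lt_ceil.1 hx.2
    rw [mem_filter, mem_Ico, Int.not_odd_iff_even]
    refine ⟨⟨Int.ceil_le.2 ?_, Int.lt_ceil.2 ?_⟩, even_two_mul x⟩
    · push_cast; linarith
    · push_cast; linarith
  · intro x hx
    rw [mem_filter, mem_Ico, Int.not_odd_iff_even] at hx
    obtain ⟨⟨h1, h2⟩, q, hq⟩ := hx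
    have h1 := Int.ceil_le.1 h1
    have h2 := Int.lt_ceil.1 h2
    have e : x / 2 = q := by omega
    have e2 : (x : ℝ) = 2 * q := by rw [hq]; push_cast; ring
    rw [mem_Ico, e]
    refine ⟨Int.ceil_le.2 ?_, Int.lt_ceil.2 ?_⟩
    · linarith
    · linarith
  · intro x _
    omega
  · intro x hx
    rw [mem_filter, Int.not_odd_iff_even] at hx
    obtain ⟨-, q, hq⟩ := hx
    omega
  · intro x _
    exact (h x).symm

theorem FF_two (d : ℤ) (Ψ : ℕ → ℤ → ℝ) (t c : ℕ) (x : ℤ) : FF d Ψ (t + 1) c (2 * x) = FF d Ψ t c x := by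
  rw [FF_split d Ψ (show 1 ≤ t + 1 by omega), Nat.add_sub_cancel]
  have h1 := od_two_pow d 1 x
  have h2 := Tz_two_mul d 0 x
  rw [pow_one] at h1
  rw [zero_add, pow_one, pow_zero, one_mul] at h2
  rw [h1, add_zero, Function.iterate_one, h2]

theorem AS_levels (d : ℤ) (Ψ : ℕ → ℤ → ℝ) (c : ℕ) (J : ℕ) : ∀ (t : ℕ) (a b : ℝ), J ≤ t →
    AS (FF d Ψ t c) a b = ∑ j ∈ range J, OS (FF d Ψ (t - j) c) (a / 2 ^ j) (b / 2 ^ j)
      + AS (FF d Ψ (t - J) c) (a / 2 ^ J) (b / 2 ^ J) := by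
  induction J with
  | zero => intro t a b _; simp
  | succ J ih =>
    intro t a b hJ
    rw [ih t a b (by omega), sum_range_succ]
    obtain ⟨s, hs⟩ : ∃ s, t - J = s + 1 := ⟨t - J - 1, by omega⟩
    have hs2 : t - (J + 1) = s := by omega
    rw [hs, hs2, AS_two (FF_two d Ψ s c), add_assoc, pow_succ, div_div, div_div]

theorem AS_card_le {F : ℤ → ℝ} (hF1 : ∀ x, |F x| ≤ 1) {a b : ℝ} (hab : a ≤ b) : |AS F a b| ≤ b - a + 1 := by
  unfold AS
  refine (abs_sum_le_sum_abs _ _).trans ?_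
  refine (sum_le_sum fun x _ => hF1 x).trans ?_
  rw [sum_const, nsmul_eq_mul, mul_one, Int.card_Ico]
  have h1 : (⌈b⌉ : ℝ) < b + 1 := Int.ceil_lt_add_one _
  have h2 : a ≤ (⌈a⌉ : ℝ) := Int.le_ceil _
  have h3 : ⌈a⌉ ≤ ⌈b⌉ := Int.ceil_mono hab
  have h4 : (((⌈b⌉ - ⌈a⌉).toNat : ℕ) : ℝ) = (⌈b⌉ : ℝ) - ⌈a⌉ := by
    have : (((⌈b⌉ - ⌈a⌉).toNat : ℕ) : ℤ) = ⌈b⌉ - ⌈a⌉ := Int.toNat_of_nonneg (by linarith)
    exact_mod_cast this
  rw [h4]; linarith

/-- choice of the width -/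
theorem width {t k : ℕ} (hk : 1 ≤ k) (ht : t < k * k) : ∃ x : ℕ, 1 ≤ x ∧ x ≤ k ∧ x * t ≤ k * k ∧
    2 * (k : ℝ) / (x : ℝ) ^ 2 ≤ 2 / k + 8 * (t : ℝ) ^ 2 / k ^ 3 := by
  have hk0 : (0 : ℝ) < k := by exact_mod_cast hk
  rcases Nat.lt_or_ge k t with h | h
  · have ht0 : 0 < t := by omega
    refine ⟨k * k / t, ?_, ?_, Nat.div_mul_le_self _ _, ?_⟩
    · rw [Nat.one_le_div_iff ht0]; exact ht.le
    · apply Nat.div_le_of_le_mul
      exact Nat.mul_le_mul_right _ h.le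
    · have h1 : 1 ≤ k * k / t := by rw [Nat.one_le_div_iff ht0]; exact ht.le
      set x := k * k / t with hx
      have h2 : k * k < (x + 1) * t := by
        have := Nat.lt_div_mul_add (a := k * k) ht0
        rw [← hx] at this
        rw [add_mul, one_mul]; exact this
      have h3 : k * k ≤ 2 * x * t := by nlinarith
      have h3R : (k : ℝ) * k ≤ 2 * x * t := by exact_mod_cast h3
      have hx0 : (0 : ℝ) < x := by exact_mod_cast h1
      have ht0R : (0 : ℝ) < t := by exact_mod_cast ht0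
      have h4 : 2 * (k : ℝ) / (x : ℝ) ^ 2 ≤ 8 * (t : ℝ) ^ 2 / k ^ 3 := by
        rw [div_le_div_iff₀ (by positivity) (by positivity)]
        have h5 : ((k : ℝ) * k) ^ 2 ≤ (2 * x * t) ^ 2 := pow_le_pow_left₀ (by positivity) h3R 2
        nlinarith
      have h5 : 0 ≤ 2 / (k : ℝ) := by positivity
      linarith
  · refine ⟨k, hk, le_rfl, Nat.mul_le_mul_left _ h, ?_⟩
    have e : 2 * (k : ℝ) / (k : ℝ) ^ 2 = 2 / k := by field_simp
    rw [e]
    have : 0 ≤ 8 * (t : ℝ) ^ 2 / k ^ 3 := by positivity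
    linarith

/-- THE WINDOW LAW. -/
theorem tv (d : ℤ) (hds : d = 1 ∨ d = -1) : S_TV d := by
  have hd : Odd d := by rcases hds with rfl | rfl <;> decide
  have hd2 : d % 2 = 1 := by rcases hds with rfl | rfl <;> norm_num
  have hd3 : IsCoprime d 3 := by
    rcases hds with rfl | rfl
    · exact isCoprime_one_left
    · exact isCoprime_one_left.neg_left
  have hdd : d * d = 1 := by rcases hds with rfl | rfl <;> norm_num
  obtain ⟨C, hC, htw⟩ := two_win hd hd3 hdd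
  refine ⟨2 * (C + 10) + 10, by positivity, ?_⟩
  intro t k Λ hCk hΛ Ψ hΨ1 hΨ x l hl
  have hk10 : (10 : ℝ) ≤ k := by linarith
  have hk0 : (0 : ℝ) < k := by linarith
  have hkN : 10 ≤ k := by exact_mod_cast hk10
  have ht0 : (0 : ℝ) ≤ t := Nat.cast_nonneg t
  have hgm := gm_pos
  have l2 := Real.log_two_gt_d9
  have l2' := Real.log_two_lt_d9
  have hlogl : 400 ≤ Real.log l := by
    have : 0 ≤ gm * t := by positivity
    linarith
  have hl0 : (0 : ℝ) < l := by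
    rcases Nat.eq_zero_or_pos l with h | h
    · rw [h, Nat.cast_zero, Real.log_zero] at hlogl; linarith
    · exact_mod_cast h
  set F := FF d Ψ t 0 with hF
  have hF1 : ∀ y, |F y| ≤ 1 := fun y => hΨ1 _ _
  have hper : Per (t + Λ) F := FF_per hd2 hΨ t 0
  have hFe : ∀ y, Ψ (od d t y) ((Tz d)^[t] y) = F y := by
    intro y; rw [hF]; unfold FF; rw [zero_add]
  simp only [hFe]
  -- the sum
  have hsum : ∑ i ∈ range l, F (x + (i : ℕ)) = ∑ n ∈ Ico x (x + l), F n := by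
    symm
    refine sum_bij' (fun n _ => (n - x).toNat) (fun i _ => x + (i : ℤ)) ?_ ?_ ?_ ?_ ?_
    · intro n hn; rw [mem_Ico] at hn; rw [mem_range]; omega
    · intro i hi; rw [mem_range] at hi; rw [mem_Ico]; omega
    · intro n hn; rw [mem_Ico] at hn; omega
    · intro i _; omega
    · intro n hn; rw [mem_Ico] at hn
      congr 1; omega
  rw [hsum]
  have hpm1 := abs_le.1 (pm_abs (t := t + Λ) hF1)
  have hone : 1 / (k : ℝ) ≤ (t + k : ℝ) ^ 3 / (k : ℝ) ^ 4 := by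
    rw [div_le_div_iff₀ hk0 (by positivity), one_mul]
    have : (k : ℝ) ^ 3 ≤ ((t : ℝ) + k) ^ 3 := pow_le_pow_left₀ hk0.le (by linarith) 3
    calc (k : ℝ) ^ 4 = (k : ℝ) ^ 3 * k := by ring
      _ ≤ ((t : ℝ) + k) ^ 3 * k := mul_le_mul_of_nonneg_right this hk0.le
  set E := (t + k : ℝ) ^ 3 / (k : ℝ) ^ 4 with hE
  have hE0 : 0 < E := by rw [hE]; positivity
  -- the trivial case
  rcases Nat.lt_or_ge t (k * k) with htk | htk
  swap
  · have h1 : |(∑ n ∈ Ico x (x + l), F n) / l| ≤ 1 := by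
      rw [abs_div, abs_of_pos hl0, div_le_one hl0]
      refine (abs_sum_le_sum_abs _ _).trans ((sum_le_sum fun y _ => hF1 y).trans ?_)
      rw [sum_const, nsmul_eq_mul, mul_one, Int.card_Ico]
      have : (x + (l : ℤ) - x).toNat = l := by omega
      rw [this]
    have h2 : 1 ≤ E := by
      rw [hE, one_le_div (by positivity)]
      have h3 : (k : ℝ) * k ≤ t := by exact_mod_cast htk
      have h4 : (k : ℝ) ^ 4 ≤ ((k : ℝ) * k) ^ 3 := by
        have : (1 : ℝ) ≤ (k : ℝ) ^ 2 := one_le_pow₀ (by linarith)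
        calc (k : ℝ) ^ 4 = (k : ℝ) ^ 4 * 1 := by ring
          _ ≤ (k : ℝ) ^ 4 * (k : ℝ) ^ 2 := mul_le_mul_of_nonneg_left this (by positivity)
          _ = ((k : ℝ) * k) ^ 3 := by ring
      exact h4.trans (pow_le_pow_left₀ (by positivity) (by linarith) 3)
    have h3 := abs_le.1 h1
    rw [abs_le]
    constructor <;> nlinarith
  -- periodic case
  have hdir : ∀ (a b : ℤ), a < b → |(∑ n ∈ Ico a b, F n) / ((b - a : ℤ) : ℝ) - pm (t + Λ) F| ≤ 2 * 2 ^ (t + Λ) / ((b - a : ℤ) : ℝ) := by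
    intro a b hab
    have hba : (0 : ℝ) < ((b - a : ℤ) : ℝ) := by exact_mod_cast (by linarith : 0 < b - a)
    have h := avg_per hper hF1 a b hab.le
    have e : (∑ n ∈ Ico a b, F n) / ((b - a : ℤ) : ℝ) - pm (t + Λ) F
        = (∑ n ∈ Ico a b, F n - ((b - a : ℤ) : ℝ) * pm (t + Λ) F) / ((b - a : ℤ) : ℝ) := by
      field_simp
    rw [e, abs_div, abs_of_pos hba]
    exact div_le_div_of_nonneg_right h hba.le
  rcases Nat.lt_or_ge t (3 * k) with h3k | h3k
  · have h := hdir x (x + l) (by have : (0 : ℤ) < l := by exact_mod_cast hl0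
                                 linarith)
    have e : ((x + l - x : ℤ) : ℝ) = l := by push_cast; ring
    rw [e] at h
    refine h.trans ?_
    have h1 : (2 : ℝ) ^ (t + Λ) ≤ 2 ^ (4 * k) := pow_le_pow_right₀ (by norm_num) (by omega)
    have h2 := tiny (k := k) (m := 0) (by omega) (by omega) hl0 (by
      have : 0 ≤ gm * t := by positivity
      linarith) (N := 2 ^ (t + Λ)) (by
        have : (0 : ℝ) < 2 ^ (4 * k) := by positivity
        linarith)
    rw [pow_zero, mul_one] at h2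
    have e2 : 2 * (2 : ℝ) ^ (t + Λ) / l = 2 / l * 2 ^ (t + Λ) := by ring
    rw [e2]
    nlinarith
  -- main case
  obtain ⟨w, hw1, hwk, hwt, hwb⟩ := width (by omega : 1 ≤ k) htk
  have hw0 : (0 : ℝ) < w := by exact_mod_cast hw1
  set e : ℝ := C / k + 2 * k / (w : ℝ) ^ 2 with he
  have he0 : 0 ≤ e := by rw [he]; positivity
  have hwtR : (w : ℝ) * t ≤ k * k := by exact_mod_cast hwt
  set N : ℕ := 2 ^ (t + Λ + 60 * k) with hN
  have hN0 : (0 : ℝ) < N := by rw [hN]; positivity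
  have hlogN : gm * t + 40 * k ≤ Real.log N := by
    rw [hN]; push_cast; rw [Real.log_pow]
    push_cast
    have h1 : gm ≤ Real.log 2 := by
      unfold gm
      have : 0 < Real.log 3 := Real.log_pos (by norm_num)
      linarith
    have h2 : gm * t ≤ Real.log 2 * t := mul_le_mul_of_nonneg_right h1 ht0
    have h3 : (0 : ℝ) ≤ Λ := Nat.cast_nonneg _
    nlinarith
  -- levels of a window
  have hlev : ∀ a b : ℝ, a < b → gm * t + 40 * k ≤ Real.log (b - a) →
      |AS F a b / (b - a) - ∑ j ∈ range k, 1 / 2 ^ (j + 1) * nz (FF d Ψ (t - j) 0) (a / 2 ^ j) (b / 2 ^ j) 0 0| ≤ 2 / k := by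
    intro a b hab hlog
    have hℓ : 0 < b - a := by linarith
    have h1 := AS_levels d Ψ 0 k t a b (by omega)
    have e1 : AS F a b / (b - a) - ∑ j ∈ range k, 1 / 2 ^ (j + 1) * nz (FF d Ψ (t - j) 0) (a / 2 ^ j) (b / 2 ^ j) 0 0
        = AS (FF d Ψ (t - k) 0) (a / 2 ^ k) (b / 2 ^ k) / (b - a) := by
      rw [hF, h1, add_div, sum_div]
      have : ∀ j ∈ range k, OS (FF d Ψ (t - j) 0) (a / 2 ^ j) (b / 2 ^ j) / (b - a)
          = 1 / 2 ^ (j + 1) * nz (FF d Ψ (t - j) 0) (a / 2 ^ j) (b / 2 ^ j) 0 0 := by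
        intro j _
        unfold nz OS
        have e2 : b / 2 ^ j - a / 2 ^ j = (b - a) / 2 ^ j := by ring
        rw [e2, pow_zero, pow_succ]
        field_simp
      rw [sum_congr rfl this]
      ring
    rw [e1, abs_div, abs_of_pos hℓ, div_le_iff₀ hℓ]
    have h2 := AS_card_le (F := FF d Ψ (t - k) 0) (fun y => hΨ1 _ _) (a := a / 2 ^ k) (b := b / 2 ^ k)
      (div_le_div_of_nonneg_right hab.le (by positivity))
    refine h2.trans ?_
    have h3 : (k : ℝ) ≤ 2 ^ k := by exact_mod_cast Nat.lt_two_pow_self.le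
    have h4 : b / 2 ^ k - a / 2 ^ k ≤ 1 / k * (b - a) := by
      rw [← sub_div, div_mul_eq_mul_div, one_mul]
      exact div_le_div_of_nonneg_left hℓ.le hk0 h3
    have h5 : 1 ≤ 1 / k * (b - a) := by
      rw [div_mul_eq_mul_div, one_mul, one_le_div hk0]
      have h6 : (k : ℝ) ≤ Real.log (b - a) := by
        have : 0 ≤ gm * t := by positivity
        linarith
      have h7 := Real.log_le_sub_one_of_pos hℓ
      linarith
    have e2 : 2 / (k : ℝ) * (b - a) = 1 / k * (b - a) + 1 / k * (b - a) := by ring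
    rw [e2]; linarith
  -- comparison of the levels
  have hcmp : ∀ a b a' b' : ℝ, a < b → a' < b' → gm * t + 40 * k ≤ Real.log (b - a) → gm * t + 40 * k ≤ Real.log (b' - a') →
      |∑ j ∈ range k, 1 / 2 ^ (j + 1) * nz (FF d Ψ (t - j) 0) (a / 2 ^ j) (b / 2 ^ j) 0 0
        - ∑ j ∈ range k, 1 / 2 ^ (j + 1) * nz (FF d Ψ (t - j) 0) (a' / 2 ^ j) (b' / 2 ^ j) 0 0| ≤ (2 * (t / k) + 2) * e := by
    intro a b a' b' hab hab' hl1 hl2
    rw [← sum_sub_distrib]
    refine (abs_sum_le_sum_abs _ _).trans ?_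
    have h1 : ∀ j ∈ range k, |1 / 2 ^ (j + 1) * nz (FF d Ψ (t - j) 0) (a / 2 ^ j) (b / 2 ^ j) 0 0
        - 1 / 2 ^ (j + 1) * nz (FF d Ψ (t - j) 0) (a' / 2 ^ j) (b' / 2 ^ j) 0 0| ≤ 1 / 2 ^ (j + 1) * ((2 * (t / k) + 2) * e) := by
      intro j hj
      rw [mem_range] at hj
      rw [← mul_sub, abs_mul, abs_of_pos (show (0 : ℝ) < 1 / 2 ^ (j + 1) by positivity)]
      apply mul_le_mul_of_nonneg_left _ (by positivity)
      have hjk : (j : ℝ) ≤ k := by exact_mod_cast hj.le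
      have hj0 : (0 : ℝ) ≤ j := Nat.cast_nonneg j
      have hcast : ((t - j : ℕ) : ℝ) = t - j := by rw [Nat.cast_sub (by omega)]
      have hlogj : ∀ u v : ℝ, u < v → gm * t + 40 * k ≤ Real.log (v - u) →
          gm * ((t - j : ℕ) : ℝ) + 38 * k + 0.55 * w * (((t - j : ℕ) : ℝ) / k) ≤ Real.log (v / 2 ^ j - u / 2 ^ j) := by
        intro u v huv hl
        have huv0 : 0 < v - u := by linarith
        rw [← sub_div, Real.log_div huv0.ne' (by positivity), Real.log_pow, hcast]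
        have e1 : 0.55 * (w : ℝ) * ((t - j) / k) ≤ 0.55 * k := by
          have : (w : ℝ) * ((t - j) / k) ≤ k := by
            rw [mul_div_assoc', div_le_iff₀ hk0]
            nlinarith
          linarith
        have e2 : gm * ((t : ℝ) - j) ≤ gm * t := mul_le_mul_of_nonneg_left (by linarith) hgm.le
        have e3 : (j : ℝ) * Real.log 2 ≤ k * 0.7 := mul_le_mul hjk (by linarith) (by linarith) hk0.le
        linarith
      have h2 := htw k w Λ (by omega) hw1 hwk hΛ Ψ hΨ1 hΨ (t - j) 0 0 0 (Nat.zero_le _) (Nat.zero_le _)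
        (a / 2 ^ j) (b / 2 ^ j) (a' / 2 ^ j) (b' / 2 ^ j) (div_lt_div_of_pos_right hab (by positivity))
        (div_lt_div_of_pos_right hab' (by positivity)) (hlogj a b hab hl1) (hlogj a' b' hab' hl2) 0 0
      refine h2.trans ?_
      apply mul_le_mul_of_nonneg_right _ he0
      rw [hcast]
      have : ((t : ℝ) - j) / k ≤ t / k := div_le_div_of_nonneg_right (by linarith) hk0.le
      linarith
    refine (sum_le_sum h1).trans ?_
    rw [← sum_mul]
    have h2 : ∑ j ∈ range k, (1 : ℝ) / 2 ^ (j + 1) ≤ 1 := by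
      have : ∀ k : ℕ, ∑ j ∈ range k, (1 : ℝ) / 2 ^ (j + 1) = 1 - 1 / 2 ^ k := by
        intro k
        induction k with
        | zero => simp
        | succ k ih => rw [sum_range_succ, ih, pow_succ]; field_simp; ring
      rw [this]
      have : (0 : ℝ) < 1 / 2 ^ k := by positivity
      linarith
    have h3 : 0 ≤ (2 * ((t : ℝ) / k) + 2) * e := by positivity
    nlinarith
  have hASx : AS F (x : ℝ) ((x : ℝ) + l) = ∑ n ∈ Ico x (x + l), F n := by
    unfold AS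
    have : (x : ℝ) + l = ((x + l : ℤ) : ℝ) := by push_cast; ring
    rw [this, Int.ceil_intCast, Int.ceil_intCast]
  have hASN : AS F (0 : ℝ) (N : ℝ) = ∑ n ∈ Ico (0 : ℤ) N, F n := by
    unfold AS
    rw [Int.ceil_zero, Int.ceil_natCast]
  have exl : (x : ℝ) + l - x = l := by ring
  have q1 := hlev x (x + l) (by linarith) (by rw [exl]; exact hl)
  have q2 := hlev 0 N hN0 (by rw [sub_zero]; exact hlogN)
  have q3 := hcmp x (x + l) 0 N (by linarith) hN0 (by rw [exl]; exact hl) (by rw [sub_zero]; exact hlogN)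
  rw [hASx, exl] at q1
  rw [hASN, sub_zero] at q2
  have q4 := hdir 0 N (by exact_mod_cast hN0)
  have e0 : ((((N : ℤ) - 0 : ℤ)) : ℝ) = N := by push_cast; ring
  rw [e0] at q4
  have q5 : 2 * (2 : ℝ) ^ (t + Λ) / N ≤ 1 / k := by
    rw [hN]; push_cast
    rw [pow_add 2 (t + Λ) (60 * k), div_le_div_iff₀ (by positivity) hk0, one_mul]
    have h3 : (k : ℝ) ≤ 2 ^ k := by exact_mod_cast Nat.lt_two_pow_self.le
    have h4 : (2 : ℝ) * 2 ^ k ≤ 2 ^ (60 * k) := by
      calc (2 : ℝ) * 2 ^ k = 2 ^ (1 + k) := by rw [pow_add]; norm_num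
        _ ≤ 2 ^ (60 * k) := pow_le_pow_right₀ (by norm_num) (by omega)
    have : (0 : ℝ) < 2 ^ (t + Λ) := by positivity
    nlinarith
  set A1 := (∑ n ∈ Ico x (x + l), F n) / (l : ℝ)
  set A2 := (∑ n ∈ Ico (0 : ℤ) N, F n) / (N : ℝ)
  set B1 := ∑ j ∈ range k, 1 / 2 ^ (j + 1) * nz (FF d Ψ (t - j) 0) ((x : ℝ) / 2 ^ j) (((x : ℝ) + l) / 2 ^ j) 0 0
  set B2 := ∑ j ∈ range k, 1 / 2 ^ (j + 1) * nz (FF d Ψ (t - j) 0) (0 / 2 ^ j) ((N : ℝ) / 2 ^ j) 0 0
  have hfin : |A1 - pm (t + Λ) F| ≤ (2 * (t / k) + 2) * e + 5 * (1 / k) := by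
    have h1 := abs_le.1 q1
    have h2 := abs_le.1 q2
    have h3 := abs_le.1 q3
    have h4 := abs_le.1 q4
    have e5 : 2 / (k : ℝ) = 2 * (1 / k) := by ring
    rw [e5] at h1 h2
    rw [abs_le]
    constructor <;> linarith [h1.1, h1.2, h2.1, h2.2, h3.1, h3.2, h4.1, h4.2]
  refine hfin.trans ?_
  -- numerical
  have htk0 : (0 : ℝ) ≤ t / k := by positivity
  have s1 : 2 * ((t : ℝ) / k) + 2 = 2 * ((t + k) / k) := by field_simp
  have s2 : e ≤ (C + 10) * ((t + k) ^ 2 / k ^ 3) := by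
    have h1 : 1 / (k : ℝ) ≤ (t + k) ^ 2 / k ^ 3 := by
      rw [div_le_div_iff₀ hk0 (by positivity), one_mul]
      have : (k : ℝ) ^ 2 ≤ ((t : ℝ) + k) ^ 2 := pow_le_pow_left₀ hk0.le (by linarith) 2
      calc (k : ℝ) ^ 3 = (k : ℝ) ^ 2 * k := by ring
        _ ≤ ((t : ℝ) + k) ^ 2 * k := mul_le_mul_of_nonneg_right this hk0.le
    have h2 : (t : ℝ) ^ 2 / k ^ 3 ≤ (t + k) ^ 2 / k ^ 3 := by
      apply div_le_div_of_nonneg_right _ (by positivity)
      exact pow_le_pow_left₀ ht0 (by linarith) 2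
    have e6 : C / (k : ℝ) = C * (1 / k) := by ring
    have e7 : 2 / (k : ℝ) = 2 * (1 / k) := by ring
    have e8 : 8 * (t : ℝ) ^ 2 / k ^ 3 = 8 * (t ^ 2 / k ^ 3) := by ring
    rw [e7, e8] at hwb
    rw [he, e6]
    nlinarith
  have s3 : (2 * ((t : ℝ) / k) + 2) * e ≤ 2 * (C + 10) * E := by
    rw [s1]
    calc 2 * (((t : ℝ) + k) / k) * e ≤ 2 * ((t + k) / k) * ((C + 10) * ((t + k) ^ 2 / k ^ 3)) :=
          mul_le_mul_of_nonneg_left s2 (by positivity)
      _ = 2 * (C + 10) * E := by rw [hE]; field_simp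
  have s4 : 5 * (1 / (k : ℝ)) ≤ 5 * E := by linarith
  nlinarith

end Pool.Agent.KS6_24.LN
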