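import Mathlib
import Pool.Agent.KS6_24.LN.A

/-! TWO WALKERS: `S_TW d` from `S_TV d` (helper6). -/

set_option autoImplicit false

namespace Pool.Agent.KS6_24.LN.TW

open Pool.Agent.H499R2.CO Pool.Agent.Y965.SI Finset Pool.Agent.KS6_24.LN

/-- `U n φ a = E φ (a + Bin (n, 1/2))` -/
noncomputable def U : ℕ → (ℕ → ℝ) → ℕ → ℝ
  | 0, φ, a => φ a
  | n + 1, φ, a => (U n φ a + U n φ (a + 1)) / 2

theorem U_zero (φ : ℕ → ℝ) (a : ℕ) : U 0 φ a = φ a := rfl

theorem U_succ (n : ℕ) (φ : ℕ → ℝ) (a : ℕ) : U (n + 1) φ a = (U n φ a + U n φ (a + 1)) / 2 := rfl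

/-- first difference of `U n φ` -/
noncomputable def Df (n : ℕ) (φ : ℕ → ℝ) (a : ℕ) : ℝ := U n φ (a + 1) - U n φ a

theorem Df_succ (n : ℕ) (φ : ℕ → ℝ) (a : ℕ) : Df (n + 1) φ a = (Df n φ a + Df n φ (a + 1)) / 2 := by
  simp only [Df, U_succ]; ring

theorem Df_le {φ : ℕ → ℝ} {δ : ℝ} (h : ∀ a, |φ (a + 1) - φ a| ≤ δ) (n : ℕ) : ∀ a, |Df n φ a| ≤ δ := by
  induction n with
  | zero => intro a; exact h a
  | succ n ih =>
    intro a
    rw [Df_succ]
    have h1 := abs_le.1 (ih a)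
    have h2 := abs_le.1 (ih (a + 1))
    rw [abs_le]; constructor <;> linarith [h1.1, h1.2, h2.1, h2.2]

theorem Df_lip {φ : ℕ → ℝ} {δ : ℝ} (h : ∀ a, |φ (a + 2) - 2 * φ (a + 1) + φ a| ≤ δ) (n : ℕ) :
    ∀ a, |Df n φ (a + 1) - Df n φ a| ≤ δ := by
  induction n with
  | zero =>
    intro a
    have h1 : Df 0 φ (a + 1) - Df 0 φ a = φ (a + 2) - 2 * φ (a + 1) + φ a := by
      simp only [Df, U_zero]; ring
    rw [h1]; exact h a
  | succ n ih =>
    intro a
    rw [Df_succ, Df_succ]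
    have h1 := abs_le.1 (ih a)
    have h2 := abs_le.1 (ih (a + 1))
    rw [abs_le]; constructor <;> linarith [h1.1, h1.2, h2.1, h2.2]

theorem Df_lip' {φ : ℕ → ℝ} {δ : ℝ} (h : ∀ a, |φ (a + 2) - 2 * φ (a + 1) + φ a| ≤ δ) (n a i : ℕ) :
    |Df n φ (a + i) - Df n φ a| ≤ i * δ := by
  induction i with
  | zero => simp
  | succ i ih =>
    have h1 := Df_lip h n (a + i)
    have h2 : Df n φ (a + (i + 1)) - Df n φ a
        = (Df n φ (a + i + 1) - Df n φ (a + i)) + (Df n φ (a + i) - Df n φ a) := by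
      rw [← add_assoc]; ring
    rw [h2]
    refine (abs_add_le _ _).trans ?_
    push_cast; linarith

theorem Df_time {φ : ℕ → ℝ} {δ : ℝ} (h : ∀ a, |φ (a + 2) - 2 * φ (a + 1) + φ a| ≤ δ) (n a i : ℕ) :
    |Df (n + i) φ a - Df n φ a| ≤ i * δ / 2 := by
  induction i with
  | zero => simp
  | succ i ih =>
    have h1 := Df_lip h (n + i) a
    have h2 : Df (n + (i + 1)) φ a - Df n φ a
        = (Df (n + i) φ (a + 1) - Df (n + i) φ a) / 2 + (Df (n + i) φ a - Df n φ a) := by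
      rw [← add_assoc, Df_succ]; ring
    rw [h2]
    refine (abs_add_le _ _).trans ?_
    rw [abs_div, abs_of_pos (show (0 : ℝ) < 2 by norm_num)]
    push_cast; linarith

/-- the factor changes little in a block -/
theorem Df_block {φ : ℕ → ℝ} {δ : ℝ} (h : ∀ a, |φ (a + 2) - 2 * φ (a + 1) + φ a| ≤ δ) (n a a' i : ℕ)
    (h1 : a ≤ a') (h2 : a' ≤ a + i) : |Df n φ a' - Df (n + i) φ a| ≤ 3 / 2 * i * δ := by
  obtain ⟨r, rfl⟩ := Nat.exists_eq_add_of_le h1
  have hδ : 0 ≤ δ := (abs_nonneg _).trans (h 0)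
  have hr : (r : ℝ) ≤ i := by exact_mod_cast (show r ≤ i by omega)
  have e1 := Df_lip' h n a r
  have e2 := Df_time h n a i
  have e3 : Df n φ (a + r) - Df (n + i) φ a
      = (Df n φ (a + r) - Df n φ a) - (Df (n + i) φ a - Df n φ a) := by ring
  rw [e3]
  refine (abs_sub _ _).trans ?_
  nlinarith [mul_le_mul_of_nonneg_right hr hδ]

/-! ### signs -/

/-- the sign `(-1)^x` -/
noncomputable def sg (x : ℤ) : ℝ := if x % 2 = 1 then -1 else 1

theorem sg_sq (x : ℤ) : sg x * sg x = 1 := by unfold sg; split_ifs <;> norm_num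

theorem abs_sg (x : ℤ) : |sg x| = 1 := by unfold sg; split_ifs <;> simp

theorem sg_odd {x u : ℤ} (hu : u % 2 = 1) : sg (x + u) = - sg x := by
  unfold sg
  rcases Int.emod_two_eq_zero_or_one x with h | h
  · rw [if_pos (by omega), if_neg (by omega)]
  · rw [if_neg (by omega), if_pos (by omega)]; norm_num

theorem sg_even {x u : ℤ} (hu : u % 2 = 0) : sg (x + u) = sg x := by
  unfold sg
  rcases Int.emod_two_eq_zero_or_one x with h | h
  · rw [if_neg (by omega), if_neg (by omega)]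
  · rw [if_pos (by omega), if_pos (by omega)]

theorem three_pow_odd (n : ℕ) : (3 : ℤ) ^ n % 2 = 1 := by
  induction n with
  | zero => norm_num
  | succ n ih => rw [pow_succ]; omega

theorem iter_pow {d : ℤ} (hd : d % 2 = 1) (j : ℕ) (y : ℤ) :
    (Tz d)^[j] (y + 2 ^ j) = (Tz d)^[j] y + 3 ^ (od d j y) := by
  have := iter_add' hd j y 1
  rw [one_mul, mul_one] at this
  exact this

theorem od_pow {d : ℤ} (hd : d % 2 = 1) (j : ℕ) (y : ℤ) : od d j (y + 2 ^ j) = od d j y := by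
  have := od_per hd j y 1
  rw [one_mul] at this
  exact this

/-- the parity of `T^i v` is `2^Λ`-periodic for `i < Λ` -/
theorem sg_per {d : ℤ} (hd : d % 2 = 1) {i Λ : ℕ} (h : i < Λ) (v m : ℤ) :
    sg ((Tz d)^[i] (v + m * 2 ^ Λ)) = sg ((Tz d)^[i] v) := by
  obtain ⟨r, rfl⟩ : ∃ r, Λ = i + (r + 1) := ⟨Λ - i - 1, by omega⟩
  have h1 : m * (2 : ℤ) ^ (i + (r + 1)) = (m * 2 ^ r * 2) * 2 ^ i := by rw [pow_add, pow_succ]; ring
  rw [h1, iter_add' hd]
  apply sg_even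
  rw [← mul_assoc]
  exact Int.mul_emod_left _ _

theorem sg_flip {d : ℤ} (hd : d % 2 = 1) (i : ℕ) (v : ℤ) :
    sg ((Tz d)^[i] (v + 2 ^ i)) = - sg ((Tz d)^[i] v) := by
  rw [iter_pow hd]; exact sg_odd (three_pow_odd _)

/-- orthogonality of the parities -/
theorem pm_sg {d : ℤ} (hd : d % 2 = 1) {i j Λ : ℕ} (hi : i < j) (hj : j < Λ) :
    pm Λ (fun v => sg ((Tz d)^[i] v) * sg ((Tz d)^[j] v)) = 0 := by
  have hP : Per Λ (fun v => sg ((Tz d)^[i] v) * sg ((Tz d)^[j] v)) := by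
    intro v m
    simp only []
    rw [sg_per hd (by omega), sg_per hd hj]
  have h1 := pm_shift hP (2 ^ j)
  have h2 : pm Λ (fun v => sg ((Tz d)^[i] (v + 2 ^ j)) * sg ((Tz d)^[j] (v + 2 ^ j)))
      = pm Λ (fun v => (-1) * (sg ((Tz d)^[i] v) * sg ((Tz d)^[j] v))) := by
    apply pm_congr
    intro v
    have h3 := sg_per hd hi v 1
    rw [one_mul] at h3
    rw [sg_flip hd, h3]; ring
  rw [h2, pm_mul] at h1
  linarith

theorem pm_sg_self {d : ℤ} (i Λ : ℕ) :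
    pm Λ (fun v => sg ((Tz d)^[i] v) * sg ((Tz d)^[i] v)) = 1 := by
  simp only [sg_sq]; exact pm_const _ _

/-- `T^m` maps the uniform distribution mod `2^(m+Λ)` to the one mod `2^Λ` -/
theorem pm_iter {d : ℤ} (hd : d % 2 = 1) (m Λ : ℕ) {F : ℤ → ℝ} (hF : Per Λ F) :
    pm (m + Λ) (fun y => F ((Tz d)^[m] y)) = pm Λ F := by
  rw [pm_split]
  have : ∀ x : ℤ, pm Λ (fun u => F ((Tz d)^[m] (x + 2 ^ m * u))) = pm Λ F := by
    intro x
    rw [← pm_affine hF (three_pow_odd (od d m x)) ((Tz d)^[m] x)]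
    apply pm_congr
    intro u
    rw [(iter_add hd m x u).1, add_comm]
  simp only [this]
  exact pm_const _ _

/-- second moment of a block of signs -/
theorem pm_block {d : ℤ} (hd : d % 2 = 1) {n Λ : ℕ} (hn : n ≤ Λ) (c : ℕ → ℝ) (hc : ∀ i, c i * c i = 1) :
    pm Λ (fun v => (∑ i ∈ range n, c i * sg ((Tz d)^[i] v)) ^ 2) = n := by
  have h1 : ∀ v : ℤ, (∑ i ∈ range n, c i * sg ((Tz d)^[i] v)) ^ 2
      = ∑ i ∈ range n, ∑ j ∈ range n, (c i * c j) * (sg ((Tz d)^[i] v) * sg ((Tz d)^[j] v)) := by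
    intro v
    rw [sq, sum_mul_sum]
    apply sum_congr rfl; intro i _
    apply sum_congr rfl; intro j _
    ring
  simp only [h1]
  rw [pm_sum]
  have h2 : ∀ i ∈ range n, pm Λ (fun v => ∑ j ∈ range n, (c i * c j) *
      (sg ((Tz d)^[i] v) * sg ((Tz d)^[j] v))) = 1 := by
    intro i hi
    rw [mem_range] at hi
    rw [pm_sum, sum_eq_single i]
    · rw [pm_mul, pm_sg_self, hc, mul_one]
    · intro j hj hij
      rw [mem_range] at hj
      rw [pm_mul]
      rcases lt_or_gt_of_ne hij with h | h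
      · have : pm Λ (fun v => sg ((Tz d)^[i] v) * sg ((Tz d)^[j] v)) = 0 := by
          rw [← pm_sg hd h (by omega : i < Λ)]
          apply pm_congr; intro v; ring
        rw [this, mul_zero]
      · rw [pm_sg hd h (by omega : j < Λ), mul_zero]
    · intro h; exact absurd (mem_range.2 hi) h
  rw [sum_congr rfl h2, sum_const, card_range, nsmul_eq_mul, mul_one]

/-! ### the telescoping identity -/

/-- the pointwise identity -/
theorem step_point {d : ℤ} (hd : d % 2 = 1) (n j : ℕ) (φ ψ : ℕ → ℝ) (y z : ℤ) :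
    (U n φ (od d (j + 1) y) * U n ψ (od d (j + 1) z)
      + U n φ (od d (j + 1) (y + 2 ^ j)) * U n ψ (od d (j + 1) (z + 2 ^ j))) / 2
      = U (n + 1) φ (od d j y) * U (n + 1) ψ (od d j z)
        + sg ((Tz d)^[j] y) * sg ((Tz d)^[j] z) * (Df n φ (od d j y) * Df n ψ (od d j z)) / 4 := by
  rw [od_succ', od_succ', od_succ', od_succ', od_pow hd, od_pow hd, iter_pow hd, iter_pow hd,
    U_succ, U_succ]
  have e1 := three_pow_odd (od d j y)
  have e2 := three_pow_odd (od d j z)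
  generalize (3 : ℤ) ^ od d j y = P at e1 ⊢
  generalize (3 : ℤ) ^ od d j z = Q at e2 ⊢
  generalize (Tz d)^[j] y = Y
  generalize (Tz d)^[j] z = Z
  unfold sg Df
  rcases Int.emod_two_eq_zero_or_one Y with hY | hY <;> rcases Int.emod_two_eq_zero_or_one Z with hZ | hZ
  · rw [if_neg (by omega), if_neg (by omega), if_pos (by omega), if_pos (by omega),
      if_neg (by omega), if_neg (by omega)]
    simp only [add_zero]; ring
  · rw [if_neg (by omega), if_pos (by omega), if_pos (by omega), if_neg (by omega),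
      if_neg (by omega), if_pos (by omega)]
    simp only [add_zero]; ring
  · rw [if_pos (by omega), if_neg (by omega), if_neg (by omega), if_pos (by omega),
      if_pos (by omega), if_neg (by omega)]
    simp only [add_zero]; ring
  · rw [if_pos (by omega), if_pos (by omega), if_neg (by omega), if_neg (by omega),
      if_pos (by omega), if_pos (by omega)]
    simp only [add_zero]; ring

theorem per_F {d : ℤ} (hd : d % 2 = 1) {j t : ℕ} (hj : j ≤ t) (Φ Ψ : ℕ → ℝ) (h : ℤ) :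
    Per t (fun y => Φ (od d j y) * Ψ (od d j (y + h))) := by
  intro y m
  simp only []
  have e : y + m * 2 ^ t + h = (y + h) + m * 2 ^ t := by ring
  rw [e, od_per_le hd hj, od_per_le hd hj]

/-- the increments -/
noncomputable def X (d : ℤ) (t : ℕ) (φ ψ : ℕ → ℝ) (h : ℤ) (j : ℕ) : ℝ :=
  pm t (fun y => sg ((Tz d)^[j] y) * sg ((Tz d)^[j] (y + h)) *
    (Df (t - j - 1) φ (od d j y) * Df (t - j - 1) ψ (od d j (y + h))) / 4)

theorem step_pm {d : ℤ} (hd : d % 2 = 1) {t j : ℕ} (hj : j < t) (φ ψ : ℕ → ℝ) (h : ℤ) :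
    pm t (fun y => U (t - (j + 1)) φ (od d (j + 1) y) * U (t - (j + 1)) ψ (od d (j + 1) (y + h)))
      = pm t (fun y => U (t - j) φ (od d j y) * U (t - j) ψ (od d j (y + h))) + X d t φ ψ h j := by
  set n := t - (j + 1) with hn
  have hn1 : t - j = n + 1 := by omega
  have hn2 : t - j - 1 = n := by omega
  have hP := per_F hd (show j + 1 ≤ t by omega) (U n φ) (U n ψ) h
  have h1 := pm_shift hP (2 ^ j)
  have h2 : pm t (fun y => U n φ (od d (j + 1) y) * U n ψ (od d (j + 1) (y + h)))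
      = pm t (fun y => (U n φ (od d (j + 1) y) * U n ψ (od d (j + 1) (y + h))
        + U n φ (od d (j + 1) (y + 2 ^ j)) * U n ψ (od d (j + 1) (y + h + 2 ^ j))) / 2) := by
    have h3 : pm t (fun y => (U n φ (od d (j + 1) y) * U n ψ (od d (j + 1) (y + h))
        + U n φ (od d (j + 1) (y + 2 ^ j)) * U n ψ (od d (j + 1) (y + h + 2 ^ j))) / 2)
        = pm t (fun y => (1 / 2) * ((U n φ (od d (j + 1) y) * U n ψ (od d (j + 1) (y + h)))
        + U n φ (od d (j + 1) (y + 2 ^ j)) * U n ψ (od d (j + 1) (y + 2 ^ j + h)))) := by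
      apply pm_congr; intro y
      rw [show y + h + 2 ^ j = y + 2 ^ j + h by ring]; ring
    rw [h3, pm_mul, pm_add, h1]; ring
  rw [h2, X, ← pm_add, hn2, hn1]
  apply pm_congr; intro y
  exact step_point hd n j φ ψ y (y + h)

theorem tele {d : ℤ} (hd : d % 2 = 1) (t : ℕ) (φ ψ : ℕ → ℝ) (h : ℤ) :
    ∀ j, j ≤ t → pm t (fun y => U (t - j) φ (od d j y) * U (t - j) ψ (od d j (y + h)))
      = U t φ 0 * U t ψ 0 + ∑ i ∈ range j, X d t φ ψ h i := by
  intro j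
  induction j with
  | zero =>
    intro _
    simp only [od_zero, Nat.sub_zero, range_zero, sum_empty, add_zero]
    exact pm_const _ _
  | succ j ih =>
    intro hj
    rw [step_pm hd (by omega), ih (by omega), sum_range_succ]; ring

theorem X_const {d : ℤ} (t : ℕ) (φ : ℕ → ℝ) (h : ℤ) (j : ℕ) : X d t φ (fun _ => 1) h j = 0 := by
  have h0 : ∀ n a, U n (fun _ => (1 : ℝ)) a = 1 := by
    intro n
    induction n with
    | zero => intro a; rfl
    | succ n ih => intro a; rw [U_succ, ih, ih]; norm_num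
  have h1 : ∀ n a, Df n (fun _ => (1 : ℝ)) a = 0 := by
    intro n a; rw [Df, h0, h0]; norm_num
  unfold X
  simp only [h1, mul_zero, zero_div]
  exact pm_const _ _

theorem U_const_one (n a : ℕ) : U n (fun _ => (1 : ℝ)) a = 1 := by
  induction n generalizing a with
  | zero => rfl
  | succ n ih => rw [U_succ, ih, ih]; norm_num

theorem pm_od {d : ℤ} (hd : d % 2 = 1) (t : ℕ) (φ : ℕ → ℝ) : pm t (fun y => φ (od d t y)) = U t φ 0 := by
  have h1 := tele hd t φ (fun _ => 1) 0 t le_rfl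
  simp only [Nat.sub_self, U_zero, mul_one, X_const, sum_const_zero, add_zero, U_const_one] at h1
  exact h1

theorem cov_eq {d : ℤ} (hd : d % 2 = 1) (t : ℕ) (φ ψ : ℕ → ℝ) (h : ℤ) :
    pm t (fun y => φ (od d t y) * ψ (od d t (y + h)))
      - pm t (fun y => φ (od d t y)) * pm t (fun y => ψ (od d t y)) = ∑ i ∈ range t, X d t φ ψ h i := by
  have h1 := tele hd t φ ψ h t le_rfl
  simp only [Nat.sub_self, U_zero] at h1
  rw [h1, pm_od hd, pm_od hd]; ring

/-! ### blocks -/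

theorem od_mono_add (d : ℤ) (m i : ℕ) (y : ℤ) : od d m y ≤ od d (m + i) y ∧ od d (m + i) y ≤ od d m y + i := by
  rw [od_add]
  have := od_le d i ((Tz d)^[m] y)
  omega

/-- the block sum of the increments -/
theorem block_le {d : ℤ} {t : ℕ} {φ ψ : ℕ → ℝ} {δ₁ δ₂ : ℝ}
    (hφ1 : ∀ a, |φ (a + 1) - φ a| ≤ δ₁) (hψ1 : ∀ a, |ψ (a + 1) - ψ a| ≤ δ₁)
    (hφ2 : ∀ a, |φ (a + 2) - 2 * φ (a + 1) + φ a| ≤ δ₂) (hψ2 : ∀ a, |ψ (a + 2) - 2 * ψ (a + 1) + ψ a| ≤ δ₂)
    (h : ℤ) {m n Λ : ℕ} (hn : n ≤ Λ) (hmn : m + n ≤ t) :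
    |∑ i ∈ range n, X d t φ ψ h (m + i)|
      ≤ 3 / 4 * n * Λ * (δ₁ * δ₂)
        + δ₁ ^ 2 / 4 * pm t (fun y => |∑ i ∈ range n, sg ((Tz d)^[m + i] y) * sg ((Tz d)^[m + i] (y + h))|) := by
  have hδ1 : 0 ≤ δ₁ := (abs_nonneg _).trans (hφ1 0)
  have hδ2 : 0 ≤ δ₂ := (abs_nonneg _).trans (hφ2 0)
  unfold X
  rw [← pm_sum]
  refine (abs_pm_le _ _).trans ?_
  rw [← pm_mul]
  rw [← pm_const t (3 / 4 * n * Λ * (δ₁ * δ₂)), ← pm_add]
  apply pm_mono
  intro y
  set s : ℕ → ℝ := fun i => sg ((Tz d)^[m + i] y) * sg ((Tz d)^[m + i] (y + h)) with hs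
  have hs1 : ∀ i, |s i| = 1 := by intro i; rw [hs]; simp only []; rw [abs_mul, abs_sg, abs_sg, one_mul]
  set A := Df (t - m - 1) φ (od d m y) with hA
  set B := Df (t - m - 1) ψ (od d m (y + h)) with hB
  have hA1 : |A| ≤ δ₁ := Df_le hφ1 _ _
  have hB1 : |B| ≤ δ₁ := Df_le hψ1 _ _
  have hsplit : ∑ i ∈ range n, sg ((Tz d)^[m + i] y) * sg ((Tz d)^[m + i] (y + h)) *
      (Df (t - (m + i) - 1) φ (od d (m + i) y) * Df (t - (m + i) - 1) ψ (od d (m + i) (y + h))) / 4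
      = A * B / 4 * (∑ i ∈ range n, s i) + ∑ i ∈ range n, s i * (Df (t - (m + i) - 1) φ (od d (m + i) y)
        * Df (t - (m + i) - 1) ψ (od d (m + i) (y + h)) - A * B) / 4 := by
    rw [mul_sum, ← sum_add_distrib]
    apply sum_congr rfl; intro i _
    simp only [hs]; ring
  rw [hsplit]
  refine (abs_add_le _ _).trans ?_
  have t1 : |A * B / 4 * (∑ i ∈ range n, s i)| ≤ δ₁ ^ 2 / 4 * |∑ i ∈ range n, s i| := by
    rw [abs_mul, abs_div, abs_mul, abs_of_pos (show (0 : ℝ) < 4 by norm_num)]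
    apply mul_le_mul_of_nonneg_right _ (abs_nonneg _)
    have := mul_le_mul hA1 hB1 (abs_nonneg _) hδ1
    rw [sq]; linarith
  have t2 : |∑ i ∈ range n, s i * (Df (t - (m + i) - 1) φ (od d (m + i) y)
        * Df (t - (m + i) - 1) ψ (od d (m + i) (y + h)) - A * B) / 4| ≤ 3 / 4 * n * Λ * (δ₁ * δ₂) := by
    refine (abs_sum_le_sum_abs _ _).trans ?_
    have hterm : ∀ i ∈ range n, |s i * (Df (t - (m + i) - 1) φ (od d (m + i) y)
        * Df (t - (m + i) - 1) ψ (od d (m + i) (y + h)) - A * B) / 4| ≤ 3 / 4 * Λ * (δ₁ * δ₂) := by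
      intro i hi
      rw [mem_range] at hi
      have e1 : t - m - 1 = (t - (m + i) - 1) + i := by omega
      have o1 := od_mono_add d m i y
      have o2 := od_mono_add d m i (y + h)
      have b1 := Df_block hφ2 (t - (m + i) - 1) (od d m y) (od d (m + i) y) i o1.1 o1.2
      have b2 := Df_block hψ2 (t - (m + i) - 1) (od d m (y + h)) (od d (m + i) (y + h)) i o2.1 o2.2
      rw [← e1] at b1 b2
      rw [← hA] at b1
      rw [← hB] at b2
      set A' := Df (t - (m + i) - 1) φ (od d (m + i) y) with hA'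
      set B' := Df (t - (m + i) - 1) ψ (od d (m + i) (y + h)) with hB'
      have hA2 : |A'| ≤ δ₁ := Df_le hφ1 _ _
      have hi2 : (i : ℝ) ≤ Λ := by exact_mod_cast (show i ≤ Λ by omega)
      have b3 : 3 / 2 * (i : ℝ) * δ₂ ≤ 3 / 2 * Λ * δ₂ := by
        apply mul_le_mul_of_nonneg_right _ hδ2; linarith
      have e2 : A' * B' - A * B = A' * (B' - B) + (A' - A) * B := by ring
      rw [abs_div, abs_mul, hs1, one_mul, abs_of_pos (show (0 : ℝ) < 4 by norm_num), e2]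
      have b4 : |A' * (B' - B) + (A' - A) * B| ≤ 3 * Λ * (δ₁ * δ₂) := by
        refine (abs_add_le _ _).trans ?_
        rw [abs_mul, abs_mul]
        have c1 := mul_le_mul hA2 (b2.trans b3) (abs_nonneg _) hδ1
        have c2 := mul_le_mul (b1.trans b3) hB1 (abs_nonneg _) (by positivity)
        nlinarith
      linarith
    refine (sum_le_sum hterm).trans ?_
    rw [sum_const, card_range, nsmul_eq_mul]
    apply le_of_eq; ring
  linarith

/-- mean over `h` of a block of signs, for fixed `y` -/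
theorem sign_block {d : ℤ} (hd : d % 2 = 1) {C : ℝ} (hC : 0 < C)
    (hTV : ∀ t k Λ : ℕ, C ≤ k → Λ ≤ k →
  ∀ Ψ : ℕ → ℤ → ℝ, (∀ a x, |Ψ a x| ≤ 1) → (∀ a, Per Λ (Ψ a)) →
  ∀ (x : ℤ) (l : ℕ), gm * t + 40 * k ≤ Real.log l →
    |(∑ i ∈ range l, Ψ (od d t (x + (i : ℕ))) ((Tz d)^[t] (x + (i : ℕ)))) / l
      - pm (t + Λ) (fun y => Ψ (od d t y) ((Tz d)^[t] y))| ≤ C * ((t + k : ℝ) ^ 3 / (k : ℝ) ^ 4))
    {t k Λ l m n : ℕ} (hk : C ≤ k) (hΛ1 : 1 ≤ Λ) (hΛ : Λ ≤ k) (hl : gm * m + 40 * k ≤ Real.log l)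
    (hl0 : 0 < l) (hn : n ≤ Λ) (hm : m ≤ t) (y : ℤ) :
    (∑ h ∈ range l, |∑ i ∈ range n, sg ((Tz d)^[m + i] y) * sg ((Tz d)^[m + i] (y + (h : ℕ)))|) / l
      ≤ Λ * ((1 + C) * √ (1 / Λ + (t + k : ℝ) ^ 3 / (k : ℝ) ^ 4)) := by
  have hk0 : (0 : ℝ) < k := lt_of_lt_of_le hC hk
  have hΛ0 : (0 : ℝ) < Λ := by exact_mod_cast hΛ1
  have hl1 : (0 : ℝ) < l := by exact_mod_cast hl0
  set c : ℕ → ℝ := fun i => sg ((Tz d)^[m + i] y) with hc
  have hcc : ∀ i, c i * c i = 1 := fun i => sg_sq _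
  set P : ℤ → ℝ := fun v => (∑ i ∈ range n, c i * sg ((Tz d)^[i] v)) ^ 2 / Λ ^ 2 with hP
  have hPper : Per Λ P := by
    intro v q
    simp only [hP]
    congr 2
    apply sum_congr rfl
    intro i hi
    rw [mem_range] at hi
    rw [sg_per hd (by omega)]
  have hnΛ : (n : ℝ) ≤ Λ := by exact_mod_cast hn
  have hPle : ∀ v, |P v| ≤ 1 := by
    intro v
    simp only [hP]
    rw [abs_of_nonneg (by positivity), div_le_one (by positivity)]
    have h1 : |∑ i ∈ range n, c i * sg ((Tz d)^[i] v)| ≤ Λ := by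
      refine (abs_sum_le_sum_abs _ _).trans ?_
      have : ∀ i ∈ range n, |c i * sg ((Tz d)^[i] v)| ≤ 1 := by
        intro i _; rw [abs_mul, hc]; simp only [abs_sg]; norm_num
      refine (sum_le_sum this).trans ?_
      rw [sum_const, card_range, nsmul_eq_mul, mul_one]; exact hnΛ
    rw [← sq_abs]
    exact pow_le_pow_left₀ (abs_nonneg _) h1 2
  have hV := hTV m k Λ hk hΛ (fun _ => P) (fun _ => hPle) (fun _ => hPper) y l hl
  rw [pm_iter hd m Λ hPper] at hV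
  have hpm : pm Λ P = n / Λ ^ 2 := by
    have : pm Λ P = pm Λ (fun v => (1 / (Λ : ℝ) ^ 2) * (∑ i ∈ range n, c i * sg ((Tz d)^[i] v)) ^ 2) := by
      apply pm_congr; intro v; simp only [hP]; ring
    rw [this, pm_mul, pm_block hd hn c hcc]; ring
  rw [hpm] at hV
  have herr : ((m : ℝ) + k) ^ 3 / (k : ℝ) ^ 4 ≤ (t + k : ℝ) ^ 3 / (k : ℝ) ^ 4 := by
    apply div_le_div_of_nonneg_right _ (by positivity)
    apply pow_le_pow_left₀ (by positivity)
    have : (m : ℝ) ≤ t := by exact_mod_cast hm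
    linarith
  set E := (t + k : ℝ) ^ 3 / (k : ℝ) ^ 4 with hE
  have hE0 : 0 ≤ E := by rw [hE]; positivity
  -- second moment
  have hmom : (∑ h ∈ range l, (∑ i ∈ range n, sg ((Tz d)^[m + i] y) * sg ((Tz d)^[m + i] (y + (h : ℕ)))) ^ 2) / l
      ≤ Λ ^ 2 * (1 / Λ + C * E) := by
    have h1 : ∀ h ∈ range l, (∑ i ∈ range n, sg ((Tz d)^[m + i] y) * sg ((Tz d)^[m + i] (y + (h : ℕ)))) ^ 2
        = Λ ^ 2 * P ((Tz d)^[m] (y + (h : ℕ))) := by
      intro h _
      simp only [hP]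
      have h2 : ∑ i ∈ range n, sg ((Tz d)^[m + i] y) * sg ((Tz d)^[m + i] (y + (h : ℕ)))
          = ∑ i ∈ range n, c i * sg ((Tz d)^[i] ((Tz d)^[m] (y + (h : ℕ)))) := by
        apply sum_congr rfl; intro i _
        rw [← Function.iterate_add_apply, add_comm i m]
      rw [h2]
      field_simp
    rw [sum_congr rfl h1, ← mul_sum, mul_div_assoc]
    apply mul_le_mul_of_nonneg_left _ (by positivity)
    have h3 := (abs_le.1 hV).2
    have h4 : (n : ℝ) / Λ ^ 2 ≤ 1 / Λ := by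
      rw [div_le_div_iff₀ (by positivity) hΛ0]; nlinarith
    have h5 : C * (((m : ℝ) + k) ^ 3 / (k : ℝ) ^ 4) ≤ C * E := mul_le_mul_of_nonneg_left herr hC.le
    linarith
  -- Cauchy-Schwarz
  set Z : ℕ → ℝ := fun h => ∑ i ∈ range n, sg ((Tz d)^[m + i] y) * sg ((Tz d)^[m + i] (y + (h : ℕ))) with hZ
  have hCS : (∑ h ∈ range l, |Z h|) ^ 2 ≤ l * ∑ h ∈ range l, Z h ^ 2 := by
    have := sum_mul_sq_le_sq_mul_sq (range l) (fun _ => (1 : ℝ)) (fun h => |Z h|)
    simpa using this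
  have hsq : ((∑ h ∈ range l, |Z h|) / l) ^ 2 ≤ (Λ * √ (1 / Λ + C * E)) ^ 2 := by
    rw [div_pow, mul_pow, Real.sq_sqrt (by positivity)]
    refine le_trans ?_ hmom
    rw [div_le_div_iff₀ (by positivity) hl1]
    nlinarith
  have h6 := abs_le_of_sq_le_sq' hsq (by positivity)
  refine h6.2.trans ?_
  apply mul_le_mul_of_nonneg_left _ hΛ0.le
  have h7 : √ (1 / Λ + C * E) ≤ √ ((1 + C) ^ 2 * (1 / Λ + E)) := by
    apply Real.sqrt_le_sqrt
    have h8 : 0 ≤ 1 / (Λ : ℝ) := by positivity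
    have h9 : 1 ≤ (1 + C) ^ 2 := by nlinarith
    have h10 : C ≤ (1 + C) ^ 2 := by nlinarith
    nlinarith [mul_le_mul_of_nonneg_right h9 h8, mul_le_mul_of_nonneg_right h10 hE0]
  refine h7.trans ?_
  rw [Real.sqrt_mul (by positivity), Real.sqrt_sq (by positivity)]

theorem gm_nonneg : 0 ≤ gm := by
  unfold gm
  have h1 : Real.log 3 ≤ Real.log 4 := Real.log_le_log (by norm_num) (by norm_num)
  have h2 : Real.log 4 = 2 * Real.log 2 := by
    rw [show (4 : ℝ) = 2 ^ 2 by norm_num, Real.log_pow]; norm_num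
  linarith

/-- **TWO WALKERS.** -/
theorem s_tw {d : ℤ} (hd : d % 2 = 1) (h : S_TV d) : S_TW d := by
  obtain ⟨C, hC, hTV⟩ := h
  refine ⟨1 + C, by linarith, ?_⟩
  intro t k Λ l hk hΛ1 hΛ hl φ ψ δ₁ δ₂ hφ1 hψ1 hφ2 hψ2
  have hk' : C ≤ k := by linarith
  have hk0 : (0 : ℝ) < k := lt_of_lt_of_le hC hk'
  have hΛ0 : (0 : ℝ) < Λ := by exact_mod_cast hΛ1
  have hδ1 : 0 ≤ δ₁ := (abs_nonneg _).trans (hφ1 0)
  have hδ2 : 0 ≤ δ₂ := (abs_nonneg _).trans (hφ2 0)
  have hl0 : 0 < l := by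
    rcases Nat.eq_zero_or_pos l with h0 | h0
    · exfalso
      rw [h0] at hl
      simp only [Nat.cast_zero, Real.log_zero] at hl
      have := mul_nonneg gm_nonneg (Nat.cast_nonneg (α := ℝ) t)
      linarith
    · exact h0
  have hl1 : (0 : ℝ) < l := by exact_mod_cast hl0
  set S := √ (1 / Λ + (t + k : ℝ) ^ 3 / (k : ℝ) ^ 4) with hS
  have hS0 : 0 ≤ S := Real.sqrt_nonneg _
  -- one block
  have hblock : ∀ m n : ℕ, n ≤ Λ → m + n ≤ t →
      (∑ h ∈ range l, |∑ i ∈ range n, X d t φ ψ (h : ℕ) (m + i)|) / l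
        ≤ 3 / 4 * n * Λ * (δ₁ * δ₂) + δ₁ ^ 2 / 4 * (Λ * ((1 + C) * S)) := by
    intro m n hn hmn
    have h1 : ∀ h ∈ range l, |∑ i ∈ range n, X d t φ ψ (h : ℕ) (m + i)|
        ≤ 3 / 4 * n * Λ * (δ₁ * δ₂) + δ₁ ^ 2 / 4 * pm t (fun y => |∑ i ∈ range n,
          sg ((Tz d)^[m + i] y) * sg ((Tz d)^[m + i] (y + (h : ℕ)))|) := by
      intro h _
      exact block_le hφ1 hψ1 hφ2 hψ2 _ hn hmn
    have h2 := sum_le_sum h1
    rw [sum_add_distrib, sum_const, card_range, nsmul_eq_mul, ← mul_sum, ← pm_sum] at h2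
    have h3 : pm t (fun y => ∑ h ∈ range l, |∑ i ∈ range n,
        sg ((Tz d)^[m + i] y) * sg ((Tz d)^[m + i] (y + (h : ℕ)))|) ≤ l * (Λ * ((1 + C) * S)) := by
      rw [← pm_const t (l * (Λ * ((1 + C) * S)))]
      apply pm_mono
      intro y
      have hlm : gm * m + 40 * k ≤ Real.log l := by
        have hmt : (m : ℝ) ≤ t := by exact_mod_cast (show m ≤ t by omega)
        have := mul_le_mul_of_nonneg_left hmt gm_nonneg
        linarith
      have h4 := sign_block hd hC hTV hk' hΛ1 hΛ hlm hl0 hn (show m ≤ t by omega) y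
      rw [div_le_iff₀ hl1] at h4
      linarith
    rw [div_le_iff₀ hl1]
    have h5 : δ₁ ^ 2 / 4 * pm t (fun y => ∑ h ∈ range l, |∑ i ∈ range n,
        sg ((Tz d)^[m + i] y) * sg ((Tz d)^[m + i] (y + (h : ℕ)))|) ≤ δ₁ ^ 2 / 4 * (l * (Λ * ((1 + C) * S))) :=
      mul_le_mul_of_nonneg_left h3 (by positivity)
    nlinarith
  -- full blocks
  have hfull : ∀ q : ℕ, q * Λ ≤ t →
      (∑ h ∈ range l, |∑ i ∈ range (q * Λ), X d t φ ψ (h : ℕ) i|) / l
        ≤ 3 / 4 * ((q * Λ : ℕ) : ℝ) * Λ * (δ₁ * δ₂) + δ₁ ^ 2 / 4 * (((q * Λ : ℕ) : ℝ) * ((1 + C) * S)) := by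
    intro q
    induction q with
    | zero => intro _; simp
    | succ q ih =>
      intro hq
      have hq' : q * Λ + Λ ≤ t := by rw [Nat.succ_mul] at hq; exact hq
      have i1 := ih (by omega)
      have i2 := hblock (q * Λ) Λ le_rfl hq'
      have h1 : (∑ h ∈ range l, |∑ i ∈ range ((q + 1) * Λ), X d t φ ψ (h : ℕ) i|) / l
          ≤ (∑ h ∈ range l, |∑ i ∈ range (q * Λ), X d t φ ψ (h : ℕ) i|) / l
            + (∑ h ∈ range l, |∑ i ∈ range Λ, X d t φ ψ (h : ℕ) (q * Λ + i)|) / l := by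
        rw [← add_div, ← sum_add_distrib]
        apply div_le_div_of_nonneg_right _ hl1.le
        apply sum_le_sum
        intro h _
        rw [Nat.succ_mul, sum_range_add]
        exact abs_add_le _ _
      refine h1.trans ?_
      have h2 : (((q + 1) * Λ : ℕ) : ℝ) = ((q * Λ : ℕ) : ℝ) + Λ := by push_cast; ring
      rw [h2]
      nlinarith
  -- all
  set q := t / Λ with hq
  set r := t % Λ with hr
  have hqr : q * Λ + r = t := by rw [hq, hr]; exact Nat.div_add_mod' t Λ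
  have hrΛ : r < Λ := Nat.mod_lt _ hΛ1
  have i1 := hfull q (by omega)
  have i2 := hblock (q * Λ) r hrΛ.le (by omega)
  have hcov : ∀ h : ℕ, |pm t (fun y => φ (od d t y) * ψ (od d t (y + (h : ℕ))))
      - pm t (fun y => φ (od d t y)) * pm t (fun y => ψ (od d t y))|
      ≤ |∑ i ∈ range (q * Λ), X d t φ ψ (h : ℕ) i| + |∑ i ∈ range r, X d t φ ψ (h : ℕ) (q * Λ + i)| := by
    intro h
    rw [cov_eq hd]
    have : ∑ i ∈ range t, X d t φ ψ (h : ℕ) i
        = ∑ i ∈ range (q * Λ), X d t φ ψ (h : ℕ) i + ∑ i ∈ range r, X d t φ ψ (h : ℕ) (q * Λ + i) := by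
      rw [← sum_range_add, hqr]
    rw [this]
    exact abs_add_le _ _
  have h1 : (∑ h ∈ range l, |pm t (fun y => φ (od d t y) * ψ (od d t (y + (h : ℕ))))
      - pm t (fun y => φ (od d t y)) * pm t (fun y => ψ (od d t y))|) / l
      ≤ (∑ h ∈ range l, |∑ i ∈ range (q * Λ), X d t φ ψ (h : ℕ) i|) / l
        + (∑ h ∈ range l, |∑ i ∈ range r, X d t φ ψ (h : ℕ) (q * Λ + i)|) / l := by
    rw [← add_div, ← sum_add_distrib]
    apply div_le_div_of_nonneg_right _ hl1.le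
    exact sum_le_sum fun h _ => hcov h
  refine h1.trans ?_
  have hqt : ((q * Λ : ℕ) : ℝ) + r = t := by exact_mod_cast hqr
  have hr0 : (0 : ℝ) ≤ r := Nat.cast_nonneg _
  have hq0 : (0 : ℝ) ≤ ((q * Λ : ℕ) : ℝ) := Nat.cast_nonneg _
  set Q := ((q * Λ : ℕ) : ℝ) with hQ
  have e1 : 3 / 4 * Q * Λ * (δ₁ * δ₂) + 3 / 4 * r * Λ * (δ₁ * δ₂) = 3 / 4 * (t * Λ * (δ₁ * δ₂)) := by
    rw [← hqt]; ring
  have e2 : 0 ≤ t * Λ * (δ₁ * δ₂) := by positivity
  have e3 : δ₁ ^ 2 / 4 * (Q * ((1 + C) * S)) + δ₁ ^ 2 / 4 * (Λ * ((1 + C) * S))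
      ≤ (1 + C) * ((t + Λ) * δ₁ ^ 2 * S) := by
    have e4 : δ₁ ^ 2 / 4 * (Q * ((1 + C) * S)) + δ₁ ^ 2 / 4 * (Λ * ((1 + C) * S))
        = (1 + C) * ((Q + Λ) * δ₁ ^ 2 * S) / 4 := by ring
    rw [e4]
    have e5 : (Q + Λ) * δ₁ ^ 2 * S ≤ (t + Λ) * δ₁ ^ 2 * S := by
      apply mul_le_mul_of_nonneg_right _ hS0
      apply mul_le_mul_of_nonneg_right _ (sq_nonneg _)
      linarith
    have e6 : 0 ≤ (Q + Λ) * δ₁ ^ 2 * S := by positivity
    nlinarith
  have e7 : 3 / 4 * (t * Λ * (δ₁ * δ₂)) ≤ (1 + C) * (t * Λ * (δ₁ * δ₂)) := by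
    apply mul_le_mul_of_nonneg_right _ e2; linarith
  rw [mul_add]
  linarith

end Pool.Agent.KS6_24.LN.TW
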