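import Mathlib
import Pool.Agent.KS6_24.LN.FinA

/-! FIN, part 2: windows. -/

set_option autoImplicit false

namespace Pool.Agent.KS6_24.LN

open Pool.Agent.H499R2.CO Pool.Agent.Y965.SI Finset Filter Topology MeasureTheory

/-- the difference at the shift by one -/
noncomputable def dp (f : ℤ → ℝ) (y : ℝ) : ℝ := |f ⌊y⌋ - f ⌊y + 1⌋|

/-- the bad function -/
noncomputable def BB (f : ℤ → ℝ) (δ : ℝ) (K : ℕ) (z : ℝ) : ℝ :=
  2 / δ * |AK f K z| + 4 / δ * ((∑ D ∈ range K, dp f (lam D * z)) / K)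

theorem dp_bd {f : ℤ → ℝ} (hf : ∀ x, |f x| ≤ 1) : Bd 2 (dp f) := by
  have h2 : Bd (1 + 1) (fun y => |f ⌊y⌋ - f ⌊y + 1⌋|) :=
    ((Bd.fl hf).sub (Bd.flc hf (g := fun y => y + 1) (by fun_prop))).abs
  have h3 : (1 + 1 : ℝ) = 2 := by norm_num
  rw [h3] at h2
  exact h2

theorem dps_bd {f : ℤ → ℝ} (hf : ∀ x, |f x| ≤ 1) {K : ℕ} (hK : 1 ≤ K) :
    Bd 2 (fun z => (∑ D ∈ range K, dp f (lam D * z)) / K) := by
  have hK' : (0 : ℝ) < K := by exact_mod_cast hK
  have h3 : ∀ D ∈ range K, Bd 2 (fun y => dp f (lam D * y)) := fun D _ => (dp_bd hf).comp (by fun_prop)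
  have h4 := (Bd.sum h3).cmul (1 / K : ℝ)
  rw [abs_of_nonneg (by positivity : (0 : ℝ) ≤ 1 / K)] at h4
  have e : (fun y => (∑ D ∈ range K, dp f (lam D * y)) / K)
      = fun y => (1 / K : ℝ) * ∑ D ∈ range K, dp f (lam D * y) := by funext y; ring
  rw [e]
  refine h4.mono (le_of_eq ?_)
  rw [sum_const, card_range, nsmul_eq_mul]
  field_simp

theorem BB_bd {f : ℤ → ℝ} (hf : ∀ x, |f x| ≤ 1) {δ : ℝ} (hδ : 0 < δ) {K : ℕ} (hK : 1 ≤ K) :
    Bd (10 / δ) (BB f δ K) := by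
  have h1 := ((AK_bd hf K).abs.cmul (2 / δ)).add ((dps_bd hf hK).cmul (4 / δ))
  refine h1.mono (le_of_eq ?_)
  rw [abs_of_pos (by positivity), abs_of_pos (by positivity)]
  field_simp
  norm_num

theorem av_BB {d : ℤ} {C : ℝ}
    (hC : ∀ f : ℤ → ℝ, InvF d f → ∀ R : ℕ, 1 ≤ R → ∀ V : ℝ, 2 ^ R ≤ V →
      ∀ (i u : ℕ) (h : ℝ), |h| ≤ 4 ^ u →
      av V (fun y => |f ⌊y⌋ - f ⌊3 ^ i * y + h⌋|) ≤ C * √ (1 + (i : ℝ) ^ 2 + u) * rho R)
    {f : ℤ → ℝ} (hf : InvF d f) {δ : ℝ} (hδ : 0 < δ) {R : ℕ} (hR : 1 ≤ R) {V : ℝ} (hV : 2 ^ R ≤ V)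
    {K : ℕ} (hK : 1 ≤ K) :
    av V (BB f δ K) ≤ 2 / δ * √ (En f K V) + 4 / δ * (C * √ 2 * rho R) := by
  have hV0 : 0 < V := lt_of_lt_of_le (by positivity) hV
  have hK' : (0 : ℝ) < K := by exact_mod_cast hK
  have e : BB f δ K = fun z => 2 / δ * |AK f K z| + 4 / δ * ((∑ D ∈ range K, dp f (lam D * z)) / K) := rfl
  rw [e, av_add V ((AK_bd hf.1 K).abs.cmul (2 / δ)) ((dps_bd hf.1 hK).cmul (4 / δ)), av_cmul, av_cmul]
  have h1 : av V (fun y => |AK f K y|) ≤ √ (En f K V) := av_abs_le_sqrt hV0 (AK_bd hf.1 K)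
  have hdp : ∀ V : ℝ, 2 ^ R ≤ V → av V (dp f) ≤ C * √ 2 * rho R := by
    intro V hV
    have h2 := hC f hf R hR V hV 0 1 1 (by norm_num)
    have e : (1 + ((0 : ℕ) : ℝ) ^ 2 + ((1 : ℕ) : ℝ)) = 2 := by norm_num
    rw [e] at h2
    simp only [pow_zero, one_mul] at h2
    exact h2
  have h3 : av V (fun z => (∑ D ∈ range K, dp f (lam D * z)) / K) ≤ C * √ 2 * rho R := by
    have e1 : (fun y => (∑ D ∈ range K, dp f (lam D * y)) / K)
        = fun y => (1 / K) * ∑ D ∈ range K, dp f (lam D * y) := by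
      funext y; ring
    have hb : ∀ D ∈ range K, Bd 2 (fun y => dp f (lam D * y)) := fun D _ => (dp_bd hf.1).comp (by fun_prop)
    rw [e1, av_cmul, av_sum V hb]
    have h1 : ∀ D ∈ range K, av V (fun y => dp f (lam D * y)) ≤ C * √ 2 * rho R := by
      intro D _
      have hl := one_le_lam D
      rw [av_scale hV0 (by linarith)]
      apply hdp
      nlinarith
    calc 1 / (K : ℝ) * ∑ D ∈ range K, av V (fun y => dp f (lam D * y))
        ≤ 1 / (K : ℝ) * ∑ D ∈ range K, C * √ 2 * rho R := by gcongr with D hD; exact h1 D hD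
      _ = C * √ 2 * rho R := by rw [sum_const, card_range, nsmul_eq_mul]; field_simp
  gcongr

theorem good_point {S : Set ℤ} {δ : ℝ} (hδ : 0 < δ) {K : ℕ} (hK : 1 ≤ K) {z : ℝ} (hz : 1 ≤ z)
    (hB : BB (fun x => S.indicator (fun _ => (1 : ℝ)) x - δ) δ K z < 1) :
    ∃ D : ℕ, D < K ∧ ∃ y : ℤ, 1 ≤ y ∧ y % 3 ≠ 0 ∧ y ∈ S ∧ |(y : ℝ) - lam D * z| ≤ 1 := by
  classical
  have hK' : (0 : ℝ) < K := by exact_mod_cast hK
  set ind : ℤ → ℝ := S.indicator (fun _ => (1 : ℝ)) with hind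
  have hmain : ∃ D : ℕ, D < K ∧ ⌊lam D * z⌋ ∈ S ∧ ⌊lam D * z + 1⌋ ∈ S := by
    by_contra hcon
    push Not at hcon
    have h1 : ∀ D ∈ range K, ind ⌊lam D * z⌋ ≤ dp (fun x => ind x - δ) (lam D * z) := by
      intro D hD
      have h := hcon D (mem_range.1 hD)
      unfold dp
      by_cases h2 : ⌊lam D * z⌋ ∈ S
      · have h3 := h h2
        have e1 : ind ⌊lam D * z⌋ = 1 := by simp [hind, h2]
        have e2 : ind ⌊lam D * z + 1⌋ = 0 := by rw [hind]; exact Set.indicator_of_notMem h3 _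
        simp only [e1, e2]
        rw [show (1 - δ - (0 - δ) : ℝ) = 1 by ring, abs_one]
      · have e1 : ind ⌊lam D * z⌋ = 0 := by rw [hind]; exact Set.indicator_of_notMem h2 _
        rw [e1]
        exact abs_nonneg _
    have h2 := sum_le_sum h1
    have h3 : AK (fun x => ind x - δ) K z = (∑ D ∈ range K, ind ⌊lam D * z⌋) / K - δ := by
      unfold AK
      rw [sum_sub_distrib, sum_const, card_range, nsmul_eq_mul, sub_div, mul_div_cancel_left₀ _ hK'.ne']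
    unfold BB at hB
    set A := |AK (fun x => ind x - δ) K z| with hA
    set Q := (∑ D ∈ range K, dp (fun x => ind x - δ) (lam D * z)) / K with hQ
    have hQ0 : 0 ≤ Q := by
      rw [hQ]
      apply div_nonneg _ hK'.le
      exact sum_nonneg fun D _ => abs_nonneg _
    have hA0 : 0 ≤ A := abs_nonneg _
    have h4 : 2 * A + 4 * Q < δ := by
      have : 2 / δ * A + 4 / δ * Q = (2 * A + 4 * Q) / δ := by ring
      rw [this, div_lt_one hδ] at hB
      exact hB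
    have h5 : (∑ D ∈ range K, ind ⌊lam D * z⌋) / K ≤ Q := div_le_div_of_nonneg_right h2 hK'.le
    have h6 := neg_abs_le (AK (fun x => ind x - δ) K z)
    rw [← hA, h3] at h6
    linarith
  obtain ⟨D, hD, h1, h2⟩ := hmain
  have hl := one_le_lam D
  have hY : 1 ≤ lam D * z := by nlinarith
  have hfl : 1 ≤ ⌊lam D * z⌋ := Int.le_floor.2 (by exact_mod_cast hY)
  have h3 := Int.floor_le (lam D * z)
  have h4 := Int.lt_floor_add_one (lam D * z)
  rw [show lam D * z + 1 = lam D * z + (1 : ℤ) by push_cast; ring, Int.floor_add_intCast] at h2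
  by_cases h5 : ⌊lam D * z⌋ % 3 = 0
  · refine ⟨D, hD, ⌊lam D * z⌋ + 1, by omega, by omega, h2, ?_⟩
    push_cast
    rw [abs_le]; constructor <;> linarith
  · refine ⟨D, hD, ⌊lam D * z⌋, hfl, h5, h1, ?_⟩
    rw [abs_le]; constructor <;> linarith

theorem iter_mem {d : ℤ} {S : Set ℤ} (hS : ∀ x, Tz d x ∈ S ↔ x ∈ S) (s : ℕ) : ∀ x : ℤ,
    (Tz d)^[s] x ∈ S ↔ x ∈ S := by
  induction s with
  | zero => intro x; rfl
  | succ s ih => intro x; rw [Function.iterate_succ_apply, ih, hS]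

theorem good_window {d : ℤ} (hSt : S_STEER d) {S : Set ℤ} (hS : ∀ x, Tz d x ∈ S ↔ x ∈ S) {δ : ℝ} (hδ : 0 < δ)
    {p : ℕ} (hp : 1 ≤ p / 8) {y : ℝ} (hy : 2 ^ p ≤ y)
    (hB : BB (fun x => S.indicator (fun _ => (1 : ℝ)) x - δ) δ (p / 8) (1 / 2 ^ p * y) < 1) :
    ∃ M : ℤ, 0 < M ∧ M ∈ S ∧ |(M : ℝ) - y| ≤ 4 ^ p := by
  obtain ⟨D, hD, x, hx1, hx3, hxS, hx⟩ := good_point hδ hp (z := 1 / 2 ^ p * y) (by
    rw [one_div, inv_mul_eq_div, le_div_iff₀ (by positivity), one_mul]; exact hy) hB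
  set z : ℝ := 1 / 2 ^ p * y with hz
  have hzy : (2 : ℝ) ^ p * z = y := by rw [hz]; field_simp
  obtain ⟨M, hM0, hM1, hM2⟩ := hSt x D (p + Nat.log 2 (3 ^ D)) hx1 hx3 (by omega)
  refine ⟨M, hM0, (iter_mem hS _ M).1 (by rw [hM1]; exact hxS), ?_⟩
  have hl := one_le_lam D
  have hl0 : 0 < lam D := by linarith
  have e1 : (2 : ℝ) ^ (p + Nat.log 2 (3 ^ D)) * x / 3 ^ D = 2 ^ p * (x / lam D) := by
    unfold lam
    rw [pow_add]; field_simp
  have e2 : (2 : ℝ) ^ p * (x / lam D) - y = 2 ^ p * ((x - lam D * z) / lam D) := by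
    rw [← hzy]; field_simp
  have h1 : |(2 : ℝ) ^ p * (x / lam D) - y| ≤ 2 ^ p := by
    rw [e2, abs_mul, abs_div, abs_of_pos (by positivity : (0 : ℝ) < 2 ^ p), abs_of_pos hl0]
    have : |(x : ℝ) - lam D * z| / lam D ≤ 1 := by rw [div_le_one hl0]; linarith
    calc (2 : ℝ) ^ p * (|(x : ℝ) - lam D * z| / lam D) ≤ 2 ^ p * 1 := by gcongr
      _ = 2 ^ p := mul_one _
  have h2 : (2 : ℝ) ^ (p + Nat.log 2 (3 ^ D)) + 2 ^ p ≤ 4 ^ p := by
    rw [pow_add]
    have h3 := log_pow_le D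
    have h4 : (3 : ℝ) ^ D ≤ 4 ^ D := by gcongr; norm_num
    have h5 : (1 : ℝ) ≤ 4 ^ D := one_le_pow₀ (by norm_num)
    have h6 : (2 : ℝ) * 4 ^ D ≤ 2 ^ p := by
      have : (2 : ℝ) * 4 ^ D = 2 ^ (2 * D + 1) := by
        rw [pow_succ, pow_mul]; norm_num; ring
      rw [this]
      exact pow_le_pow_right₀ (by norm_num) (by omega)
    have h7 : (4 : ℝ) ^ p = 2 ^ p * 2 ^ p := by rw [← mul_pow]; norm_num
    rw [h7]
    have h8 : (0 : ℝ) < 2 ^ p := by positivity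
    nlinarith
  rw [e1] at hM2
  calc |(M : ℝ) - y| = |((M : ℝ) - 2 ^ p * (x / lam D)) + (2 ^ p * (x / lam D) - y)| := by congr 1; ring
    _ ≤ |(M : ℝ) - 2 ^ p * (x / lam D)| + |2 ^ p * (x / lam D) - y| := abs_add_le _ _
    _ ≤ 2 ^ (p + Nat.log 2 (3 ^ D)) + 2 ^ p := add_le_add hM2 h1
    _ ≤ 4 ^ p := h2

theorem win {d : ℤ} (hE : S_EN d) (hCI : S_CI d) (hDe : S_DENS d) (hSt : S_STEER d) : S_WIN d := by
  classical
  intro S hS hex ε₀ hε₀
  obtain ⟨δ, hδ, hδ1, hmz⟩ := hDe S hS hex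
  obtain ⟨C, hCpos, hC⟩ := hCI
  set f : ℤ → ℝ := fun x => S.indicator (fun _ => (1 : ℝ)) x - δ with hfdef
  have hf : InvF d f := invF_ind hS hδ.le hδ1
  set ε : ℝ := min ε₀ 1 with hεdef
  have hε : 0 < ε := lt_min hε₀ one_pos
  have hε1 : ε ≤ 1 := min_le_right _ _
  have hεε₀ : ε ≤ ε₀ := min_le_left _ _
  apply negl_of_dyadic
  intro η hη
  obtain ⟨Z0, hZ0, hEN⟩ := hE f hf hmz (ε / 128) ((δ * η / 8) ^ 2) (by positivity) (by positivity)
  -- the parameters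
  set l : ℕ → ℕ := fun N => Nat.log 2 N with hl
  set p : ℕ → ℕ := fun N => ⌊ε / 4 * (l N : ℝ)⌋₊ with hp
  have hlt : Tendsto l atTop atTop := by
    apply tendsto_atTop.2
    intro b
    filter_upwards [eventually_ge_atTop (2 ^ b)] with N hN
    exact (Nat.le_log_iff_pow_le (by norm_num) (by have := Nat.one_le_two_pow (n := b); omega)).2 hN
  have hpt : Tendsto p atTop atTop :=
    tendsto_nat_floor_atTop.comp ((tendsto_natCast_atTop_atTop.comp hlt).const_mul_atTop (by positivity))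
  have hpl : ∀ N, 4 * p N ≤ l N := by
    intro N
    have h1 : (p N : ℝ) ≤ ε / 4 * (l N : ℝ) := Nat.floor_le (by positivity)
    have h2 : (0 : ℝ) ≤ l N := Nat.cast_nonneg _
    have h3 : (4 : ℝ) * p N ≤ l N := by nlinarith
    exact_mod_cast h3
  have hRt : Tendsto (fun N => l N - p N) atTop atTop :=
    tendsto_atTop_mono (fun N => by have := hpl N; omega) hpt
  have hrho : Tendsto (fun N : ℕ => 4 / δ * (C * √ 2 * rho (l N - p N))) atTop (𝓝 0) := by
    have := ((rho_tendsto.comp hRt).const_mul (C * √ 2)).const_mul (4 / δ)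
    rw [mul_zero, mul_zero] at this
    exact this
  have hpr : Tendsto (fun N => (p N : ℝ)) atTop atTop := tendsto_natCast_atTop_atTop.comp hpt
  have hlr : Tendsto (fun N => (l N : ℝ)) atTop atTop := tendsto_natCast_atTop_atTop.comp hlt
  have hev : ∀ᶠ N : ℕ in atTop, (#{n ∈ Ico N (2 * N) | ∀ x : ℕ, n ≤ x → (x : ℝ) ≤ n + (n : ℝ) ^ ε₀ → (x : ℤ) ∉ S} : ℝ)
      ≤ η * N := by
    filter_upwards [eventually_ge_atTop 2, hpt.eventually_ge_atTop 8, hpr.eventually_ge_atTop Z0,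
      hpr.eventually_ge_atTop (160 / (δ * η)), hlr.eventually_ge_atTop (49 / ε),
      hrho.eventually (eventually_le_nhds (show (0 : ℝ) < η / 4 by positivity))] with N hN2 hp8 hpZ hpη hle hNr
    have hN' : (0 : ℝ) < N := by positivity
    have hpN := hpl N
    set P := p N with hP
    set L := l N with hL
    have hLN : 2 ^ L ≤ N := Nat.pow_log_le_self 2 (by omega)
    have hNL : N < 2 ^ (L + 1) := Nat.lt_pow_succ_log_self (by norm_num) N
    have hLN' : (2 : ℝ) ^ L ≤ N := by exact_mod_cast hLN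
    have hNL' : (N : ℝ) < 2 ^ (L + 1) := by exact_mod_cast hNL
    have hP1 : (P : ℝ) ≤ ε / 4 * (L : ℝ) := Nat.floor_le (by positivity)
    have hP2 : ε / 4 * (L : ℝ) < P + 1 := Nat.lt_floor_add_one _
    set K := P / 8 with hK
    have hK1 : 1 ≤ K := by omega
    set Z : ℝ := 1 / 2 ^ P * N with hZ
    have hZR : (2 : ℝ) ^ (L - P) ≤ Z := by
      rw [hZ, one_div, inv_mul_eq_div, le_div_iff₀ (by positivity), ← pow_add, Nat.sub_add_cancel (by omega)]
      exact hLN'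
    have hR1 : 1 ≤ L - P := by omega
    have hPZ : (P : ℝ) ≤ Z := by
      have h1 : P < 2 ^ (L - P) := lt_of_lt_of_le Nat.lt_two_pow_self (Nat.pow_le_pow_right (by norm_num) (by omega))
      have h2 : (P : ℝ) < 2 ^ (L - P) := by exact_mod_cast h1
      linarith
    have hZ0' : 0 < Z := by positivity
    -- the energy
    have hKr : ε / 128 * Real.log Z ≤ K := by
      have h1 : Real.log Z ≤ (L + 1 : ℕ) := by
        have h2 : Z ≤ 2 ^ (L + 1) := by
          have : Z ≤ N := by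
            rw [hZ, one_div, inv_mul_eq_div]
            exact div_le_self hN'.le (one_le_pow₀ (by norm_num))
          linarith
        have h3 := Real.log_le_log hZ0' h2
        rw [Real.log_pow] at h3
        have h4 : Real.log 2 ≤ 1 := by have := Real.log_two_lt_d9; linarith
        have h5 : (0 : ℝ) ≤ (L + 1 : ℕ) := Nat.cast_nonneg _
        nlinarith
      have h6 : (P : ℝ) ≤ 8 * K + 7 := by
        have : P ≤ 8 * K + 7 := by omega
        exact_mod_cast this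
      rw [div_le_iff₀ hε] at hle
      push_cast at h1
      have h7 : ε / 128 * Real.log Z ≤ ε / 128 * (L + 1) := by gcongr
      nlinarith
    have hen := hEN Z (by linarith) K hKr
    have hsq : √ (En f K Z) ≤ δ * η / 8 := by
      have := Real.sqrt_le_sqrt hen
      rwa [Real.sqrt_sq (by positivity)] at this
    have hBZ : av Z (BB f δ K) ≤ η / 2 := by
      have h1 := av_BB hC hf hδ hR1 hZR hK1
      have h2 : 2 / δ * √ (En f K Z) ≤ 2 / δ * (δ * η / 8) := by gcongr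
      have h3 : 2 / δ * (δ * η / 8) = η / 4 := by field_simp; norm_num
      have h4 : 4 / δ * (C * √ 2 * rho (L - P)) ≤ η / 4 := hNr
      linarith
    -- the shift
    set w : ℝ := 2 * 4 ^ P with hw
    have hbd := BB_bd hf.1 hδ hK1
    set u : ℝ → ℝ := fun y => BB f δ K (1 / 2 ^ P * y) with hu
    have hubd : Bd (10 / δ) u := hbd.comp (by fun_prop)
    have hu1 : av N u = av Z (BB f δ K) := av_scale hN' (by positivity) (BB f δ K)
    have hshift := av_shift hN' hubd w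
    have h4P : (2 : ℝ) ^ (4 * P) ≤ N := le_trans (pow_le_pow_right₀ (by norm_num) hpN) hLN'
    have h4P' : (2 : ℝ) ^ (4 * P) = 4 ^ P * 4 ^ P := by
      rw [← mul_pow, pow_mul]; norm_num
    have hP4 : (P : ℝ) ≤ 4 ^ P := by
      have : P < 4 ^ P := Nat.lt_pow_self (by norm_num)
      exact_mod_cast this.le
    have hw2 : 2 * |w| * (10 / δ) / N ≤ η / 2 := by
      rw [abs_of_pos (by positivity : 0 < w), hw]
      have h1 : 160 ≤ (4 : ℝ) ^ P * (δ * η) := by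
        have h2 : 160 / (δ * η) ≤ 4 ^ P := hpη.trans hP4
        rwa [div_le_iff₀ (by positivity)] at h2
      rw [div_le_iff₀ hN']
      have h3 : 2 * (2 * (4 : ℝ) ^ P) * (10 / δ) = 40 * 4 ^ P / δ := by ring
      rw [h3, div_le_iff₀ hδ]
      rw [h4P'] at h4P
      have h5 : (0 : ℝ) < 4 ^ P := by positivity
      have h6 : η / 2 * (4 ^ P * 4 ^ P) * δ ≤ η / 2 * N * δ := by gcongr
      nlinarith
    -- comparison
    set g : ℤ → ℝ := fun n => if (∀ x : ℕ, n.toNat ≤ x → (x : ℝ) ≤ n.toNat + (n.toNat : ℝ) ^ ε₀ → (x : ℤ) ∉ S)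
      then 1 else 0 with hg
    have hg1 : ∀ x, |g x| ≤ 1 := by
      intro x; simp only [hg]; split_ifs <;> simp
    have havg := av_floor hg1 (N := N) (by omega)
    have hcount : ∑ n ∈ Ico N (2 * N), g n
        = (#{n ∈ Ico N (2 * N) | ∀ x : ℕ, n ≤ x → (x : ℝ) ≤ n + (n : ℝ) ^ ε₀ → (x : ℤ) ∉ S} : ℝ) := by
      rw [card_filter]
      push_cast
      apply sum_congr rfl
      intro n _
      simp only [hg, Int.toNat_natCast]
    have hNε : (4 : ℝ) * 4 ^ P ≤ (N : ℝ) ^ ε := by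
      have h1 : ((2 : ℝ) ^ L) ^ ε ≤ (N : ℝ) ^ ε := Real.rpow_le_rpow (by positivity) hLN' hε.le
      refine le_trans ?_ h1
      have h2 : ((2 : ℝ) ^ L) ^ ε = (2 : ℝ) ^ ((L : ℝ) * ε) := by
        rw [← Real.rpow_natCast, ← Real.rpow_mul (by norm_num)]
      have h3 : (4 : ℝ) * 4 ^ P = (2 : ℝ) ^ ((2 * P + 2 : ℕ) : ℝ) := by
        rw [Real.rpow_natCast, pow_add, pow_mul]; norm_num; ring
      rw [h2, h3]
      apply Real.rpow_le_rpow_of_exponent_le (by norm_num)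
      push_cast
      rw [div_le_iff₀ hε] at hle
      nlinarith
    have hcomp : av N (fun y => g ⌊y⌋) ≤ av N (fun y => u (y + w)) := by
      have hmw : Measurable fun y : ℝ => y + w := by fun_prop
      apply av_mono hN' (Bd.fl hg1) (hubd.comp hmw)
      intro y hy1 hy2
      have hu0 : 0 ≤ u (y + w) := by
        simp only [hu]
        unfold BB
        have h1 : 0 ≤ (∑ D ∈ range K, dp f (lam D * (1 / 2 ^ P * (y + w)))) / K := by
          apply div_nonneg _ (Nat.cast_nonneg _)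
          exact sum_nonneg fun D _ => abs_nonneg _
        positivity
      by_cases hgy : g ⌊y⌋ = 0
      · rw [hgy]; exact hu0
      have hcond : ∀ x : ℕ, ⌊y⌋.toNat ≤ x → (x : ℝ) ≤ ⌊y⌋.toNat + (⌊y⌋.toNat : ℝ) ^ ε₀ → (x : ℤ) ∉ S := by
        by_contra hc
        apply hgy
        simp only [hg]
        rw [if_neg hc]
      have hgle : g ⌊y⌋ ≤ 1 := (le_abs_self _).trans (hg1 _)
      refine hgle.trans ?_
      by_contra hlt1
      push Not at hlt1
      have hPle : (2 : ℝ) ^ P ≤ y + w := by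
        have h1 : (2 : ℝ) ^ P ≤ 4 ^ P := by gcongr; norm_num
        have h2 : (0 : ℝ) < 4 ^ P := by positivity
        rw [hw]; linarith
      obtain ⟨M, hM0, hMS, hM⟩ := good_window hSt hS hδ (p := P) hK1 hPle hlt1
      have hy0 : 0 ≤ ⌊y⌋ := Int.floor_nonneg.2 (by linarith)
      have hfl1 := Int.floor_le y
      have hfl2 := Int.lt_floor_add_one y
      have hn : ((⌊y⌋.toNat : ℕ) : ℝ) = (⌊y⌋ : ℝ) := by
        have : ((⌊y⌋.toNat : ℕ) : ℤ) = ⌊y⌋ := Int.toNat_of_nonneg hy0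
        exact_mod_cast this
      have hMn : ((M.toNat : ℕ) : ℤ) = M := Int.toNat_of_nonneg hM0.le
      have hMr : ((M.toNat : ℕ) : ℝ) = (M : ℝ) := by exact_mod_cast hMn
      rw [abs_le] at hM
      have hNfl : (N : ℝ) ≤ ⌊y⌋ := by
        have : (N : ℤ) ≤ ⌊y⌋ := Int.le_floor.2 (by exact_mod_cast hy1)
        exact_mod_cast this
      have h4p1 : (1 : ℝ) ≤ 4 ^ P := one_le_pow₀ (by norm_num)
      refine hcond M.toNat ?_ ?_ (by rw [hMn]; exact hMS)
      · have : ((⌊y⌋.toNat : ℕ) : ℝ) ≤ (M.toNat : ℕ) := by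
          rw [hn, hMr]
          rw [hw] at hM
          linarith [hM.1]
        exact_mod_cast this
      · rw [hn, hMr]
        have h1 : (N : ℝ) ^ ε ≤ ((⌊y⌋ : ℤ) : ℝ) ^ ε := Real.rpow_le_rpow hN'.le hNfl hε.le
        have h2 : ((⌊y⌋ : ℤ) : ℝ) ^ ε ≤ ((⌊y⌋ : ℤ) : ℝ) ^ ε₀ := by
          apply Real.rpow_le_rpow_of_exponent_le _ hεε₀
          have : (2 : ℝ) ≤ N := by exact_mod_cast hN2
          linarith
        rw [hw] at hM
        linarith [hM.2]
    have hfin : (∑ n ∈ Ico N (2 * N), g n) / N ≤ η := by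
      rw [← havg]
      have h1 := (abs_le.1 hshift).2
      rw [hu1] at h1
      linarith
    rw [← hcount]
    rwa [div_le_iff₀ hN'] at hfin
  exact eventually_atTop.1 hev

end Pool.Agent.KS6_24.LN
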