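import Mathlib
import Pool.Agent.KS6_24.LN.Pair
import Pool.Agent.KS6_24.LN.TV
import Pool.Agent.KS6_24.LN.TW
import Pool.Agent.KS6_24.LN.Step
import Pool.Agent.KS6_24.LN.En
import Pool.Agent.KS6_24.LN.Exc
import Pool.Agent.KS6_24.LN.Base
import Pool.Agent.KS6_24.LN.Dens
import Pool.Agent.KS6_24.LN.Steer
import Pool.Agent.KS6_24.LN.Lln
import Pool.Agent.KS6_24.LN.Win

/-! Assembly. -/

set_option autoImplicit false

namespace Pool.Agent.KS6_24.LN

theorem en_all {d : ℤ} (hd : d = 1 ∨ d = -1) : S_EN d := by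
  have hd2 : d % 2 = 1 := by rcases hd with rfl | rfl <;> decide
  have h1 : S_TV d := tv d hd
  have h2 : S_TW d := TW.s_tw hd2 h1
  exact en d (step d (pair d hd h1 h2) exc) base

theorem lln_all {d : ℤ} (hd : d = 1 ∨ d = -1) : S_LLN d := lln (en_all hd) (ci d hd)

theorem win_all {d : ℤ} (hd : d = 1 ∨ d = -1) : S_WIN d := win (en_all hd) (ci d hd) (dens hd) (steer hd)

end Pool.Agent.KS6_24.LN
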