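import Mathlib
import Pool.Agent.KS6_24.LN.Step
import Pool.Agent.KS6_24.LN.En

/-! Upgrade U1 (helper56): the energy tends to zero for all `K ≥ (log Z) ^ (998/1000)`. -/

set_option autoImplicit false

namespace Pool.Agent.KS6_24.LN

open Pool.Agent.H499R2.CO Pool.Agent.Y965.SI Finset

/-- ENERGY STEP, `K ≥ u ^ 997` -/
def S_STEP2 (d : ℤ) : Prop := ∃ (C : ℝ) (u0 : ℕ), 0 < C ∧ 1 ≤ u0 ∧ ∀ f : ℤ → ℝ, InvF d f →
  ∀ u : ℕ, u0 ≤ u → ∀ Z : ℝ, 2 * (2 : ℝ) ^ (u ^ 1000) ≤ Z → ∀ K : ℕ, (u : ℝ) ^ 997 ≤ K →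
    En f K Z ≤ (∑ c ∈ Cs (u ^ 990) (u ^ 488) (u ^ 501), pc d (u ^ 990) (u ^ 488) c
      * En f K (3 ^ c / 2 ^ (u ^ 990) * Z)) + C / (u : ℝ) ^ 11

/-- the energy tends to zero, `K ≥ (log Z) ^ 0.998` -/
def S_EN2 (d : ℤ) : Prop := ∀ f : ℤ → ℝ, InvF d f → MeanZero f → ∀ ε : ℝ, 0 < ε →
  ∃ Z0 : ℝ, 1 ≤ Z0 ∧ ∀ Z : ℝ, Z0 ≤ Z → ∀ K : ℕ, Real.log Z ^ (998 / 1000 : ℝ) ≤ K → En f K Z ≤ ε

theorem step2 (d : ℤ) (hP : S_PAIR d) (hE : S_EXC) : S_STEP2 d := by
  obtain ⟨C1, u1, hC1, hu1, hpair⟩ := hP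
  refine ⟨C1 * 91, max u1 2, by positivity, by omega, ?_⟩
  intro f hf u hu Z hZ K hK
  have hu1' : u1 ≤ u := le_trans (le_max_left _ _) hu
  have hu2 : 2 ≤ u := le_trans (le_max_right _ _) hu
  have hu2r : (2 : ℝ) ≤ u := by exact_mod_cast hu2
  have hu0 : (0 : ℝ) < u := by linarith
  have hpw : (0 : ℝ) < (2 : ℝ) ^ (u ^ 1000) := by positivity
  have hZ1 : (2 : ℝ) ^ (u ^ 1000) ≤ Z := by linarith
  have h1Z : 1 ≤ Z := le_trans (one_le_pow₀ (by norm_num)) hZ1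
  obtain ⟨m, hm1, hm2⟩ := exists_nat_pow_near h1Z (show (1 : ℝ) < 2 by norm_num)
  have hmu : u ^ 1000 ≤ m := by
    have h1 : (2 : ℝ) ^ (u ^ 1000) < 2 ^ (m + 1) := lt_of_le_of_lt hZ1 hm2
    have h2 := (pow_lt_pow_iff_right₀ (show (1 : ℝ) < 2 by norm_num)).1 h1
    omega
  set t := u ^ 990 with ht
  have ht1 : 1 ≤ t := Nat.one_le_pow _ _ (by omega)
  have htm : u ^ 10 * t ≤ m := by
    refine le_trans (le_of_eq ?_) hmu
    rw [ht, ← pow_add]
  have h10 : 1024 ≤ u ^ 10 := by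
    calc 1024 = 2 ^ 10 := by norm_num
      _ ≤ u ^ 10 := Nat.pow_le_pow_left hu2 10
  have hm3 : 1024 * t ≤ m := le_trans (Nat.mul_le_mul_right t h10) htm
  have hmr : (0 : ℝ) < m := by
    have : 0 < m := by omega
    exact_mod_cast this
  have hK0 : (0 : ℝ) < K := lt_of_lt_of_le (by positivity) hK
  have hK1 : 1 ≤ K := by exact_mod_cast hK0
  have hC4 : 0 ≤ C1 / (u : ℝ) ^ 4 := by positivity
  have hC11 : 0 ≤ C1 / (u : ℝ) ^ 11 := by positivity
  have hcore := step_core (d := d) hE (f := f) hf.1 (t := t) (g := u ^ 488) (B := u ^ 501) ht1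
    (Nat.one_le_pow _ _ (by omega)) (Z := Z) (m := m) (K := K) hm1 (by omega) hK1 hC4 hC11
    (fun V L hV hL1 hL2 => hpair f hf u hu1' V L (hZ.trans hV) hL1 hL2)
  refine hcore.trans ?_
  have hgoal : C1 / (u : ℝ) ^ 11 + 2 * (4 * t + 1) * (1 / ((m / 4 : ℕ) : ℝ) + 1 / K) * (C1 / (u : ℝ) ^ 4)
      ≤ C1 * 91 / (u : ℝ) ^ 11 := by
    have h1 : 1 / ((m / 4 : ℕ) : ℝ) ≤ 8 / m := by
      have h2 : m ≤ 8 * (m / 4) := by omega
      have h3 : (m : ℝ) ≤ 8 * ((m / 4 : ℕ) : ℝ) := by exact_mod_cast h2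
      have h4 : (0 : ℝ) < ((m / 4 : ℕ) : ℝ) := by linarith
      rw [div_le_div_iff₀ h4 hmr]; linarith
    have h3 : 2 * (4 * (t : ℝ) + 1) ≤ 10 * t := by
      have : (1 : ℝ) ≤ t := by exact_mod_cast ht1
      linarith
    have h4 : (t : ℝ) / m ≤ 1 / (u : ℝ) ^ 7 := by
      rw [div_le_div_iff₀ hmr (by positivity)]
      have h5 : u ^ 7 * t ≤ m := le_trans (Nat.mul_le_mul_right t (Nat.pow_le_pow_right (by omega) (by norm_num))) htm
      have : ((u ^ 7 * t : ℕ) : ℝ) ≤ m := by exact_mod_cast h5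
      push_cast at this
      linarith
    have h4' : (t : ℝ) / K ≤ 1 / (u : ℝ) ^ 7 := by
      rw [div_le_div_iff₀ hK0 (by positivity)]
      have : (t : ℝ) * (u : ℝ) ^ 7 = (u : ℝ) ^ 997 := by rw [ht]; push_cast; rw [← pow_add]
      linarith
    have h5 : 2 * (4 * (t : ℝ) + 1) * (1 / ((m / 4 : ℕ) : ℝ) + 1 / K) ≤ 90 * (1 / (u : ℝ) ^ 7) := by
      calc 2 * (4 * (t : ℝ) + 1) * (1 / ((m / 4 : ℕ) : ℝ) + 1 / K)
          ≤ (10 * t) * (8 / m + 1 / K) := by
            apply mul_le_mul h3 (add_le_add h1 le_rfl) (by positivity) (by positivity)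
        _ = 80 * (t / m) + 10 * (t / K) := by ring
        _ ≤ 90 * (1 / (u : ℝ) ^ 7) := by linarith
    have h6 : 2 * (4 * (t : ℝ) + 1) * (1 / ((m / 4 : ℕ) : ℝ) + 1 / K) * (C1 / (u : ℝ) ^ 4)
        ≤ 90 * (1 / (u : ℝ) ^ 7) * (C1 / (u : ℝ) ^ 4) := mul_le_mul_of_nonneg_right h5 hC4
    have h7 : 90 * (1 / (u : ℝ) ^ 7) * (C1 / (u : ℝ) ^ 4) = C1 * 90 / (u : ℝ) ^ 11 := by field_simp
    have h10 : C1 * 91 / (u : ℝ) ^ 11 = C1 / (u : ℝ) ^ 11 + C1 * 90 / (u : ℝ) ^ 11 := by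
      ring
    rw [h10]
    linarith
  linarith

theorem en2 (d : ℤ) (hS : S_STEP2 d) (hB : S_BASE) : S_EN2 d := by
  intro f hf hmz ε hε
  obtain ⟨C, u0, hC, hu0, hstep⟩ := hS
  set η : ℝ := ε / 2 with hη
  have hη0 : 0 < η := by positivity
  obtain ⟨z0, hz0, hbase⟩ := hB f hf.1 hmz (√ η) (Real.sqrt_pos.2 hη0)
  set C1 : ℝ := 5000 * 2 ^ 1001 * C with hC1
  have hC10 : 0 < C1 := by positivity
  set U : ℕ := max u0 2 with hU
  have hU2 : 2 ≤ U := le_max_right _ _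
  have hUu0 : u0 ≤ U := le_max_left _ _
  obtain ⟨m0, hm0a, hm0b, hm0c⟩ : ∃ m0 : ℕ, (C1 / η) ^ 1000 ≤ (m0 : ℝ) ∧ (U : ℝ) ^ 1000 + 1 ≤ m0 ∧ z0 ≤ m0 := by
    obtain ⟨a, ha⟩ := exists_nat_ge ((C1 / η) ^ 1000)
    obtain ⟨b, hb⟩ := exists_nat_ge ((U : ℝ) ^ 1000 + 1)
    obtain ⟨c, hc⟩ := exists_nat_ge z0
    refine ⟨a + b + c, ?_, ?_, ?_⟩ <;> push_cast
    · linarith [(Nat.cast_nonneg b : (0 : ℝ) ≤ b), (Nat.cast_nonneg c : (0 : ℝ) ≤ c)]
    · linarith [(Nat.cast_nonneg a : (0 : ℝ) ≤ a), (Nat.cast_nonneg c : (0 : ℝ) ≤ c)]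
    · linarith [(Nat.cast_nonneg a : (0 : ℝ) ≤ a), (Nat.cast_nonneg b : (0 : ℝ) ≤ b)]
  have hm01 : (1 : ℝ) ≤ m0 := by linarith
  have hz02 : z0 ≤ 2 ^ m0 := by
    have : (m0 : ℝ) ≤ 2 ^ m0 := by exact_mod_cast (Nat.lt_two_pow_self (n := m0)).le
    linarith
  have hpow : (2 : ℝ) ^ m0 ≤ 2 ^ (2 * m0) := pow_le_pow_right₀ (by norm_num) (by omega)
  obtain ⟨K0, hK0⟩ := hbase (2 * 2 ^ (2 * m0)) (by
    have : (0 : ℝ) < 2 ^ (2 * m0) := by positivity
    linarith)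
  -- the claim
  have hclaim : ∀ K : ℕ, K0 ≤ K → ∀ n : ℕ, ∀ Z : ℝ, (2 : ℝ) ^ m0 ≤ Z → Z ≤ 2 ^ (2 * m0 + n) →
      Real.log Z ^ (998 / 1000 : ℝ) ≤ K → En f K Z ≤ 2 * η - C1 * GG (Real.logb 2 Z) := by
    intro K hK n
    induction n with
    | zero =>
      intro Z hZ1 hZ2 _
      rw [add_zero] at hZ2
      have hZ0 : 0 < Z := lt_of_lt_of_le (by positivity) hZ1
      have hmZ : (m0 : ℝ) ≤ Real.logb 2 Z := by
        rw [Real.le_logb_iff_rpow_le (by norm_num) hZ0, Real.rpow_natCast]; exact hZ1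
      have hG := GG_small hC10 hη0 (hm0a.trans hmZ)
      have hsq : Bd (1 * 1) (fun z => AK f K z ^ 2) := by
        have := (en_AK_bd hf.1 K).mul (en_AK_bd hf.1 K)
        simpa only [pow_two] using this
      have hE : En f K Z ≤ η := by
        unfold En
        apply av_le hZ0 hsq
        intro y hy1 hy2
        have h1 := hK0 K hK y (by linarith) (by linarith)
        rw [← sq_abs]
        calc |AK f K y| ^ 2 ≤ (√ η) ^ 2 := pow_le_pow_left₀ (abs_nonneg _) h1 2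
          _ = η := Real.sq_sqrt hη0.le
      linarith
    | succ n ih =>
      intro Z hZ1 hZ2 hKZ
      by_cases hsmall : Z ≤ 2 ^ (2 * m0 + n)
      · exact ih Z hZ1 hsmall hKZ
      push Not at hsmall
      have hZ0 : 0 < Z := lt_of_lt_of_le (by positivity) hZ1
      set m : ℝ := Real.logb 2 Z with hm
      have hm2 : 2 * (m0 : ℝ) ≤ m := by
        have : ((2 * m0 + n : ℕ) : ℝ) ≤ Real.logb 2 Z := by
          rw [Real.le_logb_iff_rpow_le (by norm_num) hZ0, Real.rpow_natCast]; exact hsmall.le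
        push_cast at this
        linarith [(Nat.cast_nonneg n : (0 : ℝ) ≤ n)]
      have hmm0 : (m0 : ℝ) ≤ m := by linarith
      have hm0' : 0 < m := by linarith
      obtain ⟨u, hu1, hu2⟩ := exists_root (show 1 ≤ m by linarith)
      have huU : U ≤ u := by
        by_contra hcon
        push Not at hcon
        have h1 : ((u + 1 : ℕ) : ℝ) ^ 1000 ≤ (U : ℝ) ^ 1000 := by
          apply pow_le_pow_left₀ (by positivity)
          exact_mod_cast hcon
        linarith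
      have hu2' : 2 ≤ u := by omega
      have hu2r : (2 : ℝ) ≤ u := by exact_mod_cast hu2'
      have hur : (0 : ℝ) < u := by linarith
      have hmu : m ≤ (2 * (u : ℝ)) ^ 1000 := by
        have h1 : (u + 1) ^ 1000 < (u + 2) ^ 1000 := Nat.pow_lt_pow_left (by omega) (by norm_num)
        have h2 : (u + 2) ^ 1000 ≤ (2 * u) ^ 1000 := Nat.pow_le_pow_left (by omega) _
        have h3 : (u + 1) ^ 1000 + 1 ≤ (2 * u) ^ 1000 := by omega
        have h4 : ((u + 1 : ℕ) : ℝ) ^ 1000 + 1 ≤ (2 * (u : ℝ)) ^ 1000 := by exact_mod_cast h3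
        linarith
      have hZu : 2 * (2 : ℝ) ^ (u ^ 1000) ≤ Z := by
        have h1 : ((u ^ 1000 + 1 : ℕ) : ℝ) ≤ Real.logb 2 Z := by push_cast; exact hu1
        rw [Real.le_logb_iff_rpow_le (by norm_num) hZ0, Real.rpow_natCast, pow_succ] at h1
        linarith
      have hKu : (u : ℝ) ^ 997 ≤ K := by
        refine le_trans ?_ hKZ
        have h1 : (u : ℝ) ^ 1000 * 0.69 ≤ Real.log Z := by
          have h2 : Real.log Z = m * Real.log 2 := by
            rw [hm, Real.logb, div_mul_cancel₀]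
            exact (Real.log_pos (by norm_num)).ne'
          rw [h2]
          have h3 := Real.log_two_gt_d9
          have h4 : (u : ℝ) ^ 1000 ≤ m := by linarith
          have h5 : (0 : ℝ) ≤ (u : ℝ) ^ 1000 := by positivity
          have h6 : (0.69 : ℝ) ≤ Real.log 2 := by linarith
          exact mul_le_mul h4 h6 (by norm_num) (by linarith)
        have h7 : ((u : ℝ) ^ 1000 * 0.69) ^ (998 / 1000 : ℝ) ≤ Real.log Z ^ (998 / 1000 : ℝ) :=
          Real.rpow_le_rpow (by positivity) h1 (by norm_num)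
        refine le_trans ?_ h7
        rw [Real.mul_rpow (by positivity) (by norm_num)]
        have h8 : ((u : ℝ) ^ 1000) ^ (998 / 1000 : ℝ) = (u : ℝ) ^ 998 := by
          rw [← Real.rpow_natCast, ← Real.rpow_mul hur.le, ← Real.rpow_natCast]
          norm_num
        have h9 : (0.69 : ℝ) ≤ (0.69 : ℝ) ^ (998 / 1000 : ℝ) := by
          have := Real.rpow_le_rpow_of_exponent_ge (x := (0.69 : ℝ)) (by norm_num) (by norm_num)
            (show (998 / 1000 : ℝ) ≤ 1 by norm_num)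
          rwa [Real.rpow_one] at this
        have h11 : (u : ℝ) ^ 998 = (u : ℝ) ^ 997 * u := by rw [← pow_succ]
        rw [h8, h11]
        have h10 : (0 : ℝ) ≤ (u : ℝ) ^ 997 := by positivity
        calc (u : ℝ) ^ 997 = (u : ℝ) ^ 997 * 1 := (mul_one _).symm
          _ ≤ (u : ℝ) ^ 997 * (u * (0.69 : ℝ) ^ (998 / 1000 : ℝ)) := by
              apply mul_le_mul_of_nonneg_left _ h10
              nlinarith
          _ = _ := by ring
      have hst := hstep f hf u (hUu0.trans huU) Z hZu K hKu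
      -- sizes
      have htm : (1024 : ℝ) * u ^ 990 ≤ m := by
        have h1 : (1024 : ℝ) ≤ (u : ℝ) ^ 10 := by
          calc (1024 : ℝ) = 2 ^ 10 := by norm_num
            _ ≤ (u : ℝ) ^ 10 := pow_le_pow_left₀ (by norm_num) hu2r 10
        have h2 : (u : ℝ) ^ 10 * u ^ 990 = u ^ 1000 := by rw [← pow_add]
        have h3 : (1024 : ℝ) * u ^ 990 ≤ (u : ℝ) ^ 10 * u ^ 990 := mul_le_mul_of_nonneg_right h1 (by positivity)
        linarith
      have ht5 : (5 : ℝ) ≤ (u : ℝ) ^ 990 := by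
        calc (5 : ℝ) ≤ 2 ^ 3 := by norm_num
          _ ≤ (u : ℝ) ^ 3 := pow_le_pow_left₀ (by norm_num) hu2r 3
          _ ≤ (u : ℝ) ^ 990 := pow_le_pow_right₀ (by linarith) (by norm_num)
      set T : ℝ := (u : ℝ) ^ 990 with hT
      set δ : ℝ := C1 * (GG m * (T / 5 / m) / 1000) with hδ
      have herr : C / (u : ℝ) ^ 11 ≤ δ := GG_err hC hur hm0' hmu
      have hGm := GG_small hC10 hη0 (hm0a.trans hmm0)
      have hG0 := GG_nonneg m hm0'.le
      have hδη : δ ≤ η := by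
        have h1 : T / 5 / m ≤ 1 := by
          rw [div_le_one hm0']; linarith
        have h2 : GG m * (T / 5 / m) ≤ GG m * 1 := mul_le_mul_of_nonneg_left h1 hG0
        have h3 : GG m * (T / 5 / m) / 1000 ≤ GG m := by
          have h4 : 0 ≤ GG m * (T / 5 / m) := by positivity
          linarith
        calc δ ≤ C1 * GG m := mul_le_mul_of_nonneg_left h3 hC10.le
          _ ≤ η := hGm
      have hterm : ∀ c ∈ Cs (u ^ 990) (u ^ 488) (u ^ 501),
          En f K (3 ^ c / 2 ^ (u ^ 990) * Z) ≤ 2 * η - C1 * GG m - δ := by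
        intro c hc
        obtain ⟨h1, h2⟩ := Cs_height hu2' hc hZ0
        rw [← hT, ← hm] at h1 h2
        set Z' : ℝ := 3 ^ c / 2 ^ (u ^ 990) * Z with hZ'
        have hZ'0 : 0 < Z' := by positivity
        have hm'1 : (m0 : ℝ) ≤ Real.logb 2 Z' := by linarith
        have hZ'1 : (2 : ℝ) ^ m0 ≤ Z' := by
          rw [Real.le_logb_iff_rpow_le (by norm_num) hZ'0, Real.rpow_natCast] at hm'1; exact hm'1
        have hmn : m ≤ ((2 * m0 + (n + 1) : ℕ) : ℝ) := by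
          rw [hm, Real.logb_le_iff_le_rpow (by norm_num) hZ0, Real.rpow_natCast]; exact hZ2
        have hZ'2 : Z' ≤ 2 ^ (2 * m0 + n) := by
          have h3 : Real.logb 2 Z' ≤ ((2 * m0 + n : ℕ) : ℝ) := by
            push_cast at hmn ⊢
            linarith
          rw [Real.logb_le_iff_le_rpow (by norm_num) hZ'0, Real.rpow_natCast] at h3; exact h3
        have hZ'Z : Z' ≤ Z := by
          have h4 : Real.logb 2 Z' ≤ Real.logb 2 Z := by rw [← hm]; linarith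
          exact (Real.logb_le_logb (by norm_num) hZ'0 hZ0).1 h4
        have hK' : Real.log Z' ^ (998 / 1000 : ℝ) ≤ K := by
          have h4 := Real.log_le_log hZ'0 hZ'Z
          have h40 : 0 ≤ Real.log Z' := by
            apply Real.log_nonneg
            exact le_trans (one_le_pow₀ (by norm_num)) hZ'1
          exact (Real.rpow_le_rpow h40 h4 (by norm_num)).trans hKZ
        have h6 := ih Z' hZ'1 hZ'2 hK'
        have h7 := GG_step (m := m) (m' := Real.logb 2 Z') (s := T / 5) (by linarith) (by linarith)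
          (by linarith) h2
        have h8 := mul_le_mul_of_nonneg_left h7 hC10.le
        have h9 : C1 * (GG m + GG m * (T / 5 / m) / 1000) = C1 * GG m + δ := by rw [hδ]; ring
        linarith
      have hpos : 0 ≤ 2 * η - C1 * GG m - δ := by linarith
      have hsum : ∑ c ∈ Cs (u ^ 990) (u ^ 488) (u ^ 501), pc d (u ^ 990) (u ^ 488) c
          * En f K (3 ^ c / 2 ^ (u ^ 990) * Z) ≤ 2 * η - C1 * GG m - δ := by
        calc ∑ c ∈ Cs (u ^ 990) (u ^ 488) (u ^ 501), pc d (u ^ 990) (u ^ 488) c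
              * En f K (3 ^ c / 2 ^ (u ^ 990) * Z)
            ≤ ∑ c ∈ Cs (u ^ 990) (u ^ 488) (u ^ 501), pc d (u ^ 990) (u ^ 488) c * (2 * η - C1 * GG m - δ) :=
              sum_le_sum fun c hc => mul_le_mul_of_nonneg_left (hterm c hc) (stp_pc_nonneg _ _ _ _)
          _ = (∑ c ∈ Cs (u ^ 990) (u ^ 488) (u ^ 501), pc d (u ^ 990) (u ^ 488) c) * (2 * η - C1 * GG m - δ) := by
              rw [sum_mul]
          _ ≤ 1 * (2 * η - C1 * GG m - δ) := by
              apply mul_le_mul_of_nonneg_right _ hpos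
              exact stp_pc_sum d (Nat.one_le_pow _ _ (by omega)) _
          _ = _ := one_mul _
      linarith
  -- conclusion
  set Y : ℝ := ((K0 : ℝ) + 1) ^ (1000 / 998 : ℝ) with hY
  refine ⟨max (2 ^ m0) (Real.exp Y), le_trans (one_le_pow₀ (by norm_num)) (le_max_left _ _), ?_⟩
  intro Z hZ K hK
  have hZ1 : (2 : ℝ) ^ m0 ≤ Z := le_trans (le_max_left _ _) hZ
  have hZ2 : Real.exp Y ≤ Z := le_trans (le_max_right _ _) hZ
  have hZ0 : 0 < Z := lt_of_lt_of_le (by positivity) hZ1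
  have hKK : K0 ≤ K := by
    have h1 : Y ≤ Real.log Z := by
      rw [Real.le_log_iff_exp_le hZ0]; exact hZ2
    have h2 : Y ^ (998 / 1000 : ℝ) ≤ Real.log Z ^ (998 / 1000 : ℝ) :=
      Real.rpow_le_rpow (by positivity) h1 (by norm_num)
    have h3 : Y ^ (998 / 1000 : ℝ) = (K0 : ℝ) + 1 := by
      rw [hY, ← Real.rpow_mul (by positivity)]
      norm_num
    have : (K0 : ℝ) ≤ K := by linarith
    exact_mod_cast this
  obtain ⟨n, hn⟩ := pow_unbounded_of_one_lt Z (show (1 : ℝ) < 2 by norm_num)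
  have hn2 : Z ≤ 2 ^ (2 * m0 + n) := hn.le.trans (pow_le_pow_right₀ (by norm_num) (by omega))
  have hfin := hclaim K hKK n Z hZ1 hn2 hK
  have hmZ : (m0 : ℝ) ≤ Real.logb 2 Z := by
    rw [Real.le_logb_iff_rpow_le (by norm_num) hZ0, Real.rpow_natCast]; exact hZ1
  have hG0 := GG_nonneg (Real.logb 2 Z) (by linarith)
  have : 0 ≤ C1 * GG (Real.logb 2 Z) := mul_nonneg hC10.le hG0
  linarith

end Pool.Agent.KS6_24.LN
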