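import Mathlib
import Pool.Agent.KS6_24.LN.U1
import Pool.Agent.KS6_24.LN.Main

/-! Upgrade U1 (helper56), the final statements: averages over `(log n) ^ a` terms, `a > 998/1000`, and
windows of length `exp ((log n) ^ a)`. -/

set_option autoImplicit false

namespace Pool.Agent.KS6_24.LN

open Pool.Agent.H499R2.CO Pool.Agent.Y965.SI Finset Filter Topology MeasureTheory

open Classical in
/-- LAW OF LARGE NUMBERS with `c (log n)^a` terms, `a > 0.998` -/
def S_LLN2 (d : ℤ) : Prop := ∀ S : Set ℤ, (∀ x, Tz d x ∈ S ↔ x ∈ S) → ∀ δ : ℝ, 0 ≤ δ → δ ≤ 1 →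
  MeanZero (fun x => S.indicator (fun _ => (1 : ℝ)) x - δ) → ∀ a c ε : ℝ, 998 / 1000 < a → 0 < c → 0 < ε →
  Negl (fun n => ε < |((#{i ∈ range ⌊c * Real.log n ^ a⌋₊ | ((3 ^ i * n / 2 ^ Nat.log 2 (3 ^ i) : ℕ) : ℤ) ∈ S} : ℕ) : ℝ)
    / ⌊c * Real.log n ^ a⌋₊ - δ|)

/-- WINDOWS of length `exp ((log n)^a)`, `a > 0.998` -/
def S_WIN2 (d : ℤ) : Prop := ∀ S : Set ℤ, (∀ x, Tz d x ∈ S ↔ x ∈ S) → (∃ x ∈ S, 0 < x) → ∀ a : ℝ, 998 / 1000 < a →
  Negl (fun n => ∀ x : ℕ, n ≤ x → (x : ℝ) ≤ n + Real.exp (Real.log n ^ a) → (x : ℤ) ∉ S)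

/-- `c * y^a ≥ A * y^b + B` for large `y` if `b < a`, `0 ≤ b` -/
theorem u1_pow {a b c A B : ℝ} (hb : 0 ≤ b) (hab : b < a) (hc : 0 < c) (hB : 0 ≤ B) :
    ∀ᶠ y : ℝ in atTop, A * y ^ b + B ≤ c * y ^ a := by
  have h1 : Tendsto (fun y : ℝ => c * y ^ (a - b)) atTop atTop :=
    (tendsto_rpow_atTop (by linarith)).const_mul_atTop hc
  filter_upwards [eventually_ge_atTop 1, h1.eventually_ge_atTop (A + B)] with y hy1 hy2
  have h2 : (1 : ℝ) ≤ y ^ b := Real.one_le_rpow hy1 hb
  have h3 : y ^ a = y ^ (a - b) * y ^ b := by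
    rw [← Real.rpow_add (by linarith)]; congr 1; ring
  rw [h3, ← mul_assoc]
  calc A * y ^ b + B ≤ A * y ^ b + B * y ^ b := by nlinarith
    _ = (A + B) * y ^ b := by ring
    _ ≤ c * y ^ (a - b) * y ^ b := mul_le_mul_of_nonneg_right hy2 (by linarith)

theorem lln2 {d : ℤ} (hE : S_EN2 d) (hCI : S_CI d) : S_LLN2 d := by
  classical
  intro S hS δ h0 h1 hmz a c ε ha hc hε
  obtain ⟨C, hCpos, hC⟩ := hCI
  set f : ℤ → ℝ := fun x => S.indicator (fun _ => (1 : ℝ)) x - δ with hfdef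
  have hf : InvF d f := invF_ind hS h0 h1
  apply negl_of_dyadic
  intro η hη
  obtain ⟨Z0, hZ0, hEN⟩ := hE f hf hmz ((η * ε / 8) ^ 2) (by positivity)
  have hlg : Tendsto (fun N : ℕ => Real.log N) atTop atTop :=
    Real.tendsto_log_atTop.comp tendsto_natCast_atTop_atTop
  have hlog : Tendsto (fun N : ℕ => c * Real.log N ^ a) atTop atTop :=
    ((tendsto_rpow_atTop (by linarith)).comp hlg).const_mul_atTop hc
  have hbig : ∀ᶠ N : ℕ in atTop, 1 * Real.log N ^ (998 / 1000 : ℝ) + 1 ≤ c * Real.log N ^ a :=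
    hlg.eventually (u1_pow (by norm_num) ha hc (by norm_num))
  have hrat : Tendsto (fun N : ℕ => (1 + Real.log 2 / Real.log N) ^ a) atTop (𝓝 1) := by
    have h1 : Tendsto (fun N : ℕ => 1 + Real.log 2 / Real.log N) atTop (𝓝 (1 + 0)) :=
      (hlg.const_div_atTop (Real.log 2)).const_add 1
    rw [add_zero] at h1
    have h2 := h1.rpow_const (p := a) (Or.inl one_ne_zero)
    rwa [Real.one_rpow] at h2
  have hrho : Tendsto (fun N : ℕ => 2 * (C * √ 2 * rho (Nat.log 2 N))) atTop (𝓝 0) := by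
    have h2 : Tendsto (fun N : ℕ => Nat.log 2 N) atTop atTop := by
      apply tendsto_atTop.2
      intro b
      filter_upwards [eventually_ge_atTop (2 ^ b)] with N hN
      exact (Nat.le_log_iff_pow_le (by norm_num) (by have := Nat.one_le_two_pow (n := b); omega)).2 hN
    have := ((rho_tendsto.comp h2).const_mul (C * √ 2)).const_mul 2
    rw [mul_zero, mul_zero] at this
    exact this
  have hev : ∀ᶠ N : ℕ in atTop, (#{n ∈ Ico N (2 * N) | ε < |((#{i ∈ range ⌊c * Real.log n ^ a⌋₊ |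
      ((3 ^ i * n / 2 ^ Nat.log 2 (3 ^ i) : ℕ) : ℤ) ∈ S} : ℕ) : ℝ) / ⌊c * Real.log n ^ a⌋₊ - δ|} : ℝ) ≤ η * N := by
    filter_upwards [eventually_ge_atTop 2, eventually_ge_atTop ⌈Z0⌉₊,
      hlog.eventually_ge_atTop (2 + 16 / ε), hbig, hlg.eventually_ge_atTop 1,
      hrat.eventually (eventually_le_nhds (show (1 : ℝ) < 1 + ε / 16 by linarith)),
      hrho.eventually (eventually_le_nhds (show (0 : ℝ) < η * ε / 8 by positivity))] with N hN2 hNZ hNl hNb hNlg hNrat hNr
    have hl2 : 0 < Real.log 2 := Real.log_pos (by norm_num)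
    have hN' : (0 : ℝ) < N := by positivity
    have hq : 0 < 16 / ε := by positivity
    set X : ℝ := c * Real.log N ^ a with hX
    set K := ⌊X⌋₊ with hK
    have hKle : (K : ℝ) ≤ X := Nat.floor_le (by linarith)
    have hKlt : X < K + 1 := Nat.lt_floor_add_one _
    have hK1' : (1 : ℝ) < K := by linarith
    have hK1 : 1 ≤ K := by exact_mod_cast hK1'.le
    have hZN : Z0 ≤ N := by
      have := Nat.le_ceil Z0
      have h3 : ((⌈Z0⌉₊ : ℕ) : ℝ) ≤ N := by exact_mod_cast hNZ
      linarith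
    have hen := hEN N hZN K (by linarith)
    have hlogN : 2 ^ Nat.log 2 N ≤ N := Nat.pow_log_le_self 2 (by omega)
    have hR : 1 ≤ Nat.log 2 N := (Nat.le_log_iff_pow_le (by norm_num) (by omega)).2 (by simpa using hN2)
    have hmean := AK_int_mean hC hf hR hlogN hK1
    have hsq : √ (En f K N) ≤ η * ε / 8 := by
      have := Real.sqrt_le_sqrt hen
      rwa [Real.sqrt_sq (by positivity)] at this
    have hsum : ∑ n ∈ Ico N (2 * N), |AK f K n| ≤ η * ε / 4 * N := by
      rw [div_le_iff₀ hN'] at hmean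
      refine hmean.trans ?_
      gcongr
      linarith
    have hinc : ∀ n ∈ Ico N (2 * N), ε < |((#{i ∈ range ⌊c * Real.log n ^ a⌋₊ |
        ((3 ^ i * n / 2 ^ Nat.log 2 (3 ^ i) : ℕ) : ℤ) ∈ S} : ℕ) : ℝ) / ⌊c * Real.log n ^ a⌋₊ - δ| →
        ε / 2 < |AK f K n| := by
      intro n hn hlt
      rw [mem_Ico] at hn
      have hNn : (N : ℝ) ≤ n := by exact_mod_cast hn.1
      have hnN : (n : ℝ) ≤ 2 * N := by exact_mod_cast hn.2.le
      have hn0 : (0 : ℝ) < n := by linarith
      have hl1 : Real.log N ≤ Real.log n := Real.log_le_log hN' hNn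
      have hl3 : Real.log n ≤ Real.log 2 + Real.log N := by
        rw [← Real.log_mul (by norm_num) hN'.ne']
        exact Real.log_le_log hn0 hnN
      have hXn : X ≤ c * Real.log n ^ a := by
        rw [hX]
        exact mul_le_mul_of_nonneg_left (Real.rpow_le_rpow (by linarith) hl1 (by linarith)) hc.le
      have hXn2 : c * Real.log n ^ a ≤ (1 + ε / 16) * X := by
        have e1 : Real.log 2 + Real.log N = (1 + Real.log 2 / Real.log N) * Real.log N := by
          field_simp; ring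
        have e2 : Real.log n ^ a ≤ ((1 + Real.log 2 / Real.log N) * Real.log N) ^ a :=
          Real.rpow_le_rpow (by linarith) (by rw [← e1]; exact hl3) (by linarith)
        rw [Real.mul_rpow (by positivity) (by linarith)] at e2
        have e3 : (1 + Real.log 2 / Real.log N) ^ a * Real.log N ^ a ≤ (1 + ε / 16) * Real.log N ^ a :=
          mul_le_mul_of_nonneg_right hNrat (Real.rpow_nonneg (by linarith) _)
        have e4 := mul_le_mul_of_nonneg_left (e2.trans e3) hc.le
        rw [hX]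
        linarith
      set L := ⌊c * Real.log n ^ a⌋₊ with hL
      have hKL : K ≤ L := Nat.floor_le_floor hXn
      have hLle : (L : ℝ) ≤ c * Real.log n ^ a := Nat.floor_le (by linarith)
      rw [AK_eq S δ (hK1.trans hKL) n] at hlt
      have hch := AK_change hf.1 hK1 hKL (n : ℝ)
      have hLK : ((L - K : ℕ) : ℝ) ≤ ε / 16 * X + 1 := by
        rw [Nat.cast_sub hKL]
        nlinarith
      have h5 : 2 * ((L - K : ℕ) : ℝ) / K ≤ ε / 2 := by
        rw [div_le_iff₀ (by linarith)]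
        have h6 : 16 / ε ≤ X := by linarith
        rw [div_le_iff₀ hε] at h6
        have h7 : X / 2 ≤ K := by linarith
        have h8 : ε * (X / 2) ≤ ε * K := mul_le_mul_of_nonneg_left h7 hε.le
        linarith
      have h7 := abs_sub_abs_le_abs_sub (AK f L n) (AK f K n)
      have h8 : ε < |AK f L n| := hlt
      linarith
    have hcard : (ε / 2) * (#{n ∈ Ico N (2 * N) | ε < |((#{i ∈ range ⌊c * Real.log n ^ a⌋₊ |
        ((3 ^ i * n / 2 ^ Nat.log 2 (3 ^ i) : ℕ) : ℤ) ∈ S} : ℕ) : ℝ) / ⌊c * Real.log n ^ a⌋₊ - δ|} : ℝ)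
        ≤ η * ε / 4 * N := by
      refine le_trans ?_ hsum
      rw [mul_comm, ← nsmul_eq_mul, ← sum_const]
      calc ∑ n ∈ Ico N (2 * N) with ε < |((#{i ∈ range ⌊c * Real.log n ^ a⌋₊ |
          ((3 ^ i * n / 2 ^ Nat.log 2 (3 ^ i) : ℕ) : ℤ) ∈ S} : ℕ) : ℝ) / ⌊c * Real.log n ^ a⌋₊ - δ|, ε / 2
          ≤ ∑ n ∈ Ico N (2 * N) with ε < |((#{i ∈ range ⌊c * Real.log n ^ a⌋₊ |
          ((3 ^ i * n / 2 ^ Nat.log 2 (3 ^ i) : ℕ) : ℤ) ∈ S} : ℕ) : ℝ) / ⌊c * Real.log n ^ a⌋₊ - δ|, |AK f K n| := by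
            apply sum_le_sum
            intro n hn
            rw [mem_filter] at hn
            exact (hinc n hn.1 hn.2).le
        _ ≤ ∑ n ∈ Ico N (2 * N), |AK f K n| :=
            sum_le_sum_of_subset_of_nonneg (filter_subset _ _) fun _ _ _ => abs_nonneg _
    have h9 : (0 : ℝ) ≤ η * N := by positivity
    nlinarith
  exact eventually_atTop.1 hev


theorem win2 {d : ℤ} (hE : S_EN2 d) (hCI : S_CI d) (hDe : S_DENS d) (hSt : S_STEER d) : S_WIN2 d := by
  classical
  intro S hS hex a₀ ha₀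
  obtain ⟨δ, hδ, hδ1, hmz⟩ := hDe S hS hex
  obtain ⟨C, hCpos, hC⟩ := hCI
  set f : ℤ → ℝ := fun x => S.indicator (fun _ => (1 : ℝ)) x - δ with hfdef
  have hf : InvF d f := invF_ind hS hδ.le hδ1
  set a : ℝ := min a₀ 1 with hadef
  have ha : 998 / 1000 < a := lt_min ha₀ (by norm_num)
  have ha1 : a ≤ 1 := min_le_right _ _
  have haa₀ : a ≤ a₀ := min_le_left _ _
  apply negl_of_dyadic
  intro η hη
  obtain ⟨Z0, hZ0, hEN⟩ := hE f hf hmz ((δ * η / 8) ^ 2) (by positivity)
  -- the parameters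
  set l : ℕ → ℕ := fun N => Nat.log 2 N with hl
  set p : ℕ → ℕ := fun N => ⌊1 / 8 * (l N : ℝ) ^ a⌋₊ with hp
  have hlt : Tendsto l atTop atTop := by
    apply tendsto_atTop.2
    intro b
    filter_upwards [eventually_ge_atTop (2 ^ b)] with N hN
    exact (Nat.le_log_iff_pow_le (by norm_num) (by have := Nat.one_le_two_pow (n := b); omega)).2 hN
  have hlr : Tendsto (fun N => (l N : ℝ)) atTop atTop := tendsto_natCast_atTop_atTop.comp hlt
  have hpt : Tendsto p atTop atTop :=
    tendsto_nat_floor_atTop.comp (((tendsto_rpow_atTop (by linarith)).comp hlr).const_mul_atTop (by norm_num))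
  have hpl : ∀ N, 4 * p N ≤ l N := by
    intro N
    have h1 : (p N : ℝ) ≤ 1 / 8 * (l N : ℝ) ^ a := Nat.floor_le (by positivity)
    rcases Nat.eq_zero_or_pos (l N) with h0 | h0
    · rw [h0, Nat.cast_zero, Real.zero_rpow (by linarith)] at h1
      have h2 : (p N : ℝ) ≤ 0 := by linarith
      have h3 : p N ≤ 0 := by exact_mod_cast h2
      omega
    · have h2 : (1 : ℝ) ≤ l N := by exact_mod_cast h0
      have h3 : (l N : ℝ) ^ a ≤ l N := by
        have := Real.rpow_le_rpow_of_exponent_le h2 ha1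
        rwa [Real.rpow_one] at this
      have h4 : (4 : ℝ) * p N ≤ l N := by linarith
      exact_mod_cast h4
  have hRt : Tendsto (fun N => l N - p N) atTop atTop :=
    tendsto_atTop_mono (fun N => by have := hpl N; omega) hpt
  have hrho : Tendsto (fun N : ℕ => 4 / δ * (C * √ 2 * rho (l N - p N))) atTop (𝓝 0) := by
    have := ((rho_tendsto.comp hRt).const_mul (C * √ 2)).const_mul (4 / δ)
    rw [mul_zero, mul_zero] at this
    exact this
  have hpr : Tendsto (fun N => (p N : ℝ)) atTop atTop := tendsto_natCast_atTop_atTop.comp hpt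
  have hlg : Tendsto (fun N : ℕ => Real.log N) atTop atTop :=
    Real.tendsto_log_atTop.comp tendsto_natCast_atTop_atTop
  have hlr1 : Tendsto (fun N => (l N : ℝ) + 1) atTop atTop := tendsto_atTop_add_const_right _ 1 hlr
  have hbig := hlr1.eventually (u1_pow (b := 998 / 1000) (a := a) (A := 64) (B := 64) (c := 1 / 2) (by norm_num) ha
    (by norm_num) (by norm_num))
  have hbig2 := hlr.eventually (u1_pow (b := 0) (a := a) (A := 8) (B := 0) (c := 1) le_rfl (by linarith)
    (by norm_num) le_rfl)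
  have hev : ∀ᶠ N : ℕ in atTop, (#{n ∈ Ico N (2 * N) | ∀ x : ℕ, n ≤ x → (x : ℝ) ≤ n + Real.exp (Real.log n ^ a₀) → (x : ℤ) ∉ S} : ℝ)
      ≤ η * N := by
    filter_upwards [eventually_ge_atTop 2, hpt.eventually_ge_atTop 8, hpr.eventually_ge_atTop Z0,
      hpr.eventually_ge_atTop (160 / (δ * η)), hlr.eventually_ge_atTop 1, hbig, hbig2, hlg.eventually_ge_atTop 1,
      hrho.eventually (eventually_le_nhds (show (0 : ℝ) < η / 4 by positivity))] with N hN2 hp8 hpZ hpη hle hNb hNb2 hNlg hNr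
    have hN' : (0 : ℝ) < N := by positivity
    have hpN := hpl N
    set P := p N with hP
    set L := l N with hL
    have hLN : 2 ^ L ≤ N := Nat.pow_log_le_self 2 (by omega)
    have hNL : N < 2 ^ (L + 1) := Nat.lt_pow_succ_log_self (by norm_num) N
    have hLN' : (2 : ℝ) ^ L ≤ N := by exact_mod_cast hLN
    have hNL' : (N : ℝ) < 2 ^ (L + 1) := by exact_mod_cast hNL
    have hP1 : (P : ℝ) ≤ 1 / 8 * (L : ℝ) ^ a := Nat.floor_le (by positivity)
    have hP2 : 1 / 8 * (L : ℝ) ^ a < P + 1 := Nat.lt_floor_add_one _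
    set K := P / 8 with hK
    have hK1 : 1 ≤ K := by omega
    set Z : ℝ := 1 / 2 ^ P * N with hZ
    have hZR : (2 : ℝ) ^ (L - P) ≤ Z := by
      rw [hZ, one_div, inv_mul_eq_div, le_div_iff₀ (by positivity), ← pow_add, Nat.sub_add_cancel (by omega)]
      exact hLN'
    have hR1 : 1 ≤ L - P := by omega
    have hPZ : (P : ℝ) ≤ Z := by
      have h1 : P < 2 ^ (L - P) := lt_of_lt_of_le Nat.lt_two_pow_self (Nat.pow_le_pow_right (by norm_num) (by omega))
      have h2 : (P : ℝ) < 2 ^ (L - P) := by exact_mod_cast h1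
      linarith
    have hZ0' : 0 < Z := by positivity
    -- the energy
    have hKr : Real.log Z ^ (998 / 1000 : ℝ) ≤ K := by
      have h1 : Real.log Z ≤ (L + 1 : ℕ) := by
        have h2 : Z ≤ 2 ^ (L + 1) := by
          have : Z ≤ N := by
            rw [hZ, one_div, inv_mul_eq_div]
            exact div_le_self hN'.le (one_le_pow₀ (by norm_num))
          linarith
        have h3 := Real.log_le_log hZ0' h2
        rw [Real.log_pow] at h3
        have h4 : Real.log 2 ≤ 1 := by have := Real.log_two_lt_d9; linarith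
        have h5 : (0 : ℝ) ≤ (L + 1 : ℕ) := Nat.cast_nonneg _
        nlinarith
      have h6 : (P : ℝ) ≤ 8 * K + 7 := by
        have : P ≤ 8 * K + 7 := by omega
        exact_mod_cast this
      push_cast at h1
      have hlZ : 0 ≤ Real.log Z := Real.log_nonneg (by
        have h8 : (1 : ℝ) ≤ P := by
          have : 1 ≤ P := by omega
          exact_mod_cast this
        linarith)
      have h7 : Real.log Z ^ (998 / 1000 : ℝ) ≤ ((L : ℝ) + 1) ^ (998 / 1000 : ℝ) :=
        Real.rpow_le_rpow hlZ h1 (by norm_num)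
      have h8 : ((L : ℝ) + 1) ^ a ≤ 2 * (L : ℝ) ^ a := by
        have h9 : ((L : ℝ) + 1) ^ a ≤ (2 * (L : ℝ)) ^ a := Real.rpow_le_rpow (by positivity) (by linarith) (by linarith)
        rw [Real.mul_rpow (by norm_num) (by positivity)] at h9
        have h10 : (2 : ℝ) ^ a ≤ 2 := by
          have := Real.rpow_le_rpow_of_exponent_le (show (1 : ℝ) ≤ 2 by norm_num) ha1
          rwa [Real.rpow_one] at this
        have h11 : (2 : ℝ) ^ a * (L : ℝ) ^ a ≤ 2 * (L : ℝ) ^ a := mul_le_mul_of_nonneg_right h10 (by positivity)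
        linarith
      linarith
    have hen := hEN Z (by linarith) K hKr
    have hsq : √ (En f K Z) ≤ δ * η / 8 := by
      have := Real.sqrt_le_sqrt hen
      rwa [Real.sqrt_sq (by positivity)] at this
    have hBZ : av Z (BB f δ K) ≤ η / 2 := by
      have h1 := av_BB hC hf hδ hR1 hZR hK1
      have h2 : 2 / δ * √ (En f K Z) ≤ 2 / δ * (δ * η / 8) := by gcongr
      have h3 : 2 / δ * (δ * η / 8) = η / 4 := by field_simp; norm_num
      have h4 : 4 / δ * (C * √ 2 * rho (L - P)) ≤ η / 4 := hNr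
      linarith
    -- the shift
    set w : ℝ := 2 * 4 ^ P with hw
    have hbd := BB_bd hf.1 hδ hK1
    set u : ℝ → ℝ := fun y => BB f δ K (1 / 2 ^ P * y) with hu
    have hubd : Bd (10 / δ) u := hbd.comp (by fun_prop)
    have hu1 : av N u = av Z (BB f δ K) := av_scale hN' (by positivity) (BB f δ K)
    have hshift := av_shift hN' hubd w
    have h4P : (2 : ℝ) ^ (4 * P) ≤ N := le_trans (pow_le_pow_right₀ (by norm_num) hpN) hLN'
    have h4P' : (2 : ℝ) ^ (4 * P) = 4 ^ P * 4 ^ P := by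
      rw [← mul_pow, pow_mul]; norm_num
    have hP4 : (P : ℝ) ≤ 4 ^ P := by
      have : P < 4 ^ P := Nat.lt_pow_self (by norm_num)
      exact_mod_cast this.le
    have hw2 : 2 * |w| * (10 / δ) / N ≤ η / 2 := by
      rw [abs_of_pos (by positivity : 0 < w), hw]
      have h1 : 160 ≤ (4 : ℝ) ^ P * (δ * η) := by
        have h2 : 160 / (δ * η) ≤ 4 ^ P := hpη.trans hP4
        rwa [div_le_iff₀ (by positivity)] at h2
      rw [div_le_iff₀ hN']
      have h3 : 2 * (2 * (4 : ℝ) ^ P) * (10 / δ) = 40 * 4 ^ P / δ := by ring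
      rw [h3, div_le_iff₀ hδ]
      rw [h4P'] at h4P
      have h5 : (0 : ℝ) < 4 ^ P := by positivity
      have h6 : η / 2 * (4 ^ P * 4 ^ P) * δ ≤ η / 2 * N * δ := by gcongr
      nlinarith
    -- comparison
    set g : ℤ → ℝ := fun n => if (∀ x : ℕ, n.toNat ≤ x → (x : ℝ) ≤ n.toNat + Real.exp (Real.log n.toNat ^ a₀) → (x : ℤ) ∉ S)
      then 1 else 0 with hg
    have hg1 : ∀ x, |g x| ≤ 1 := by
      intro x; simp only [hg]; split_ifs <;> simp
    have havg := av_floor hg1 (N := N) (by omega)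
    have hcount : ∑ n ∈ Ico N (2 * N), g n
        = (#{n ∈ Ico N (2 * N) | ∀ x : ℕ, n ≤ x → (x : ℝ) ≤ n + Real.exp (Real.log n ^ a₀) → (x : ℤ) ∉ S} : ℝ) := by
      rw [card_filter]
      push_cast
      apply sum_congr rfl
      intro n _
      simp only [hg, Int.toNat_natCast]
    have hNε : (4 : ℝ) * 4 ^ P ≤ Real.exp (Real.log N ^ a) := by
      have h3 : (4 : ℝ) * 4 ^ P = Real.exp (((P + 1 : ℕ) : ℝ) * (2 * Real.log 2)) := by
        rw [show (2 : ℝ) * Real.log 2 = Real.log 4 by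
          rw [show (4 : ℝ) = 2 ^ 2 by norm_num, Real.log_pow]; norm_num]
        rw [← Real.log_pow, Real.exp_log (by positivity), pow_succ]; ring
      rw [h3]
      apply Real.exp_le_exp.2
      have h4 : (L : ℝ) * Real.log 2 ≤ Real.log N := by
        rw [← Real.log_pow]; exact Real.log_le_log (by positivity) hLN'
      have h5 : ((L : ℝ) * Real.log 2) ^ a ≤ Real.log N ^ a :=
        Real.rpow_le_rpow (by positivity) h4 (by linarith)
      rw [Real.mul_rpow (by positivity) (by positivity)] at h5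
      have h6 : (0.69 : ℝ) ≤ Real.log 2 := by have := Real.log_two_gt_d9; linarith
      have h6' : Real.log 2 ≤ 0.7 := by have := Real.log_two_lt_d9; linarith
      have h7 : Real.log 2 ≤ Real.log 2 ^ a := by
        have := Real.rpow_le_rpow_of_exponent_ge (x := Real.log 2) (by linarith) (by linarith) ha1
        rwa [Real.rpow_one] at this
      have h8 : (0 : ℝ) ≤ (L : ℝ) ^ a := by positivity
      have h9 : (L : ℝ) ^ a * 0.69 ≤ (L : ℝ) ^ a * Real.log 2 ^ a :=
        mul_le_mul_of_nonneg_left (h6.trans h7) h8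
      rw [Real.rpow_zero] at hNb2
      push_cast
      have h10 : ((P : ℝ) + 1) * (2 * Real.log 2) ≤ ((P : ℝ) + 1) * 1.4 :=
        mul_le_mul_of_nonneg_left (by linarith) (by positivity)
      linarith
    have hcomp : av N (fun y => g ⌊y⌋) ≤ av N (fun y => u (y + w)) := by
      have hmw : Measurable fun y : ℝ => y + w := by fun_prop
      apply av_mono hN' (Bd.fl hg1) (hubd.comp hmw)
      intro y hy1 hy2
      have hu0 : 0 ≤ u (y + w) := by
        simp only [hu]
        unfold BB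
        have h1 : 0 ≤ (∑ D ∈ range K, dp f (lam D * (1 / 2 ^ P * (y + w)))) / K := by
          apply div_nonneg _ (Nat.cast_nonneg _)
          exact sum_nonneg fun D _ => abs_nonneg _
        positivity
      by_cases hgy : g ⌊y⌋ = 0
      · rw [hgy]; exact hu0
      have hcond : ∀ x : ℕ, ⌊y⌋.toNat ≤ x → (x : ℝ) ≤ ⌊y⌋.toNat + Real.exp (Real.log ⌊y⌋.toNat ^ a₀) → (x : ℤ) ∉ S := by
        by_contra hc
        apply hgy
        simp only [hg]
        rw [if_neg hc]
      have hgle : g ⌊y⌋ ≤ 1 := (le_abs_self _).trans (hg1 _)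
      refine hgle.trans ?_
      by_contra hlt1
      push Not at hlt1
      have hPle : (2 : ℝ) ^ P ≤ y + w := by
        have h1 : (2 : ℝ) ^ P ≤ 4 ^ P := by gcongr; norm_num
        have h2 : (0 : ℝ) < 4 ^ P := by positivity
        rw [hw]; linarith
      obtain ⟨M, hM0, hMS, hM⟩ := good_window hSt hS hδ (p := P) hK1 hPle hlt1
      have hy0 : 0 ≤ ⌊y⌋ := Int.floor_nonneg.2 (by linarith)
      have hfl1 := Int.floor_le y
      have hfl2 := Int.lt_floor_add_one y
      have hn : ((⌊y⌋.toNat : ℕ) : ℝ) = (⌊y⌋ : ℝ) := by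
        have : ((⌊y⌋.toNat : ℕ) : ℤ) = ⌊y⌋ := Int.toNat_of_nonneg hy0
        exact_mod_cast this
      have hMn : ((M.toNat : ℕ) : ℤ) = M := Int.toNat_of_nonneg hM0.le
      have hMr : ((M.toNat : ℕ) : ℝ) = (M : ℝ) := by exact_mod_cast hMn
      rw [abs_le] at hM
      have hNfl : (N : ℝ) ≤ ⌊y⌋ := by
        have : (N : ℤ) ≤ ⌊y⌋ := Int.le_floor.2 (by exact_mod_cast hy1)
        exact_mod_cast this
      have h4p1 : (1 : ℝ) ≤ 4 ^ P := one_le_pow₀ (by norm_num)
      refine hcond M.toNat ?_ ?_ (by rw [hMn]; exact hMS)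
      · have : ((⌊y⌋.toNat : ℕ) : ℝ) ≤ (M.toNat : ℕ) := by
          rw [hn, hMr]
          rw [hw] at hM
          linarith [hM.1]
        exact_mod_cast this
      · rw [hn, hMr]
        have hlgy : Real.log N ≤ Real.log ((⌊y⌋ : ℤ) : ℝ) := Real.log_le_log hN' hNfl
        have h1 : Real.log N ^ a ≤ Real.log ((⌊y⌋ : ℤ) : ℝ) ^ a :=
          Real.rpow_le_rpow (by linarith) hlgy (by linarith)
        have h2 : Real.log ((⌊y⌋ : ℤ) : ℝ) ^ a ≤ Real.log ((⌊y⌋ : ℤ) : ℝ) ^ a₀ :=
          Real.rpow_le_rpow_of_exponent_le (by linarith) haa₀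
        have h3 := Real.exp_le_exp.2 (h1.trans h2)
        rw [hw] at hM
        linarith [hM.2]
    have hfin : (∑ n ∈ Ico N (2 * N), g n) / N ≤ η := by
      rw [← havg]
      have h1 := (abs_le.1 hshift).2
      rw [hu1] at h1
      linarith
    rw [← hcount]
    rwa [div_le_iff₀ hN'] at hfin
  exact eventually_atTop.1 hev


theorem en2_all {d : ℤ} (hd : d = 1 ∨ d = -1) : S_EN2 d := by
  have hd2 : d % 2 = 1 := by rcases hd with rfl | rfl <;> decide
  have h1 : S_TV d := tv d hd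
  have h2 : S_TW d := TW.s_tw hd2 h1
  exact en2 d (step2 d (pair d hd h1 h2) exc) base

theorem lln2_all {d : ℤ} (hd : d = 1 ∨ d = -1) : S_LLN2 d := lln2 (en2_all hd) (ci d hd)

theorem win2_all {d : ℤ} (hd : d = 1 ∨ d = -1) : S_WIN2 d := win2 (en2_all hd) (ci d hd) (dens hd) (steer hd)

end Pool.Agent.KS6_24.LN
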