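import Mathlib
import Pool.Agent.KS6_24.LN.U1Fin
import Pool.Agent.KS6_24.LN.Cnt

set_option autoImplicit false

/-!
# Short windows: every invariant set is almost everywhere in short intervals

Let `S` be a set of integers that is invariant under the Collatz map (`x ∈ S` iff `C x ∈ S`) and contains an
integer of sign `s`; for example the set of all integers whose trajectory meets the trajectory of a given
integer, the basin of `-1`, `-5` or `-17`, or the set of the integers that do not reach the known cycles, if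
there are any.

* Law of large numbers: `S` has a density `δ > 0` on the integers of sign `s`, and for almost all `n` the
  proportion of members of `S` among the `K = ⌊c (log n) ^ a⌋` integers `s ⌊3 ^ i n / 2 ^ ⌊i log₂ 3⌋⌋`, `i < K`
  (all of size between `n` and `2 n`), is close to `δ`, for every `a > 0.998`.
* Windows: for almost all `n` every interval `s [n, n + L]` with `exp ((log n) ^ a) ≤ L ≤ n` contains at least
  `L / exp ((log n) ^ a)`, i.e. `L ^ (1 - o(1))`, members of `S`.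
* Q1: if there is an integer of sign `s` that does not reach the known cycles, then almost all the intervals
  `s [n, n + exp ((log n) ^ a)]` contain such integers.
-/

namespace Pool.Agent.Results.MP_d02c56_nt.ShortWindows

open Filter Topology

/-- The Collatz map on the integers. -/
def C (x : ℤ) : ℤ := if x % 2 = 0 then x / 2 else 3 * x + 1

/-- `S` is invariant under the Collatz map and its inverse. -/
def Invariant (S : Set ℤ) : Prop := ∀ x : ℤ, x ∈ S ↔ C x ∈ S

/-- The set of the `n ≥ 1` with `P n` has natural density zero. -/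
def Negligible (P : ℕ → Prop) : Prop :=
  Tendsto (fun N : ℕ => ({n : ℕ | 1 ≤ n ∧ n ≤ N ∧ P n}.ncard : ℝ) / N) atTop (𝓝 0)

/-- The integers of sign `s` in `S` have density `δ` among the integers of sign `s`. -/
def HasDensity (s : ℤ) (S : Set ℤ) (δ : ℝ) : Prop :=
  Tendsto (fun N : ℕ => ({n : ℕ | 1 ≤ n ∧ n ≤ N ∧ s * n ∈ S}.ncard : ℝ) / N) atTop (𝓝 δ)

/-- The number of `x` with `n ≤ x ≤ n + L` and `s x ∈ S`. -/
noncomputable def count (s : ℤ) (S : Set ℤ) (n L : ℕ) : ℕ := {x : ℕ | n ≤ x ∧ x ≤ n + L ∧ s * x ∈ S}.ncard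

/-- The `i`-th companion of `n`: the integral part of `3 ^ i n / 2 ^ ⌊i log₂ 3⌋`. -/
def companion (i n : ℕ) : ℕ := 3 ^ i * n / 2 ^ Nat.log 2 (3 ^ i)

/-- The number of `i < K` for which `s` times the `i`-th companion of `n` is in `S`. -/
noncomputable def visits (s : ℤ) (S : Set ℤ) (n K : ℕ) : ℕ := {i : ℕ | i < K ∧ s * companion i n ∈ S}.ncard

/-- The length of the windows. -/
noncomputable def win (a : ℝ) (n : ℕ) : ℝ := Real.exp (Real.log n ^ a)

/-- The integers whose trajectory passes through `y`. -/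
def Basin (y : ℤ) : Set ℤ := {x | ∃ k : ℕ, C^[k] x = y}

/-- The trajectories of `x` and `y` meet. -/
def Meet (x y : ℤ) : Prop := ∃ k l : ℕ, C^[k] x = C^[l] y

/-- The union of the five known cycles. -/
def Known : Finset ℤ := {1, 4, 2, -1, -2, -5, -14, -7, -20, -10, -17, -50, -25, -74, -37, -110,
  -55, -164, -82, -41, -122, -61, -182, -91, -272, -136, -68, -34, 0}

/-- The trajectory of `x` reaches one of the five known cycles. -/
def Reaches (x : ℤ) : Prop := ∃ k : ℕ, C^[k] x ∈ Known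

open Pool.Agent.KS6_24.LN Pool.Agent.H499R2.CO Pool.Agent.Y965.SI Finset

/-! ### transfer to the accelerated map -/

theorem Tz1_mem {S : Set ℤ} (hS : Invariant S) (y : ℤ) : Tz 1 y ∈ S ↔ y ∈ S := by
  unfold Tz
  by_cases h : y % 2 = 0
  · rw [if_pos h, hS y]
    unfold C
    rw [if_pos h]
  · rw [if_neg h, hS y, hS (C y)]
    have h1 : C (C y) = (3 * y + 1) / 2 := by
      unfold C
      rw [if_neg h, if_pos (by omega)]
    rw [h1]

/-- the conjugated set -/
def conj (s : ℤ) (S : Set ℤ) : Set ℤ := {x | s * x ∈ S}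

theorem conj_inv {s : ℤ} (hs : s = 1 ∨ s = -1) {S : Set ℤ} (hS : Invariant S) (x : ℤ) :
    Tz s x ∈ conj s S ↔ x ∈ conj s S := by
  have hss : ∀ x : ℤ, s * (s * x) = x := by intro x; rcases hs with rfl | rfl <;> ring
  have h1 : s * Tz s x = Tz 1 (s * x) := by
    have := dens_Tz_mul hs (s * x)
    rw [hss] at this
    rw [this, hss]
  show s * Tz s x ∈ S ↔ s * x ∈ S
  rw [h1]
  exact Tz1_mem hS _

theorem sign_of_pos {s : ℤ} (hs : s = 1 ∨ s = -1) {S : Set ℤ} (h : ∃ x ∈ S, 0 < s * x) :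
    ∃ x ∈ conj s S, 0 < x := by
  have hss : ∀ x : ℤ, s * (s * x) = x := by intro x; rcases hs with rfl | rfl <;> ring
  obtain ⟨x, hx, h0⟩ := h
  exact ⟨s * x, by show s * (s * x) ∈ S; rw [hss]; exact hx, h0⟩

theorem negl_iff (P : ℕ → Prop) : Negligible P ↔ Negl P := Iff.rfl

theorem count_eq (s : ℤ) (S : Set ℤ) (n L : ℕ) : count s S n L = cnt (conj s S) n L := by
  classical
  unfold count cnt
  rw [← Set.ncard_coe_finset]
  congr 1
  ext x
  simp only [Set.mem_ofPred_eq, coe_filter, mem_Icc, and_assoc]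
  rfl

theorem visits_eq (s : ℤ) (S : Set ℤ) (n K : ℕ) [DecidablePred fun i : ℕ =>
    ((3 ^ i * n / 2 ^ Nat.log 2 (3 ^ i) : ℕ) : ℤ) ∈ conj s S] :
    visits s S n K = #{i ∈ range K | ((3 ^ i * n / 2 ^ Nat.log 2 (3 ^ i) : ℕ) : ℤ) ∈ conj s S} := by
  unfold visits
  rw [← Set.ncard_coe_finset]
  congr 1
  ext x
  simp only [Set.mem_ofPred_eq, coe_filter, mem_range]
  rfl

theorem density_of_mz {s : ℤ} {S : Set ℤ} {δ : ℝ}
    (h : MeanZero (fun x => (conj s S).indicator (fun _ => (1 : ℝ)) x - δ)) : HasDensity s S δ := by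
  classical
  set ind : ℤ → ℝ := (conj s S).indicator (fun _ => (1 : ℝ)) with hind
  have hind01 : ∀ x, 0 ≤ ind x ∧ ind x ≤ 1 := by
    intro x
    simp only [hind, Set.indicator]
    split_ifs <;> norm_num
  have hc : ∀ N : ℕ, ({n : ℕ | 1 ≤ n ∧ n ≤ N ∧ s * n ∈ S}.ncard : ℝ) = ∑ n ∈ range N, ind ((n + 1 : ℕ)) := by
    intro N
    have e1 : {n : ℕ | 1 ≤ n ∧ n ≤ N ∧ s * n ∈ S}
        = (((range N).filter fun n : ℕ => ((n + 1 : ℕ) : ℤ) ∈ conj s S).image fun n : ℕ => n + 1 : Finset ℕ) := by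
      ext n
      simp only [Set.mem_ofPred_eq, coe_image, coe_filter, mem_range, Set.mem_image]
      constructor
      · rintro ⟨ha, hb, hc⟩
        refine ⟨n - 1, ⟨by omega, ?_⟩, by omega⟩
        rw [Nat.sub_add_cancel ha]; exact hc
      · rintro ⟨m, ⟨hm, hmS⟩, rfl⟩
        exact ⟨by omega, by omega, hmS⟩
    rw [e1, Set.ncard_coe_finset, card_image_of_injective _ (fun a b h => Nat.succ_injective h), card_filter]
    push_cast
    apply sum_congr rfl
    intro n _
    simp only [hind, Set.indicator]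
    try push_cast
    try rfl
  have hs : ∀ N : ℕ, ∑ n ∈ range N, (ind (n : ℕ) - δ)
      = ∑ n ∈ range N, ind ((n + 1 : ℕ)) + (ind 0 - ind N) - N * δ := by
    intro N
    have e1 := sum_range_succ (fun n : ℕ => ind (n : ℕ)) N
    have e2 := sum_range_succ' (fun n : ℕ => ind (n : ℕ)) N
    rw [sum_sub_distrib, sum_const, card_range, nsmul_eq_mul]
    simp only [Nat.cast_zero] at e2
    linarith
  unfold MeanZero at h
  have h5 : Tendsto (fun N : ℕ => (ind 0 - ind N) / N) atTop (𝓝 0) := by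
    apply squeeze_zero_norm (a := fun N : ℕ => 1 / (N : ℝ))
    · intro N
      rw [Real.norm_eq_abs, abs_div, Nat.abs_cast]
      gcongr
      rw [abs_le]
      constructor <;> linarith [(hind01 0).1, (hind01 0).2, (hind01 N).1, (hind01 N).2]
    · exact tendsto_one_div_atTop_nhds_zero_nat
  have h6 := (h.sub h5).add_const δ
  rw [sub_zero, zero_add] at h6
  unfold HasDensity
  apply h6.congr'
  filter_upwards [eventually_gt_atTop 0] with N hN
  have hN' : (N : ℝ) ≠ 0 := by positivity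
  rw [hc]
  have := hs N
  show (∑ n ∈ range N, (ind (n : ℕ) - δ)) / N - (ind 0 - ind N) / N + δ = _
  rw [this]
  field_simp
  ring

/-! ### invariant sets -/

theorem compl_inv {S : Set ℤ} (hS : Invariant S) : Invariant Sᶜ := fun x => not_congr (hS x)

theorem meet_inv (a : ℤ) : Invariant {x | Meet x a} := by
  intro x
  constructor
  · rintro ⟨k, l, h⟩
    refine ⟨k, l + 1, ?_⟩
    rw [← Function.iterate_succ_apply, Function.iterate_succ_apply', h, Function.iterate_succ_apply']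
  · rintro ⟨k, l, h⟩
    exact ⟨k + 1, l, by rw [Function.iterate_succ_apply]; exact h⟩

theorem known_closed : ∀ x ∈ Known, C x ∈ Known := by decide

theorem reaches_inv : Invariant {x | Reaches x} := by
  intro x
  constructor
  · rintro ⟨k, h⟩
    refine ⟨k, ?_⟩
    rw [← Function.iterate_succ_apply, Function.iterate_succ_apply']
    exact known_closed _ h
  · rintro ⟨k, h⟩
    exact ⟨k + 1, by rw [Function.iterate_succ_apply]; exact h⟩

theorem basin_inv {y : ℤ} {p : ℕ} (hy : C^[p + 1] y = y) : Invariant (Basin y) := by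
  intro x
  constructor
  · rintro ⟨k, h⟩
    refine ⟨k + p, ?_⟩
    rw [← Function.iterate_succ_apply, show (k + p).succ = (p + 1) + k by omega,
      Function.iterate_add_apply, h, hy]
  · rintro ⟨k, h⟩
    exact ⟨k + 1, by rw [Function.iterate_succ_apply]; exact h⟩

/-- The statement for one invariant set: density, law of large numbers, short windows. -/
def Law (s : ℤ) (S : Set ℤ) : Prop :=
  ∃ δ : ℝ, 0 < δ ∧ δ ≤ 1 ∧ HasDensity s S δ ∧
    (∀ a c ε : ℝ, 0.998 < a → 0 < c → 0 < ε → Negligible fun n =>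
      ε < |(visits s S n ⌊c * Real.log n ^ a⌋₊ : ℝ) / ⌊c * Real.log n ^ a⌋₊ - δ|) ∧
    ∀ a : ℝ, 0.998 < a → a ≤ 1 → Negligible fun n =>
      ∃ L : ℕ, win a n ≤ L ∧ L ≤ n ∧ (count s S n L : ℝ) < L / win a n

theorem law {s : ℤ} (hs : s = 1 ∨ s = -1) {S : Set ℤ} (hS : Invariant S) (hex : ∃ x ∈ S, 0 < s * x) :
    Law s S := by
  classical
  have hinv := conj_inv hs hS
  obtain ⟨δ, h1, h2, h3⟩ := dens hs (conj s S) hinv (sign_of_pos hs hex)
  refine ⟨δ, h1, h2, density_of_mz h3, ?_, ?_⟩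
  · intro a c ε ha hc hε
    have h := lln2_all hs (conj s S) hinv δ h1.le h2 h3 a c ε (by norm_num at ha ⊢; exact ha) hc hε
    refine h.mono (Eventually.of_forall fun n hn => ?_)
    rw [visits_eq] at hn
    convert hn
  · intro a ha ha1
    obtain ⟨b, hb1, hb2⟩ := exists_between ha
    have h := win2_all hs (conj s S) hinv (sign_of_pos hs hex) b (by norm_num at hb1 ⊢; exact hb1)
    have h4 := count_exp (θ := b) (θ' := a) (by norm_num at hb1; linarith) hb2 ha1 h
    refine h4.mono (Eventually.of_forall fun n hn => ?_)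
    obtain ⟨L, hL1, hL2, hL3⟩ := hn
    refine ⟨L, hL1, hL2, ?_⟩
    rw [count_eq] at hL3
    exact hL3

/-! ### Q1 -/

theorem win_le {a : ℝ} (ha : 0 < a) (ha1 : a < 1) : ∀ᶠ n : ℕ in atTop, win a n + 1 ≤ n := by
  have h := growth ha ha1 le_rfl
  filter_upwards [h, eventually_ge_atTop 1] with n hn hn1
  have hn0 : (0 : ℝ) < n := by exact_mod_cast hn1
  rw [Real.rpow_one, Real.exp_log hn0] at hn
  have h2 : win a n ≤ Real.exp ((Real.log ((4 * n : ℕ) : ℝ)) ^ a) := by
    unfold win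
    apply Real.exp_le_exp.mpr
    apply Real.rpow_le_rpow (Real.log_natCast_nonneg n) _ ha.le
    exact Real.log_le_log hn0 (by push_cast; linarith)
  have h3 := Real.exp_pos ((Real.log ((4 * n : ℕ) : ℝ)) ^ a)
  linarith

/-- An invariant set with a member of sign `s` has members in almost all windows. -/
theorem member {s : ℤ} (hs : s = 1 ∨ s = -1) {S : Set ℤ} (hS : Invariant S) (hex : ∃ x ∈ S, 0 < s * x)
    {a : ℝ} (ha : 0.998 < a) : Negligible fun n => ∀ x : ℕ, n ≤ x → (x : ℝ) ≤ n + win a n → s * x ∉ S := by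
  have hinv := conj_inv hs hS
  exact win2_all hs (conj s S) hinv (sign_of_pos hs hex) a (by norm_num at ha ⊢; exact ha)

theorem not_negl_true {P : ℕ → Prop} (h : ∀ n, P n) : ¬ Negligible P := by
  intro hP
  unfold Negligible at hP
  have h1 : Tendsto (fun N : ℕ => ({n : ℕ | 1 ≤ n ∧ n ≤ N ∧ P n}.ncard : ℝ) / N) atTop (𝓝 1) := by
    apply tendsto_const_nhds.congr'
    filter_upwards [eventually_ge_atTop 1] with N hN
    have e : {n : ℕ | 1 ≤ n ∧ n ≤ N ∧ P n} = (Finset.Icc 1 N : Finset ℕ) := by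
      ext n
      simp only [Set.mem_ofPred_eq, Finset.coe_Icc, Set.mem_Icc]
      exact ⟨fun h => ⟨h.1, h.2.1⟩, fun h' => ⟨h'.1, h'.2, h n⟩⟩
    rw [e, Set.ncard_coe_finset, Nat.card_Icc, Nat.add_sub_cancel]
    have : (N : ℝ) ≠ 0 := by positivity
    field_simp
  exact one_ne_zero (tendsto_nhds_unique h1 hP)

theorem q1_sign {s : ℤ} (hs : s = 1 ∨ s = -1) {a : ℝ} (ha : 0.998 < a) :
    (∀ x : ℤ, 0 < s * x → Reaches x) ↔
      ¬ Negligible fun n => ∀ x : ℕ, n ≤ x → (x : ℝ) ≤ n + win a n → Reaches (s * x) := by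
  have hss : ∀ x : ℤ, s * (s * x) = x := by intro x; rcases hs with rfl | rfl <;> ring
  have hC0 : ∀ k : ℕ, C^[k] 0 = 0 := by
    intro k
    induction k with
    | zero => rfl
    | succ k ih => rw [Function.iterate_succ_apply']; rw [ih]; decide
  constructor
  · intro h
    apply not_negl_true
    intro n x _ _
    rcases Nat.eq_zero_or_pos x with rfl | hx
    · refine ⟨0, ?_⟩
      simp only [Nat.cast_zero, mul_zero, Function.iterate_zero, id]
      decide
    · exact h _ (by rw [hss]; exact_mod_cast hx)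
  · intro h
    by_contra hcon
    push Not at hcon
    obtain ⟨x, hx, hxR⟩ := hcon
    apply h
    have h1 := member hs (compl_inv reaches_inv) ⟨x, hxR, hx⟩ ha
    refine Negl.mono h1 (Eventually.of_forall fun n hn x hx1 hx2 hxS => hxS (hn x hx1 hx2))

theorem negl_or {P Q : ℕ → Prop} (hP : Negligible P) (hQ : Negligible Q) : Negligible fun n => P n ∨ Q n := by
  unfold Negligible at *
  have h := hP.add hQ
  rw [add_zero] at h
  refine squeeze_zero (fun N => by positivity) (fun N => ?_) h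
  rw [← add_div]
  apply div_le_div_of_nonneg_right _ (Nat.cast_nonneg N)
  have e : {n : ℕ | 1 ≤ n ∧ n ≤ N ∧ (P n ∨ Q n)}
      = {n : ℕ | 1 ≤ n ∧ n ≤ N ∧ P n} ∪ {n : ℕ | 1 ≤ n ∧ n ≤ N ∧ Q n} := by
    ext n
    simp only [Set.mem_ofPred_eq, Set.mem_union]
    tauto
  rw [e]
  exact_mod_cast Set.ncard_union_le _ _

/-- Almost no window is contained in `S` or disjoint from `S`. -/
theorem mixed_windows {s : ℤ} (hs : s = 1 ∨ s = -1) {S : Set ℤ} (hS : Invariant S)
    (h1 : ∃ x ∈ S, 0 < s * x) (h2 : ∃ x ∉ S, 0 < s * x) {a : ℝ} (ha : 0.998 < a) :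
    Negligible fun n => (∀ x : ℕ, n ≤ x → (x : ℝ) ≤ n + win a n → s * x ∈ S) ∨
      ∀ x : ℕ, n ≤ x → (x : ℝ) ≤ n + win a n → s * x ∉ S := by
  obtain ⟨y, hy, hy0⟩ := h2
  have h3 := member hs (compl_inv hS) ⟨y, hy, hy0⟩ ha
  refine negl_or ?_ (member hs hS h1 ha)
  exact Negl.mono h3 (Eventually.of_forall fun n hn x hx1 hx2 hxS => hxS (hn x hx1 hx2))

theorem reaches_zero : Reaches 0 := ⟨0, by decide⟩

/-- **Short windows.** -/
theorem result :
    -- every invariant set with an integer of sign `s`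
    (∀ s : ℤ, s = 1 ∨ s = -1 → ∀ S : Set ℤ, Invariant S → (∃ x ∈ S, 0 < s * x) → Law s S) ∧
    -- in particular the integers whose trajectory meets the trajectory of a given integer `y`
    (∀ s y : ℤ, s = 1 ∨ s = -1 → 0 < s * y → Law s {x | Meet x y}) ∧
    -- and the negative integers that reach `-1`, `-5`, `-17`
    (Law (-1) (Basin (-1)) ∧ Law (-1) (Basin (-5)) ∧ Law (-1) (Basin (-17))) ∧
    -- no invariant set has many monochromatic windows
    (∀ s : ℤ, s = 1 ∨ s = -1 → ∀ S : Set ℤ, Invariant S → (∃ x ∈ S, 0 < s * x) → (∃ x ∉ S, 0 < s * x) →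
      ∀ a : ℝ, 0.998 < a → Negligible fun n => (∀ x : ℕ, n ≤ x → (x : ℝ) ≤ n + win a n → s * x ∈ S) ∨
        ∀ x : ℕ, n ≤ x → (x : ℝ) ≤ n + win a n → s * x ∉ S) ∧
    -- Q1 for the integers of sign `s`
    (∀ s : ℤ, s = 1 ∨ s = -1 → ∀ a : ℝ, 0.998 < a → ((∀ x : ℤ, 0 < s * x → Reaches x) ↔
      ¬ Negligible fun n => ∀ x : ℕ, n ≤ x → (x : ℝ) ≤ n + win a n → Reaches (s * x))) ∧
    -- Q1
    ∀ a : ℝ, 0.998 < a → ((∀ x : ℤ, Reaches x) ↔ ∀ s : ℤ, s = 1 ∨ s = -1 →
      ¬ Negligible fun n => ∀ x : ℕ, n ≤ x → (x : ℝ) ≤ n + win a n → Reaches (s * x)) := by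
  refine ⟨fun s hs S hS h => law hs hS h, fun s y hs hy => law hs (meet_inv y) ⟨y, ⟨0, 0, rfl⟩, hy⟩,
    ⟨?_, ?_, ?_⟩, fun s hs S hS h1 h2 a ha => mixed_windows hs hS h1 h2 ha,
    fun s hs a ha => q1_sign hs ha, fun a ha => ⟨fun h s hs => ?_, fun h x => ?_⟩⟩
  · exact law (Or.inr rfl) (basin_inv (p := 1) (by decide)) ⟨-1, ⟨0, rfl⟩, by norm_num⟩
  · exact law (Or.inr rfl) (basin_inv (p := 4) (by decide)) ⟨-5, ⟨0, rfl⟩, by norm_num⟩
  · exact law (Or.inr rfl) (basin_inv (p := 17) (by decide)) ⟨-17, ⟨0, rfl⟩, by norm_num⟩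
  · exact (q1_sign hs ha).mp fun x _ => h x
  · rcases lt_trichotomy x 0 with hx | hx | hx
    · exact (q1_sign (Or.inr rfl) ha).mpr (h (-1) (Or.inr rfl)) x (by linarith)
    · rw [hx]; exact reaches_zero
    · exact (q1_sign (Or.inl rfl) ha).mpr (h 1 (Or.inl rfl)) x (by linarith)

end Pool.Agent.Results.MP_d02c56_nt.ShortWindows
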