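import Pool.Agent.KS6_32.CL.E2
import Pool.Agent.KS6_32.BD.StageE
import Pool.Agent.KS6_24.LN.A

/-! One stage for functions of the number of odd steps and the position. -/

set_option autoImplicit false

namespace Pool.Agent.KS6_24.LN

open Pool.Agent.H320R2.PD Pool.Agent.H499R2.ND Pool.Agent.H499R2.CO Pool.Agent.W41.FU Finset
open Pool.Agent.Y965.SI Pool.Agent.KS6_32.BD Pool.Agent.KS6_32.CL

/-- the points with the word `w` in a class and their endpoints -/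
theorem word_bijF {d : ℤ} {a b : ℝ} (k m : ℕ) (c : ℤ) {w : List ℕ} (hlen : w.length = k)
    {f g : ℤ → ℝ} (hpath : ∀ M x : ℤ, Odd x → Vw d w M x → f M = g x) :
    ∑ M ∈ XC d a b k w m c, f M
      = WS g (a * 3 ^ k / 2 ^ w.sum + d * Wo w / 2 ^ w.sum) (b * 3 ^ k / 2 ^ w.sum + d * Wo w / 2 ^ w.sum)
        (k + m) (2 ^ w.sum) (d * Wo w + 3 ^ k * c) := by
  set T := w.sum with hT
  have h2T : (0 : ℝ) < 2 ^ T := by positivity
  have h3k : (0 : ℝ) < 3 ^ k := by positivity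
  have h3kz : (3 : ℤ) ^ k ≠ 0 := by positivity
  unfold WS
  -- forward map
  have hfw : ∀ M ∈ XW d a b k w, ∃ x : ℤ, Odd x ∧ 3 ^ k * M + d * (Wo w : ℤ) = 2 ^ T * x ∧ Vw d w M x := by
    intro M hM
    obtain ⟨x, hx, hV⟩ := XW_word hlen hM
    refine ⟨x, hx, ?_, hV⟩
    unfold Vw at hV
    rw [hlen] at hV
    exact hV
  apply sum_bij' (fun M _ => (3 ^ k * M + d * (Wo w : ℤ)) / 2 ^ T) (fun x _ => (2 ^ T * x - d * (Wo w : ℤ)) / 3 ^ k)
  · -- maps to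
    intro M hM0
    rw [mem_XC] at hM0
    obtain ⟨hM, hMc⟩ := hM0
    obtain ⟨x, hx, hV, -⟩ := hfw M hM
    rw [mem_XW] at hM
    have hx2 : (3 ^ k * M + d * Wo w) / 2 ^ T = x := by
      rw [hV, Int.mul_ediv_cancel_left _ (by positivity)]
    rw [hx2, mem_cls]
    have hVR : (3 : ℝ) ^ k * M + d * Wo w = 2 ^ T * x := by exact_mod_cast hV
    have hxR : (x : ℝ) = (3 ^ k * M + d * Wo w) / 2 ^ T := by
      rw [eq_div_iff h2T.ne']; linarith
    refine ⟨⟨?_, ?_⟩, hx, Set.mem_univ _, ?_⟩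
    · rw [hxR, ← add_div]
      apply div_le_div_of_nonneg_right _ h2T.le
      have := mul_le_mul_of_nonneg_right hM.1.1 h3k.le
      linarith
    · rw [hxR, ← add_div]
      apply div_lt_div_of_pos_right _ h2T
      have := mul_lt_mul_of_pos_right hM.1.2 h3k
      linarith
    · rw [← hV, show 3 ^ k * M + d * (Wo w : ℤ) - (d * Wo w + 3 ^ k * c) = 3 ^ k * (M - c) by ring, pow_add]
      exact mul_dvd_mul_left _ hMc
  · -- back
    intro x hx
    rw [mem_cls] at hx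
    obtain ⟨⟨hx1, hx2⟩, hxo, -, hxd⟩ := hx
    obtain ⟨q0, hq0⟩ := hxd
    have e1 : 2 ^ T * x - d * (Wo w : ℤ) = 3 ^ k * (3 ^ m * q0 + c) := by
      rw [pow_add] at hq0
      linear_combination hq0
    set q := 3 ^ m * q0 + c with hq
    have e2 : (2 ^ T * x - d * (Wo w : ℤ)) / 3 ^ k = q := by
      rw [e1, Int.mul_ediv_cancel_left _ (by positivity)]
    rw [e2, mem_XC, mem_XW]
    have e1R : (2 : ℝ) ^ T * x - d * (Wo w : ℝ) = 3 ^ k * q := by exact_mod_cast e1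
    refine ⟨⟨⟨?_, ?_⟩, ?_⟩, ?_⟩
    · rw [← add_div, div_le_iff₀ h2T] at hx1
      have h1 : 3 ^ k * a ≤ 3 ^ k * (q : ℝ) := by rw [← e1R]; linarith
      exact le_of_mul_le_mul_left h1 h3k
    · rw [← add_div, lt_div_iff₀ h2T] at hx2
      have h1 : 3 ^ k * (q : ℝ) < 3 ^ k * b := by rw [← e1R]; linarith
      exact lt_of_mul_lt_mul_left h1 h3k.le
    · obtain ⟨t, ht⟩ := hxo
      refine ⟨t, ?_⟩
      rw [← e1, ht, pow_succ]; ring
    · rw [hq, add_sub_cancel_right]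
      exact dvd_mul_right _ _
  · -- left inverse
    intro M hM0
    rw [mem_XC] at hM0
    obtain ⟨x, hx, hV, -⟩ := hfw M hM0.1
    have hx2 : (3 ^ k * M + d * Wo w) / 2 ^ T = x := by
      rw [hV, Int.mul_ediv_cancel_left _ (by positivity)]
    rw [hx2]
    have : 2 ^ T * x - d * (Wo w : ℤ) = 3 ^ k * M := by linarith
    rw [this, Int.mul_ediv_cancel_left _ (by positivity)]
  · -- right inverse
    intro x hx
    rw [mem_cls] at hx
    obtain ⟨q0, hq0⟩ := hx.2.2.2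
    have e1 : 2 ^ T * x - d * (Wo w : ℤ) = 3 ^ k * (3 ^ m * q0 + c) := by
      rw [pow_add] at hq0
      linear_combination hq0
    have e2 : (2 ^ T * x - d * (Wo w : ℤ)) / 3 ^ k = 3 ^ m * q0 + c := by
      rw [e1, Int.mul_ediv_cancel_left _ (by positivity)]
    rw [e2]
    have : 3 ^ k * (3 ^ m * q0 + c) + d * (Wo w : ℤ) = 2 ^ T * x := by linarith
    rw [this, Int.mul_ediv_cancel_left _ (by positivity)]
  · -- values
    intro M hM0
    rw [mem_XC] at hM0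
    obtain ⟨x, hx, hV, hVw⟩ := hfw M hM0.1
    have hx2 : (3 ^ k * M + d * Wo w) / 2 ^ T = x := by
      rw [hV, Int.mul_ediv_cancel_left _ (by positivity)]
    rw [hx2]
    exact hpath M x hx hVw

/-- one word: comparison with the unshifted window -/
theorem word_cmpF {d : ℤ} {a b : ℝ} (k m : ℕ) (c : ℤ) {w : List ℕ} (hlen : w.length = k)
    (hlet : ∀ e ∈ w, 1 ≤ e) {f g : ℤ → ℝ} (hg : ∀ x, |g x| ≤ 1) (hpath : ∀ M x : ℤ, Odd x → Vw d w M x → f M = g x) :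
    |∑ M ∈ XC d a b k w m c, f M
      - WS g (a * 3 ^ k / 2 ^ w.sum) (b * 3 ^ k / 2 ^ w.sum) (k + m) (2 ^ w.sum) (d * Wo w + 3 ^ k * c)|
      ≤ |(d : ℝ)| + 2 := by
  rw [word_bijF k m c hlen hpath]
  set T := w.sum with hT
  have h2T : (0 : ℝ) < 2 ^ T := by positivity
  have h3k : (0 : ℝ) < 3 ^ k := by positivity
  set s : ℝ := d * Wo w / 2 ^ T with hs
  have hsabs : |s| ≤ |(d : ℝ)| * (3 / 2) ^ k := by
    rw [hs, abs_div, abs_mul, abs_of_pos h2T, div_le_iff₀ h2T, mul_assoc]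
    apply mul_le_mul_of_nonneg_left _ (abs_nonneg _)
    rw [abs_of_nonneg (by positivity)]
    have := Wo_le hlet
    rw [hlen] at this
    have h3 : (2 : ℝ) ^ T * ((3 / 2 : ℝ) ^ k - 1) ≤ (3 / 2) ^ k * 2 ^ T := by
      have : (0 : ℝ) < 2 ^ T := h2T
      nlinarith
    exact this.trans h3
  have h5 : |(d : ℝ)| * (3 / 2) ^ k / (2 * 3 ^ (k + m)) ≤ |(d : ℝ)| / 2 := by
    rw [div_le_iff₀ (by positivity)]
    have e : |(d : ℝ)| / 2 * (2 * 3 ^ (k + m)) = |(d : ℝ)| * 3 ^ (k + m) := by ring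
    rw [e]
    apply mul_le_mul_of_nonneg_left _ (abs_nonneg _)
    calc (3 / 2 : ℝ) ^ k ≤ 3 ^ k := pow_le_pow_left₀ (by norm_num) (by norm_num) k
      _ ≤ 3 ^ (k + m) := pow_le_pow_right₀ (by norm_num) (by omega)
  have h1 := shiftW hg (a := a * 3 ^ k / 2 ^ T) (b := b * 3 ^ k / 2 ^ T) hsabs (k + m) (cop_two_pow T)
    (d * Wo w + 3 ^ k * c)
  refine h1.trans ?_
  linarith

/-- the sum over a class in terms of the sums over coarse classes of the end points -/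
theorem stageF {d : ℤ} (hd : Odd d) (hd3 : IsCoprime d 3) {f : ℤ → ℝ} {g : ℕ → ℤ → ℝ} (hf1 : ∀ x, |f x| ≤ 1)
    (hg1 : ∀ T x, |g T x| ≤ 1)
    {a b : ℝ} (hab : a ≤ b) (cap k m m' Tl Tm : ℕ) (c : ℤ) (hk : 1 ≤ k) (hm' : m' ≤ k) (hTm : Tm ≤ k * cap)
    (hpath : ∀ w : List ℕ, w.length = k → (∀ e ∈ w, 1 ≤ e) → Tl ≤ w.sum → w.sum ≤ Tm → ∀ M x : ℤ, Odd x →
      Vw d w M x → f M = g w.sum x) :
    |WS f a b m 1 c - (∑ w ∈ GW cap k Tl Tm, WS (g w.sum) (a * 3 ^ k / 2 ^ w.sum) (b * 3 ^ k / 2 ^ w.sum) m' (2 ^ w.sum) (d * Wo w))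
        / 3 ^ (k + m - m')|
      ≤ ((b - a) / (2 * 3 ^ m) + 2 ^ Tm) * DM cap k m m' + (b - a) / (2 * 3 ^ m) * (1 - ∑ w ∈ GW cap k Tl Tm, wwt w)
        + 1 + (|(d : ℝ)| + 3) * 2 ^ Tm := by
  classical
  set GG := GW cap k Tl Tm with hGG
  set All := cls Set.univ a b m 1 c with hAll
  have hGprop : ∀ w ∈ GG, w.length = k ∧ (∀ e ∈ w, 1 ≤ e) ∧ w.sum ≤ Tm := by
    intro w hw
    rw [hGG] at hw; unfold GW at hw
    rw [mem_filter] at hw
    exact ⟨(FW_props hw.1).1, (FW_props hw.1).2, hw.2.2⟩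
  have hGl : ∀ w ∈ GG, Tl ≤ w.sum := by
    intro w hw
    rw [hGG] at hw; unfold GW at hw
    rw [mem_filter] at hw
    exact hw.2.1
  have hne : ∀ w ∈ GG, w ≠ [] := by
    intro w hw h
    have := (hGprop w hw).1
    rw [h] at this; simp at this; omega
  have hXall : ∀ w ∈ GG, XC d a b k w m c ⊆ All := by
    intro w hw M hM0
    rw [mem_XC] at hM0
    obtain ⟨hM, hMc⟩ := hM0
    obtain ⟨x, hx, hV⟩ := XW_word (hGprop w hw).1 hM
    have hMo := Vw_odd_left hd (hGprop w hw).2.1 (hne w hw) hV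
    rw [hAll, mem_cls]
    rw [mem_XW] at hM
    refine ⟨hM.1, hMo, Set.mem_univ _, ?_⟩
    rw [one_mul]; exact hMc
  have hdisj : (GG : Set (List ℕ)).PairwiseDisjoint (fun w => XC d a b k w m c) := by
    intro w hw w' hw' hww
    rw [Function.onFun, Finset.disjoint_left]
    intro M hM hM'
    apply hww
    have hw1 := hGprop w (mem_coe.1 hw)
    have hw2 := hGprop w' (mem_coe.1 hw')
    obtain ⟨x, hx, hV⟩ := XW_word hw1.1 (mem_XC.1 hM).1
    obtain ⟨x', hx', hV'⟩ := XW_word hw2.1 (mem_XC.1 hM').1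
    exact word_unique hd w hw1.2.1 w' hw2.2.1 (hw1.1.trans hw2.1.symm) M x x' hx hx' hV hV'
  have hUsub : (GG.biUnion fun w => XC d a b k w m c) ⊆ All := biUnion_subset.2 hXall
  have hGc : (GG.card : ℝ) ≤ 2 ^ Tm := GW_card cap k Tl Tm
  have hℓ : 0 ≤ b - a := by linarith
  -- step 1
  have hAllcard : (All.card : ℝ) ≤ (b - a) / (2 * 3 ^ m) + 1 := cls_card_le Set.univ hab m isCoprime_one_left c
  have hXcard : ∑ w ∈ GG, ((b - a) / (2 * 3 ^ m) * wwt w - 1) ≤ ∑ w ∈ GG, ((XC d a b k w m c).card : ℝ) :=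
    sum_le_sum fun w _ => XC_card d k w m c
  rw [sum_sub_distrib, ← mul_sum, sum_const, nsmul_eq_mul, mul_one] at hXcard
  have hstep1 : |WS f a b m 1 c - ∑ w ∈ GG, ∑ M ∈ XC d a b k w m c, f M|
      ≤ (b - a) / (2 * 3 ^ m) * (1 - ∑ w ∈ GG, wwt w) + 1 + GG.card := by
    have h1 : WS f a b m 1 c - ∑ w ∈ GG, ∑ M ∈ XC d a b k w m c, f M
        = ∑ M ∈ All \ GG.biUnion (fun w => XC d a b k w m c), f M := by
      unfold WS
      rw [← hAll, ← sum_biUnion hdisj, ← sum_sdiff hUsub]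
      ring
    rw [h1]
    have h2 : |∑ M ∈ All \ GG.biUnion (fun w => XC d a b k w m c), f M|
        ≤ ((All \ GG.biUnion (fun w => XC d a b k w m c)).card : ℝ) := by
      refine (abs_sum_le_sum_abs _ _).trans ?_
      calc ∑ x ∈ All \ GG.biUnion (fun w => XC d a b k w m c), |f x|
          ≤ ∑ x ∈ All \ GG.biUnion (fun w => XC d a b k w m c), (1 : ℝ) := sum_le_sum fun x _ => hf1 x
        _ = _ := by rw [sum_const, nsmul_eq_mul, mul_one]
    have h3 : (All \ GG.biUnion fun w => XC d a b k w m c).card + (GG.biUnion fun w => XC d a b k w m c).card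
        = All.card := card_sdiff_add_card_eq_card hUsub
    have h4 : (GG.biUnion fun w => XC d a b k w m c).card = ∑ w ∈ GG, (XC d a b k w m c).card :=
      card_biUnion hdisj
    rw [h4] at h3
    have h3' : ((All \ GG.biUnion fun w => XC d a b k w m c).card : ℝ)
        + ∑ w ∈ GG, ((XC d a b k w m c).card : ℝ) = All.card := by exact_mod_cast h3
    have e3 : (b - a) / (2 * 3 ^ m) * (1 - ∑ w ∈ GG, wwt w)
        = (b - a) / (2 * 3 ^ m) - (b - a) / (2 * 3 ^ m) * ∑ w ∈ GG, wwt w := by ring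
    rw [e3]
    linarith
  -- step 2
  have hstep2 : |∑ w ∈ GG, ∑ M ∈ XC d a b k w m c, f M
      - ∑ w ∈ GG, WS (g w.sum) (a * 3 ^ k / 2 ^ w.sum) (b * 3 ^ k / 2 ^ w.sum) (k + m) (2 ^ w.sum) (d * Wo w + 3 ^ k * c)|
      ≤ (|(d : ℝ)| + 2) * 2 ^ Tm := by
    rw [← sum_sub_distrib]
    refine (abs_sum_le_sum_abs _ _).trans ?_
    have hb : ∀ w ∈ GG, |∑ M ∈ XC d a b k w m c, f M
        - WS (g w.sum) (a * 3 ^ k / 2 ^ w.sum) (b * 3 ^ k / 2 ^ w.sum) (k + m) (2 ^ w.sum) (d * Wo w + 3 ^ k * c)|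
        ≤ |(d : ℝ)| + 2 := by
      intro w hw
      obtain ⟨hlen, hlet, hwTm⟩ := hGprop w hw
      exact word_cmpF k m c hlen hlet (hg1 _) (hpath w hlen hlet (hGl w hw) hwTm)
    refine (sum_le_sum hb).trans ?_
    rw [sum_const, nsmul_eq_mul, mul_comm]
    exact mul_le_mul_of_nonneg_left hGc (by positivity)
  -- step 3
  have hstep3 : |∑ w ∈ GG, WS (g w.sum) (a * 3 ^ k / 2 ^ w.sum) (b * 3 ^ k / 2 ^ w.sum) (k + m) (2 ^ w.sum) (d * Wo w + 3 ^ k * c)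
      - (∑ w ∈ GG, WS (g w.sum) (a * 3 ^ k / 2 ^ w.sum) (b * 3 ^ k / 2 ^ w.sum) m' (2 ^ w.sum) (d * Wo w)) / 3 ^ (k + m - m')|
      ≤ ((b - a) / (2 * 3 ^ m) + 2 ^ Tm) * DM cap k m m' := by
    rw [hGG, sum_GW, sum_GW, sum_div, ← sum_sub_distrib]
    refine (abs_sum_le_sum_abs _ _).trans ?_
    have hT : ∀ T ∈ Icc Tl Tm, |∑ w ∈ FWT cap k T, WS (g w.sum) (a * 3 ^ k / 2 ^ w.sum) (b * 3 ^ k / 2 ^ w.sum) (k + m) (2 ^ w.sum) (d * Wo w + 3 ^ k * c)
        - (∑ w ∈ FWT cap k T, WS (g w.sum) (a * 3 ^ k / 2 ^ w.sum) (b * 3 ^ k / 2 ^ w.sum) m' (2 ^ w.sum) (d * Wo w)) / 3 ^ (k + m - m')|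
        ≤ ((b - a) / (2 * 3 ^ m) + 2 ^ Tm) * dev (FWT cap k T) wwt (fun w => (Wo w : ℤ)) (k + m) m' := by
      intro T hT
      rw [mem_Icc] at hT
      have hsum : ∀ w ∈ FWT cap k T, w.sum = T := fun w hw => by
        unfold FWT at hw; exact (mem_filter.1 hw).2
      have hab' : a * 3 ^ k / 2 ^ T ≤ b * 3 ^ k / 2 ^ T := by
        apply div_le_div_of_nonneg_right _ (by positivity)
        exact mul_le_mul_of_nonneg_right hab (by positivity)
      have h1 := mixW hd3 (hg1 T) hab' cap k m m' T hm' hk c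
      have e1 : ∑ w ∈ FWT cap k T, WS (g w.sum) (a * 3 ^ k / 2 ^ w.sum) (b * 3 ^ k / 2 ^ w.sum) (k + m) (2 ^ w.sum) (d * Wo w + 3 ^ k * c)
          = ∑ w ∈ FWT cap k T, WS (g T) (a * 3 ^ k / 2 ^ T) (b * 3 ^ k / 2 ^ T) (k + m) (2 ^ T) (d * Wo w + 3 ^ k * c) :=
        sum_congr rfl fun w hw => by rw [hsum w hw]
      have e2 : ∑ w ∈ FWT cap k T, WS (g w.sum) (a * 3 ^ k / 2 ^ w.sum) (b * 3 ^ k / 2 ^ w.sum) m' (2 ^ w.sum) (d * Wo w)
          = ∑ w ∈ FWT cap k T, WS (g T) (a * 3 ^ k / 2 ^ T) (b * 3 ^ k / 2 ^ T) m' (2 ^ T) (d * Wo w) :=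
        sum_congr rfl fun w hw => by rw [hsum w hw]
      rw [e1, e2]
      refine h1.trans ?_
      have hdev : 0 ≤ dev (FWT cap k T) wwt (fun w => (Wo w : ℤ)) (k + m) m' :=
        sum_nonneg fun _ _ => abs_nonneg _
      have hcoef : 2 ^ T * ((b * 3 ^ k / 2 ^ T - a * 3 ^ k / 2 ^ T) / (2 * 3 ^ (k + m)) + 1)
          ≤ (b - a) / (2 * 3 ^ m) + 2 ^ Tm := by
        have h2 : (2 : ℝ) ^ T * ((b * 3 ^ k / 2 ^ T - a * 3 ^ k / 2 ^ T) / (2 * 3 ^ (k + m)) + 1)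
            = (b - a) / (2 * 3 ^ m) + 2 ^ T := by
          rw [pow_add]
          field_simp
        rw [h2]
        have h3 : (2 : ℝ) ^ T ≤ 2 ^ Tm := pow_le_pow_right₀ (by norm_num) hT.2
        linarith
      exact mul_le_mul_of_nonneg_right hcoef hdev
    refine (sum_le_sum hT).trans ?_
    rw [← mul_sum]
    apply mul_le_mul_of_nonneg_left _ (by positivity)
    unfold DM
    apply sum_le_sum_of_subset_of_nonneg
    · intro T hT
      rw [mem_Icc] at hT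
      rw [mem_range]; omega
    · intro T _ _; exact sum_nonneg fun _ _ => abs_nonneg _
  have h1 := abs_sub_le (WS f a b m 1 c) (∑ w ∈ GG, ∑ M ∈ XC d a b k w m c, f M)
    (∑ w ∈ GG, WS (g w.sum) (a * 3 ^ k / 2 ^ w.sum) (b * 3 ^ k / 2 ^ w.sum) (k + m) (2 ^ w.sum) (d * Wo w + 3 ^ k * c))
  have h2 := abs_sub_le (WS f a b m 1 c)
    (∑ w ∈ GG, WS (g w.sum) (a * 3 ^ k / 2 ^ w.sum) (b * 3 ^ k / 2 ^ w.sum) (k + m) (2 ^ w.sum) (d * Wo w + 3 ^ k * c))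
    ((∑ w ∈ GG, WS (g w.sum) (a * 3 ^ k / 2 ^ w.sum) (b * 3 ^ k / 2 ^ w.sum) m' (2 ^ w.sum) (d * Wo w)) / 3 ^ (k + m - m'))
  linarith

end Pool.Agent.KS6_24.LN
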