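import Pool.Agent.KS6_24.LN.TV1

/-! Window law: the normalized sums over the odd integers of a window in a class modulo `3 ^ m`. -/

set_option autoImplicit false

namespace Pool.Agent.KS6_24.LN

open Pool.Agent.H320R2.PD Pool.Agent.H499R2.ND Pool.Agent.H499R2.CO Pool.Agent.W41.FU Finset
open Pool.Agent.Y965.SI Pool.Agent.KS6_32.BD Pool.Agent.KS6_32.CL

/-- the function of the number of odd steps and the position -/
noncomputable def FF (d : ℤ) (Ψ : ℕ → ℤ → ℝ) (t c : ℕ) (x : ℤ) : ℝ := Ψ (c + od d t x) ((Tz d)^[t] x)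

theorem FF_split (d : ℤ) (Ψ : ℕ → ℤ → ℝ) {T t : ℕ} (h : T ≤ t) (c : ℕ) (x : ℤ) :
    FF d Ψ t c x = FF d Ψ (t - T) (c + od d T x) ((Tz d)^[T] x) := by
  obtain ⟨s, rfl⟩ := Nat.exists_eq_add_of_le h
  unfold FF
  rw [od_add, Nat.add_sub_cancel_left, ← add_assoc, ← Function.iterate_add_apply, add_comm s T]

theorem Tz_two_mul (d : ℤ) (e : ℕ) (x : ℤ) : Tz d (2 ^ (e + 1) * x) = 2 ^ e * x := by
  have h : (2 ^ (e + 1) * x) % 2 = 0 := by
    rw [pow_succ, show (2 : ℤ) ^ e * 2 * x = 2 * (2 ^ e * x) by ring]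
    exact Int.mul_emod_right 2 _
  rw [Tz_even h, pow_succ, show (2 : ℤ) ^ e * 2 * x = 2 * (2 ^ e * x) by ring]
  exact Int.mul_ediv_cancel_left _ (by norm_num)

theorem od_two_pow (d : ℤ) (e : ℕ) (x : ℤ) : od d e (2 ^ e * x) = 0 := by
  induction e with
  | zero => rfl
  | succ e ih =>
    rw [od_succ, Tz_two_mul, ih]
    have h : (2 ^ (e + 1) * x) % 2 = 0 := by
      rw [pow_succ, show (2 : ℤ) ^ e * 2 * x = 2 * (2 ^ e * x) by ring]
      exact Int.mul_emod_right 2 _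
    rw [if_neg (by omega)]

theorem od_word {d : ℤ} (hd : Odd d) (w : List ℕ) : (∀ a ∈ w, 1 ≤ a) → ∀ M x : ℤ, Odd M → Odd x →
    Vw d w M x → od d w.sum M = w.length := by
  induction w using List.reverseRecOn with
  | nil => intro _ M x _ _ _; rfl
  | append_singleton u e ih =>
    intro hw M x hM hx h
    have hu : ∀ a ∈ u, 1 ≤ a := fun a ha => hw a (by simp [ha])
    obtain ⟨M₁, hM₁, h1, h2⟩ := Vw_snoc hd hu hx h
    have h3 := ih hu M₁ x hM₁ hx h2
    have he : 1 ≤ e := hw e (by simp)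
    obtain ⟨e', rfl⟩ : ∃ e', e = e' + 1 := ⟨e - 1, by omega⟩
    have h4 : Td d M = 2 ^ e' * M₁ := Td_odd hM (by rw [h1, pow_succ]; ring)
    have h5 : (Td d)^[e' + 1] M = M₁ := by rw [Function.iterate_succ_apply, h4, Td_two_pow]
    have h6 : (Tz d)^[e' + 1] M = M₁ := h5
    have h7 : Tz d M = 2 ^ e' * M₁ := h4
    rw [List.sum_append, List.sum_singleton, List.length_append, List.length_singleton, add_comm u.sum, od_add,
      h6, h3, od_succ, h7, od_two_pow, if_pos (by obtain ⟨q, hq⟩ := hM; omega)]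
    omega

theorem FF_word {d : ℤ} (hd : Odd d) (Ψ : ℕ → ℤ → ℝ) {w : List ℕ} (hlet : ∀ a ∈ w, 1 ≤ a) (hne : w ≠ []) {M x : ℤ}
    (hx : Odd x) (hV : Vw d w M x) {t : ℕ} (c : ℕ) (hT : w.sum ≤ t) :
    FF d Ψ t c M = FF d Ψ (t - w.sum) (c + w.length) x := by
  have hM := Vw_odd_left hd hlet hne hV
  have h1 : (Tz d)^[w.sum] M = x := iter_word' hd w hlet M x hM hx hV
  rw [FF_split d Ψ hT, od_word hd w hlet M x hM hx hV, h1]

theorem FF_per {d : ℤ} (hd : d % 2 = 1) {Ψ : ℕ → ℤ → ℝ} {Λ : ℕ} (hΨ : ∀ a, Per Λ (Ψ a)) (t c : ℕ) :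
    Per (t + Λ) (FF d Ψ t c) := by
  intro x u
  unfold FF
  have e : x + u * 2 ^ (t + Λ) = x + 2 ^ t * (2 ^ Λ * u) := by rw [pow_add]; ring
  obtain ⟨h1, h2⟩ := iter_add hd t x (2 ^ Λ * u)
  rw [e, h1, h2]
  have e2 : (Tz d)^[t] x + 3 ^ od d t x * (2 ^ Λ * u) = (Tz d)^[t] x + (3 ^ od d t x * u) * 2 ^ Λ := by ring
  rw [e2]
  exact hΨ _ _ _

/-- normalized sum over a class -/
noncomputable def nz (F : ℤ → ℝ) (a b : ℝ) (m : ℕ) (c : ℤ) : ℝ := WS F a b m 1 c * (2 * 3 ^ m) / (b - a)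

theorem WS_unit {u : ℤ} (hu : IsCoprime u 3) (m : ℕ) (v : ℤ) : ∃ c : ℤ, ∀ (F : ℤ → ℝ) (a b : ℝ),
    WS F a b m u v = WS F a b m 1 c := by
  obtain ⟨p, q', hpq⟩ : IsCoprime u ((3 : ℤ) ^ m) := hu.pow_right
  have hcop : IsCoprime ((3 : ℤ) ^ m) u := ⟨q', p, by linarith⟩
  have key : ∀ x : ℤ, (3 : ℤ) ^ m ∣ u * x - v ↔ (3 : ℤ) ^ m ∣ 1 * x - p * v := by
    intro x
    have h1 : u * p = 1 - q' * 3 ^ m := by linarith
    constructor
    · intro h
      apply hcop.dvd_of_dvd_mul_left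
      have : u * (1 * x - p * v) = (u * x - v) + 3 ^ m * (q' * v) := by
        calc u * (1 * x - p * v) = u * x - (u * p) * v := by ring
          _ = _ := by rw [h1]; ring
      rw [this]
      exact dvd_add h (dvd_mul_right _ _)
    · intro h
      have : u * x - v = u * (1 * x - p * v) - 3 ^ m * (q' * v) := by
        have h2 : u * (1 * x - p * v) = u * x - (u * p) * v := by ring
        rw [h2, h1]; ring
      rw [this]
      exact dvd_sub (h.mul_left u) (dvd_mul_right _ _)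
  refine ⟨p * v, fun F a b => ?_⟩
  have hc : cls Set.univ a b m u v = cls Set.univ a b m 1 (p * v) := by
    ext x
    rw [mem_cls, mem_cls, key]
  unfold WS; rw [hc]

/-- the class of the end points of the word `w` -/
noncomputable def cw (d : ℤ) (m' : ℕ) (w : List ℕ) : ℤ := Classical.choose (WS_unit (cop_two_pow w.sum) m' (d * Wo w))

theorem cw_spec (d : ℤ) (m' : ℕ) (w : List ℕ) (F : ℤ → ℝ) (a b : ℝ) :
    WS F a b m' (2 ^ w.sum) (d * Wo w) = WS F a b m' 1 (cw d m' w) :=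
  Classical.choose_spec (WS_unit (cop_two_pow w.sum) m' (d * Wo w)) F a b

/-- one stage for the normalized sums -/
theorem stage_nz {d : ℤ} (hd : Odd d) (hd3 : IsCoprime d 3) (hdd : d * d = 1) {f : ℤ → ℝ} {g : ℕ → ℤ → ℝ}
    (hf1 : ∀ x, |f x| ≤ 1) (hg1 : ∀ T x, |g T x| ≤ 1)
    {a b : ℝ} (hab : a < b) (k m m' Tl Tm : ℕ) (c : ℤ) (hk : 1 ≤ k) (hm' : m' ≤ k) (hTm : Tm ≤ k * (3 * k))
    (hpath : ∀ w : List ℕ, w.length = k → (∀ e ∈ w, 1 ≤ e) → Tl ≤ w.sum → w.sum ≤ Tm → ∀ M x : ℤ, Odd x →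
      Vw d w M x → f M = g w.sum x) :
    |nz f a b m c - ∑ w ∈ GW (3 * k) k Tl Tm,
        wwt w * nz (g w.sum) (a * 3 ^ k / 2 ^ w.sum) (b * 3 ^ k / 2 ^ w.sum) m' (cw d m' w)|
      ≤ (1 + 2 * 3 ^ m * 2 ^ Tm / (b - a)) * DM (3 * k) k m m' + (1 - ∑ w ∈ GW (3 * k) k Tl Tm, wwt w)
        + 2 * 3 ^ m / (b - a) * (1 + 4 * 2 ^ Tm) := by
  have hd1 : |(d : ℝ)| = 1 := by
    have h7 : (d : ℝ) * d = 1 := by exact_mod_cast hdd
    have h8 : |(d : ℝ)| * |(d : ℝ)| = 1 := by rw [← abs_mul, h7, abs_one]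
    nlinarith [abs_nonneg (d : ℝ)]
  have hℓ : 0 < b - a := by linarith
  have h := stageF hd hd3 hf1 hg1 hab.le (3 * k) k m m' Tl Tm c hk hm' hTm hpath
  rw [hd1] at h
  have h3m : (0 : ℝ) < 3 ^ m := by positivity
  have hq : 0 < 2 * 3 ^ m / (b - a) := by positivity
  have e1 : nz f a b m c - ∑ w ∈ GW (3 * k) k Tl Tm,
        wwt w * nz (g w.sum) (a * 3 ^ k / 2 ^ w.sum) (b * 3 ^ k / 2 ^ w.sum) m' (cw d m' w)
      = (2 * 3 ^ m / (b - a)) * (WS f a b m 1 c - (∑ w ∈ GW (3 * k) k Tl Tm, WS (g w.sum) (a * 3 ^ k / 2 ^ w.sum)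
          (b * 3 ^ k / 2 ^ w.sum) m' (2 ^ w.sum) (d * Wo w)) / 3 ^ (k + m - m')) := by
    rw [mul_sub, sum_div, mul_sum]
    congr 1
    · unfold nz; ring
    · apply sum_congr rfl
      intro w _
      rw [cw_spec]
      unfold nz wwt
      have e2 : (3 : ℝ) ^ (k + m - m') = 3 ^ k * 3 ^ m / 3 ^ m' := by
        rw [eq_div_iff (by positivity), ← pow_add, ← pow_add]
        congr 1; omega
      have e3 : b * 3 ^ k / 2 ^ w.sum - a * 3 ^ k / 2 ^ w.sum = (b - a) * 3 ^ k / 2 ^ w.sum := by ring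
      rw [e2, e3, one_div, inv_pow]
      field_simp
  rw [e1, abs_mul, abs_of_pos hq]
  refine (mul_le_mul_of_nonneg_left h hq.le).trans (le_of_eq ?_)
  field_simp
  ring

/-! ### Periodic functions -/

theorem base_nz {L : ℕ} (hL : 1 ≤ L) {F : ℤ → ℝ} (hF : Per L F) (hF1 : ∀ x, |F x| ≤ 1) {a b : ℝ} (hab : a < b) (m : ℕ)
    (c : ℤ) : |nz F a b m c - 2 / 2 ^ L * ∑ r ∈ (range (2 ^ L)).filter (fun r : ℕ => r % 2 = 1), F (r : ℤ)|
      ≤ 2 ^ L * (2 * 3 ^ m) / (b - a) := by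
  classical
  have hℓ : 0 < b - a := by linarith
  have h2L : (0 : ℤ) < 2 ^ L := by positivity
  set R := (range (2 ^ L)).filter (fun r : ℕ => r % 2 = 1) with hR
  have hpar : ∀ x : ℤ, (x % 2 ^ L) % 2 = x % 2 := by
    intro x
    apply Int.emod_emod_of_dvd
    obtain ⟨L', rfl⟩ : ∃ L', L = L' + 1 := ⟨L - 1, by omega⟩
    exact ⟨2 ^ L', by rw [pow_succ]; ring⟩
  have hmap : ∀ x ∈ cls Set.univ a b m 1 c, (x % 2 ^ L).toNat ∈ R := by
    intro x hx
    rw [mem_cls] at hx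
    obtain ⟨q, hq⟩ := hx.2.1
    have h1 := Int.emod_nonneg x h2L.ne'
    have h2 := Int.emod_lt_of_pos x h2L
    have h3 := hpar x
    rw [hR, mem_filter, mem_range]
    constructor
    · have : ((x % 2 ^ L).toNat : ℤ) < ((2 ^ L : ℕ) : ℤ) := by push_cast; omega
      exact_mod_cast this
    · omega
  have hWS : WS F a b m 1 c = ∑ r ∈ R, F (r : ℤ) * (((cls Set.univ a b m 1 c).filter fun x => (x % 2 ^ L).toNat = r).card : ℝ) := by
    unfold WS
    rw [← sum_fiberwise_of_maps_to hmap]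
    apply sum_congr rfl
    intro r _
    have : ∀ x ∈ (cls Set.univ a b m 1 c).filter (fun x => (x % 2 ^ L).toNat = r), F x = F (r : ℤ) := by
      intro x hx
      rw [mem_filter] at hx
      have h1 := Int.emod_nonneg x h2L.ne'
      have e : x = (r : ℤ) + (x / 2 ^ L) * 2 ^ L := by
        have := Int.emod_add_mul_ediv x (2 ^ L)
        rw [← hx.2, Int.toNat_of_nonneg h1]
        linarith
      rw [e]
      exact hF _ _
    rw [sum_congr rfl this, sum_const, nsmul_eq_mul, mul_comm]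
  have hcard : ∀ r ∈ R, |(((cls Set.univ a b m 1 c).filter fun x => (x % 2 ^ L).toNat = r).card : ℝ) - (b - a) / (2 ^ L * 3 ^ m)| ≤ 1 := by
    intro r hr
    rw [hR, mem_filter, mem_range] at hr
    obtain ⟨c', hc'⟩ := crt L m (g := 1) odd_one isCoprime_one_left r c
    have heq : ((cls Set.univ a b m 1 c).filter fun x => (x % 2 ^ L).toNat = r) = ap a b (2 ^ L * 3 ^ m) c' := by
      ext x
      rw [mem_filter, mem_cls, mem_ap, ← hc', one_mul]
      have h1 := Int.emod_nonneg x h2L.ne'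
      have hrL : (r : ℤ) < 2 ^ L := by exact_mod_cast hr.1
      have h4 : (x % 2 ^ L).toNat = r ↔ (2 : ℤ) ^ L ∣ x - r := by
        have h5 : (x % 2 ^ L).toNat = r ↔ x % 2 ^ L = (r : ℤ) := by omega
        rw [h5]
        constructor
        · intro h
          have := Int.emod_add_mul_ediv x (2 ^ L)
          exact ⟨x / 2 ^ L, by rw [← h]; linarith⟩
        · rintro ⟨q, hq⟩
          have : x = (r : ℤ) + 2 ^ L * q := by linarith
          rw [this, Int.add_mul_emod_self_left]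
          exact Int.emod_eq_of_lt (by positivity) hrL
      rw [h4]
      constructor
      · rintro ⟨⟨h1, -, -, h3⟩, h2⟩
        exact ⟨h1, h2, h3⟩
      · rintro ⟨h1, h2, h3⟩
        refine ⟨⟨h1, ?_, Set.mem_univ _, h3⟩, h2⟩
        have h6 : x % 2 ^ L = (r : ℤ) := by
          have := h4.2 h2
          omega
        have h7 := hpar x
        rw [h6] at h7
        rw [Int.odd_iff]
        omega
    rw [heq]
    have g1 := ap_card_le hab.le (q := 2 ^ L * 3 ^ m) (by positivity) c'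
    have g2 := le_ap_card a b (q := 2 ^ L * 3 ^ m) (by positivity) c'
    push_cast at g1 g2
    rw [abs_le]
    constructor <;> linarith
  have h1 : |WS F a b m 1 c - (b - a) / (2 ^ L * 3 ^ m) * ∑ r ∈ R, F (r : ℤ)| ≤ 2 ^ L := by
    rw [hWS, mul_sum, ← sum_sub_distrib]
    refine (abs_sum_le_sum_abs _ _).trans ?_
    have h2 : ∀ r ∈ R, |F (r : ℤ) * (((cls Set.univ a b m 1 c).filter fun x => (x % 2 ^ L).toNat = r).card : ℝ)
        - (b - a) / (2 ^ L * 3 ^ m) * F (r : ℤ)| ≤ 1 := by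
      intro r hr
      rw [mul_comm ((b - a) / (2 ^ L * 3 ^ m)), ← mul_sub, abs_mul]
      calc |F (r : ℤ)| * _ ≤ 1 * 1 := mul_le_mul (hF1 _) (hcard r hr) (abs_nonneg _) (by norm_num)
        _ = 1 := by norm_num
    refine (sum_le_sum h2).trans ?_
    rw [sum_const, nsmul_eq_mul, mul_one]
    have : R.card ≤ 2 ^ L := (card_filter_le _ _).trans (by rw [card_range])
    exact_mod_cast this
  have hq : 0 < 2 * 3 ^ m / (b - a) := by positivity
  have e : nz F a b m c - 2 / 2 ^ L * ∑ r ∈ R, F (r : ℤ)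
      = (2 * 3 ^ m / (b - a)) * (WS F a b m 1 c - (b - a) / (2 ^ L * 3 ^ m) * ∑ r ∈ R, F (r : ℤ)) := by
    unfold nz
    field_simp
  rw [e, abs_mul, abs_of_pos hq]
  refine (mul_le_mul_of_nonneg_left h1 hq.le).trans (le_of_eq ?_)
  ring

end Pool.Agent.KS6_24.LN
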