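import Pool.Agent.KS6_24.LN.TV2

/-! Window law: comparison of two windows. -/

set_option autoImplicit false

namespace Pool.Agent.KS6_24.LN

open Pool.Agent.H320R2.PD Pool.Agent.H499R2.ND Pool.Agent.H499R2.CO Pool.Agent.W41.FU Finset
open Pool.Agent.Y965.SI Pool.Agent.KS6_32.BD Pool.Agent.KS6_32.CL

theorem log3_le' : Real.log 3 ≤ 1.1 := by
  have h1 : Real.log 3 ≤ 1.1 := by
    rw [Real.log_le_iff_le_exp (by norm_num)]
    have h2 : (2.7182 : ℝ) ≤ Real.exp 1 := by have := Real.exp_one_gt_d9; linarith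
    have e : Real.exp 1.1 = Real.exp 1 * Real.exp 0.1 := by rw [← Real.exp_add]; norm_num
    have h3 := Real.add_one_le_exp (0.1 : ℝ)
    have h4 : (1.105 : ℝ) ≤ Real.exp 0.1 := by
      have := Real.quadratic_le_exp_of_nonneg (x := (0.1 : ℝ)) (by norm_num)
      linarith
    rw [e]
    calc (3 : ℝ) ≤ 2.7182 * 1.105 := by norm_num
      _ ≤ Real.exp 1 * Real.exp 0.1 := mul_le_mul h2 h4 (by norm_num) (by positivity)
  exact h1

/-- the mass of the words of typical size -/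
theorem mass_win {k x : ℕ} (hk : 1 ≤ k) (hx : 1 ≤ x) (hxk : x ≤ k) :
    1 - ∑ w ∈ GW (3 * k) k (2 * k - x) (2 * k + x), wwt w ≤ 1 / k + 2 * k / (x : ℝ) ^ 2 := by
  have hx0 : (0 : ℝ) < x := by exact_mod_cast hx
  have h1 := mass_all hk
  have h2 := second_moment k
  have e1 : ∑ w ∈ FW (3 * k) k, wwt w = ∑ w ∈ GW (3 * k) k (2 * k - x) (2 * k + x), wwt w
      + ∑ w ∈ (FW (3 * k) k).filter (fun w => ¬ (2 * k - x ≤ w.sum ∧ w.sum ≤ 2 * k + x)), wwt w := by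
    unfold GW
    rw [sum_filter_add_sum_filter_not]
  have h3 : (x : ℝ) ^ 2 * ∑ w ∈ (FW (3 * k) k).filter (fun w => ¬ (2 * k - x ≤ w.sum ∧ w.sum ≤ 2 * k + x)), wwt w ≤ 2 * k := by
    refine le_trans ?_ h2
    rw [mul_sum]
    refine le_trans ?_ (sum_le_sum_of_subset_of_nonneg (filter_subset (fun w : List ℕ => ¬ (2 * k - x ≤ w.sum ∧ w.sum ≤ 2 * k + x))
      (FW (3 * k) k)) fun w _ _ => mul_nonneg (wwt_nonneg w) (sq_nonneg _))
    apply sum_le_sum
    intro w hw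
    rw [mem_filter] at hw
    rw [mul_comm]
    apply mul_le_mul_of_nonneg_left _ (wwt_nonneg w)
    rw [← sq_abs ((w.sum : ℝ) - 2 * k)]
    apply pow_le_pow_left₀ hx0.le
    have h4 : w.sum + x ≤ 2 * k ∨ 2 * k + x ≤ w.sum := by omega
    rcases h4 with h4 | h4
    · have h5 : (w.sum : ℝ) + x ≤ 2 * k := by exact_mod_cast h4
      rw [abs_sub_comm]
      exact le_trans (by linarith) (le_abs_self _)
    · have h5 : 2 * (k : ℝ) + x ≤ w.sum := by exact_mod_cast h4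
      exact le_trans (by linarith) (le_abs_self _)
  have h4 : ∑ w ∈ (FW (3 * k) k).filter (fun w => ¬ (2 * k - x ≤ w.sum ∧ w.sum ≤ 2 * k + x)), wwt w ≤ 2 * k / (x : ℝ) ^ 2 := by
    rw [le_div_iff₀ (by positivity)]
    linarith
  linarith

/-- small quantities -/
theorem tiny {k m : ℕ} (hk : 1 ≤ k) (hm : m ≤ k) {ℓ : ℝ} (hℓ0 : 0 < ℓ) (hℓ : 38 * (k : ℝ) ≤ Real.log ℓ) {N : ℝ}
    (hN : N ≤ 2 * (2 : ℝ) ^ (4 * k)) : 2 * 3 ^ m / ℓ * N ≤ 1 / k := by
  have hk0 : (0 : ℝ) < k := by exact_mod_cast hk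
  have hk1 : (1 : ℝ) ≤ k := by exact_mod_cast hk
  have h1 : (3 : ℝ) ^ m ≤ 3 ^ k := pow_le_pow_right₀ (by norm_num) hm
  have h2 : 2 * (3 : ℝ) ^ k * (2 * 2 ^ (4 * k)) ≤ Real.exp (6 * k) := by
    have e1 : 2 * (3 : ℝ) ^ k * (2 * 2 ^ (4 * k)) = 4 * 48 ^ k := by
      rw [show (48 : ℝ) = 3 * 2 ^ 4 by norm_num, mul_pow, ← pow_mul]; ring
    have e2 : Real.exp (6 * (k : ℝ)) = Real.exp (2 * k) * Real.exp 4 ^ k := by
      rw [← Real.exp_nat_mul, ← Real.exp_add]; congr 1; ring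
    have h3 : (2.7182 : ℝ) ≤ Real.exp 1 := by have := Real.exp_one_gt_d9; linarith
    have h4 : (48 : ℝ) ≤ Real.exp 4 := by
      have e : Real.exp 4 = Real.exp 1 ^ 4 := by rw [← Real.exp_nat_mul]; norm_num
      rw [e]
      calc (48 : ℝ) ≤ 2.7182 ^ 4 := by norm_num
        _ ≤ Real.exp 1 ^ 4 := pow_le_pow_left₀ (by norm_num) h3 4
    have h5 : (4 : ℝ) ≤ Real.exp (2 * k) := by
      calc (4 : ℝ) ≤ 2.7182 ^ 2 := by norm_num
        _ ≤ Real.exp 1 ^ 2 := pow_le_pow_left₀ (by norm_num) h3 2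
        _ = Real.exp 2 := by rw [← Real.exp_nat_mul]; norm_num
        _ ≤ Real.exp (2 * k) := Real.exp_le_exp.2 (by linarith)
    rw [e1, e2]
    exact mul_le_mul h5 (pow_le_pow_left₀ (by norm_num) h4 k) (by positivity) (by positivity)
  have h3 : Real.exp (38 * k) ≤ ℓ := by rwa [← Real.le_log_iff_exp_le hℓ0]
  have h4 : Real.exp (6 * k) * k ≤ Real.exp (38 * k) := by
    have e : Real.exp (38 * (k : ℝ)) = Real.exp (6 * k) * Real.exp (32 * k) := by rw [← Real.exp_add]; ring_nf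
    rw [e]
    apply mul_le_mul_of_nonneg_left _ (by positivity)
    have := Real.add_one_le_exp (32 * (k : ℝ))
    linarith
  rw [div_mul_eq_mul_div, div_le_div_iff₀ hℓ0 hk0, one_mul]
  calc 2 * 3 ^ m * N * k ≤ 2 * 3 ^ k * (2 * 2 ^ (4 * k)) * k := by
        apply mul_le_mul_of_nonneg_right _ hk0.le
        calc 2 * 3 ^ m * N ≤ 2 * 3 ^ m * (2 * 2 ^ (4 * k)) := mul_le_mul_of_nonneg_left hN (by positivity)
          _ ≤ 2 * 3 ^ k * (2 * 2 ^ (4 * k)) := by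
              apply mul_le_mul_of_nonneg_right _ (by positivity)
              linarith
    _ ≤ Real.exp (6 * k) * k := mul_le_mul_of_nonneg_right h2 hk0.le
    _ ≤ Real.exp (38 * k) := h4
    _ ≤ ℓ := h3

theorem DM_sqrt : ∃ C : ℝ, 0 < C ∧ ∀ k m : ℕ, 1 ≤ k → m ≤ Nat.sqrt k → DM (3 * k) k m (Nat.sqrt k) ≤ C / k := by
  obtain ⟨C, hC, hmix⟩ := mix 8
  refine ⟨514 * C, by positivity, ?_⟩
  intro k m hk hm
  have hk0 : (0 : ℝ) < k := by exact_mod_cast hk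
  have hk1 : (1 : ℝ) ≤ k := by exact_mod_cast hk
  set q := Nat.sqrt k with hq
  have hq1 : 1 ≤ q := by rw [hq, Nat.le_sqrt]; omega
  have hqk : q * q ≤ k := Nat.sqrt_le k
  have hqk2 : q ≤ k := Nat.sqrt_le_self k
  have hkq : k < (q + 1) * (q + 1) := Nat.lt_succ_sqrt k
  have hkq2 : k ≤ 4 * (q * q) := by nlinarith
  have hq0 : (0 : ℝ) < q := by exact_mod_cast hq1
  have hqkR : (q : ℝ) * q ≤ k := by exact_mod_cast hqk
  have hkqR : (k : ℝ) ≤ 4 * (q * q) := by exact_mod_cast hkq2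
  have hmq : (m : ℝ) ≤ q := by exact_mod_cast hm
  have hm0 : (0 : ℝ) ≤ m := Nat.cast_nonneg m
  have h1 := hmix k m q (3 * k) hk hq1 hqk2 le_rfl
  refine h1.trans ?_
  have h2 : (1 / (q : ℝ)) ^ 8 ≤ 256 / k ^ 4 := by
    have e : (1 / (q : ℝ)) ^ 8 = 1 / (q * q) ^ 4 := by rw [one_div_pow]; congr 1; ring
    rw [e, div_le_div_iff₀ (by positivity) (by positivity), one_mul]
    calc (k : ℝ) ^ 4 ≤ (4 * (q * q)) ^ 4 := pow_le_pow_left₀ hk0.le hkqR 4
      _ = 256 * (q * q) ^ 4 := by ring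
  have h3 : ((m : ℝ) / k) ^ 8 ≤ 1 / k ^ 4 := by
    rw [div_pow, div_le_div_iff₀ (by positivity) (by positivity), one_mul]
    have h4 : (m : ℝ) ^ 8 ≤ k ^ 4 := by
      calc (m : ℝ) ^ 8 ≤ q ^ 8 := pow_le_pow_left₀ hm0 hmq 8
        _ = (q * q) ^ 4 := by ring
        _ ≤ k ^ 4 := pow_le_pow_left₀ (by positivity) hqkR 4
    calc (m : ℝ) ^ 8 * k ^ 4 ≤ k ^ 4 * k ^ 4 := mul_le_mul_of_nonneg_right h4 (by positivity)
      _ = k ^ 8 := by ring
  have hmk : (m : ℝ) ≤ k := by exact_mod_cast hm.trans hqk2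
  calc ((k : ℝ) + m) * (C * ((1 / (q : ℝ)) ^ 8 + ((m : ℝ) / k) ^ 8))
      ≤ (2 * k) * (C * (256 / k ^ 4 + 1 / k ^ 4)) := by
        apply mul_le_mul (by linarith) (mul_le_mul_of_nonneg_left (add_le_add h2 h3) hC.le) (by positivity) (by positivity)
    _ = 514 * C / k * (1 / k ^ 2) := by field_simp; ring
    _ ≤ 514 * C / k * 1 := by
        apply mul_le_mul_of_nonneg_left _ (by positivity)
        rw [div_le_one (by positivity)]
        exact one_le_pow₀ hk1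
    _ = 514 * C / k := mul_one _

/-- the error of one stage -/
theorem err_stage : ∃ C : ℝ, 0 < C ∧ ∀ k x m : ℕ, 2 ≤ k → 1 ≤ x → x ≤ k → m ≤ Nat.sqrt k → ∀ ℓ : ℝ, 0 < ℓ →
    38 * (k : ℝ) ≤ Real.log ℓ →
    (1 + 2 * 3 ^ m * 2 ^ (2 * k + x) / ℓ) * DM (3 * k) k m (Nat.sqrt k)
      + (1 - ∑ w ∈ GW (3 * k) k (2 * k - x) (2 * k + x), wwt w) + 2 * 3 ^ m / ℓ * (1 + 4 * 2 ^ (2 * k + x))
      ≤ C / k + 2 * k / (x : ℝ) ^ 2 := by
  obtain ⟨C, hC, hDM⟩ := DM_sqrt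
  refine ⟨2 * C + 2, by positivity, ?_⟩
  intro k x m hk hx hxk hm ℓ hℓ0 hℓ
  have hk1 : 1 ≤ k := by omega
  have hk0 : (0 : ℝ) < k := by exact_mod_cast hk1
  have hk1R : (1 : ℝ) ≤ k := by exact_mod_cast hk1
  have hmk : m ≤ k := hm.trans (Nat.sqrt_le_self k)
  have hpow : (2 : ℝ) ^ (2 * k + x) ≤ 2 ^ (3 * k) := pow_le_pow_right₀ (by norm_num) (by omega)
  have hpow2 : (4 : ℝ) * 2 ^ (3 * k) ≤ 2 ^ (4 * k) := by
    calc (4 : ℝ) * 2 ^ (3 * k) = 2 ^ (2 + 3 * k) := by rw [pow_add]; norm_num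
      _ ≤ 2 ^ (4 * k) := pow_le_pow_right₀ (by norm_num) (by omega)
  have hone : (1 : ℝ) ≤ 2 ^ (4 * k) := one_le_pow₀ (by norm_num)
  have h1 := tiny hk1 hmk hℓ0 hℓ (N := 2 ^ (2 * k + x)) (by
    have : (0 : ℝ) < 2 ^ (3 * k) := by positivity
    linarith)
  have h2 := tiny hk1 hmk hℓ0 hℓ (N := 1 + 4 * 2 ^ (2 * k + x)) (by linarith)
  have h3 := hDM k m hk1 hm
  have h4 := mass_win hk1 hx hxk
  have h5 : 1 / (k : ℝ) ≤ 1 := by rw [div_le_one hk0]; exact hk1R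
  have e1 : 2 * 3 ^ m * 2 ^ (2 * k + x) / ℓ = 2 * 3 ^ m / ℓ * 2 ^ (2 * k + x) := by ring
  have h6 : (1 + 2 * 3 ^ m * 2 ^ (2 * k + x) / ℓ) * DM (3 * k) k m (Nat.sqrt k) ≤ 2 * (C / k) := by
    rw [e1]
    apply mul_le_mul (by linarith) h3 (DM_nonneg _ _ _ _) (by norm_num)
  have e2 : (2 * C + 2) / (k : ℝ) = 2 * (C / k) + 1 / k + 1 / k := by ring
  rw [e2]
  linarith

theorem gm_pos : 0 < gm := by
  unfold gm
  have := log3_le'
  have := Real.log_two_gt_d9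
  linarith

/-- TWO WINDOWS -/
theorem two_win {d : ℤ} (hd : Odd d) (hd3 : IsCoprime d 3) (hdd : d * d = 1) : ∃ C : ℝ, 0 < C ∧
    ∀ k x Λ : ℕ, 2 ≤ k → 1 ≤ x → x ≤ k → Λ ≤ k → ∀ Ψ : ℕ → ℤ → ℝ, (∀ a x, |Ψ a x| ≤ 1) → (∀ a, Per Λ (Ψ a)) →
    ∀ t : ℕ, ∀ (c₀ m m₂ : ℕ), m ≤ Nat.sqrt k → m₂ ≤ Nat.sqrt k → ∀ a b a' b' : ℝ, a < b → a' < b' →
      gm * t + 38 * k + 0.55 * x * (t / k) ≤ Real.log (b - a) → gm * t + 38 * k + 0.55 * x * (t / k) ≤ Real.log (b' - a') →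
      ∀ c c' : ℤ, |nz (FF d Ψ t c₀) a b m c - nz (FF d Ψ t c₀) a' b' m₂ c'|
        ≤ (2 * (t / k) + 2) * (C / k + 2 * k / (x : ℝ) ^ 2) := by
  obtain ⟨C, hC, herr⟩ := err_stage
  refine ⟨C + 1, by positivity, ?_⟩
  intro k x Λ hk hx hxk hΛ Ψ hΨ1 hΨ t
  have hd2 : d % 2 = 1 := by obtain ⟨q, hq⟩ := hd; omega
  have hk1 : 1 ≤ k := by omega
  have hk0 : (0 : ℝ) < k := by exact_mod_cast hk1
  have hx0 : (0 : ℝ) < x := by exact_mod_cast hx
  set e : ℝ := (C + 1) / k + 2 * k / (x : ℝ) ^ 2 with he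
  have he0 : 0 ≤ e := by rw [he]; positivity
  have he1 : 1 / (k : ℝ) ≤ e := by
    rw [he]
    have h1 : 1 / (k : ℝ) ≤ (C + 1) / k := div_le_div_of_nonneg_right (by linarith) hk0.le
    have h2 : 0 ≤ 2 * (k : ℝ) / (x : ℝ) ^ 2 := by positivity
    linarith
  have hgm := gm_pos
  have l3 := log3_le'
  have l3' : 0 < Real.log 3 := Real.log_pos (by norm_num)
  have hFF1 : ∀ t c y, |FF d Ψ t c y| ≤ 1 := fun t c y => hΨ1 _ _
  induction t using Nat.strong_induction_on with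
  | _ t ih =>
    intro c₀ m m₂ hm hm₂ a b a' b' hab hab' hL hL' c c'
    have ht0 : (0 : ℝ) ≤ t := Nat.cast_nonneg t
    have htk : 0 ≤ (t : ℝ) / k := by positivity
    have hxt : 0 ≤ 0.55 * (x : ℝ) * (t / k) := by positivity
    have hgt : 0 ≤ gm * t := by positivity
    have hℓ : 0 < b - a := by linarith
    have hℓ' : 0 < b' - a' := by linarith
    rcases Nat.lt_or_ge t (3 * k) with hlt | hge
    · -- base
      have hper : Per (t + Λ + 1) (FF d Ψ t c₀) := (FF_per hd2 hΨ t c₀).mono (by omega)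
      have hp : (2 : ℝ) ^ (t + Λ + 1) ≤ 2 * 2 ^ (4 * k) := by
        have h1 : (2 : ℝ) ^ (t + Λ + 1) ≤ 2 ^ (4 * k) := pow_le_pow_right₀ (by norm_num) (by omega)
        have : (0 : ℝ) < 2 ^ (4 * k) := by positivity
        linarith
      have h1 := base_nz (L := t + Λ + 1) (by omega) hper (hFF1 _ _) hab m c
      have h2 := base_nz (L := t + Λ + 1) (by omega) hper (hFF1 _ _) hab' m₂ c'
      have h3 := tiny hk1 (hm.trans (Nat.sqrt_le_self k)) hℓ (by linarith) hp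
      have h4 := tiny hk1 (hm₂.trans (Nat.sqrt_le_self k)) hℓ' (by linarith) hp
      have e1 : (2 : ℝ) ^ (t + Λ + 1) * (2 * 3 ^ m) / (b - a) = 2 * 3 ^ m / (b - a) * 2 ^ (t + Λ + 1) := by ring
      have e2 : (2 : ℝ) ^ (t + Λ + 1) * (2 * 3 ^ m₂) / (b' - a') = 2 * 3 ^ m₂ / (b' - a') * 2 ^ (t + Λ + 1) := by ring
      rw [e1] at h1
      rw [e2] at h2
      set μ := 2 / 2 ^ (t + Λ + 1) * ∑ r ∈ (range (2 ^ (t + Λ + 1))).filter (fun r : ℕ => r % 2 = 1), FF d Ψ t c₀ (r : ℤ)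
      have h5 := abs_sub_le (nz (FF d Ψ t c₀) a b m c) μ (nz (FF d Ψ t c₀) a' b' m₂ c')
      rw [abs_sub_comm μ] at h5
      have h6 : 2 * e ≤ (2 * ((t : ℝ) / k) + 2) * e := mul_le_mul_of_nonneg_right (by linarith) he0
      linarith
    · -- one stage
      set g : ℕ → ℤ → ℝ := fun T => FF d Ψ (t - T) (c₀ + k) with hg
      have hg1 : ∀ T y, |g T y| ≤ 1 := fun T y => hΨ1 _ _
      have hTm : 2 * k + x ≤ k * (3 * k) := by nlinarith
      have hpath : ∀ w : List ℕ, w.length = k → (∀ e ∈ w, 1 ≤ e) → 2 * k - x ≤ w.sum → w.sum ≤ 2 * k + x →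
          ∀ M y : ℤ, Odd y → Vw d w M y → FF d Ψ t c₀ M = g w.sum y := by
        intro w hlen hlet _ hs M y hy hV
        have hne : w ≠ [] := by rintro rfl; simp at hlen; omega
        rw [FF_word hd Ψ hlet hne hy hV c₀ (by omega), hlen]
      have s1 := stage_nz hd hd3 hdd (hFF1 t c₀) hg1 hab k m (Nat.sqrt k) (2 * k - x) (2 * k + x) c hk1
        (Nat.sqrt_le_self k) hTm hpath
      have s2 := stage_nz hd hd3 hdd (hFF1 t c₀) hg1 hab' k m₂ (Nat.sqrt k) (2 * k - x) (2 * k + x) c' hk1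
        (Nat.sqrt_le_self k) hTm hpath
      have r1 := herr k x m hk hx hxk hm (b - a) hℓ (by linarith)
      have r2 := herr k x m₂ hk hx hxk hm₂ (b' - a') hℓ' (by linarith)
      have hCe : C / k + 2 * k / (x : ℝ) ^ 2 ≤ e := by
        rw [he]
        have h1 : C / (k : ℝ) ≤ (C + 1) / k := div_le_div_of_nonneg_right (by linarith) hk0.le
        linarith
      set GG := GW (3 * k) k (2 * k - x) (2 * k + x) with hGG
      have hmass : ∑ w ∈ GG, wwt w ≤ 1 := by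
        rw [hGG]; unfold GW
        exact (sum_le_sum_of_subset_of_nonneg (filter_subset _ _) fun w _ _ => wwt_nonneg w).trans (sum_wwt_le (3 * k) k)
      -- the words
      have hword : ∀ w ∈ GG, |wwt w * nz (g w.sum) (a * 3 ^ k / 2 ^ w.sum) (b * 3 ^ k / 2 ^ w.sum) (Nat.sqrt k) (cw d (Nat.sqrt k) w)
          - wwt w * nz (g w.sum) (a' * 3 ^ k / 2 ^ w.sum) (b' * 3 ^ k / 2 ^ w.sum) (Nat.sqrt k) (cw d (Nat.sqrt k) w)|
          ≤ wwt w * ((2 * (t / k)) * e) := by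
        intro w hw
        rw [hGG] at hw; unfold GW at hw
        rw [mem_filter] at hw
        obtain ⟨hwF, hT1, hT2⟩ := hw
        set T := w.sum with hT
        have hTt : T ≤ t := by omega
        have hkT : k ≤ T := by omega
        have hT1R : 2 * (k : ℝ) - x ≤ T := by
          have : 2 * k ≤ T + x := by omega
          have : 2 * (k : ℝ) ≤ T + x := by exact_mod_cast this
          linarith
        have hT2R : (T : ℝ) ≤ 2 * k + x := by exact_mod_cast hT2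
        have hkTR : (k : ℝ) ≤ T := by exact_mod_cast hkT
        have hcast : ((t - T : ℕ) : ℝ) = t - T := by rw [Nat.cast_sub hTt]
        have h2T : (0 : ℝ) < 2 ^ T := by positivity
        have hlogw : ∀ u v : ℝ, u < v → gm * t + 38 * k + 0.55 * x * (t / k) ≤ Real.log (v - u) →
            gm * ((t - T : ℕ) : ℝ) + 38 * k + 0.55 * x * (((t - T : ℕ) : ℝ) / k) ≤ Real.log (v * 3 ^ k / 2 ^ T - u * 3 ^ k / 2 ^ T) := by
          intro u v huv hl
          have huv0 : 0 < v - u := by linarith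
          have e1 : v * 3 ^ k / 2 ^ T - u * 3 ^ k / 2 ^ T = (v - u) * 3 ^ k / 2 ^ T := by ring
          rw [e1, Real.log_div (by positivity) (by positivity), Real.log_mul huv0.ne' (by positivity), Real.log_pow,
            Real.log_pow, hcast]
          have e2 : 0.55 * (x : ℝ) * ((t - T) / k) = 0.55 * x * (t / k) - 0.55 * x * (T / k) := by ring
          have e3 : (1 : ℝ) ≤ T / k := by rw [one_le_div hk0]; exact hkTR
          have e4 : 0.55 * (x : ℝ) ≤ 0.55 * x * (T / k) := le_mul_of_one_le_right (by positivity) e3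
          have e5 : Real.log 3 / 2 * (T - 2 * k) ≤ Real.log 3 / 2 * x := mul_le_mul_of_nonneg_left (by linarith) (by positivity)
          have e6 : Real.log 3 / 2 * x ≤ 0.55 * x := mul_le_mul_of_nonneg_right (by linarith) hx0.le
          rw [e2]
          unfold gm at hl ⊢
          nlinarith
        have hlt' : t - T < t := by omega
        have h7 := ih (t - T) hlt' (c₀ + k) (Nat.sqrt k) (Nat.sqrt k) le_rfl le_rfl (a * 3 ^ k / 2 ^ T) (b * 3 ^ k / 2 ^ T)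
          (a' * 3 ^ k / 2 ^ T) (b' * 3 ^ k / 2 ^ T) (by
            apply div_lt_div_of_pos_right _ h2T
            exact mul_lt_mul_of_pos_right hab (by positivity)) (by
            apply div_lt_div_of_pos_right _ h2T
            exact mul_lt_mul_of_pos_right hab' (by positivity)) (hlogw a b hab hL) (hlogw a' b' hab' hL')
          (cw d (Nat.sqrt k) w) (cw d (Nat.sqrt k) w)
        rw [← mul_sub, abs_mul, abs_of_nonneg (wwt_nonneg w)]
        apply mul_le_mul_of_nonneg_left _ (wwt_nonneg w)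
        refine h7.trans ?_
        apply mul_le_mul_of_nonneg_right _ he0
        rw [hcast]
        have e3 : (1 : ℝ) ≤ T / k := by rw [one_le_div hk0]; exact hkTR
        have e4 : ((t : ℝ) - T) / k = t / k - T / k := by ring
        rw [e4]; linarith
      have hsum := (abs_sum_le_sum_abs (fun w => wwt w * nz (g w.sum) (a * 3 ^ k / 2 ^ w.sum) (b * 3 ^ k / 2 ^ w.sum) (Nat.sqrt k) (cw d (Nat.sqrt k) w)
          - wwt w * nz (g w.sum) (a' * 3 ^ k / 2 ^ w.sum) (b' * 3 ^ k / 2 ^ w.sum) (Nat.sqrt k) (cw d (Nat.sqrt k) w)) GG).trans (sum_le_sum hword)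
      rw [sum_sub_distrib, ← sum_mul] at hsum
      have h8 : (∑ w ∈ GG, wwt w) * (2 * ((t : ℝ) / k) * e) ≤ 1 * (2 * ((t : ℝ) / k) * e) :=
        mul_le_mul_of_nonneg_right hmass (by positivity)
      set X1 := ∑ w ∈ GG, wwt w * nz (g w.sum) (a * 3 ^ k / 2 ^ w.sum) (b * 3 ^ k / 2 ^ w.sum) (Nat.sqrt k) (cw d (Nat.sqrt k) w)
      set X2 := ∑ w ∈ GG, wwt w * nz (g w.sum) (a' * 3 ^ k / 2 ^ w.sum) (b' * 3 ^ k / 2 ^ w.sum) (Nat.sqrt k) (cw d (Nat.sqrt k) w)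
      have h9 := abs_sub_le (nz (FF d Ψ t c₀) a b m c) X1 (nz (FF d Ψ t c₀) a' b' m₂ c')
      have h10 := abs_sub_le X1 X2 (nz (FF d Ψ t c₀) a' b' m₂ c')
      rw [abs_sub_comm X2] at h10
      have e7 : (2 * ((t : ℝ) / k) + 2) * e = 2 * (t / k) * e + 2 * e := by ring
      rw [e7]
      linarith

end Pool.Agent.KS6_24.LN
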