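import Mathlib
import Pool.Agent.KS6_24.LN.A

/-! Piece of job TV (helper56): from the odd integers of windows to all integers, and comparison with the mean
over a period. -/

set_option autoImplicit false

namespace Pool.Agent.KS6_24.LN.SW

open Pool.Agent.H320R2.PD Pool.Agent.H499R2.ND Pool.Agent.H499R2.CO Pool.Agent.W41.FU Pool.Agent.Y965.SI Finset

/-- the test function after `t` steps -/
noncomputable def gT (d : ℤ) (Ψ : ℕ → ℤ → ℝ) (t : ℕ) (n : ℤ) : ℝ := Ψ (od d t n) ((Tz d)^[t] n)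

theorem gT_abs {d : ℤ} {Ψ : ℕ → ℤ → ℝ} (h : ∀ a x, |Ψ a x| ≤ 1) (t : ℕ) (n : ℤ) : |gT d Ψ t n| ≤ 1 := h _ _

theorem gT_per {d : ℤ} (hd : d % 2 = 1) {Ψ : ℕ → ℤ → ℝ} {Λ : ℕ} (hΨ : ∀ a, Per Λ (Ψ a)) (t : ℕ) :
    Per (t + Λ) (gT d Ψ t) := by
  intro x m
  unfold gT
  rw [show m * (2 : ℤ) ^ (t + Λ) = (m * 2 ^ Λ) * 2 ^ t by rw [pow_add]; ring, iter_add' hd, od_per hd,
    show (Tz d)^[t] x + 3 ^ od d t x * (m * 2 ^ Λ) = (Tz d)^[t] x + (3 ^ od d t x * m) * 2 ^ Λ by ring, hΨ]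

theorem gT_even {d : ℤ} {Ψ : ℕ → ℤ → ℝ} (t : ℕ) (n : ℤ) : gT d Ψ (t + 1) (2 * n) = gT d Ψ t n := by
  unfold gT
  have h : (2 * n) % 2 = 0 := by omega
  rw [Function.iterate_succ_apply, Tz_even h, od_succ, Tz_even h, if_neg (by omega), zero_add,
    Int.mul_ediv_cancel_left _ (by norm_num)]

/-- sum over all integers of `[a, b)` -/
noncomputable def SA (g : ℤ → ℝ) (a b : ℝ) : ℝ := ∑ n ∈ Ico ⌈a⌉ ⌈b⌉, g n

theorem SA_abs {g : ℤ → ℝ} (hg : ∀ x, |g x| ≤ 1) {a b : ℝ} (hab : a ≤ b) : |SA g a b| ≤ b - a + 1 := by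
  have h1 := ap_card_le hab (q := 1) one_pos 0
  have h2 : ap a b 1 0 = Ico ⌈a⌉ ⌈b⌉ := by
    unfold ap
    apply filter_true_of_mem
    intro x _; exact one_dvd _
  rw [h2] at h1
  push_cast at h1
  rw [div_one] at h1
  unfold SA
  refine (abs_sum_le_sum_abs _ _).trans ?_
  calc ∑ n ∈ Ico ⌈a⌉ ⌈b⌉, |g n| ≤ ∑ _n ∈ Ico ⌈a⌉ ⌈b⌉, (1 : ℝ) := sum_le_sum fun n _ => hg n
    _ = (#(Ico ⌈a⌉ ⌈b⌉) : ℝ) := by rw [sum_const, nsmul_eq_mul, mul_one]
    _ ≤ _ := h1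

theorem SA_split {d : ℤ} {Ψ : ℕ → ℤ → ℝ} (t : ℕ) (a b : ℝ) :
    SA (gT d Ψ (t + 1)) a b = WS (gT d Ψ (t + 1)) a b 0 1 0 + SA (gT d Ψ t) (a / 2) (b / 2) := by
  classical
  unfold SA WS
  rw [← sum_filter_add_sum_filter_not (Ico ⌈a⌉ ⌈b⌉) (fun n => Odd n)]
  congr 1
  · apply sum_congr _ fun _ _ => rfl
    ext x
    rw [mem_filter, mem_cls, mem_win]
    simp
  · symm
    refine sum_bij' (fun n _ => 2 * n) (fun n _ => n / 2) ?_ ?_ ?_ ?_ ?_
    · intro n hn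
      rw [mem_win] at hn
      rw [mem_filter, mem_win]
      push_cast
      refine ⟨⟨by linarith [hn.1], by linarith [hn.2]⟩, ?_⟩
      rw [Int.not_odd_iff_even]; exact even_two_mul n
    · intro n hn
      rw [mem_filter, mem_win, Int.not_odd_iff_even] at hn
      obtain ⟨m, hm⟩ := hn.2
      have e : n / 2 = m := by omega
      rw [e, mem_win]
      have hmR : (n : ℝ) = m + m := by exact_mod_cast hm
      constructor <;> linarith [hn.1.1, hn.1.2]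
    · intro n _; omega
    · intro n hn
      rw [mem_filter, mem_win, Int.not_odd_iff_even] at hn
      obtain ⟨m, hm⟩ := hn.2
      omega
    · intro n _; rw [gT_even]

theorem SA_split_iter {d : ℤ} {Ψ : ℕ → ℤ → ℝ} (t : ℕ) (a b : ℝ) : ∀ k : ℕ, k ≤ t →
    SA (gT d Ψ t) a b = ∑ j ∈ range k, WS (gT d Ψ (t - j)) (a / 2 ^ j) (b / 2 ^ j) 0 1 0
      + SA (gT d Ψ (t - k)) (a / 2 ^ k) (b / 2 ^ k) := by
  intro k
  induction k with
  | zero => intro _; simp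
  | succ k ih =>
    intro hk
    rw [ih (by omega), sum_range_succ]
    obtain ⟨s, hs⟩ : ∃ s, t - k = s + 1 := ⟨t - (k + 1), by omega⟩
    have hs' : t - (k + 1) = s := by omega
    rw [hs, hs', SA_split, div_div, div_div, ← pow_succ]
    ring

theorem mean_window {F : ℤ → ℝ} {T : ℕ} (hF : Per T F) (hF1 : ∀ x, |F x| ≤ 1) (x : ℤ) {l : ℕ} (hl : 1 ≤ l) :
    |(∑ i ∈ range l, F (x + (i : ℕ))) / l - pm T F| ≤ 2 * 2 ^ T / l := by
  have hl0 : (0 : ℝ) < l := by exact_mod_cast hl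
  have hblock : ∀ y : ℤ, ∑ i ∈ range (2 ^ T), F (y + (i : ℕ)) = 2 ^ T * pm T F := by
    intro y
    have h1 := pm_shift hF y
    unfold pm at h1 ⊢
    rw [mul_div_cancel₀ _ (by positivity)]
    rw [div_left_inj' (by positivity)] at h1
    rw [← h1]
    apply sum_congr rfl; intro i _; rw [add_comm]
  have hblocks : ∀ q : ℕ, ∑ i ∈ range (q * 2 ^ T), F (x + (i : ℕ)) = q * (2 ^ T * pm T F) := by
    intro q
    induction q with
    | zero => simp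
    | succ q ih =>
      rw [Nat.succ_mul, sum_range_add, ih]
      have h1 := hblock (x + (q * 2 ^ T : ℕ))
      have h2 : ∑ i ∈ range (2 ^ T), F (x + ((q * 2 ^ T + i : ℕ) : ℤ))
          = ∑ i ∈ range (2 ^ T), F (x + ((q * 2 ^ T : ℕ) : ℤ) + (i : ℕ)) := by
        apply sum_congr rfl; intro i _; congr 1; push_cast; ring
      rw [h2, h1]; push_cast; ring
  set q := l / 2 ^ T with hq
  set r := l % 2 ^ T with hr
  have hlqr : l = q * 2 ^ T + r := by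
    rw [hq, hr]
    have := Nat.div_add_mod l (2 ^ T)
    rw [mul_comm] at this; exact this.symm
  have hr2 : r < 2 ^ T := Nat.mod_lt _ (by positivity)
  have hrR : (r : ℝ) ≤ 2 ^ T := by exact_mod_cast hr2.le
  have hrem : |∑ i ∈ range r, F (x + ((q * 2 ^ T + i : ℕ) : ℤ))| ≤ r := by
    refine (abs_sum_le_sum_abs _ _).trans ?_
    calc ∑ i ∈ range r, |F (x + ((q * 2 ^ T + i : ℕ) : ℤ))| ≤ ∑ _i ∈ range r, (1 : ℝ) :=
          sum_le_sum fun i _ => hF1 _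
      _ = r := by rw [sum_const, card_range, nsmul_eq_mul, mul_one]
  have hpm : |pm T F| ≤ 1 := pm_abs hF1
  have hsum : ∑ i ∈ range l, F (x + (i : ℕ))
      = q * (2 ^ T * pm T F) + ∑ i ∈ range r, F (x + ((q * 2 ^ T + i : ℕ) : ℤ)) := by
    rw [hlqr, sum_range_add, hblocks]
  have hlR : (l : ℝ) = q * 2 ^ T + r := by exact_mod_cast hlqr
  have e : (∑ i ∈ range l, F (x + (i : ℕ))) / l - pm T F
      = (∑ i ∈ range r, F (x + ((q * 2 ^ T + i : ℕ) : ℤ)) - r * pm T F) / l := by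
    rw [hsum, eq_div_iff hl0.ne', sub_mul, div_mul_cancel₀ _ hl0.ne', hlR]; ring
  rw [e, abs_div, abs_of_pos hl0]
  apply div_le_div_of_nonneg_right _ hl0.le
  refine (abs_sub _ _).trans ?_
  have h3 : |(r : ℝ) * pm T F| ≤ r := by
    rw [abs_mul, abs_of_nonneg (Nat.cast_nonneg r)]
    calc (r : ℝ) * |pm T F| ≤ r * 1 := mul_le_mul_of_nonneg_left hpm (Nat.cast_nonneg r)
      _ = r := mul_one _
  linarith

/-- the mean over a window in terms of the odd integers -/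
theorem SA_mean {d : ℤ} {Ψ : ℕ → ℤ → ℝ} (hΨ : ∀ a x, |Ψ a x| ≤ 1) {t k : ℕ} (hkt : k ≤ t) {a b : ℝ}
    (hab : 2 ^ k ≤ b - a) :
    |SA (gT d Ψ t) a b / (b - a)
      - ∑ j ∈ range k, (1 / 2) ^ j * (WS (gT d Ψ (t - j)) (a / 2 ^ j) (b / 2 ^ j) 0 1 0 / (b / 2 ^ j - a / 2 ^ j))|
      ≤ 2 / 2 ^ k := by
  have h1 : (0 : ℝ) < 2 ^ k := by positivity
  have hba : 0 < b - a := by linarith
  rw [SA_split_iter t a b k hkt, add_div, sum_div]
  have h2 : ∀ j ∈ range k, WS (gT d Ψ (t - j)) (a / 2 ^ j) (b / 2 ^ j) 0 1 0 / (b - a)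
      = (1 / 2) ^ j * (WS (gT d Ψ (t - j)) (a / 2 ^ j) (b / 2 ^ j) 0 1 0 / (b / 2 ^ j - a / 2 ^ j)) := by
    intro j _
    rw [← sub_div, one_div, inv_pow]
    field_simp
  rw [sum_congr rfl h2, add_sub_cancel_left, abs_div, abs_of_pos hba]
  have h3 := SA_abs (g := gT d Ψ (t - k)) (fun x => gT_abs hΨ _ x) (a := a / 2 ^ k) (b := b / 2 ^ k)
    (div_le_div_of_nonneg_right (by linarith) h1.le)
  rw [div_le_div_iff₀ hba h1]
  have h4 : |SA (gT d Ψ (t - k)) (a / 2 ^ k) (b / 2 ^ k)| * 2 ^ k ≤ (b / 2 ^ k - a / 2 ^ k + 1) * 2 ^ k :=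
    mul_le_mul_of_nonneg_right h3 h1.le
  have h5 : (b / 2 ^ k - a / 2 ^ k + 1) * 2 ^ k = (b - a) + 2 ^ k := by field_simp
  linarith

/-- FINAL STEP of the window law: all integers from the odd ones, and the mean over a period. -/
theorem tv_fin {d : ℤ} (hd : d % 2 = 1) {Ψ : ℕ → ℤ → ℝ} (hΨ : ∀ a x, |Ψ a x| ≤ 1) {Λ : ℕ}
    (hΨp : ∀ a, Per Λ (Ψ a)) {t k : ℕ} (hkt : k ≤ t) {A E : ℝ} (hA : 1 ≤ A) (hE : 0 ≤ E)
    (hcmp : ∀ j < k, ∀ a b a' b' : ℝ, A ≤ b - a → A ≤ b' - a' →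
      |WS (gT d Ψ (t - j)) a b 0 1 0 / (b - a) - WS (gT d Ψ (t - j)) a' b' 0 1 0 / (b' - a')| ≤ E)
    (x : ℤ) {l : ℕ} (hl : 2 ^ k * A ≤ l) :
    |(∑ i ∈ range l, gT d Ψ t (x + (i : ℕ))) / l - pm (t + Λ) (gT d Ψ t)| ≤ 2 * E + 4 / 2 ^ k := by
  have h2k : (1 : ℝ) ≤ 2 ^ k := one_le_pow₀ (by norm_num)
  have hkA : (2 : ℝ) ^ k ≤ 2 ^ k * A := by nlinarith
  have hl0 : (0 : ℝ) < l := by linarith
  -- the two windows
  have hSA : ∀ (y : ℤ) (L : ℕ), SA (gT d Ψ t) y (y + L) = ∑ i ∈ range L, gT d Ψ t (y + (i : ℕ)) := by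
    intro y L
    unfold SA
    have e1 : ⌈(y : ℝ)⌉ = y := Int.ceil_intCast y
    have e2 : ⌈(y : ℝ) + L⌉ = y + L := by
      have : (y : ℝ) + L = ((y + L : ℤ) : ℝ) := by push_cast; ring
      rw [this, Int.ceil_intCast]
    rw [e1, e2]
    symm
    apply sum_bij' (fun (i : ℕ) _ => y + (i : ℤ)) (fun n _ => (n - y).toNat)
    · intro i hi; rw [mem_range] at hi; rw [mem_Ico]; constructor <;> omega
    · intro n hn; rw [mem_Ico] at hn; rw [mem_range]; omega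
    · intro i _; simp
    · intro n hn; rw [mem_Ico] at hn; rw [Int.toNat_of_nonneg (by linarith)]; ring
    · intro i _; rfl
  have hcomp : ∀ (y : ℤ) (L : ℕ), 2 ^ k * A ≤ L →
      |(∑ i ∈ range l, gT d Ψ t (x + (i : ℕ))) / l - (∑ i ∈ range L, gT d Ψ t (y + (i : ℕ))) / L|
        ≤ 2 * E + 4 / 2 ^ k := by
    intro y L hL
    have hL0 : (0 : ℝ) < L := by linarith
    have h1 := SA_mean (d := d) hΨ hkt (a := (x : ℝ)) (b := x + l) (by linarith)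
    have h2 := SA_mean (d := d) hΨ hkt (a := (y : ℝ)) (b := y + L) (by linarith)
    rw [hSA, add_sub_cancel_left] at h1 h2
    set P := ∑ j ∈ range k, (1 / 2 : ℝ) ^ j * (WS (gT d Ψ (t - j)) ((x : ℝ) / 2 ^ j) ((x + l) / 2 ^ j) 0 1 0
      / ((x + l) / 2 ^ j - x / 2 ^ j)) with hP
    set Q := ∑ j ∈ range k, (1 / 2 : ℝ) ^ j * (WS (gT d Ψ (t - j)) ((y : ℝ) / 2 ^ j) ((y + L) / 2 ^ j) 0 1 0
      / ((y + L) / 2 ^ j - y / 2 ^ j)) with hQ
    have h3 : |P - Q| ≤ 2 * E := by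
      rw [hP, hQ, ← sum_sub_distrib]
      refine (abs_sum_le_sum_abs _ _).trans ?_
      have h4 : ∀ j ∈ range k, |(1 / 2 : ℝ) ^ j * (WS (gT d Ψ (t - j)) ((x : ℝ) / 2 ^ j) ((x + l) / 2 ^ j) 0 1 0
          / ((x + l) / 2 ^ j - x / 2 ^ j)) - (1 / 2 : ℝ) ^ j * (WS (gT d Ψ (t - j)) ((y : ℝ) / 2 ^ j)
          ((y + L) / 2 ^ j) 0 1 0 / ((y + L) / 2 ^ j - y / 2 ^ j))| ≤ (1 / 2 : ℝ) ^ j * E := by
        intro j hj
        rw [mem_range] at hj
        rw [← mul_sub, abs_mul, abs_of_pos (show (0 : ℝ) < (1 / 2) ^ j by positivity)]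
        apply mul_le_mul_of_nonneg_left _ (by positivity)
        have hjk : (2 : ℝ) ^ j ≤ 2 ^ k := pow_le_pow_right₀ (by norm_num) hj.le
        have hwin : ∀ (z : ℤ) (N : ℕ), 2 ^ k * A ≤ N → A ≤ ((z : ℝ) + N) / 2 ^ j - z / 2 ^ j := by
          intro z N hN
          rw [← sub_div, add_sub_cancel_left, le_div_iff₀ (by positivity)]
          have : A * 2 ^ j ≤ A * 2 ^ k := mul_le_mul_of_nonneg_left hjk (by linarith)
          linarith
        exact hcmp j hj _ _ _ _ (hwin x l hl) (hwin y L hL)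
      refine (sum_le_sum h4).trans ?_
      rw [← sum_mul]
      have h5 : ∑ j ∈ range k, (1 / 2 : ℝ) ^ j ≤ 2 := by
        have h6 := geom_sum_eq (show (1 / 2 : ℝ) ≠ 1 by norm_num) k
        rw [h6]
        have h7 : (0 : ℝ) < (1 / 2) ^ k := by positivity
        have h8 : (((1 / 2 : ℝ) ^ k - 1) / (1 / 2 - 1)) = 2 * (1 - (1 / 2) ^ k) := by ring
        rw [h8]; linarith
      exact mul_le_mul_of_nonneg_right h5 hE
    have e : (∑ i ∈ range l, gT d Ψ t (x + (i : ℕ))) / l - (∑ i ∈ range L, gT d Ψ t (y + (i : ℕ))) / L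
        = ((∑ i ∈ range l, gT d Ψ t (x + (i : ℕ))) / l - P) - ((∑ i ∈ range L, gT d Ψ t (y + (i : ℕ))) / L - Q)
          + (P - Q) := by ring
    rw [e]
    refine (abs_add_le _ _).trans ?_
    have h9 := abs_sub ((∑ i ∈ range l, gT d Ψ t (x + (i : ℕ))) / l - P)
      ((∑ i ∈ range L, gT d Ψ t (y + (i : ℕ))) / L - Q)
    have h10 : (4 : ℝ) / 2 ^ k = 2 / 2 ^ k + 2 / 2 ^ k := by ring
    linarith
  -- the long window of a multiple of the period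
  set q : ℕ := ⌈(2 : ℝ) ^ k * A⌉₊ + 1 with hq
  have hqA : 2 ^ k * A ≤ ((q * 2 ^ (t + Λ) : ℕ) : ℝ) := by
    have h1 : 2 ^ k * A ≤ (q : ℝ) := by
      rw [hq]; push_cast
      have := Nat.le_ceil ((2 : ℝ) ^ k * A)
      linarith
    have h2 : (1 : ℝ) ≤ 2 ^ (t + Λ) := one_le_pow₀ (by norm_num)
    push_cast
    nlinarith
  have hfin := hcomp 0 (q * 2 ^ (t + Λ)) hqA
  have hper := gT_per hd hΨp t
  have hex : (∑ i ∈ range (q * 2 ^ (t + Λ)), gT d Ψ t (0 + (i : ℕ))) / ((q * 2 ^ (t + Λ) : ℕ) : ℝ)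
      = pm (t + Λ) (gT d Ψ t) := by
    have hblock : ∀ y : ℤ, ∑ i ∈ range (2 ^ (t + Λ)), gT d Ψ t (y + (i : ℕ)) = 2 ^ (t + Λ) * pm (t + Λ) (gT d Ψ t) := by
      intro y
      have h1 := pm_shift hper y
      unfold pm at h1 ⊢
      rw [mul_div_cancel₀ _ (by positivity)]
      rw [div_left_inj' (by positivity)] at h1
      rw [← h1]
      apply sum_congr rfl; intro i _; rw [add_comm]
    have hblocks : ∀ q : ℕ, ∑ i ∈ range (q * 2 ^ (t + Λ)), gT d Ψ t (0 + (i : ℕ))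
        = q * (2 ^ (t + Λ) * pm (t + Λ) (gT d Ψ t)) := by
      intro q
      induction q with
      | zero => simp
      | succ q ih =>
        rw [Nat.succ_mul, sum_range_add, ih]
        have h1 := hblock (0 + (q * 2 ^ (t + Λ) : ℕ))
        have h2 : ∑ i ∈ range (2 ^ (t + Λ)), gT d Ψ t (0 + ((q * 2 ^ (t + Λ) + i : ℕ) : ℤ))
            = ∑ i ∈ range (2 ^ (t + Λ)), gT d Ψ t (0 + ((q * 2 ^ (t + Λ) : ℕ) : ℤ) + (i : ℕ)) := by
          apply sum_congr rfl; intro i _; congr 1; push_cast; ring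
        rw [h2, h1]; push_cast; ring
    rw [hblocks]
    have hq0 : (0 : ℝ) < q := by rw [hq]; positivity
    push_cast
    field_simp
  rw [hex] at hfin
  exact hfin

end Pool.Agent.KS6_24.LN.SW
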